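import Pool.Agent.TH936.AC.Stmts

/-!
# Project AC, part BAR: the conjugate ideal (helper620)
-/

set_option autoImplicit false

open Complex

namespace Pool.Agent.TH936.AC

open Pool.Agent.W192.HK

namespace Bar

lemma conj_mem {R : Subring ℂ} {ω : ℂ} (h : QP R ω) {z : ℂ} (hz : z ∈ R) :
    (starRingEnd ℂ) z ∈ R := by
  have hω : ω ∈ R := (h.qr.mem ω).2 ⟨0, 1, by simp⟩
  obtain ⟨a, b, hab⟩ := (h.qr.mem (ω * ω)).1 (R.mul_mem hω hω)
  have him := congrArg Complex.im hab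
  simp only [Complex.mul_im, Complex.add_im, Complex.intCast_im, Complex.intCast_re] at him
  have hb : (b : ℝ) = 2 * ω.re := by
    have h0 : ω.im ≠ 0 := h.qr.im.ne'
    have : (b : ℝ) * ω.im = 2 * ω.re * ω.im := by linarith
    exact mul_right_cancel₀ h0 this
  have hc : (starRingEnd ℂ) ω = b - ω := by
    apply Complex.ext
    · simp only [Complex.conj_re, Complex.sub_re, Complex.intCast_re]
      linarith
    · simp
  obtain ⟨x, y, rfl⟩ := (h.qr.mem z).1 hz
  refine (h.qr.mem _).2 ⟨x + y * b, -y, ?_⟩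
  rw [map_add, map_mul, hc, map_intCast, map_intCast]
  push_cast
  ring

/-- complex conjugation -/
noncomputable def cj {R : Subring ℂ} {ω : ℂ} (h : QP R ω) : R ≃+* R where
  toFun z := ⟨(starRingEnd ℂ) z, conj_mem h z.2⟩
  invFun z := ⟨(starRingEnd ℂ) z, conj_mem h z.2⟩
  left_inv z := Subtype.ext (Complex.conj_conj _)
  right_inv z := Subtype.ext (Complex.conj_conj _)
  map_mul' x y := Subtype.ext (by simp)
  map_add' x y := Subtype.ext (by simp)

lemma cj_coe {R : Subring ℂ} {ω : ℂ} (h : QP R ω) (z : R) :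
    ((cj h z : R) : ℂ) = (starRingEnd ℂ) (z : ℂ) := rfl

lemma cj_cj {R : Subring ℂ} {ω : ℂ} (h : QP R ω) (z : R) : cj h (cj h z) = z :=
  Subtype.ext (Complex.conj_conj _)

lemma mem_bar {R : Subring ℂ} {ω : ℂ} (h : QP R ω) (I : Ideal R) (z : R) :
    z ∈ bar I ↔ cj h z ∈ I := by
  constructor
  · intro hz
    have hle : bar I ≤ Ideal.comap (cj h : R →+* R) I := by
      rw [bar, Ideal.span_le]
      rintro x ⟨w, hw, hwx⟩
      have : cj h x = w := Subtype.ext (by rw [cj_coe, hwx])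
      change cj h x ∈ I
      rwa [this]
    exact hle hz
  · intro hz
    exact Ideal.subset_span ⟨_, hz, cj_coe h z⟩

lemma bar_comap {R : Subring ℂ} {ω : ℂ} (h : QP R ω) (I : Ideal R) :
    bar I = Ideal.comap (cj h : R →+* R) I := by
  ext z
  rw [mem_bar h]
  rfl

lemma bar_map {R : Subring ℂ} {ω : ℂ} (h : QP R ω) (I : Ideal R) :
    bar I = Ideal.map (cj h : R →+* R) I := by
  apply le_antisymm
  · intro z hz
    rw [mem_bar h] at hz
    have := Ideal.mem_map_of_mem (cj h : R →+* R) hz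
    change cj h (cj h z) ∈ _ at this
    rwa [cj_cj] at this
  · rw [Ideal.map_le_iff_le_comap]
    intro z hz
    change cj h z ∈ bar I
    rw [mem_bar h, cj_cj]
    exact hz

lemma bar_bar {R : Subring ℂ} {ω : ℂ} (h : QP R ω) (I : Ideal R) : bar (bar I) = I := by
  ext z
  rw [mem_bar h, mem_bar h, cj_cj]

lemma bar_mul {R : Subring ℂ} {ω : ℂ} (h : QP R ω) (I J : Ideal R) :
    bar (I * J) = bar I * bar J := by
  rw [bar_map h, bar_map h, bar_map h, Ideal.map_mul]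

lemma bar_sup {R : Subring ℂ} {ω : ℂ} (h : QP R ω) (I J : Ideal R) :
    bar (I ⊔ J) = bar I ⊔ bar J := by
  rw [bar_map h, bar_map h, bar_map h, Ideal.map_sup]

lemma bar_sp {R : Subring ℂ} {ω : ℂ} (h : QP R ω) (z : R) : bar (sp z) = sp (cj h z) := by
  rw [bar_map h, Ideal.map_span, Set.image_singleton]
  rfl

lemma bar_dvd {R : Subring ℂ} {ω : ℂ} (h : QP R ω) {I J : Ideal R} (hd : I ∣ J) :
    bar I ∣ bar J := by
  obtain ⟨K, rfl⟩ := hd
  exact ⟨bar K, bar_mul h I K⟩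

lemma bar_top {R : Subring ℂ} {ω : ℂ} (h : QP R ω) : bar (⊤ : Ideal R) = ⊤ := by
  rw [bar_comap h, Ideal.comap_top]

lemma bar_cop {R : Subring ℂ} {ω : ℂ} (h : QP R ω) {I J : Ideal R} (hc : IsCoprime I J) :
    IsCoprime (bar I) (bar J) := by
  rw [Ideal.isCoprime_iff_sup_eq] at hc ⊢
  rw [← bar_sup h, hc, bar_top h]

lemma nm_bar {R : Subring ℂ} {ω : ℂ} (h : QP R ω) (I : Ideal R) : nm (bar I) = nm I := by
  unfold nm
  have e : (R ⧸ I) ≃+* (R ⧸ bar I) := Ideal.quotientEquiv I (bar I) (cj h) (bar_map h I)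
  rw [Nat.card_congr e.toEquiv]

lemma mul_bar {R : Subring ℂ} {ω : ℂ} (h1 : H_BASIC) (h : QP R ω) (I : Ideal R) :
    I * bar I = sp ((Nat.card (R ⧸ I) : ℕ) : R) := by
  obtain ⟨-, -, -, -, hn, -⟩ := h1 R ω h.qr
  obtain ⟨α, hα⟩ := (h.pid.principal I).principal
  have hI : I = sp α := hα
  have hnI : ((Nat.card (R ⧸ I) : ℕ) : ℝ) = Complex.normSq (α : ℂ) := by
    have := hn α
    rw [← hI] at this
    exact this
  have hp : α * cj h α = ((Nat.card (R ⧸ I) : ℕ) : R) := by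
    apply Subtype.ext
    have e1 : ((α * cj h α : R) : ℂ) = (Complex.normSq (α : ℂ) : ℂ) := by
      rw [Subring.coe_mul, cj_coe, Complex.mul_conj]
    rw [e1, ← hnI]
    simp
  rw [← hp]
  conv_lhs => rw [hI]
  rw [bar_sp h, Ideal.span_singleton_mul_span_singleton]

end Bar

theorem a_bar (h1 : H_BASIC) : A_BAR := by
  intro R ω h
  refine ⟨fun z => ⟨Bar.cj h z, rfl⟩, fun I z w hw => ?_, Bar.bar_bar h, Bar.bar_mul h,
    Bar.bar_sup h, fun z w hw => ?_, fun m => ?_, Bar.nm_bar h, fun I _ => Bar.mul_bar h1 h I,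
    ?_, Bar.bar_top h, fun P hP => ?_, fun I J => ⟨fun hd => ?_, Bar.bar_dvd h⟩,
    fun I J => ⟨fun hc => ?_, Bar.bar_cop h⟩⟩
  · rw [Bar.mem_bar h]
    have : Bar.cj h z = w := Subtype.ext (by rw [Bar.cj_coe, hw])
    rw [this]
  · rw [Bar.bar_sp h]
    have : Bar.cj h z = w := Subtype.ext (by rw [Bar.cj_coe, hw])
    rw [this]
  · rw [Bar.bar_sp h, map_natCast]
  · rw [Bar.bar_map h, Ideal.map_bot]
  · rw [Bar.bar_comap h]
    exact Ideal.comap_isPrime (Bar.cj h : R →+* R) P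
  · have := Bar.bar_dvd h hd
    rwa [Bar.bar_bar h, Bar.bar_bar h] at this
  · have := Bar.bar_cop h hc
    rwa [Bar.bar_bar h, Bar.bar_bar h] at this

end Pool.Agent.TH936.AC
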