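import Pool.Agent.TH936.AC.Stmts

/-!
Power trick for primitive ideals (project AC; adaptation of Pool/Agent/W240/HK/Count.lean).
-/

set_option autoImplicit false

namespace Pool.Agent.TH936.AC

open Pool.Agent.W192.HK

namespace Count

open Finset

section

variable {R : Subring ℂ}

theorem chi_one {c : Ideal R} {χ : Ideal R → ℂ} (h : RC c χ) : χ 1 = 1 := by
  have h1 : χ 1 ≠ 0 := by
    intro h0
    rcases (h.zero 1).1 h0 with h2 | h2
    · rw [Ideal.one_eq_top] at h2
      exact top_ne_bot h2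
    · exact h2 isCoprime_one_left
  have h2 := h.mul 1 1
  rw [mul_one] at h2
  have h3 : χ 1 * (χ 1 - 1) = 0 := by linear_combination -h2
  rcases mul_eq_zero.1 h3 with h4 | h4
  · exact absurd h4 h1
  · exact sub_eq_zero.1 h4

theorem chi_prod {c : Ideal R} {χ : Ideal R → ℂ} (h : RC c χ) {j : ℕ} (f : Fin j → Ideal R) :
    χ (∏ i, f i) = ∏ i, χ (f i) := by
  classical
  have key : ∀ s : Finset (Fin j), χ (∏ i ∈ s, f i) = ∏ i ∈ s, χ (f i) := by
    intro s
    induction s using Finset.induction_on with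
    | empty => rw [prod_empty, prod_empty]; exact chi_one h
    | insert a s ha ih => rw [prod_insert ha, prod_insert ha, h.mul, ih]
  exact key _

theorem nm_nonneg (I : Ideal R) : 0 ≤ nm I := Nat.cast_nonneg _

theorem nm_prod (hmul : ∀ I J : Ideal R, nm (I * J) = nm I * nm J) (nm1 : nm (1 : Ideal R) = 1)
    {j : ℕ} (f : Fin j → Ideal R) : nm (∏ i, f i) = ∏ i, nm (f i) := by
  classical
  have key : ∀ s : Finset (Fin j), nm (∏ i ∈ s, f i) = ∏ i ∈ s, nm (f i) := by
    intro s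
    induction s using Finset.induction_on with
    | empty => rw [prod_empty, prod_empty]; exact nm1
    | insert a s ha ih => rw [prod_insert ha, prod_insert ha, hmul, ih]
  exact key _

/-- ordered factorizations -/
def Fac (j : ℕ) (K : Ideal R) : Set (Fin j → Ideal R) := {f | ∏ i, f i = K}

theorem fac_step [IsDedekindDomain R] {j : ℕ} {P K : Ideal R} (hP : Prime P) :
    Fac j (P * K) ⊆ (fun x : Fin j × (Fin j → Ideal R) =>
      Function.update x.2 x.1 (P * x.2 x.1)) '' ((Set.univ : Set (Fin j)) ×ˢ Fac j K) := by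
  classical
  intro f hf
  have hf' : ∏ i, f i = P * K := hf
  have hd : P ∣ ∏ i, f i := by rw [hf']; exact dvd_mul_right _ _
  obtain ⟨i, -, hi⟩ := (Prime.dvd_finsetProd_iff hP f).1 hd
  obtain ⟨g, hg⟩ := hi
  refine ⟨(i, Function.update f i g), ⟨Set.mem_univ _, ?_⟩, ?_⟩
  · change ∏ l, Function.update f i g l = K
    rw [Finset.prod_update_of_mem (Finset.mem_univ i)]
    rw [Finset.prod_eq_mul_prod_sdiff_singleton_of_mem (Finset.mem_univ i), hg, mul_assoc] at hf'
    exact mul_left_cancel₀ hP.ne_zero hf'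
  · simp only [Function.update_self, Function.update_idem]
    rw [← hg, Function.update_eq_self]

theorem fac_bound [IsDedekindDomain R] (hmul : ∀ I J : Ideal R, nm (I * J) = nm I * nm J)
    (nm1 : nm (1 : Ideal R) = 1) (hnm : ∀ I : Ideal R, I ≠ ⊥ → 1 ≤ nm I) {j : ℕ} (hj : 1 ≤ j)
    {z : ℝ} (hz : 1 < z) (K : Ideal R) :
    K ≠ 0 → (∀ P : Ideal R, Prime P → P ∣ K → z < nm P) →
      (Fac j K).Finite ∧ ((Fac j K).ncard : ℝ) ≤ (j : ℝ) ^ (Real.log (nm K) / Real.log z) := by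
  classical
  have hlz : 0 < Real.log z := Real.log_pos hz
  have hj1 : (1 : ℝ) ≤ j := by exact_mod_cast hj
  induction K using UniqueFactorizationMonoid.induction_on_prime with
  | h₁ => intro h; exact absurd rfl h
  | h₂ x hx =>
    intro _ _
    have hx1 : x = 1 := by rw [Ideal.one_eq_top]; exact Ideal.isUnit_iff.1 hx
    subst hx1
    have hsub : Fac j (1 : Ideal R) ⊆ {fun _ => (1 : Ideal R)} := by
      intro f hf
      rw [Set.mem_singleton_iff]
      funext i
      have h2 : f i ∣ 1 := by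
        rw [← show ∏ i, f i = 1 from hf]
        exact Finset.dvd_prod_of_mem f (Finset.mem_univ i)
      rw [Ideal.one_eq_top]
      exact Ideal.isUnit_iff.1 (isUnit_of_dvd_one h2)
    have hfin : (Fac j (1 : Ideal R)).Finite := (Set.finite_singleton _).subset hsub
    refine ⟨hfin, ?_⟩
    have h3 : (Fac j (1 : Ideal R)).ncard ≤ 1 :=
      (Set.ncard_le_ncard hsub (Set.finite_singleton _)).trans (Set.ncard_singleton _).le
    rw [nm1, Real.log_one, zero_div, Real.rpow_zero]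
    exact_mod_cast h3
  | h₃ K P hK hP ih =>
    intro _ hr
    obtain ⟨hfin, hcard⟩ := ih hK fun Q hQ hQK => hr Q hQ (hQK.mul_left P)
    have hfin2 : ((Set.univ : Set (Fin j)) ×ˢ Fac j K).Finite := Set.finite_univ.prod hfin
    have hstep := fac_step (j := j) (K := K) hP
    refine ⟨(hfin2.image _).subset hstep, ?_⟩
    have h1 : (Fac j (P * K)).ncard ≤ j * (Fac j K).ncard := by
      refine (Set.ncard_le_ncard hstep (hfin2.image _)).trans
        ((Set.ncard_image_le hfin2).trans ?_)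
      rw [Set.ncard_prod, Set.ncard_univ, Nat.card_eq_fintype_card, Fintype.card_fin]
    have hzP : z < nm P := hr P hP (dvd_mul_right _ _)
    have hK1 : 1 ≤ nm K := hnm K hK
    have hlog : Real.log (nm K) / Real.log z + 1 ≤ Real.log (nm (P * K)) / Real.log z := by
      rw [hmul, Real.log_mul (by linarith) (by linarith), add_div, add_comm]
      gcongr
      rw [le_div_iff₀ hlz, one_mul]
      exact Real.log_le_log (by linarith) hzP.le
    calc ((Fac j (P * K)).ncard : ℝ) ≤ (j : ℝ) * (Fac j K).ncard := by exact_mod_cast h1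
      _ ≤ (j : ℝ) * (j : ℝ) ^ (Real.log (nm K) / Real.log z) := by gcongr
      _ = (j : ℝ) ^ (Real.log (nm K) / Real.log z + 1) := by
          rw [Real.rpow_add (by linarith), Real.rpow_one, mul_comm]
      _ ≤ _ := Real.rpow_le_rpow_of_exponent_le hj1 hlog

/-- the nonzero prime divisors -/
def Prs (c : Ideal R) : Set (Ideal R) := {P | P.IsPrime ∧ P ≠ ⊥ ∧ P ∣ c}

theorem pow_primes [IsDedekindDomain R] {c : Ideal R} (hfin : {J : Ideal R | J ∣ c}.Finite) :
    (2 : ℝ) ^ (Prs c).ncard ≤ ({J : Ideal R | J ∣ c}.ncard : ℝ) := by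
  classical
  have hsub : Prs c ⊆ {J : Ideal R | J ∣ c} := fun P hP => hP.2.2
  have hf : (Prs c).Finite := hfin.subset hsub
  have hpr : ∀ P ∈ hf.toFinset, Prime P := by
    intro P hP
    rw [Set.Finite.mem_toFinset] at hP
    exact Ideal.prime_of_isPrime hP.2.1 hP.1
  have hmaps : ∀ s ∈ hf.toFinset.powerset, (∏ P ∈ s, P) ∈ hfin.toFinset := by
    intro s hs
    rw [Finset.mem_powerset] at hs
    rw [Set.Finite.mem_toFinset]
    refine Finset.prod_primes_dvd c (fun P hP => hpr P (hs hP)) fun P hP => ?_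
    have := hs hP
    rw [Set.Finite.mem_toFinset] at this
    exact this.2.2
  have hsubset : ∀ s ∈ hf.toFinset.powerset, ∀ t ∈ hf.toFinset.powerset,
      (∏ P ∈ s, P) = (∏ P ∈ t, P) → s ⊆ t := by
    intro s hs t ht h P hP
    rw [Finset.mem_powerset] at hs ht
    have h1 : P ∣ ∏ Q ∈ t, Q := by rw [← h]; exact Finset.dvd_prod_of_mem (fun x => x) hP
    obtain ⟨Q, hQ, hPQ⟩ := (Prime.dvd_finsetProd_iff (hpr P (hs hP)) (fun x => x)).1 h1
    have h2 : P = Q := by
      have := (hpr P (hs hP)).associated_of_dvd (hpr Q (ht hQ)) hPQ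
      exact associated_iff_eq.1 this
    rw [h2]
    exact hQ
  have hinj : Set.InjOn (fun s : Finset (Ideal R) => ∏ P ∈ s, P)
      (hf.toFinset.powerset : Set (Finset (Ideal R))) := by
    intro s hs t ht h
    exact Finset.Subset.antisymm (hsubset s hs t ht h) (hsubset t ht s hs h.symm)
  have hcard := Finset.card_le_card_of_injOn _ hmaps hinj
  rw [Finset.card_powerset, ← Set.ncard_eq_toFinset_card _ hf,
    ← Set.ncard_eq_toFinset_card _ hfin] at hcard
  exact_mod_cast hcard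

theorem div_le_fac {c : Ideal R} (hfin : (Fac 2 c).Finite) :
    {J : Ideal R | J ∣ c}.Finite ∧ {J : Ideal R | J ∣ c}.ncard ≤ (Fac 2 c).ncard := by
  have hsub : {J : Ideal R | J ∣ c} ⊆ (fun f : Fin 2 → Ideal R => f 0) '' Fac 2 c := by
    rintro J ⟨J', hJ'⟩
    refine ⟨![J, J'], ?_, rfl⟩
    change ∏ i, ![J, J'] i = c
    rw [Fin.prod_univ_two, hJ']
    rfl
  exact ⟨(hfin.image _).subset hsub,
    (Set.ncard_le_ncard hsub (hfin.image _)).trans (Set.ncard_image_le hfin)⟩

/-- the power trick -/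
theorem power_trick [IsDedekindDomain R] {c₀ : Ideal R} {χ : Ideal R → ℂ} (hχ : RC c₀ χ)
    (hmul : ∀ I J : Ideal R, nm (I * J) = nm I * nm J) (nm1 : nm (1 : Ideal R) = 1)
    {j k : ℕ} {y w D : ℝ} (hy : 0 ≤ y) (hw : 0 ≤ w) (hD : 0 ≤ D) (S S' : Finset (Ideal R))
    (hS : ∀ I ∈ S, Pri I ∧ nm I ≤ y ∧ χ I ≠ 0 ∧ χ I ^ k = 1) (hsub : S' ⊆ S)
    (hcard : (S.card : ℝ) ≤ w * S'.card)
    (hpri : ∀ g : Fin j → Ideal R, (∀ i, g i ∈ S') → Pri (∏ i, g i))
    (hT : {c : Ideal R | Pri c ∧ nm c ≤ y ^ j ∧ χ c ≠ 0 ∧ χ c ^ k = 1}.Finite)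
    (hfib : ∀ g : Fin j → Ideal R, (∀ i, g i ∈ S') → (Fac j (∏ i, g i)).Finite ∧
      ((Fac j (∏ i, g i)).ncard : ℝ) ≤ D) :
    (S.card : ℝ) ^ j ≤ w ^ j * (D * (cntP χ k (y ^ j) : ℝ)) := by
  classical
  obtain ⟨T, hTd⟩ : ∃ T, T = hT.toFinset := ⟨_, rfl⟩
  have hTc : cntP χ k (y ^ j) = T.card := by
    unfold cntP
    rw [Set.ncard_eq_toFinset_card _ hT, hTd]
  have hmaps : ∀ f ∈ Fintype.piFinset (fun _ : Fin j => S'), (∏ i, f i) ∈ T := by
    intro f hf
    rw [Fintype.mem_piFinset] at hf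
    have hf' := fun i => hS (f i) (hsub (hf i))
    rw [hTd, Set.Finite.mem_toFinset]
    refine ⟨hpri f hf, ?_, ?_, ?_⟩
    · rw [nm_prod hmul nm1]
      calc ∏ i, nm (f i) ≤ ∏ _i : Fin j, y :=
            Finset.prod_le_prod (fun i _ => nm_nonneg _) fun i _ => (hf' i).2.1
        _ = y ^ j := by rw [Finset.prod_const, Finset.card_univ, Fintype.card_fin]
    · rw [chi_prod hχ]
      exact Finset.prod_ne_zero_iff.mpr fun i _ => (hf' i).2.2.1
    · rw [chi_prod hχ, ← Finset.prod_pow]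
      exact Finset.prod_eq_one fun i _ => (hf' i).2.2.2
  have hfib' : ∀ K ∈ T, (((Fintype.piFinset (fun _ : Fin j => S')).filter
      (fun f => ∏ i, f i = K)).card : ℝ) ≤ D := by
    intro K _
    rcases Finset.eq_empty_or_nonempty ((Fintype.piFinset (fun _ : Fin j => S')).filter
      (fun f => ∏ i, f i = K)) with h | ⟨g, hg⟩
    · rw [h, Finset.card_empty, Nat.cast_zero]; exact hD
    · rw [mem_filter, Fintype.mem_piFinset] at hg
      obtain ⟨hfin, hle⟩ := hfib g hg.1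
      rw [hg.2] at hfin hle
      refine le_trans ?_ hle
      rw [Set.ncard_eq_toFinset_card _ hfin]
      have : ((Fintype.piFinset (fun _ : Fin j => S')).filter
          (fun f => ∏ i, f i = K)).card ≤ hfin.toFinset.card := by
        refine Finset.card_le_card fun f hf => ?_
        rw [mem_filter] at hf
        rw [Set.Finite.mem_toFinset]
        exact hf.2
      exact_mod_cast this
  have hcardS' : (S'.card : ℝ) ^ j = ((Fintype.piFinset (fun _ : Fin j => S')).card : ℝ) := by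
    rw [Fintype.card_piFinset, Finset.prod_const, Finset.card_univ, Fintype.card_fin]
    push_cast
    rfl
  have h1 : (S'.card : ℝ) ^ j ≤ D * T.card := by
    rw [hcardS', Finset.card_eq_sum_card_fiberwise hmaps]
    push_cast
    calc ∑ K ∈ T, (((Fintype.piFinset (fun _ : Fin j => S')).filter
          (fun f => ∏ i, f i = K)).card : ℝ) ≤ ∑ _K ∈ T, D := Finset.sum_le_sum hfib'
      _ = D * T.card := by rw [Finset.sum_const, nsmul_eq_mul, mul_comm]
  rw [hTc]
  calc (S.card : ℝ) ^ j ≤ (w * S'.card) ^ j := by gcongr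
    _ = w ^ j * (S'.card : ℝ) ^ j := mul_pow _ _ _
    _ ≤ w ^ j * (D * T.card) := by gcongr

end

end Count

open Finset Count in
theorem a_count (h1 : H_BASIC) (h2 : H_CNT) (h3 : H_DIVR) (_h4 : H_FPR) (_h5 : A_BAR)
    (h6 : A_LINE) (h7 : A_ORI) : A_COUNT := by
  classical
  intro R ω hR j hj η hη
  have : IsDedekindDomain R := hR.qr.ded
  have hj0 : (0 : ℝ) < (j : ℝ) := by exact_mod_cast hj
  obtain ⟨C1, hC1, hdiv1⟩ := h3 R ω hR.qr (η / (2 * j)) (by positivity)
  obtain ⟨C2, hC2, hdiv2⟩ := h3 R ω hR.qr (η / (2 * (j : ℝ) ^ 2)) (by positivity)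
  obtain ⟨hfinA, -, -⟩ := h2 R ω hR.qr
  obtain ⟨-, -, -, hmul, -, -, htop, -, -⟩ := h1 R ω hR.qr
  have nm1 : nm (1 : Ideal R) = 1 := by rw [Ideal.one_eq_top]; exact (htop ⊤).2 rfl
  obtain ⟨C, hC, hline⟩ := h6 R ω hR
  refine ⟨C1 ^ j * C2 ^ j * C, by positivity, ?_⟩
  intro q χ hχ d hd k hk y hy
  have hy0 : (0 : ℝ) ≤ y := by linarith
  have hyj : (1 : ℝ) ≤ y ^ j := one_le_pow₀ hy
  have hfinS : {c : Ideal R | Pri c ∧ nm c ≤ y ∧ χ c ≠ 0 ∧ χ c ^ k = 1}.Finite :=
    (hfinA y).subset fun c hc => hc.2.1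
  have hfinT : {c : Ideal R | Pri c ∧ nm c ≤ y ^ j ∧ χ c ≠ 0 ∧ χ c ^ k = 1}.Finite :=
    (hfinA (y ^ j)).subset fun c hc => hc.2.1
  have hScard : cntP χ k y = hfinS.toFinset.card := by
    unfold cntP
    rw [Set.ncard_eq_toFinset_card _ hfinS]
  have hmem : ∀ c ∈ hfinS.toFinset, Pri c ∧ nm c ≤ y ∧ χ c ≠ 0 ∧ χ c ^ k = 1 := by
    intro c hc
    rw [Set.Finite.mem_toFinset] at hc
    exact hc
  obtain ⟨S', hS', hcard, hpri⟩ := h7 R ω hR hfinS.toFinset (C1 * y ^ (η / (2 * j)))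
    (fun c hc => (hmem c hc).1) (by
      intro c hc
      obtain ⟨hp, hn, -, -⟩ := hmem c hc
      obtain ⟨hd1, hd2⟩ := hdiv1 c hp.1
      refine (pow_primes hd1).trans (hd2.trans ?_)
      refine mul_le_mul_of_nonneg_left ?_ hC1.le
      exact Real.rpow_le_rpow (nm_nonneg _) hn (by positivity))
  have key := power_trick (j := j) (k := k) (y := y) (w := C1 * y ^ (η / (2 * j)))
    (D := C2 ^ j * y ^ (η / 2)) hχ.rc hmul nm1 hy0 (by positivity) (by positivity)
    hfinS.toFinset S' hmem hS' hcard (hpri j) hfinT (by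
      intro g hg
      have hK0 : (∏ i, g i) ≠ ⊥ := (hpri j g hg).1
      have hKn : nm (∏ i, g i) ≤ y ^ j := by
        rw [nm_prod hmul nm1]
        calc ∏ i, nm (g i) ≤ ∏ _i : Fin j, y :=
              Finset.prod_le_prod (fun i _ => nm_nonneg _) fun i _ => (hmem _ (hS' (hg i))).2.1
          _ = y ^ j := by rw [Finset.prod_const, Finset.card_univ, Fintype.card_fin]
      obtain ⟨hd1, hd2⟩ := hdiv2 _ hK0
      have hsub : Fac j (∏ i, g i) ⊆
          ((Fintype.piFinset fun _ : Fin j => hd1.toFinset : Finset (Fin j → Ideal R)) :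
            Set (Fin j → Ideal R)) := by
        intro f hf
        rw [Finset.mem_coe, Fintype.mem_piFinset]
        intro i
        rw [Set.Finite.mem_toFinset]
        change f i ∣ ∏ i, g i
        rw [← show ∏ i, f i = ∏ i, g i from hf]
        exact Finset.dvd_prod_of_mem f (Finset.mem_univ i)
      refine ⟨(Finset.finite_toSet _).subset hsub, ?_⟩
      have h8 : (Fac j (∏ i, g i)).ncard ≤ hd1.toFinset.card ^ j := by
        refine (Set.ncard_le_ncard hsub (Finset.finite_toSet _)).trans ?_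
        rw [Set.ncard_coe_finset, Fintype.card_piFinset, Finset.prod_const, Finset.card_univ,
          Fintype.card_fin]
      have h9 : (hd1.toFinset.card : ℝ) ≤ C2 * y ^ (η / (2 * j)) := by
        rw [Set.ncard_eq_toFinset_card _ hd1] at hd2
        refine hd2.trans ?_
        refine mul_le_mul_of_nonneg_left ?_ hC2.le
        calc (nm (∏ i, g i)) ^ (η / (2 * (j : ℝ) ^ 2)) ≤ (y ^ j) ^ (η / (2 * (j : ℝ) ^ 2)) :=
              Real.rpow_le_rpow (nm_nonneg _) hKn (by positivity)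
          _ = y ^ (η / (2 * j)) := by
              rw [← Real.rpow_natCast y j, ← Real.rpow_mul hy0]
              congr 1
              field_simp
      calc ((Fac j (∏ i, g i)).ncard : ℝ) ≤ (hd1.toFinset.card : ℝ) ^ j := by exact_mod_cast h8
        _ ≤ (C2 * y ^ (η / (2 * j))) ^ j := by gcongr
        _ = C2 ^ j * y ^ (η / 2) := by
            rw [mul_pow, ← Real.rpow_natCast (y ^ (η / (2 * j))) j, ← Real.rpow_mul hy0]
            congr 2
            field_simp)
  rw [hScard]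
  refine key.trans ?_
  have hl := hline q χ hχ d hd k hk (y ^ j) hyj
  have e1 : (C1 * y ^ (η / (2 * j))) ^ j = C1 ^ j * y ^ (η / 2) := by
    rw [mul_pow, ← Real.rpow_natCast (y ^ (η / (2 * j))) j, ← Real.rpow_mul hy0]
    congr 2
    field_simp
  have e2 : y ^ (η / 2) * y ^ (η / 2) = y ^ η := by
    rw [← Real.rpow_add (by linarith)]
    congr 1
    ring
  rw [e1]
  calc C1 ^ j * y ^ (η / 2) * (C2 ^ j * y ^ (η / 2) * (cntP χ k (y ^ j) : ℝ))
      ≤ C1 ^ j * y ^ (η / 2) * (C2 ^ j * y ^ (η / 2) *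
        (C * (1 + y ^ j / q) * (q * k / d))) := by gcongr
    _ = C1 ^ j * C2 ^ j * C * (y ^ (η / 2) * y ^ (η / 2)) * (y ^ j / q + 1) * (q * k / d) := by
        ring
    _ = _ := by rw [e2]

open Finset Count in
theorem a_rcount (h1 : H_BASIC) (h2 : H_CNT) (_h4 : H_FPR) (_h5 : A_BAR) (h6 : A_LINE)
    (h7 : A_ORI) : A_RCOUNT := by
  classical
  intro R ω hR
  have : IsDedekindDomain R := hR.qr.ded
  obtain ⟨hfinA, -, -⟩ := h2 R ω hR.qr
  obtain ⟨-, -, hnm, hmul, -, -, htop, -, -⟩ := h1 R ω hR.qr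
  have nm1 : nm (1 : Ideal R) = 1 := by rw [Ideal.one_eq_top]; exact (htop ⊤).2 rfl
  obtain ⟨C, hC, hline⟩ := h6 R ω hR
  refine ⟨2 * C, by positivity, ?_⟩
  intro q χ hχ d hd k hk z y j hz hzy hj hyq
  have hj0 : (0 : ℝ) < (j : ℝ) := by exact_mod_cast hj
  have hj1 : (1 : ℝ) ≤ (j : ℝ) := by exact_mod_cast hj
  have hz1 : 1 < z := by linarith
  have hy1 : 1 ≤ y := by linarith
  have hy0 : (0 : ℝ) ≤ y := by linarith
  have hyj : (1 : ℝ) ≤ y ^ j := one_le_pow₀ hy1
  have hlz : 0 < Real.log z := Real.log_pos hz1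
  have hfinS : {c : Ideal R | Pri c ∧ Rgh z c ∧ nm c ≤ y ∧ χ c ≠ 0 ∧ χ c ^ k = 1}.Finite :=
    (hfinA y).subset fun c hc => hc.2.2.1
  have hfinT : {c : Ideal R | Pri c ∧ nm c ≤ y ^ j ∧ χ c ≠ 0 ∧ χ c ^ k = 1}.Finite :=
    (hfinA (y ^ j)).subset fun c hc => hc.2.1
  have hScard : cntR χ z k y = hfinS.toFinset.card := by
    unfold cntR
    rw [Set.ncard_eq_toFinset_card _ hfinS]
  have hmem : ∀ c ∈ hfinS.toFinset, Pri c ∧ Rgh z c ∧ nm c ≤ y ∧ χ c ≠ 0 ∧ χ c ^ k = 1 := by
    intro c hc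
    rw [Set.Finite.mem_toFinset] at hc
    exact hc
  have hrgh : ∀ c : Ideal R, Rgh z c → ∀ P : Ideal R, Prime P → P ∣ c → z < nm P :=
    fun c hc P hP hd => hc P (Ideal.isPrime_of_prime hP) hP.ne_zero hd
  obtain ⟨S', hS', hcard, hpri⟩ := h7 R ω hR hfinS.toFinset
    ((2 : ℝ) ^ (Real.log y / Real.log z)) (fun c hc => (hmem c hc).1) (by
      intro c hc
      obtain ⟨hp, hr, hn, -, -⟩ := hmem c hc
      obtain ⟨hf1, hf2⟩ := fac_bound hmul nm1 hnm (j := 2) (by norm_num) hz1 c hp.1 (hrgh c hr)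
      obtain ⟨hd1, hd2⟩ := div_le_fac hf1
      refine (pow_primes hd1).trans ?_
      have hd3 : ({J : Ideal R | J ∣ c}.ncard : ℝ) ≤ (Fac 2 c).ncard := by exact_mod_cast hd2
      refine hd3.trans (hf2.trans ?_)
      have hc1 := hnm c hp.1
      have : Real.log (nm c) / Real.log z ≤ Real.log y / Real.log z := by
        gcongr
      push_cast
      exact Real.rpow_le_rpow_of_exponent_le (by norm_num) this)
  have hmem' : ∀ c ∈ hfinS.toFinset, Pri c ∧ nm c ≤ y ∧ χ c ≠ 0 ∧ χ c ^ k = 1 :=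
    fun c hc => ⟨(hmem c hc).1, (hmem c hc).2.2⟩
  have key := power_trick (j := j) (k := k) (y := y) (w := (2 : ℝ) ^ (Real.log y / Real.log z))
    (D := (j : ℝ) ^ ((j : ℝ) * Real.log y / Real.log z)) hχ.rc hmul nm1 hy0 (by positivity)
    (by positivity) hfinS.toFinset S' hmem' hS' hcard (hpri j) hfinT (by
      intro g hg
      have hK0 : (∏ i, g i) ≠ ⊥ := (hpri j g hg).1
      have hKn : nm (∏ i, g i) ≤ y ^ j := by
        rw [nm_prod hmul nm1]
        calc ∏ i, nm (g i) ≤ ∏ _i : Fin j, y :=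
              Finset.prod_le_prod (fun i _ => nm_nonneg _) fun i _ => (hmem' _ (hS' (hg i))).2.1
          _ = y ^ j := by rw [Finset.prod_const, Finset.card_univ, Fintype.card_fin]
      have hKr : ∀ P : Ideal R, Prime P → P ∣ ∏ i, g i → z < nm P := by
        intro P hP hd
        obtain ⟨i, -, hi⟩ := (Prime.dvd_finsetProd_iff hP g).1 hd
        exact hrgh _ (hmem _ (hS' (hg i))).2.1 P hP hi
      obtain ⟨hf1, hf2⟩ := fac_bound hmul nm1 hnm (j := j) hj hz1 _ hK0 hKr
      refine ⟨hf1, hf2.trans ?_⟩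
      have hc1 := hnm _ hK0
      refine Real.rpow_le_rpow_of_exponent_le hj1 ?_
      have : Real.log (nm (∏ i, g i)) ≤ (j : ℝ) * Real.log y := by
        rw [← Real.log_pow]
        exact Real.log_le_log (by linarith) hKn
      gcongr)
  rw [hScard]
  refine key.trans ?_
  have hq0 : (0 : ℝ) < q := lt_of_lt_of_le (by linarith) hyq
  have hl := hline q χ hχ d hd k hk (y ^ j) hyj
  have hl2 : (cntP χ k (y ^ j) : ℝ) ≤ 2 * C * (q * k / d) := by
    refine hl.trans ?_
    have h8 : y ^ j / q ≤ 1 := (div_le_one hq0).2 hyq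
    have h9 : C * (1 + y ^ j / q) ≤ 2 * C := by nlinarith
    have h10 : (0 : ℝ) ≤ q * k / d := by positivity
    exact mul_le_mul_of_nonneg_right h9 h10
  have e1 : ((2 : ℝ) ^ (Real.log y / Real.log z)) ^ j =
      (2 : ℝ) ^ ((j : ℝ) * Real.log y / Real.log z) := by
    rw [← Real.rpow_natCast, ← Real.rpow_mul (by norm_num)]
    congr 1
    ring
  rw [e1]
  calc (2 : ℝ) ^ ((j : ℝ) * Real.log y / Real.log z) *
        ((j : ℝ) ^ ((j : ℝ) * Real.log y / Real.log z) * (cntP χ k (y ^ j) : ℝ))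
      ≤ (2 : ℝ) ^ ((j : ℝ) * Real.log y / Real.log z) *
        ((j : ℝ) ^ ((j : ℝ) * Real.log y / Real.log z) * (2 * C * (q * k / d))) := by gcongr
    _ = 2 * C * ((2 : ℝ) ^ ((j : ℝ) * Real.log y / Real.log z) *
        (j : ℝ) ^ ((j : ℝ) * Real.log y / Real.log z)) * (q * k / d) := by ring
    _ = _ := by rw [Real.mul_rpow (by norm_num) (by positivity)]

end Pool.Agent.TH936.AC
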