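import Pool.Agent.TH936.AC.Stmts2

/-!
# Project AC: the number of ring class characters of given order
-/

set_option autoImplicit false

open Complex

namespace Pool.Agent.TH936.AC

open Pool.Agent.W192.HK

namespace Cyc

variable {R : Subring ℂ} {ω : ℂ}

theorem int_mem {Q : Ideal R} (hQ : Q ≠ ⊤) {q : ℕ} (hq : q.Prime) (hqQ : (q : R) ∈ Q) {v : ℤ}
    (hv : (v : R) ∈ Q) : (q : ℤ) ∣ v := by
  by_contra hnd
  have hcop : IsCoprime (q : ℤ) v :=
    (Prime.coprime_iff_not_dvd (Nat.prime_iff_prime_int.1 hq)).2 hnd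
  obtain ⟨a, b, hab⟩ := hcop
  apply hQ
  rw [Ideal.eq_top_iff_one]
  have h : ((a * q + b * v : ℤ) : R) = 1 := by rw [hab]; simp
  rw [← h]
  push_cast
  exact Q.add_mem (Q.mul_mem_left _ hqQ) (Q.mul_mem_left _ hv)

/-- the elements prime to `q` -/
def MM (R : Subring ℂ) (q : ℕ) : Submonoid R where
  carrier := {α | IsCoprime (sp α) (sp (q : R))}
  one_mem' := by
    show IsCoprime (sp (1 : R)) (sp (q : R))
    rw [show sp (1 : R) = 1 by simp [Ideal.one_eq_top]]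
    exact isCoprime_one_left
  mul_mem' := by
    intro a b ha hb
    show IsCoprime (sp (a * b)) (sp (q : R))
    rw [show sp (a * b) = sp a * sp b from (Ideal.span_singleton_mul_span_singleton a b).symm]
    exact IsCoprime.mul_left ha hb

theorem mem_MM {q : ℕ} {α : R} : α ∈ MM R q ↔ IsCoprime (sp α) (sp (q : R)) := Iff.rfl

theorem not_mem {Q : Ideal R} (hQ : Q ≠ ⊤) {q : ℕ} (hqQ : (q : R) ∈ Q) {α : R}
    (hα : α ∈ MM R q) : α ∉ Q := by
  intro h
  rw [mem_MM, Ideal.isCoprime_iff_sup_eq] at hα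
  apply hQ
  rw [eq_top_iff, ← hα]
  apply sup_le
  · rwa [Ideal.span_singleton_le_iff_mem]
  · rwa [Ideal.span_singleton_le_iff_mem]

theorem chi_mul {q : ℕ} {χ : Ideal R → ℂ} (h : RG q χ) (α β : R) :
    χ (sp (α * β)) = χ (sp α) * χ (sp β) := by
  rw [show sp (α * β) = sp α * sp β from (Ideal.span_singleton_mul_span_singleton α β).symm]
  exact h.rc.mul _ _

theorem chi_ne {Q : Ideal R} (hQ : Q ≠ ⊤) {q : ℕ} (hqQ : (q : R) ∈ Q) {χ : Ideal R → ℂ}
    (h : RG q χ) {α : R} (hα : α ∈ MM R q) : χ (sp α) ≠ 0 := by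
  intro h0
  rcases (h.rc.zero _).1 h0 with h1 | h1
  · have h2 : α = 0 := by rwa [Ideal.span_singleton_eq_bot] at h1
    apply not_mem hQ hqQ hα
    rw [h2]
    exact Q.zero_mem
  · exact h1 hα

/-- an element congruent to an integer -/
theorem chi_int (h2 : H_FPR) (hR : QP R ω) {Q : Ideal R} (hQ : Q ≠ ⊤) {q : ℕ} (hqQ : (q : R) ∈ Q)
    {χ : Ideal R → ℂ} (h : RG q χ) {z : R} (hz : z ∈ MM R q) {u : ℤ}
    (hu : z - (u : R) ∈ sp (q : R)) : χ (sp z) = 1 := by
  have hz0 : z ∉ Q := not_mem hQ hqQ hz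
  have hle : sp (q : R) ≤ Q := by rwa [Ideal.span_singleton_le_iff_mem]
  have hu0 : (u : R) ∉ Q := by
    intro h0
    apply hz0
    have := Q.add_mem (hle hu) h0
    simpa using this
  have hzne : z ≠ 0 := by
    rintro rfl
    exact hz0 Q.zero_mem
  have hune : (u : R) ≠ 0 := by
    intro h0
    rw [h0] at hu0
    exact hu0 Q.zero_mem
  have h3 := (h2 R ω hR.qr (sp (q : R)) χ h.rc).1 z (u : R) hzne hune hu
  rw [h3]
  have h4 : sp (u : R) = sp ((u.natAbs : ℕ) : R) := by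
    rcases Int.natAbs_eq u with h5 | h5
    · rw [h5]
      simp
    · have h6 : (u : R) = -((u.natAbs : ℕ) : R) := by
        calc (u : R) = ((-(u.natAbs : ℤ) : ℤ) : R) := congrArg _ h5
          _ = _ := by rw [Int.cast_neg, Int.cast_natCast]
      rw [h6]
      exact Ideal.span_singleton_neg _
  rw [h4]
  apply h.int
  have h7 : ¬ q ∣ u.natAbs := by
    intro h8
    apply hu0
    have h9 : (q : ℤ) ∣ u := Int.natCast_dvd.2 h8
    obtain ⟨k, hk⟩ := h9
    rw [hk]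
    push_cast
    exact Q.mul_mem_right _ hqQ
  exact ((Nat.Prime.coprime_iff_not_dvd h.prime).2 h7).symm

/-- the main point -/
theorem key (h1 : H_BASIC) (h2 : H_FPR) (h3 : A_BAR) (hR : QP R ω) {Q : Ideal R} (hQ : Q.IsPrime)
    {q : ℕ} (hqQ : (q : R) ∈ Q) (σ : R →+* R)
    (hσ : ∀ z : R, ((σ z : R) : ℂ) = (starRingEnd ℂ) (z : ℂ)) (w : R) (hw : (w : ℂ) = ω)
    (hδ : w - σ w ∉ Q) {χ : Ideal R → ℂ} (h : RG q χ) {α β : R} (hα : α ∈ MM R q)
    (hβ : β ∈ MM R q) (hαβ : α * σ β - β * σ α ∈ Q) : χ (sp α) = χ (sp β) := by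
  have hQ' := hQ.ne_top
  have hσM : ∀ z ∈ MM R q, σ z ∈ MM R q := by
    intro z hz
    obtain ⟨-, -, -, -, -, b6, b7, -, -, -, -, -, -, b14⟩ := h3 R ω hR
    rw [mem_MM, ← b6 z (σ z) (hσ z), ← b7 q, b14]
    exact hz
  have hσσ : ∀ z : R, σ (σ z) = z := by
    intro z
    apply Subtype.ext
    rw [hσ, hσ]
    simp
  have e1 : χ (sp (α * σ β)) = 1 := by
    obtain ⟨u, v, huv⟩ := (hR.qr.mem (α * σ β : R)).1 (α * σ β : R).2
    have hz : α * σ β = (u : R) + (v : R) * w := by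
      apply Subtype.ext
      rw [huv]
      push_cast
      rw [hw]
    have hz' : β * σ α = (u : R) + (v : R) * σ w := by
      have := congrArg σ hz
      rw [map_mul, hσσ, map_add, map_mul, map_intCast, map_intCast] at this
      rw [← this]
      ring
    rw [hz, hz'] at hαβ
    have h4 : (v : R) * (w - σ w) ∈ Q := by
      have : (v : R) * (w - σ w) = (u : R) + (v : R) * w - ((u : R) + (v : R) * σ w) := by ring
      rw [this]
      exact hαβ
    have h5 : (v : R) ∈ Q := (hQ.mem_or_mem h4).resolve_right hδ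
    obtain ⟨k, hk⟩ := int_mem hQ' h.prime hqQ h5
    refine chi_int h2 hR hQ' hqQ h (z := α * σ β) ((MM R q).mul_mem hα (hσM _ hβ)) (u := u) ?_
    rw [hz, Ideal.mem_span_singleton]
    refine ⟨(k : R) * w, ?_⟩
    rw [hk]
    push_cast
    ring
  have e2 : χ (sp (β * σ β)) = 1 := by
    obtain ⟨n, hn⟩ := (h1 R ω hR.qr).2.2.2.2.2.2.2.1 β
    have h6 : β * σ β = ((n : ℤ) : R) := by
      apply Subtype.ext
      push_cast
      rw [hσ, Complex.mul_conj, hn]
      simp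
    refine chi_int h2 hR hQ' hqQ h (z := β * σ β) ((MM R q).mul_mem hβ (hσM _ hβ)) (u := n) ?_
    rw [h6, sub_self]
    exact Ideal.zero_mem _
  rw [chi_mul h] at e1 e2
  have h7 : χ (sp (σ β)) ≠ 0 := chi_ne hQ' hqQ h (hσM _ hβ)
  exact mul_right_cancel₀ h7 (e1.trans e2.symm)

theorem od_dvd {χ : Ideal R → ℂ} {d n : ℕ} (h : Od χ d) (hn : ∀ I : Ideal R, χ I ≠ 0 → χ I ^ n = 1) :
    d ∣ n := by
  by_contra hnd
  have hr : 0 < n % d := Nat.pos_of_ne_zero fun h0 => hnd (Nat.dvd_of_mod_eq_zero h0)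
  have h2 := h.least (n % d) hr fun I hI => by
    have h3 := hn I hI
    rw [← Nat.div_add_mod n d, pow_add, pow_mul, h.pow I hI, one_pow, one_mul] at h3
    exact h3
  exact absurd (Nat.mod_lt n h.pos) (by omega)

end Cyc

open Cyc in
theorem a_cyc (h1 : H_BASIC) (h2 : H_FPR) (h3 : A_BAR) : A_CYC := by
  intro R ω hR
  classical
  have hpid := hR.pid
  have hded := hR.qr.ded
  obtain ⟨a1, a2, a3, a4, a5, a6, a7, a8, a9⟩ := h1 R ω hR.qr
  obtain ⟨b1, -⟩ := h3 R ω hR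
  have hconj : ∀ z ∈ R, (starRingEnd ℂ) z ∈ R := by
    intro z hz
    obtain ⟨w, hw⟩ := b1 ⟨z, hz⟩
    have := w.2
    rwa [hw] at this
  let σ : R →+* R := (starRingEnd ℂ).restrict R R hconj
  have hσ : ∀ z : R, ((σ z : R) : ℂ) = (starRingEnd ℂ) (z : ℂ) := fun z => rfl
  have hωR : ω ∈ R := (hR.qr.mem ω).2 ⟨0, 1, by push_cast; ring⟩
  let w : R := ⟨ω, hωR⟩
  obtain ⟨D, hD⟩ := a8 (w - σ w)
  have hD0 : D ≠ 0 := by
    rintro rfl
    have h4 : ((w - σ w : R) : ℂ) = 0 := by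
      rw [← Complex.normSq_eq_zero, hD]
      simp
    have h5 : ω - (starRingEnd ℂ) ω = 0 := h4
    have h6 := congrArg Complex.im h5
    simp at h6
    have := hR.qr.im
    linarith
  refine ⟨D + 1, fun q hq hqD => ?_⟩
  have hqtop : sp (q : R) ≠ ⊤ := by
    intro h
    have h4 := (a7 (sp (q : R))).2 h
    rw [a5] at h4
    have h5 : Complex.normSq (((q : R) : ℂ)) = (q : ℝ) * q := by
      push_cast
      rw [Complex.normSq_natCast]
    rw [h5] at h4
    have h6 : (2 : ℝ) ≤ q := by exact_mod_cast hq.two_le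
    nlinarith
  obtain ⟨Q, hQm, hqle⟩ := Ideal.exists_le_maximal _ hqtop
  have hqQ : (q : R) ∈ Q := (Ideal.span_singleton_le_iff_mem Q).1 hqle
  have hQp : Q.IsPrime := hQm.isPrime
  have hQt : Q ≠ ⊤ := hQp.ne_top
  have hq0 : (q : R) ≠ 0 := by
    exact_mod_cast hq.ne_zero
  have hspq0 : sp (q : R) ≠ ⊥ := by
    rw [Ne, Ideal.span_singleton_eq_bot]
    exact hq0
  have hQb : Q ≠ ⊥ := by
    intro h
    rw [h, Ideal.mem_bot] at hqQ
    exact hq0 hqQ
  have hfin : Finite (R ⧸ Q) := a1 Q hQb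
  have hdom : IsDomain (R ⧸ Q) := Ideal.Quotient.isDomain Q
  have hδ : w - σ w ∉ Q := by
    intro h
    have h4 : ((D : ℤ) : R) ∈ Q := by
      have h5 : ((D : ℤ) : R) = (w - σ w) * σ (w - σ w) := by
        apply Subtype.ext
        show (((D : ℤ) : R) : ℂ) = ((w - σ w : R) : ℂ) * ((σ (w - σ w) : R) : ℂ)
        rw [hσ, Complex.mul_conj, hD]
        simp
      rw [h5]
      exact Q.mul_mem_right _ h
    have h6 := int_mem hQt hq hqQ h4
    have h7 := Nat.le_of_dvd (Nat.pos_of_ne_zero hD0) (Int.natCast_dvd_natCast.1 h6)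
    omega
  have hσM : ∀ z ∈ MM R q, σ z ∈ MM R q := by
    intro z hz
    obtain ⟨-, -, -, -, -, b6, b7, -, -, -, -, -, -, b14⟩ := h3 R ω hR
    rw [mem_MM, ← b6 z (σ z) (hσ z), ← b7 q, b14]
    exact hz
  have hunit : ∀ z : R, z ∉ Q → IsUnit (Ideal.Quotient.mk Q z) := by
    intro z hz
    have hfld := (Ideal.Quotient.maximal_ideal_iff_isField_quotient Q).1 hQm
    have hne : Ideal.Quotient.mk Q z ≠ 0 := by
      rw [Ne, Ideal.Quotient.eq_zero_iff_mem]
      exact hz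
    obtain ⟨y, hy⟩ := hfld.mul_inv_cancel hne
    exact IsUnit.of_mul_eq_one y hy
  let U : MM R q →* (R ⧸ Q)ˣ := IsUnit.liftRight
    ((Ideal.Quotient.mk Q : R →* R ⧸ Q).comp (MM R q).subtype)
    (fun z => hunit z.1 (not_mem hQt hqQ z.2))
  let V : MM R q →* (R ⧸ Q)ˣ := IsUnit.liftRight
    (((Ideal.Quotient.mk Q : R →* R ⧸ Q).comp (σ : R →* R)).comp (MM R q).subtype)
    (fun z => hunit (σ z.1) (not_mem hQt hqQ (hσM _ z.2)))
  let φ : MM R q →* (R ⧸ Q)ˣ :=
    { toFun := fun a => U a * (V a)⁻¹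
      map_one' := by rw [map_one, map_one, inv_one, mul_one]
      map_mul' := fun a b => by
        rw [map_mul, map_mul, mul_inv_rev, mul_comm (V b)⁻¹]
        exact mul_mul_mul_comm (U a) (U b) (V a)⁻¹ (V b)⁻¹ }
  have hφ : ∀ a b : MM R q, φ a = φ b → (a : R) * σ b - (b : R) * σ a ∈ Q := by
    intro a b hab
    have h4 : U a * (V a)⁻¹ = U b * (V b)⁻¹ := hab
    have h4' : U a * V b = U b * V a := by
      calc U a * V b = (U a * (V a)⁻¹) * (V a * V b) := by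
            rw [mul_assoc, inv_mul_cancel_left]
        _ = (U b * (V b)⁻¹) * (V b * V a) := by rw [h4, mul_comm (V a) (V b)]
        _ = U b * V a := by rw [mul_assoc, inv_mul_cancel_left]
    have h5 := congrArg Units.val h4'
    have h6 : Ideal.Quotient.mk Q (a : R) * Ideal.Quotient.mk Q (σ b) =
        Ideal.Quotient.mk Q (b : R) * Ideal.Quotient.mk Q (σ a) := h5
    rw [← map_mul, ← map_mul, Ideal.Quotient.eq] at h6
    exact h6
  have hkey : ∀ χ : Ideal R → ℂ, RG q χ → ∀ a b : MM R q, φ a = φ b →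
      χ (sp (a : R)) = χ (sp (b : R)) := by
    intro χ hχ a b hab
    exact key h1 h2 h3 hR hQp hqQ σ hσ w rfl hδ hχ a.2 b.2 (hφ a b hab)
  have hpow : ∀ χ : Ideal R → ℂ, RG q χ → ∀ (a : R) (k : ℕ), χ (sp (a ^ k)) = χ (sp a) ^ k := by
    intro χ hχ a k
    induction k with
    | zero =>
      rw [pow_zero, pow_zero]
      have : sp (1 : R) = ⊤ := by simp
      rw [this]
      exact (h2 R ω hR.qr (sp (q : R)) χ hχ.rc).2.2.1
    | succ k ih => rw [pow_succ, pow_succ, chi_mul hχ, ih]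
  have hfinu : Finite (R ⧸ Q)ˣ := inferInstance
  refine ⟨Nat.card (R ⧸ Q)ˣ, Nat.card_pos, ?_, ?_⟩
  · have h4 : Nat.card (R ⧸ Q)ˣ ≤ Nat.card (R ⧸ Q) :=
      Nat.card_le_card_of_injective Units.val Units.val_injective
    have h5 : nm Q ≤ nm (sp (q : R)) := a6 _ _ hspq0 (Ideal.dvd_iff_le.2 hqle)
    rw [a5] at h5
    have h6 : Complex.normSq (((q : R) : ℂ)) = (q : ℝ) ^ 2 := by
      push_cast
      rw [Complex.normSq_natCast, sq]
    rw [h6] at h5
    have h7 : (Nat.card (R ⧸ Q) : ℝ) ≤ ((q ^ 2 : ℕ) : ℝ) := by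
      push_cast
      exact h5
    exact h4.trans (by exact_mod_cast h7)
  -- the generator
  let H : Subgroup (R ⧸ Q)ˣ :=
    { carrier := {x | ∃ a : MM R q, φ a = x}
      one_mem' := ⟨1, map_one φ⟩
      mul_mem' := by
        rintro x y ⟨a, rfl⟩ ⟨b, rfl⟩
        exact ⟨a * b, map_mul φ a b⟩
      inv_mem' := by
        rintro x ⟨a, rfl⟩
        refine ⟨a ^ (Nat.card (R ⧸ Q)ˣ - 1), ?_⟩
        rw [map_pow]
        apply eq_inv_of_mul_eq_one_left
        rw [← pow_succ, Nat.sub_add_cancel Nat.card_pos]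
        exact pow_card_eq_one' }
  have hcyc : IsCyclic H := inferInstance
  obtain ⟨g, hg⟩ := hcyc.exists_generator
  obtain ⟨ag, hag⟩ := g.2
  have hgen : ∀ χ : Ideal R → ℂ, RG q χ → ∀ a : MM R q, ∃ k : ℕ, ∀ χ' : Ideal R → ℂ, RG q χ' →
      χ' (sp (a : R)) = χ' (sp (ag : R)) ^ k := by
    intro χ _ a
    have h4 : (⟨φ a, ⟨a, rfl⟩⟩ : H) ∈ Subgroup.zpowers g := hg _
    rw [← mem_powers_iff_mem_zpowers] at h4
    obtain ⟨k, hk⟩ := h4
    refine ⟨k, fun χ' hχ' => ?_⟩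
    have h5 : φ (ag ^ k) = φ a := by
      rw [map_pow, hag]
      exact congrArg Subtype.val hk
    have h6 := hkey χ' hχ' (ag ^ k) a h5
    rw [← h6, ← hpow χ' hχ']
    rfl
  intro m hm
  have hinj : Set.InjOn (fun χ : Ideal R → ℂ => χ (sp (ag : R))) (rcc (R := R) q m) := by
    intro χ hχ χ' hχ' hee
    obtain ⟨-, c1, -⟩ := hχ
    obtain ⟨-, c2, -⟩ := hχ'
    funext I
    obtain ⟨a, ha⟩ : ∃ a : R, I = sp a := by
      obtain ⟨a, ha⟩ := (hpid.principal I).principal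
      exact ⟨a, ha⟩
    by_cases hI : I = ⊥ ∨ ¬ IsCoprime I (sp (q : R))
    · rw [(c1.rc.zero I).2 hI, (c2.rc.zero I).2 hI]
    · push Not at hI
      have haM : a ∈ MM R q := by
        rw [mem_MM, ← ha]
        exact hI.2
      obtain ⟨k, hk⟩ := hgen χ c1 ⟨a, haM⟩
      rw [ha]
      have e1 := hk χ c1
      have e2 := hk χ' c2
      have hee' : χ (sp (ag : R)) = χ' (sp (ag : R)) := hee
      rw [hee'] at e1
      exact e1.trans e2.symm
  have hmaps : Set.MapsTo (fun χ : Ideal R → ℂ => χ (sp (ag : R))) (rcc (R := R) q m)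
      (Polynomial.nthRootsFinset m (1 : ℂ) : Set ℂ) := by
    intro χ hχ
    obtain ⟨-, c1, c2⟩ := hχ
    simp only [Finset.mem_coe]
    rw [Polynomial.mem_nthRootsFinset hm]
    exact c2.pow _ (chi_ne hQt hqQ c1 ag.2)
  refine ⟨?_, ?_, ?_⟩
  · exact Set.Finite.of_finite_image
      ((Finset.finite_toSet _).subset (Set.image_subset_iff.2 hmaps)) hinj
  · refine (Set.ncard_le_ncard_of_injOn _ hmaps hinj (Finset.finite_toSet _)).trans ?_
    rw [Set.ncard_coe_finset]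
    exact (Multiset.toFinset_card_le _).trans (Polynomial.card_nthRoots m 1)
  · rintro χ ⟨-, c1, c2⟩
    apply od_dvd c2
    intro I hI
    obtain ⟨a, ha⟩ : ∃ a : R, I = sp a := by
      obtain ⟨a, ha⟩ := (hpid.principal I).principal
      exact ⟨a, ha⟩
    have hI' : ¬ (I = ⊥ ∨ ¬ IsCoprime I (sp (q : R))) := fun h => hI ((c1.rc.zero I).2 h)
    push Not at hI'
    have haM : a ∈ MM R q := by
      rw [mem_MM, ← ha]
      exact hI'.2
    have h4 : φ ((⟨a, haM⟩ : MM R q) ^ (Nat.card (R ⧸ Q)ˣ)) = φ 1 := by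
      rw [map_pow, map_one]
      exact pow_card_eq_one'
    have h5 := hkey χ c1 _ _ h4
    have h6 : χ (sp (a ^ (Nat.card (R ⧸ Q)ˣ))) = χ (sp (1 : R)) := h5
    rw [hpow χ c1] at h6
    rw [ha, h6]
    have := hpow χ c1 (1 : R) 0
    rw [pow_zero, pow_zero] at this
    exact this

end Pool.Agent.TH936.AC
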