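import Pool.Agent.TH936.AC.Stmts

/-! # Project AC, part DEC -/

set_option autoImplicit false

open Complex

namespace Pool.Agent.TH936.AC

open Pool.Agent.W192.HK

namespace Dec

lemma nm_sp_nat (h1 : H_BASIC) {R : Subring ℂ} {ω : ℂ} (hR : QP R ω) (m : ℕ) :
    nm (sp (m : R)) = (m : ℝ) ^ 2 := by
  obtain ⟨-, -, -, -, n5, -⟩ := h1 R ω hR.qr
  rw [n5]
  have : (((m : R) : R) : ℂ) = ((m : ℝ) : ℂ) := by simp
  rw [this, Complex.normSq_ofReal]
  ring

lemma sp_inj (h1 : H_BASIC) {R : Subring ℂ} {ω : ℂ} (hR : QP R ω) {m m' : ℕ}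
    (h : sp (m : R) = sp (m' : R)) : m = m' := by
  have h2 := nm_sp_nat h1 hR m
  rw [h, nm_sp_nat h1 hR m'] at h2
  have h3 : m' ^ 2 = m ^ 2 := by exact_mod_cast h2
  have h4 := Nat.pow_left_injective (n := 2) (by norm_num) h3
  exact h4.symm

lemma sp_ne_bot (h1 : H_BASIC) {R : Subring ℂ} {ω : ℂ} (hR : QP R ω) {m : ℕ} (hm : 0 < m) :
    sp (m : R) ≠ ⊥ := by
  intro h
  have h2 := nm_sp_nat h1 hR m
  obtain ⟨-, n2, -⟩ := h1 R ω hR.qr
  rw [h, n2] at h2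
  have : (0 : ℝ) < (m : ℝ) ^ 2 := by positivity
  linarith

/-- a primitive ideal is not divisible by an integer `m ≥ 2` -/
lemma part1 (h1 : H_BASIC) (h2 : A_BAR) {R : Subring ℂ} {ω : ℂ} (hR : QP R ω) (c : Ideal R)
    (hc : Pri c) (m : ℕ) (hm : 2 ≤ m) : ¬ sp (m : R) ∣ c := by
  intro h
  obtain ⟨-, -, -, -, -, -, b7, -, -, -, -, -, b13, -⟩ := h2 R ω hR
  obtain ⟨-, -, -, -, -, -, n7, -⟩ := h1 R ω hR.qr
  have h3 : sp (m : R) ∣ bar c := by
    have := (b13 (sp (m : R)) c).2 h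
    rwa [b7] at this
  have h4 : c ⊔ bar c = ⊤ := Ideal.isCoprime_iff_sup_eq.1 hc.2
  have h5 : (⊤ : Ideal R) ≤ sp (m : R) := by
    rw [← h4]
    exact sup_le (Ideal.le_of_dvd h) (Ideal.le_of_dvd h3)
  have h6 : sp (m : R) = ⊤ := top_le_iff.1 h5
  have h7 := nm_sp_nat h1 hR m
  rw [h6, (n7 ⊤).2 rfl] at h7
  have h8 : (2 : ℝ) ≤ m := by exact_mod_cast hm
  nlinarith

/-- an ideal prime to `f` which is not divisible by an integer `n ≥ 2` is primitive -/
lemma pri_of (h1 : H_BASIC) (h2 : A_BAR) {R : Subring ℂ} {ω : ℂ} (hR : QP R ω) (f : Ideal R)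
    (hf : Ram f) (J : Ideal R) (hJ : J ≠ ⊥) (hJf : IsCoprime J f)
    (hn : ∀ n : ℕ, 2 ≤ n → ¬ sp (n : R) ∣ J) : Pri J := by
  have := hR.qr.ded
  obtain ⟨-, -, b3, -, -, -, -, -, b9, b10, -, b12, b13, -⟩ := h2 R ω hR
  obtain ⟨n1, -, n3, -, -, -, n7, -⟩ := h1 R ω hR.qr
  refine ⟨hJ, ?_⟩
  by_contra hcop
  have h3 : J ⊔ bar J ≠ ⊤ := fun h => hcop (Ideal.isCoprime_iff_sup_eq.2 h)
  obtain ⟨P, hP, hle⟩ := Ideal.exists_le_maximal _ h3
  have hPJ : P ∣ J := Ideal.dvd_iff_le.2 (le_sup_left.trans hle)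
  have hPbJ : P ∣ bar J := Ideal.dvd_iff_le.2 (le_sup_right.trans hle)
  have hP0 : P ≠ ⊥ := by
    intro h
    rw [h] at hPJ
    exact hJ (le_bot_iff.1 (Ideal.le_of_dvd hPJ))
  have hPp : P.IsPrime := hP.isPrime
  have hbPJ : bar P ∣ J := by
    have := (b13 P (bar J)).2 hPbJ
    rwa [b3] at this
  by_cases hb : bar P = P
  · rcases hf P hPp hP0 hb with ⟨p, hp, rfl⟩ | h
    · exact hn p hp.two_le hPJ
    · exact h (IsCoprime.of_isCoprime_of_dvd_left hJf hPJ)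
  · have hb0 : bar P ≠ ⊥ := by
      intro h
      apply hP0
      rw [← b3 P, h, b10]
    have hbm : (bar P).IsMaximal := (b12 P hPp).isMaximal hb0
    have hco : IsCoprime P (bar P) :=
      Ideal.isCoprime_iff_sup_eq.2 (hP.coprime_of_ne hbm (fun h => hb h.symm))
    have hd := hco.mul_dvd hPJ hbPJ
    rw [b9 P hP0] at hd
    refine hn _ ?_ hd
    have h4 : nm P ≠ 1 := fun h => hP.ne_top ((n7 P).1 h)
    have h5 : 1 ≤ nm P := n3 P hP0
    unfold nm at h4 h5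
    have h6 : 1 ≤ Nat.card (R ⧸ P) := by exact_mod_cast h5
    have h7 : Nat.card (R ⧸ P) ≠ 1 := by exact_mod_cast h4
    omega

/-- existence of the decomposition -/
lemma exists_dec (h1 : H_BASIC) (h2 : A_BAR) {R : Subring ℂ} {ω : ℂ} (hR : QP R ω) (f : Ideal R)
    (hf : Ram f) : ∀ (N : ℕ) (J : Ideal R), J ≠ ⊥ → IsCoprime J f → Nat.card (R ⧸ J) ≤ N →
    ∃ (c : Ideal R) (m : ℕ), Pri c ∧ 0 < m ∧ sp (m : R) * c = J := by
  have := hR.qr.ded
  obtain ⟨n1, -, n3, n4, -, -, n7, -⟩ := h1 R ω hR.qr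
  intro N
  induction N with
  | zero =>
    intro J hJ _ hc
    have h3 := n3 J hJ
    unfold nm at h3
    have h4 : 1 ≤ Nat.card (R ⧸ J) := by exact_mod_cast h3
    omega
  | succ N ih =>
    intro J hJ hJf hc
    by_cases hn : ∀ n : ℕ, 2 ≤ n → ¬ sp (n : R) ∣ J
    · refine ⟨J, 1, pri_of h1 h2 hR f hf J hJ hJf hn, one_pos, ?_⟩
      have h8 : sp ((1 : ℕ) : R) = (1 : Ideal R) := by
        rw [Nat.cast_one, Ideal.one_eq_top]
        exact Ideal.span_singleton_one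
      rw [h8, one_mul]
    · push Not at hn
      obtain ⟨n, hn2, J', hJ'⟩ := hn
      have hJ0 : J' ≠ ⊥ := by
        intro h
        apply hJ
        rw [hJ', h, Ideal.mul_bot]
      have hcop : IsCoprime J' f :=
        IsCoprime.of_isCoprime_of_dvd_left hJf ⟨sp (n : R), by rw [hJ', mul_comm]⟩
      have hlt : Nat.card (R ⧸ J') ≤ N := by
        have h3 := n4 (sp (n : R)) J'
        rw [← hJ', nm_sp_nat h1 hR n] at h3
        have h4 := n3 J' hJ0
        unfold nm at h3 h4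
        have h5 : Nat.card (R ⧸ J) = n ^ 2 * Nat.card (R ⧸ J') := by exact_mod_cast h3
        have h6 : 1 ≤ Nat.card (R ⧸ J') := by exact_mod_cast h4
        have h7 : 4 * Nat.card (R ⧸ J') ≤ n ^ 2 * Nat.card (R ⧸ J') :=
          Nat.mul_le_mul_right _ (by nlinarith)
        omega
      obtain ⟨c, m, hc1, hm, hcm⟩ := ih J' hJ0 hcop hlt
      refine ⟨c, n * m, hc1, by positivity, ?_⟩
      rw [hJ', ← hcm, ← mul_assoc]
      congr 1
      rw [Nat.cast_mul]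
      exact (Ideal.span_singleton_mul_span_singleton _ _).symm

/-- uniqueness of the decomposition -/
lemma unique_dec (h1 : H_BASIC) (h2 : A_BAR) {R : Subring ℂ} {ω : ℂ} (hR : QP R ω)
    {c c' : Ideal R} {m m' : ℕ} (hc : Pri c) (hc' : Pri c') (hm : 0 < m)
    (h : sp (m : R) * c = sp (m' : R) * c') : c = c' ∧ m = m' := by
  have := hR.qr.ded
  obtain ⟨-, -, b3, b4, b5, -, b7, -⟩ := h2 R ω hR
  have key : ∀ (c : Ideal R) (m : ℕ), Pri c →
      (sp (m : R) * c) ⊔ bar (sp (m : R) * c) = sp (m : R) := by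
    intro c m hc
    rw [b4, b7, ← Ideal.mul_sup, Ideal.isCoprime_iff_sup_eq.1 hc.2, Ideal.mul_top]
  have h3 : sp (m : R) = sp (m' : R) := by
    rw [← key c m hc, ← key c' m' hc', h]
  have h4 : m = m' := sp_inj h1 hR h3
  subst h4
  exact ⟨mul_left_cancel₀ (sp_ne_bot h1 hR hm) h, rfl⟩

end Dec

theorem a_dec (h1 : H_BASIC) (h2 : A_BAR) : A_DEC := by
  classical
  intro R ω hR
  refine ⟨fun c hc m hm => Dec.part1 h1 h2 hR c hc m hm, ?_⟩
  intro f _ hf G hG hG0 hGf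
  set T : Set (Ideal R × ℕ) := {p | Pri p.1 ∧ 0 < p.2} with hT
  set i : T → Ideal R := fun p => sp (p.1.2 : R) * p.1.1 with hi
  have hinj : Function.Injective i := by
    rintro ⟨⟨c, m⟩, hc, hm⟩ ⟨⟨c', m'⟩, hc', hm'⟩ h
    obtain ⟨e1, e2⟩ := Dec.unique_dec h1 h2 hR hc hc' hm h
    exact Subtype.ext (Prod.ext e1 e2)
  have hsupp : Function.support G ⊆ Set.range i := by
    intro J hJ
    rw [Function.mem_support] at hJ
    have hJ0 : J ≠ ⊥ := by
      rintro rfl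
      exact hJ hG0
    have hJf : IsCoprime J f := by
      by_contra h
      exact hJ (hGf J h)
    obtain ⟨c, m, hc, hm, h⟩ := Dec.exists_dec h1 h2 hR f hf _ J hJ0 hJf le_rfl
    exact ⟨⟨(c, m), hc, hm⟩, h⟩
  set F : Ideal R × ℕ → ℂ := fun p => G (sp (p.2 : R) * p.1) with hF
  have hFi : (fun p : Ideal R × ℕ => if Pri p.1 ∧ 0 < p.2 then G (sp (p.2 : R) * p.1) else 0) =
      T.indicator F := by
    funext p
    rw [Set.indicator_apply]
    rfl
  have hsub : Summable (F ∘ ((↑) : T → Ideal R × ℕ)) := hG.comp_injective hinj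
  have hsum : Summable (T.indicator F) := summable_subtype_iff_indicator.1 hsub
  refine ⟨by rw [hFi]; exact hsum, ?_⟩
  have e1 : ∑' J : Ideal R, G J = ∑' p : T, G (i p) := (hinj.tsum_eq hsupp).symm
  have e2 : ∑' p : T, G (i p) = ∑' p : Ideal R × ℕ, T.indicator F p :=
    tsum_subtype T F
  rw [e1, e2, hsum.tsum_prod]
  refine tsum_congr fun c => tsum_congr fun m => ?_
  exact (congrFun hFi (c, m)).symm

end Pool.Agent.TH936.AC
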