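import Pool.Agent.TH936.AC.Stmts

/-!
# Project AC, part LINE (helper329): primitive ideals `c` with `χ(c) ^ k = 1`

For `x` modulo `q` the generators of the primitive ideals which are multiples of `x` modulo `q` by
rational integers lie in a lattice of index `q`; two of them whose arguments are closer than
`q Im ω / y` generate the same ideal.
-/

set_option autoImplicit false

open Complex

namespace Pool.Agent.TH936.AC

open Pool.Agent.W192.HK

namespace Line

variable {R : Subring ℂ} {ω : ℂ}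

lemma sp_mul (a b : R) : sp (a * b) = sp a * sp b :=
  (Ideal.span_singleton_mul_span_singleton a b).symm

lemma int_mem (h : QR R ω) {q : ℕ} {n : ℤ} (hn : (n : R) ∈ sp (q : R)) : (q : ℤ) ∣ n := by
  obtain ⟨w, hw⟩ := Ideal.mem_span_singleton.1 hn
  obtain ⟨u, v, huv⟩ := (h.mem w).1 w.2
  have h1 : (n : ℂ) = q * (u + v * ω) := by
    rw [← huv]
    have := congrArg (fun z : R => (z : ℂ)) hw
    simpa using this
  have him := congrArg Complex.im h1
  simp at him
  rcases him with h0 | h0 | h0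
  · subst h0
    simp at h1
    rw [h1]
    simp
  · have hre := congrArg Complex.re h1
    simp [h0] at hre
    refine ⟨u, ?_⟩
    exact_mod_cast hre
  · exact absurd h0 h.im.ne'

lemma im_dvd (h : QR R ω) {q m : ℕ} (hm : Nat.Coprime m q) {N : ℤ} {z : R} {u v : ℤ}
    (hz : (z : ℂ) = u + v * ω) (hn : (m : R) * z - (N : R) ∈ sp (q : R)) : (q : ℤ) ∣ v := by
  obtain ⟨w, hw⟩ := Ideal.mem_span_singleton.1 hn
  obtain ⟨u', v', huv⟩ := (h.mem w).1 w.2
  have h1 : (m : ℂ) * (u + v * ω) - N = q * (u' + v' * ω) := by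
    rw [← huv, ← hz]
    have := congrArg (fun z : R => (z : ℂ)) hw
    simpa using this
  have him := congrArg Complex.im h1
  simp at him
  have h2 : ((m : ℤ) * v : ℤ) = (q : ℤ) * v' := by
    have h3 : ((m : ℝ) * v) * ω.im = (q * v') * ω.im := by linarith
    have h4 := mul_right_cancel₀ h.im.ne' h3
    exact_mod_cast h4
  have h5 : (q : ℤ) ∣ (m : ℤ) * v := ⟨v', h2⟩
  exact (Int.isCoprime_iff_gcd_eq_one.2 (by
    rw [Int.gcd_natCast_natCast]
    exact Nat.Coprime.symm hm) : IsCoprime (q : ℤ) (m : ℤ)).dvd_of_dvd_mul_left h5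

/-- two primitive ideals whose generators have real quotient are equal -/
lemma pri_eq (hA : A_BAR) (hR : QP R ω) {c c' : Ideal R} (hc : Pri c) (hc' : Pri c') {γ γ' : R}
    (e : c = sp γ) (e' : c' = sp γ')
    (him : ((γ : ℂ) * (starRingEnd ℂ) (γ' : ℂ)).im = 0) : c = c' := by
  obtain ⟨b1, b2, b3, b4, b5, b6, -⟩ := hA R ω hR
  obtain ⟨g, hg⟩ := b1 γ
  obtain ⟨g', hg'⟩ := b1 γ'
  have h1 : γ * g' = g * γ' := by
    apply Subtype.ext
    push_cast
    rw [hg, hg']
    have h2 : (starRingEnd ℂ) ((γ : ℂ) * (starRingEnd ℂ) (γ' : ℂ)) =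
        (γ : ℂ) * (starRingEnd ℂ) (γ' : ℂ) := Complex.conj_eq_iff_im.2 him
    rw [← h2, map_mul, Complex.conj_conj]
  have hb : bar c = sp g := by rw [e]; exact b6 γ g hg
  have hb' : bar c' = sp g' := by rw [e']; exact b6 γ' g' hg'
  have h3 : c * bar c' = bar c * c' := by
    rw [hb, hb', e, e', Ideal.span_singleton_mul_span_singleton,
      Ideal.span_singleton_mul_span_singleton, h1]
  have d1 : c ∣ c' := by
    have : c ∣ bar c * c' := h3 ▸ Dvd.intro _ rfl
    exact hc.2.dvd_of_dvd_mul_left this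
  have d2 : c' ∣ c := by
    have : c' ∣ c * bar c' := h3 ▸ Dvd.intro_left _ rfl
    exact hc'.2.dvd_of_dvd_mul_right this
  exact le_antisymm (Ideal.le_of_dvd d2) (Ideal.le_of_dvd d1)

lemma im_mul_conj (z w : ℂ) : (z * (starRingEnd ℂ) w).im = ‖z‖ * ‖w‖ * Real.sin (z.arg - w.arg) := by
  have a1 : ‖z‖ * Real.cos z.arg = z.re := by
    have := congrArg Complex.re (Complex.norm_mul_exp_arg_mul_I z)
    rw [Complex.exp_mul_I, ← Complex.ofReal_cos, ← Complex.ofReal_sin] at this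
    simp
  have a2 : ‖z‖ * Real.sin z.arg = z.im := by
    have := congrArg Complex.im (Complex.norm_mul_exp_arg_mul_I z)
    rw [Complex.exp_mul_I, ← Complex.ofReal_cos, ← Complex.ofReal_sin] at this
    simp
  have b1 : ‖w‖ * Real.cos w.arg = w.re := by
    have := congrArg Complex.re (Complex.norm_mul_exp_arg_mul_I w)
    rw [Complex.exp_mul_I, ← Complex.ofReal_cos, ← Complex.ofReal_sin] at this
    simp
  have b2 : ‖w‖ * Real.sin w.arg = w.im := by
    have := congrArg Complex.im (Complex.norm_mul_exp_arg_mul_I w)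
    rw [Complex.exp_mul_I, ← Complex.ofReal_cos, ← Complex.ofReal_sin] at this
    simp
  rw [Complex.mul_im, Complex.conj_re, Complex.conj_im, ← a1, ← a2, ← b1, ← b2, Real.sin_sub]
  ring

/-- the relation `r γ ≡ x mod q` -/
def Rel (q : ℕ) (γ x : R) : Prop := ∃ r : ℕ, Nat.Coprime r q ∧ (r : R) * γ - x ∈ sp (q : R)

lemma close_eq (hA : A_BAR) (hR : QP R ω) {q : ℕ} {c c' : Ideal R} (hc : Pri c)
    (hc' : Pri c') {γ γ' x : R} (e : c = sp γ) (e' : c' = sp γ') (h : Rel q γ x) (h' : Rel q γ' x)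
    {y : ℝ} (hy : Complex.normSq (γ : ℂ) ≤ y) (hy' : Complex.normSq (γ' : ℂ) ≤ y)
    (hlt : y * |(γ : ℂ).arg - (γ' : ℂ).arg| < q * ω.im) : c = c' := by
  obtain ⟨b1, b2, b3, b4, b5, b6, -⟩ := hA R ω hR
  obtain ⟨g', hg'⟩ := b1 γ'
  obtain ⟨xb, hxb⟩ := b1 x
  obtain ⟨r, hr, hrm⟩ := h
  obtain ⟨r', hr', hrm'⟩ := h'
  -- conjugate of the second relation
  have hconj : (r' : R) * g' - xb ∈ sp (q : R) := by
    obtain ⟨w, hw⟩ := Ideal.mem_span_singleton.1 hrm'
    obtain ⟨wb, hwb⟩ := b1 w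
    refine Ideal.mem_span_singleton.2 ⟨wb, ?_⟩
    apply Subtype.ext
    have h0 := congrArg (fun z : R => (z : ℂ)) hw
    push_cast at h0
    have h1 := congrArg (starRingEnd ℂ) h0
    rw [map_sub, map_mul, map_mul, map_natCast, map_natCast] at h1
    push_cast
    rw [hg', hxb, hwb]
    exact h1
  obtain ⟨N, M, hNM⟩ := (hR.qr.mem ((x * xb : R) : ℂ)).1 (x * xb).2
  have hM : M = 0 := by
    have h1 := congrArg Complex.im hNM
    push_cast at h1
    rw [hxb, Complex.mul_conj] at h1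
    simp at h1
    rcases h1 with h1 | h1
    · exact h1
    · exact absurd h1 hR.qr.im.ne'
  have hN : x * xb = (N : R) := by
    apply Subtype.ext
    rw [hNM, hM]
    simp
  obtain ⟨u, v, huv⟩ := (hR.qr.mem ((γ * g' : R) : ℂ)).1 (γ * g').2
  have hmem : ((r * r' : ℕ) : R) * (γ * g') - (N : R) ∈ sp (q : R) := by
    have h1 : ((r * r' : ℕ) : R) * (γ * g') - (N : R) =
        (r : R) * γ * ((r' : R) * g' - xb) + ((r : R) * γ - x) * xb := by
      rw [← hN]
      push_cast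
      ring
    rw [h1]
    exact Ideal.add_mem _ (Ideal.mul_mem_left _ _ hconj) (Ideal.mul_mem_right _ _ hrm)
  have hv : (q : ℤ) ∣ v := im_dvd hR.qr (Nat.Coprime.mul_left hr hr') huv hmem
  have him : ((γ : ℂ) * (starRingEnd ℂ) (γ' : ℂ)).im = v * ω.im := by
    rw [← hg']
    have h1 := congrArg Complex.im huv
    push_cast at h1
    rw [h1]
    simp
  refine pri_eq hA hR hc hc' e e' ?_
  rw [him]
  by_contra hne
  have hv0 : v ≠ 0 := by
    rintro rfl
    simp at hne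
  have hle : (q : ℝ) ≤ |(v : ℝ)| := by
    have := Int.le_of_dvd (abs_pos.2 hv0) ((dvd_abs _ _).2 hv)
    exact_mod_cast this
  have h1 : (q : ℝ) * ω.im ≤ |((γ : ℂ) * (starRingEnd ℂ) (γ' : ℂ)).im| := by
    rw [him, abs_mul, abs_of_pos hR.qr.im]
    exact mul_le_mul_of_nonneg_right hle hR.qr.im.le
  rw [im_mul_conj, abs_mul, abs_of_nonneg (by positivity)] at h1
  have h2 : ‖(γ : ℂ)‖ * ‖(γ' : ℂ)‖ ≤ y := by
    rw [Complex.normSq_eq_norm_sq] at hy hy'
    nlinarith [sq_nonneg (‖(γ : ℂ)‖ - ‖(γ' : ℂ)‖)]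
  have h3 : ‖(γ : ℂ)‖ * ‖(γ' : ℂ)‖ * |Real.sin ((γ : ℂ).arg - (γ' : ℂ).arg)| ≤
      y * |(γ : ℂ).arg - (γ' : ℂ).arg| := by
    have h4 : |Real.sin ((γ : ℂ).arg - (γ' : ℂ).arg)| ≤ |(γ : ℂ).arg - (γ' : ℂ).arg| :=
      Real.abs_sin_le_abs
    exact mul_le_mul h2 h4 (abs_nonneg _) ((by positivity : (0:ℝ) ≤ _).trans h2)
  linarith

lemma close_eq' (hA : A_BAR) (hR : QP R ω) {q : ℕ} {x : R} {y : ℝ} (hy0 : 0 < y) (hq : 0 < q)
    {c c' : Ideal R} (hc : Pri c) (hc' : Pri c') {γ γ' : R} (e : c = sp γ) (e' : c' = sp γ')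
    (h : Rel q γ x) (h' : Rel q γ' x)
    (hy : Complex.normSq (γ : ℂ) ≤ y) (hy' : Complex.normSq (γ' : ℂ) ≤ y)
    (hfl : ⌊(γ : ℂ).arg / (q * ω.im / y)⌋ = ⌊(γ' : ℂ).arg / (q * ω.im / y)⌋) : c = c' := by
  have hqr : (0 : ℝ) < q := by exact_mod_cast hq
  have hθ : 0 < (q : ℝ) * ω.im / y := div_pos (mul_pos hqr hR.qr.im) hy0
  refine close_eq hA hR hc hc' e e' h h' hy hy' ?_
  have h1 := Int.abs_sub_lt_one_of_floor_eq_floor hfl
  rw [← sub_div, abs_div, abs_of_pos hθ, div_lt_one hθ, lt_div_iff₀ hy0] at h1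
  linarith

/-- representatives modulo `I` -/
lemma exists_rp (I : Ideal R) [Finite (R ⧸ I)] : ∃ T : Finset R, Rp I ⊤ T := by
  classical
  have := Fintype.ofFinite (R ⧸ I)
  refine ⟨Finset.univ.image (fun a : R ⧸ I => Quotient.out a), fun _ _ => Submodule.mem_top,
    fun α => ?_⟩
  refine ⟨Quotient.out (Ideal.Quotient.mk I α), ⟨Finset.mem_image_of_mem _ (Finset.mem_univ _), ?_⟩,
    ?_⟩
  · rw [← Ideal.Quotient.eq]
    exact (Ideal.Quotient.mk_out _).symm
  · rintro x ⟨hx, hxα⟩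
    obtain ⟨a, -, rfl⟩ := Finset.mem_image.1 hx
    rw [← Ideal.Quotient.eq, Ideal.Quotient.mk_out] at hxα
    rw [hxα]

end Line

open Classical in
theorem a_line (h1 : H_BASIC) (h2 : H_FPR) (h3 : H_KER) (h4 : A_BAR) : A_LINE := by
  intro R ω hR
  obtain ⟨C1, hC1, hker⟩ := h3 R ω hR.qr
  obtain ⟨b1, b2, b3, b4, b5, b6, b7, b8, b9⟩ := h1 R ω hR.qr
  have hpi := Real.pi_pos
  have him := hR.qr.im
  refine ⟨2 * C1 * (2 + 2 * Real.pi / ω.im), by positivity, ?_⟩
  intro q χ hχ d hd k hk y hy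
  have hqp := hχ.prime
  have hq0 : 0 < q := hqp.pos
  have hqr : (0 : ℝ) < q := by exact_mod_cast hq0
  have hy0 : 0 < y := by linarith
  have hd0 := hd.pos
  have hk0 : 0 < k := Nat.pos_of_dvd_of_pos hk hd0
  have hqne : sp (q : R) ≠ ⊥ := hχ.rc.ne
  have : Finite (R ⧸ sp (q : R)) := b1 _ hqne
  obtain ⟨T, hT⟩ := Line.exists_rp (sp (q : R))
  obtain ⟨p1, p2, p3, -⟩ := h2 R ω hR.qr _ χ hχ.rc
  have := hR.pid
  -- the set
  set S : Set (Ideal R) := {c : Ideal R | Pri c ∧ nm c ≤ y ∧ χ c ≠ 0 ∧ χ c ^ k = 1} with hS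
  have hcnt : cntP χ k y = S.ncard := rfl
  rw [hcnt]
  have hRHS : 0 ≤ 2 * C1 * (2 + 2 * Real.pi / ω.im) * (1 + y / q) * (q * k / d) := by positivity
  by_cases hfin : S.Finite
  swap
  · rw [Set.Infinite.ncard hfin]
    simpa using hRHS
  rw [Set.ncard_eq_toFinset_card S hfin]
  set SF := hfin.toFinset with hSF
  have hmemS : ∀ c, c ∈ SF ↔ Pri c ∧ nm c ≤ y ∧ χ c ≠ 0 ∧ χ c ^ k = 1 := by
    intro c
    rw [hSF, Set.Finite.mem_toFinset]
    rfl
  -- generators
  have hgen : ∀ c : Ideal R, ∃ γ : R, c = sp γ := fun c => ⟨_, (Ideal.span_singleton_generator c).symm⟩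
  choose gen hgen using hgen
  set H := T.filter (fun x : R => χ (sp x) ≠ 0 ∧ χ (sp x) ^ k = 1) with hH
  have hHcard : (H.card : ℝ) ≤ C1 * (q : ℝ) ^ 2 * k / d := by
    have h5 := hker (sp (q : R)) χ hχ.rc d hd (d / k) (Nat.div_dvd_of_dvd hk) (sp (q : R)) ⊤ T
      dvd_rfl hqne hT 1
    rw [Nat.div_div_self hk hd0.ne', b5] at h5
    have h6 : Complex.normSq ((q : R) : ℂ) = (q : ℝ) ^ 2 := by
      simp [Complex.normSq_natCast, sq]
    rw [h6, Nat.cast_div hk (by exact_mod_cast hk0.ne')] at h5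
    refine h5.trans (le_of_eq ?_)
    field_simp
  -- every ideal has `q - 1` relatives
  have hlow : ∀ c ∈ SF, q - 1 ≤ (H.bipartiteAbove (fun c x => Line.Rel q (gen c) x) c).card := by
    intro c hc
    rw [hmemS] at hc
    obtain ⟨hc1, hc2, hc3, hc4⟩ := hc
    have hcop : c ≠ ⊥ ∧ IsCoprime c (sp (q : R)) := by
      have := (hχ.rc.zero c).not.1 hc3
      push Not at this
      exact this
    have hrep : ∀ r : ℕ, ∃ x : R, x ∈ T ∧ (r : R) * gen c - x ∈ sp (q : R) := fun r => by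
      obtain ⟨x, hx, -⟩ := hT.uni ((r : R) * gen c)
      exact ⟨x, hx⟩
    choose ρ hρT hρ using hrep
    have hchi : ∀ r : ℕ, Nat.Coprime r q → χ (sp ((r : R) * gen c)) = χ c := by
      intro r hr
      rw [Line.sp_mul, hχ.rc.mul, hχ.int r hr, one_mul, ← hgen c]
    have hone : nm (sp (q : R)) ≠ 1 := by
      rw [b5]
      have h6 : Complex.normSq ((q : R) : ℂ) = (q : ℝ) ^ 2 := by
        simp [Complex.normSq_natCast, sq]
      rw [h6]
      have : (1 : ℝ) < q := by exact_mod_cast hqp.one_lt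
      nlinarith
    have htop : sp (q : R) ≠ ⊤ := fun h => hone ((b7 _).2 h)
    have hρne : ∀ r : ℕ, Nat.Coprime r q → (r : R) * gen c ≠ 0 ∧ ρ r ≠ 0 := by
      intro r hr
      have h7 : χ (sp ((r : R) * gen c)) ≠ 0 := by rw [hchi r hr]; exact hc3
      have h8 := (hχ.rc.zero _).not.1 h7
      push Not at h8
      refine ⟨fun h0 => h8.1 (by rw [h0]; exact Ideal.span_singleton_eq_bot.2 rfl), fun h0 => ?_⟩
      have h9 := hρ r
      rw [h0, sub_zero] at h9
      have h10 : sp ((r : R) * gen c) ≤ sp (q : R) := (Ideal.span_singleton_le_iff_mem _).2 h9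
      have h11 := Ideal.isCoprime_iff_sup_eq.1 h8.2
      rw [sup_eq_right.2 h10] at h11
      exact htop h11
    have hρH : ∀ r : ℕ, Nat.Coprime r q → ρ r ∈ H := by
      intro r hr
      obtain ⟨n1, n2⟩ := hρne r hr
      have h7 := p1 _ _ n1 n2 (hρ r)
      rw [hchi r hr] at h7
      rw [hH, Finset.mem_filter, ← h7]
      exact ⟨hρT r, hc3, hc4⟩
    have hcopr : ∀ r ∈ Finset.Ico 1 q, Nat.Coprime r q := by
      intro r hr
      rw [Finset.mem_Ico] at hr
      exact Nat.Coprime.symm ((Nat.Prime.coprime_iff_not_dvd hqp).2 fun h =>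
        absurd (Nat.le_of_dvd (by omega) h) (by omega))
    have hinj : Set.InjOn ρ (Finset.Ico 1 q : Finset ℕ) := by
      intro r hr r' hr' heq
      have h7 : ((r : R) - (r' : R)) * gen c ∈ sp (q : R) := by
        have h8 := Ideal.sub_mem _ (hρ r) (hρ r')
        rw [heq] at h8
        have h9 : ((r : R) * gen c - ρ r' - ((r' : R) * gen c - ρ r')) =
            ((r : R) - (r' : R)) * gen c := by ring
        rw [h9] at h8
        exact h8
      have h8 : sp (q : R) ∣ sp ((r : R) - (r' : R)) * c := by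
        conv_rhs => rw [hgen c]
        rw [Ideal.span_singleton_mul_span_singleton]
        exact Ideal.dvd_span_singleton.2 h7
      have h9 : sp (q : R) ∣ sp ((r : R) - (r' : R)) := hcop.2.symm.dvd_of_dvd_mul_right h8
      have h10 : ((((r : ℤ) - (r' : ℤ) : ℤ)) : R) ∈ sp (q : R) := by
        push_cast
        exact Ideal.dvd_span_singleton.1 h9
      have h11 := Line.int_mem hR.qr h10
      rw [Finset.mem_coe, Finset.mem_Ico] at hr hr'
      have h12 : (r : ℤ) - r' = 0 := by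
        refine Int.eq_zero_of_abs_lt_dvd h11 ?_
        rw [abs_lt]
        constructor <;> omega
      omega
    have h7 : (Finset.Ico 1 q).card ≤
        (H.bipartiteAbove (fun c x => Line.Rel q (gen c) x) c).card := by
      refine Finset.card_le_card_of_injOn ρ (fun r hr => ?_) hinj
      have hr' := hcopr r hr
      rw [Finset.mem_coe, Finset.mem_bipartiteAbove]
      exact ⟨hρH r hr', r, hr', hρ r⟩
    rwa [Nat.card_Ico] at h7
  -- few ideals in the class of `x`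
  set θ : ℝ := q * ω.im / y with hθdef
  have hθ : 0 < θ := by positivity
  have hup : ∀ x ∈ H, (SF.bipartiteBelow (fun c x => Line.Rel q (gen c) x) x).card ≤
      (Finset.Icc ⌊-Real.pi / θ⌋ ⌊Real.pi / θ⌋).card := by
    intro x _
    refine Finset.card_le_card_of_injOn (fun c => ⌊((gen c : R) : ℂ).arg / θ⌋) (fun c _ => ?_) ?_
    · rw [Finset.mem_coe, Finset.mem_Icc]
      constructor
      · refine Int.floor_le_floor ?_
        exact div_le_div_of_nonneg_right (Complex.neg_pi_lt_arg _).le hθ.le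
      · refine Int.floor_le_floor ?_
        exact div_le_div_of_nonneg_right (Complex.arg_le_pi _) hθ.le
    · intro c hc c' hc' heq
      rw [Finset.mem_coe, Finset.mem_bipartiteBelow, hmemS] at hc hc'
      obtain ⟨⟨m1, m2, m3, m4⟩, m5⟩ := hc
      obtain ⟨⟨n1, n2, n3, n4⟩, n5⟩ := hc'
      refine Line.close_eq' h4 hR hy0 hq0 m1 n1 (hgen c) (hgen c') m5 n5 ?_ ?_ heq
      · rw [← b5, ← hgen c]
        exact m2
      · rw [← b5, ← hgen c']
        exact n2
  have hcount := Finset.card_mul_le_card_mul (fun c x => Line.Rel q (gen c) x) hlow hup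
  have hIcc : ((Finset.Icc ⌊-Real.pi / θ⌋ ⌊Real.pi / θ⌋).card : ℝ) ≤ 2 * Real.pi / θ + 2 := by
    rw [Int.card_Icc]
    have f1 := Int.floor_le (Real.pi / θ)
    have f2 := Int.lt_floor_add_one (-Real.pi / θ)
    have f3 : ⌊-Real.pi / θ⌋ ≤ ⌊Real.pi / θ⌋ := Int.floor_le_floor (by
      refine div_le_div_of_nonneg_right ?_ hθ.le
      linarith)
    have f4 : (((⌊Real.pi / θ⌋ + 1 - ⌊-Real.pi / θ⌋).toNat : ℕ) : ℝ) =
        (⌊Real.pi / θ⌋ : ℝ) + 1 - ⌊-Real.pi / θ⌋ := by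
      have : (((⌊Real.pi / θ⌋ + 1 - ⌊-Real.pi / θ⌋).toNat : ℕ) : ℤ) =
          ⌊Real.pi / θ⌋ + 1 - ⌊-Real.pi / θ⌋ := Int.toNat_of_nonneg (by omega)
      exact_mod_cast congrArg (fun z : ℤ => (z : ℝ)) this
    rw [f4]
    have f5 : -Real.pi / θ = -(Real.pi / θ) := neg_div _ _
    rw [f5] at f2 ⊢
    have f6 : 2 * Real.pi / θ = Real.pi / θ + Real.pi / θ := by ring
    rw [f6]
    linarith
  have hcount' : (SF.card : ℝ) * ((q : ℝ) - 1) ≤ H.card * (2 * Real.pi / θ + 2) := by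
    have g1 : ((SF.card * (q - 1) : ℕ) : ℝ) ≤
        ((H.card * (Finset.Icc ⌊-Real.pi / θ⌋ ⌊Real.pi / θ⌋).card : ℕ) : ℝ) := by
      exact_mod_cast hcount
    rw [Nat.cast_mul, Nat.cast_mul, Nat.cast_sub hqp.one_lt.le, Nat.cast_one] at g1
    exact g1.trans (mul_le_mul_of_nonneg_left hIcc (Nat.cast_nonneg _))
  have hθ' : 2 * Real.pi / θ = 2 * Real.pi / ω.im * (y / q) := by
    rw [hθdef]
    field_simp
  have hq2 : (q : ℝ) / 2 ≤ q - 1 := by
    have : (2 : ℝ) ≤ q := by exact_mod_cast hqp.two_le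
    linarith
  have g2 : (SF.card : ℝ) * (q / 2) ≤
      C1 * (q : ℝ) ^ 2 * k / d * (2 * Real.pi / ω.im * (y / q) + 2) := by
    calc (SF.card : ℝ) * (q / 2) ≤ SF.card * (q - 1) :=
          mul_le_mul_of_nonneg_left hq2 (Nat.cast_nonneg _)
      _ ≤ H.card * (2 * Real.pi / θ + 2) := hcount'
      _ ≤ _ := by
          rw [hθ']
          exact mul_le_mul_of_nonneg_right hHcard (by positivity)
  have g3 : 2 * Real.pi / ω.im * (y / q) + 2 ≤ (2 + 2 * Real.pi / ω.im) * (1 + y / q) := by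
    have : 0 ≤ 2 * Real.pi / ω.im + 2 * (y / q) := by positivity
    nlinarith
  have g4 : (SF.card : ℝ) * (q / 2) ≤
      C1 * (q : ℝ) ^ 2 * k / d * ((2 + 2 * Real.pi / ω.im) * (1 + y / q)) :=
    g2.trans (mul_le_mul_of_nonneg_left g3 (by positivity))
  have g5 : C1 * (q : ℝ) ^ 2 * k / d * ((2 + 2 * Real.pi / ω.im) * (1 + y / q)) =
      (2 * C1 * (2 + 2 * Real.pi / ω.im) * (1 + y / q) * (q * k / d)) * (q / 2) := by
    field_simp
  rw [g5] at g4
  exact le_of_mul_le_mul_right g4 (by positivity)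

end Pool.Agent.TH936.AC
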