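import Pool.Agent.TH936.AC.Stmts

/-!
# ORI: a large subset of a finite set of primitive ideals all of whose products are primitive
-/

set_option autoImplicit false

namespace Pool.Agent.TH936.AC

open Pool.Agent.W192.HK

namespace Ori

open Finset

open Classical in
/-- the orientation pigeonhole -/
theorem orient {α ι : Type*} (b : α → α) (hb : ∀ x, b (b x) = x) (S : Finset ι) (D : ι → Finset α)
    (hD : ∀ c ∈ S, ∀ P ∈ D c, b P ∉ D c) (w : ℝ) (hw : ∀ c ∈ S, (2 : ℝ) ^ (D c).card ≤ w) :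
    ∃ O : Set α, (∀ P ∈ O, b P ∉ O) ∧
      (S.card : ℝ) ≤ w * ((S.filter (fun c => ∀ P ∈ D c, P ∈ O)).card : ℝ) := by
  set h : α → Prop := fun P => WellOrderingRel P (b P) with hh
  have hhb : ∀ P, b P ≠ P → (h (b P) ↔ ¬ h P) := by
    intro P hP
    simp only [hh]
    rw [hb]
    constructor
    · intro h1 h2
      exact asymm h1 h2
    · intro h1
      rcases trichotomous_of (WellOrderingRel (α := α)) P (b P) with h2 | h2 | h2
      · exact absurd h2 h1
      · exact absurd h2.symm hP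
      · exact h2
  set rep : α → α := fun P => if h P then P else b P with hrep
  have hrepb : ∀ P, b P ≠ P → rep (b P) = rep P := by
    intro P hP
    simp only [hrep, hb]
    by_cases h1 : h P
    · rw [if_neg (by rw [hhb P hP]; exact not_not.2 h1), if_pos h1]
    · rw [if_pos ((hhb P hP).2 h1), if_neg h1]
  set T : Finset α := S.biUnion (fun c => D c ∪ (D c).image b) with hT
  set O : Finset α → Set α := fun A => {P | b P ≠ P ∧ (rep P ∈ A ↔ h P)} with hO
  have hOasym : ∀ A, ∀ P ∈ O A, b P ∉ O A := by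
    intro A P hP hbP
    obtain ⟨h1, h2⟩ := hP
    obtain ⟨-, h3⟩ := hbP
    rw [hrepb P h1, h2, hhb P h1] at h3
    exact (iff_not_self h3).elim
  have hne : ∀ c ∈ S, ∀ P ∈ D c, b P ≠ P := by
    intro c hc P hP h1
    exact hD c hc P hP (by rw [h1]; exact hP)
  -- the count for one element
  have hcount : ∀ c ∈ S, (T.powerset.filter (fun A => ∀ P ∈ D c, P ∈ O A)).card =
      2 ^ (T.card - (D c).card) ∧ (D c).card ≤ T.card := by
    intro c hc
    set X := (D c).filter h with hX
    set Y := ((D c).filter (fun P => ¬ h P)).image b with hY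
    have hDT : D c ⊆ T := by
      intro P hP
      rw [hT, Finset.mem_biUnion]
      exact ⟨c, hc, Finset.mem_union_left _ hP⟩
    have hXT : X ⊆ T := (Finset.filter_subset _ _).trans hDT
    have hYT : Y ⊆ T := by
      intro P hP
      rw [hT, Finset.mem_biUnion]
      refine ⟨c, hc, Finset.mem_union_right _ ?_⟩
      exact Finset.image_subset_image (Finset.filter_subset _ _) hP
    have hXY : X ⊆ T \ Y := by
      intro P hP
      rw [Finset.mem_sdiff]
      refine ⟨hXT hP, fun hPY => ?_⟩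
      obtain ⟨Q, hQ, rfl⟩ := Finset.mem_image.1 hPY
      exact hD c hc Q (Finset.mem_filter.1 hQ).1 (Finset.mem_filter.1 hP).1
    have hYc : Y.card = ((D c).filter (fun P => ¬ h P)).card := by
      rw [hY, Finset.card_image_of_injective]
      intro x y hxy
      rw [← hb x, ← hb y, hxy]
    have hsum : X.card + Y.card = (D c).card := by
      rw [hYc, hX]
      exact Finset.card_filter_add_card_filter_not _
    have hset : T.powerset.filter (fun A => ∀ P ∈ D c, P ∈ O A) = Finset.Icc X (T \ Y) := by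
      ext A
      rw [Finset.mem_filter, Finset.mem_powerset, Finset.mem_Icc]
      constructor
      · rintro ⟨hA, hA2⟩
        constructor
        · intro P hP
          obtain ⟨hP1, hP2⟩ := Finset.mem_filter.1 hP
          have h1 := (hA2 P hP1).2
          simp only [hrep] at h1
          rw [if_pos hP2] at h1
          exact h1.2 hP2
        · intro Q hQ
          rw [Finset.mem_sdiff]
          refine ⟨hA hQ, fun hQY => ?_⟩
          obtain ⟨P, hP, rfl⟩ := Finset.mem_image.1 hQY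
          obtain ⟨hP1, hP2⟩ := Finset.mem_filter.1 hP
          have h1 := (hA2 P hP1).2
          simp only [hrep] at h1
          rw [if_neg hP2] at h1
          exact hP2 (h1.1 hQ)
      · rintro ⟨hA1, hA2⟩
        refine ⟨fun x hx => (Finset.mem_sdiff.1 (hA2 hx)).1, fun P hP => ⟨hne c hc P hP, ?_⟩⟩
        simp only [hrep]
        by_cases h1 : h P
        · rw [if_pos h1]
          exact ⟨fun _ => h1, fun _ => hA1 (Finset.mem_filter.2 ⟨hP, h1⟩)⟩
        · rw [if_neg h1]
          refine ⟨fun h2 => ?_, fun h2 => absurd h2 h1⟩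
          exact absurd (Finset.mem_image.2 ⟨P, Finset.mem_filter.2 ⟨hP, h1⟩, rfl⟩)
            (Finset.mem_sdiff.1 (hA2 h2)).2
    constructor
    · rw [hset, Finset.card_Icc_finset hXY, Finset.card_sdiff_of_subset hYT, Nat.sub_sub,
        add_comm Y.card, hsum]
    · exact Finset.card_le_card hDT
  obtain ⟨A, -, hA⟩ : ∃ A ∈ T.powerset, (S.card : ℝ) ≤
      w * ((S.filter (fun c => ∀ P ∈ D c, P ∈ O A)).card : ℝ) := by
    apply Finset.exists_le_of_sum_le (Finset.powerset_nonempty T)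
    rw [Finset.sum_const, Finset.card_powerset, nsmul_eq_mul, ← Finset.mul_sum]
    have h1 : ∑ A ∈ T.powerset, ((S.filter (fun c => ∀ P ∈ D c, P ∈ O A)).card : ℝ) =
        ∑ c ∈ S, ((T.powerset.filter (fun A => ∀ P ∈ D c, P ∈ O A)).card : ℝ) := by
      simp only [Finset.card_filter, Nat.cast_sum]
      rw [Finset.sum_comm]
    rw [h1, Finset.mul_sum]
    calc ((2 ^ T.card : ℕ) : ℝ) * (S.card : ℝ) = ∑ _c ∈ S, (2 : ℝ) ^ T.card := by
          rw [Finset.sum_const, nsmul_eq_mul]
          push_cast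
          ring
      _ ≤ _ := by
          refine Finset.sum_le_sum fun c hc => ?_
          obtain ⟨h2, h3⟩ := hcount c hc
          rw [h2]
          push_cast
          calc (2 : ℝ) ^ T.card = 2 ^ (D c).card * 2 ^ (T.card - (D c).card) := by
                rw [← pow_add]
                congr 1
                omega
            _ ≤ w * 2 ^ (T.card - (D c).card) :=
                mul_le_mul_of_nonneg_right (hw c hc) (by positivity)
  refine ⟨O A, hOasym A, ?_⟩
  convert hA

end Ori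

open Ori in
theorem a_ori (h2 : A_BAR) : A_ORI := by
  intro R ω hQ S w hS hw
  classical
  have := hQ.qr.ded
  obtain ⟨-, -, hbb, hbmul, -, -, -, -, -, hbot, htop, hprime, hdvd, -⟩ := h2 R ω hQ
  have hfin : ∀ c : Ideal R, c ≠ ⊥ → {P : Ideal R | P.IsPrime ∧ P ≠ ⊥ ∧ P ∣ c}.Finite := by
    intro c hc
    have h1 := Ideal.finite_factors (R := R) (I := c) hc
    refine (h1.image (fun v => v.asIdeal)).subset ?_
    rintro P ⟨hP1, hP2, hP3⟩
    exact ⟨⟨P, hP1, hP2⟩, hP3, rfl⟩
  set D : Ideal R → Finset (Ideal R) := fun c =>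
    if hc : c ≠ ⊥ then (hfin c hc).toFinset else ∅ with hD
  have hmem : ∀ c : Ideal R, c ≠ ⊥ → ∀ P, P ∈ D c ↔ (P.IsPrime ∧ P ≠ ⊥ ∧ P ∣ c) := by
    intro c hc P
    simp only [hD]
    rw [dif_pos hc, Set.Finite.mem_toFinset]
    rfl
  have hcard : ∀ c : Ideal R, c ≠ ⊥ →
      Set.ncard {P : Ideal R | P.IsPrime ∧ P ≠ ⊥ ∧ P ∣ c} = (D c).card := by
    intro c hc
    simp only [hD]
    rw [dif_pos hc, Set.ncard_eq_toFinset_card _ (hfin c hc)]
  have hcop : ∀ (I P : Ideal R), IsCoprime I (bar I) → P.IsPrime → P ∣ I → P ∣ bar I → False := by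
    intro I P hI hP h3 h4
    rw [Ideal.isCoprime_iff_sup_eq] at hI
    have h5 : I ⊔ bar I ≤ P := sup_le (Ideal.dvd_iff_le.1 h3) (Ideal.dvd_iff_le.1 h4)
    rw [hI, top_le_iff] at h5
    exact hP.ne_top h5
  have hDb : ∀ c ∈ S, ∀ P ∈ D c, bar P ∉ D c := by
    intro c hc P hP hbP
    obtain ⟨hc1, hc2⟩ := hS c hc
    obtain ⟨hP1, hP2, hP3⟩ := (hmem c hc1 P).1 hP
    obtain ⟨-, -, hP4⟩ := (hmem c hc1 (bar P)).1 hbP
    refine hcop c P hc2 hP1 hP3 ?_
    rw [← hdvd, hbb]
    exact hP4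
  obtain ⟨O, hO1, hO2⟩ := orient bar hbb S D hDb w (fun c hc => by
    rw [← hcard c (hS c hc).1]
    exact hw c hc)
  refine ⟨S.filter (fun c => ∀ P ∈ D c, P ∈ O), Finset.filter_subset _ _, hO2, ?_⟩
  intro j g hg
  have hgne : ∀ i, g i ≠ ⊥ := fun i => (hS _ (Finset.mem_filter.1 (hg i)).1).1
  have hgO : ∀ i, ∀ P ∈ D (g i), P ∈ O := fun i => (Finset.mem_filter.1 (hg i)).2
  have hne : ∏ i, g i ≠ ⊥ := by
    have : ∏ i, g i ≠ 0 := Finset.prod_ne_zero_iff.2 fun i _ => hgne i
    exact this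
  refine ⟨hne, ?_⟩
  rw [Ideal.isCoprime_iff_sup_eq]
  by_contra hcon
  obtain ⟨P, hPmax, hPle⟩ := Ideal.exists_le_maximal _ hcon
  have hPp : P.IsPrime := hPmax.isPrime
  have hP1 : ∏ i, g i ≤ P := le_sup_left.trans hPle
  have hP2 : bar (∏ i, g i) ≤ P := le_sup_right.trans hPle
  have hPne : P ≠ ⊥ := by
    intro h
    rw [h, le_bot_iff] at hP1
    exact hne hP1
  have hfac : ∀ Q : Ideal R, Q.IsPrime → Q ≠ ⊥ → Q ∣ ∏ i, g i → Q ∈ O := by
    intro Q hQp hQne hQd
    have h3 := (Ideal.IsPrime.prod_le hQp).1 (Ideal.dvd_iff_le.1 hQd)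
    obtain ⟨i, -, hi⟩ := h3
    exact hgO i Q ((hmem _ (hgne i) Q).2 ⟨hQp, hQne, Ideal.dvd_iff_le.2 hi⟩)
  have hPO : P ∈ O := hfac P hPp hPne (Ideal.dvd_iff_le.2 hP1)
  have hbPO : bar P ∈ O := by
    refine hfac (bar P) (hprime P hPp) ?_ ?_
    · intro h
      apply hPne
      rw [← hbb P, h, hbot]
    · rw [← hdvd, hbb]
      exact Ideal.dvd_iff_le.2 hP2
  exact hO1 P hPO hbPO

end Pool.Agent.TH936.AC
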