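import Pool.Agent.TH936.AC.Stmts

/-!
AC-PROD (project AC of helper936): divisibility by squarefree products of split primes and the
product formula.
-/

set_option autoImplicit false

namespace Pool.Agent.TH936.AC.Prd

open Pool.Agent.W192.HK

/-! ### the sum over pairs of subsets -/

theorem sum_powerset (S : Finset ℕ) (a b : ℕ → ℝ) :
    ∑ B ∈ S.powerset, ∏ p ∈ S, (if p ∈ B then a p else b p) = ∏ p ∈ S, (a p + b p) := by
  classical
  rw [Finset.prod_add]
  apply Finset.sum_congr rfl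
  intro B hB
  rw [Finset.mem_powerset] at hB
  rw [Finset.prod_ite]
  congr 1
  · apply Finset.prod_congr _ fun _ _ => rfl
    ext p
    simp only [Finset.mem_filter]
    exact ⟨fun h => h.2, fun h => ⟨hB h, h⟩⟩
  · apply Finset.prod_congr _ fun _ _ => rfl
    ext p
    simp only [Finset.mem_filter, Finset.mem_sdiff]

theorem sum_pairs (S : Finset ℕ) (φ : ℕ → Bool → Bool → ℝ) :
    ∑ b ∈ S.powerset ×ˢ S.powerset, ∏ p ∈ S, φ p (decide (p ∈ b.1)) (decide (p ∈ b.2)) =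
      ∏ p ∈ S, ((φ p true true + φ p true false) + (φ p false true + φ p false false)) := by
  classical
  rw [Finset.sum_product]
  rw [← sum_powerset]
  apply Finset.sum_congr rfl
  intro A _
  have h1 := sum_powerset S (fun p => φ p (decide (p ∈ A)) true) (fun p => φ p (decide (p ∈ A)) false)
  have h2 : ∀ B ∈ S.powerset, ∏ p ∈ S, φ p (decide (p ∈ A)) (decide (p ∈ B)) =
      ∏ p ∈ S, (if p ∈ B then φ p (decide (p ∈ A)) true else φ p (decide (p ∈ A)) false) := by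
    intro B _
    apply Finset.prod_congr rfl
    intro p _
    by_cases h : p ∈ B <;> simp [h]
  rw [Finset.sum_congr rfl h2, h1]
  apply Finset.prod_congr rfl
  intro p _
  by_cases h : p ∈ A <;> simp [h]

theorem prod_dvd_nat (S : Finset ℕ) (g : ℕ → ℕ) (hg : ∀ p ∈ S, p.Prime ∧ (g p = 1 ∨ g p = p))
    (m : ℕ) : ∏ p ∈ S, g p ∣ m ↔ ∀ p ∈ S, g p ∣ m := by
  constructor
  · intro h p hp
    exact (Finset.dvd_prod_of_mem g hp).trans h
  · intro h
    apply Finset.prod_dvd_of_isRelPrime _ h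
    intro p hp r hr hpr
    rw [Function.onFun, ← Nat.coprime_iff_isRelPrime]
    obtain ⟨h1, h2⟩ := hg p hp
    obtain ⟨h3, h4⟩ := hg r hr
    rcases h2 with h2 | h2 <;> rcases h4 with h4 | h4 <;> rw [h2, h4]
    · exact Nat.coprime_one_right _
    · exact Nat.coprime_one_left _
    · exact Nat.coprime_one_right _
    · exact (Nat.coprime_primes h1 h3).2 hpr

variable {R : Subring ℂ} {ω : ℂ}

theorem sp_nat_ne (p : ℕ) (hp : p ≠ 0) : sp (p : R) ≠ (⊥ : Ideal R) := by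
  intro h
  rw [Ideal.span_singleton_eq_bot] at h
  have : ((p : R) : ℂ) = 0 := by rw [h]; rfl
  rw [Subring.coe_natCast] at this
  exact hp (by exact_mod_cast this)

theorem mem_SP {f : Ideal R} {y : ℝ} {p : ℕ} (hp : p ∈ SP f y) : p.Prime ∧ IsPP f p (PP f p) := by
  classical
  unfold SP at hp
  rw [Finset.mem_filter] at hp
  obtain ⟨-, h1, h2⟩ := hp
  refine ⟨h1, ?_⟩
  unfold PP
  rw [dif_pos h2]
  exact Classical.choose_spec h2

/-- All facts on the two primes above a split prime. -/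
theorem facts (hB : H_BASIC) (hA : A_BAR) (hR : QP R ω) {f P : Ideal R} {p : ℕ} (hp : p.Prime)
    (hP : IsPP f p P) :
    P ≠ ⊥ ∧ bar P ≠ ⊥ ∧ (bar P).IsPrime ∧ nm P = p ∧ nm (bar P) = p ∧ IsCoprime P f ∧
      IsCoprime (bar P) f ∧ bar (bar P) = P := by
  obtain ⟨h1, h2, h3, h4⟩ := hP
  obtain ⟨-, -, hbb, -, -, -, -, hnm, -, -, -, hpr, -⟩ := hA R ω hR
  have hne : sp (p : R) ≠ (⊥ : Ideal R) := sp_nat_ne p hp.ne_zero
  have hP0 : P ≠ ⊥ := by
    rintro rfl
    apply hne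
    rw [← h2, Ideal.bot_mul]
  have hP1 : bar P ≠ ⊥ := by
    intro h
    apply hne
    rw [← h2, h, Ideal.mul_bot]
  obtain ⟨-, -, -, hmul, hsp, -, -, -, -⟩ := hB R ω hR.qr
  have h5 : nm P * nm P = (p : ℝ) * p := by
    have := hmul P (bar P)
    rw [h2, hsp, hnm P, Subring.coe_natCast, Complex.normSq_natCast] at this
    exact this.symm
  have h6 : nm P = p := by
    have a1 : 0 ≤ nm P := Nat.cast_nonneg _
    have a2 : (0 : ℝ) ≤ p := Nat.cast_nonneg _
    exact (mul_self_inj a1 a2).1 h5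
  rw [← h2] at h4
  exact ⟨hP0, hP1, hpr P h1, h6, by rw [hnm P, h6], h4.of_mul_left_left, h4.of_mul_left_right,
    hbb P⟩

theorem eq_of_dvd [IsDedekindDomain R] {P Q : Ideal R} (hP : P.IsPrime) (hQ : Q.IsPrime)
    (hQ0 : Q ≠ ⊥) (h : P ∣ Q) : P = Q := by
  have h1 : Q ≤ P := Ideal.le_of_dvd h
  exact ((hQ.isMaximal hQ0).eq_of_le hP.ne_top h1).symm

theorem coprime_of_ne [IsDedekindDomain R] {P Q : Ideal R} (hP : P.IsPrime) (hP0 : P ≠ ⊥)
    (hQ : Q.IsPrime) (hQ0 : Q ≠ ⊥) (h : P ≠ Q) : IsCoprime P Q := by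
  rw [Ideal.isCoprime_iff_sup_eq]
  exact Ideal.IsMaximal.coprime_of_ne (hP.isMaximal hP0) (hQ.isMaximal hQ0) h

theorem dvd_mul_iff [IsDedekindDomain R] {P I J : Ideal R} (hP : P.IsPrime) (hP0 : P ≠ ⊥) :
    P ∣ I * J ↔ P ∣ I ∨ P ∣ J :=
  (Ideal.prime_of_isPrime hP0 hP).dvd_mul

theorem nat_mem {P : Ideal R} {p m : ℕ} (hp : p.Prime) (hP : P.IsPrime) (hpP : (p : R) ∈ P) :
    (m : R) ∈ P ↔ p ∣ m := by
  constructor
  · intro h
    by_contra hc
    have h1 : Nat.Coprime p m := (Nat.Prime.coprime_iff_not_dvd hp).2 hc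
    have h2 : IsCoprime (p : ℤ) (m : ℤ) := Nat.isCoprime_iff_coprime.2 h1
    obtain ⟨a, b, hab⟩ := h2
    have h3 : ((a : R)) * (p : R) + (b : R) * (m : R) = 1 := by
      exact_mod_cast congrArg (Int.cast : ℤ → R) hab
    apply hP.ne_top
    rw [Ideal.eq_top_iff_one, ← h3]
    exact P.add_mem (P.mul_mem_left _ hpP) (P.mul_mem_left _ h)
  · rintro ⟨k, rfl⟩
    push_cast
    exact P.mul_mem_right _ hpP

theorem dvd_sp_iff {P : Ideal R} [IsDedekindDomain R] {p m : ℕ} (hp : p.Prime) (hP : P.IsPrime)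
    (hpP : (p : R) ∈ P) : P ∣ sp (m : R) ↔ p ∣ m := by
  rw [Ideal.dvd_span_singleton, nat_mem hp hP hpP]

theorem nm_prod (hB : H_BASIC) (hR : QP R ω) (S : Finset ℕ) (F : ℕ → Ideal R)
    (h : ∀ p ∈ S, nm (F p) = p) : nm (∏ p ∈ S, F p) = ((∏ p ∈ S, p : ℕ) : ℝ) := by
  classical
  obtain ⟨-, -, -, hmul, -, -, h1, -, -⟩ := hB R ω hR.qr
  induction S using Finset.induction_on with
  | empty =>
    simp only [Finset.prod_empty, Nat.cast_one]
    exact (h1 1).2 Ideal.one_eq_top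
  | insert a s ha ih =>
    rw [Finset.prod_insert ha, Finset.prod_insert ha, hmul, h a (Finset.mem_insert_self _ _),
      ih (fun p hp => h p (Finset.mem_insert_of_mem hp))]
    push_cast
    ring

/-- A prime ideal above `p` dividing the ideal of the pair `b`. -/
theorem dvd_mB (hB : H_BASIC) (hA : A_BAR) (hR : QP R ω) {f : Ideal R} {y : ℝ}
    {b : Finset ℕ × Finset ℕ} (hb : b ∈ (SP f y).powerset ×ˢ (SP f y).powerset) {p : ℕ}
    (hp : p ∈ SP f y) :
    (PP f p ∣ mB f b ↔ p ∈ b.1) ∧ (bar (PP f p) ∣ mB f b ↔ p ∈ b.2) := by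
  have := hR.qr.ded
  rw [Finset.mem_product, Finset.mem_powerset, Finset.mem_powerset] at hb
  obtain ⟨hp1, hp2⟩ := mem_SP hp
  obtain ⟨f1, f2, f3, f4, f5, -, -, f8⟩ := facts hB hA hR hp1 hp2
  have key : ∀ (Q : Ideal R), Q.IsPrime → Q ≠ ⊥ → Q ∣ mB f b →
      (∃ r ∈ b.1, Q = PP f r) ∨ ∃ r ∈ b.2, Q = bar (PP f r) := by
    intro Q hQ hQ0 h
    have hprime := Ideal.prime_of_isPrime hQ0 hQ
    rcases hprime.dvd_mul.1 h with h | h
    · left
      obtain ⟨r, hr, h⟩ := hprime.exists_mem_finset_dvd h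
      obtain ⟨hr1, hr2⟩ := mem_SP (hb.1 hr)
      exact ⟨r, hr, eq_of_dvd hQ hr2.1 (facts hB hA hR hr1 hr2).1 h⟩
    · right
      obtain ⟨r, hr, h⟩ := hprime.exists_mem_finset_dvd h
      obtain ⟨hr1, hr2⟩ := mem_SP (hb.2 hr)
      obtain ⟨-, g2, g3, -⟩ := facts hB hA hR hr1 hr2
      exact ⟨r, hr, eq_of_dvd hQ g3 g2 h⟩
  constructor
  · constructor
    · intro h
      rcases key _ hp2.1 f1 h with ⟨r, hr, e⟩ | ⟨r, hr, e⟩
      · obtain ⟨hr1, hr2⟩ := mem_SP (hb.1 hr)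
        have g4 := (facts hB hA hR hr1 hr2).2.2.2.1
        rw [← e, f4] at g4
        have : p = r := by exact_mod_cast g4
        rw [this]; exact hr
      · obtain ⟨hr1, hr2⟩ := mem_SP (hb.2 hr)
        have g5 := (facts hB hA hR hr1 hr2).2.2.2.2.1
        rw [← e, f4] at g5
        have : p = r := by exact_mod_cast g5
        subst this
        exact absurd e hp2.2.2.1
    · intro h
      exact (Finset.dvd_prod_of_mem _ h).trans (dvd_mul_right _ _)
  · constructor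
    · intro h
      rcases key _ f3 f2 h with ⟨r, hr, e⟩ | ⟨r, hr, e⟩
      · obtain ⟨hr1, hr2⟩ := mem_SP (hb.1 hr)
        have g4 := (facts hB hA hR hr1 hr2).2.2.2.1
        rw [← e, f5] at g4
        have : p = r := by exact_mod_cast g4
        subst this
        exact absurd e.symm hp2.2.2.1
      · obtain ⟨hr1, hr2⟩ := mem_SP (hb.2 hr)
        have g5 := (facts hB hA hR hr1 hr2).2.2.2.2.1
        rw [← e, f5] at g5
        have : p = r := by exact_mod_cast g5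
        rw [this]; exact hr
    · intro h
      exact (Finset.dvd_prod_of_mem (fun p => bar (PP f p)) h).trans (dvd_mul_left _ _)

theorem part1 (hB : H_BASIC) (hA : A_BAR) (hR : QP R ω) {f : Ideal R} {y : ℝ}
    {b : Finset ℕ × Finset ℕ} (hb : b ∈ (SP f y).powerset ×ˢ (SP f y).powerset) :
    nm (mB f b) = nB b ∧ mB f b ≠ ⊥ ∧ IsCoprime (mB f b) f := by
  have := hR.qr.ded
  rw [Finset.mem_product, Finset.mem_powerset, Finset.mem_powerset] at hb
  have h1 : nm (mB f b) = nB b := by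
    unfold mB nB
    rw [(hB R ω hR.qr).2.2.2.1, nm_prod hB hR b.1 _ (fun p hp => by
      obtain ⟨hp1, hp2⟩ := mem_SP (hb.1 hp)
      exact (facts hB hA hR hp1 hp2).2.2.2.1), nm_prod hB hR b.2 _ (fun p hp => by
      obtain ⟨hp1, hp2⟩ := mem_SP (hb.2 hp)
      exact (facts hB hA hR hp1 hp2).2.2.2.2.1)]
    push_cast
    ring
  refine ⟨h1, ?_, ?_⟩
  · intro h
    rw [h, (hB R ω hR.qr).2.1] at h1
    have h2 : nB b ≠ 0 := by
      unfold nB
      apply mul_ne_zero
      · exact Finset.prod_ne_zero_iff.2 fun p hp => (mem_SP (hb.1 hp)).1.ne_zero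
      · exact Finset.prod_ne_zero_iff.2 fun p hp => (mem_SP (hb.2 hp)).1.ne_zero
    exact h2 (by exact_mod_cast h1.symm)
  · unfold mB
    apply IsCoprime.mul_left
    · apply IsCoprime.prod_left
      intro p hp
      obtain ⟨hp1, hp2⟩ := mem_SP (hb.1 hp)
      exact (facts hB hA hR hp1 hp2).2.2.2.2.2.1
    · apply IsCoprime.prod_left
      intro p hp
      obtain ⟨hp1, hp2⟩ := mem_SP (hb.2 hp)
      exact (facts hB hA hR hp1 hp2).2.2.2.2.2.2.1

theorem part2 (hB : H_BASIC) (hA : A_BAR) (hR : QP R ω) {f : Ideal R} {y : ℝ}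
    {b b' : Finset ℕ × Finset ℕ} (hb : b ∈ (SP f y).powerset ×ˢ (SP f y).powerset)
    (hb' : b' ∈ (SP f y).powerset ×ˢ (SP f y).powerset) (h : mB f b = mB f b') : b = b' := by
  have hb1 := Finset.mem_product.1 hb
  have hb2 := Finset.mem_product.1 hb'
  rw [Finset.mem_powerset, Finset.mem_powerset] at hb1 hb2
  apply Prod.ext
  · ext p
    constructor
    · intro hp
      have := (dvd_mB hB hA hR hb (hb1.1 hp)).1.2 hp
      rw [h] at this
      exact (dvd_mB hB hA hR hb' (hb1.1 hp)).1.1 this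
    · intro hp
      have := (dvd_mB hB hA hR hb' (hb2.1 hp)).1.2 hp
      rw [← h] at this
      exact (dvd_mB hB hA hR hb (hb2.1 hp)).1.1 this
  · ext p
    constructor
    · intro hp
      have := (dvd_mB hB hA hR hb (hb1.2 hp)).2.2 hp
      rw [h] at this
      exact (dvd_mB hB hA hR hb' (hb1.2 hp)).2.1 this
    · intro hp
      have := (dvd_mB hB hA hR hb' (hb2.2 hp)).2.2 hp
      rw [← h] at this
      exact (dvd_mB hB hA hR hb (hb2.2 hp)).2.1 this

/-- The ideal of the pair divides `J` iff all its factors do. -/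
theorem mB_dvd (hB : H_BASIC) (hA : A_BAR) (hR : QP R ω) {f : Ideal R} {y : ℝ}
    {b : Finset ℕ × Finset ℕ} (hb : b ∈ (SP f y).powerset ×ˢ (SP f y).powerset) (J : Ideal R) :
    mB f b ∣ J ↔ (∀ p ∈ b.1, PP f p ∣ J) ∧ ∀ p ∈ b.2, bar (PP f p) ∣ J := by
  have := hR.qr.ded
  rw [Finset.mem_product, Finset.mem_powerset, Finset.mem_powerset] at hb
  constructor
  · intro h
    exact ⟨fun p hp => ((Finset.dvd_prod_of_mem _ hp).trans (dvd_mul_right _ _)).trans h,
      fun p hp => ((Finset.dvd_prod_of_mem (fun p => bar (PP f p)) hp).trans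
        (dvd_mul_left _ _)).trans h⟩
  · rintro ⟨h1, h2⟩
    unfold mB
    apply IsCoprime.mul_dvd
    · apply IsCoprime.prod_left
      intro p hp
      apply IsCoprime.prod_right
      intro r hr
      obtain ⟨hp1, hp2⟩ := mem_SP (hb.1 hp)
      obtain ⟨hr1, hr2⟩ := mem_SP (hb.2 hr)
      obtain ⟨f1, -, -, f4, -⟩ := facts hB hA hR hp1 hp2
      obtain ⟨-, g2, g3, -, g5, -⟩ := facts hB hA hR hr1 hr2
      apply coprime_of_ne hp2.1 f1 g3 g2
      intro e
      rw [← e, f4] at g5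
      have : p = r := by exact_mod_cast g5
      subst this
      exact hp2.2.2.1 e
    · apply Finset.prod_dvd_of_coprime _ h1
      intro p hp r hr hpr
      obtain ⟨hp1, hp2⟩ := mem_SP (hb.1 hp)
      obtain ⟨hr1, hr2⟩ := mem_SP (hb.1 hr)
      obtain ⟨f1, -, -, f4, -⟩ := facts hB hA hR hp1 hp2
      obtain ⟨g1, -, -, g4, -⟩ := facts hB hA hR hr1 hr2
      apply coprime_of_ne hp2.1 f1 hr2.1 g1
      intro e
      rw [← e, f4] at g4
      exact hpr (by exact_mod_cast g4)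
    · apply Finset.prod_dvd_of_coprime _ h2
      intro p hp r hr hpr
      obtain ⟨hp1, hp2⟩ := mem_SP (hb.2 hp)
      obtain ⟨hr1, hr2⟩ := mem_SP (hb.2 hr)
      obtain ⟨-, f2, f3, -, f5, -⟩ := facts hB hA hR hp1 hp2
      obtain ⟨-, g2, g3, -, g5, -⟩ := facts hB hA hR hr1 hr2
      apply coprime_of_ne f3 f2 g3 g2
      intro e
      rw [← e, f5] at g5
      exact hpr (by exact_mod_cast g5)

theorem not_both (hA : A_BAR) (hR : QP R ω) {P c : Ideal R} (hP : P.IsPrime) (hc : Pri c)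
    (h1 : P ∣ c) (h2 : bar P ∣ c) : False := by
  obtain ⟨-, -, hbb, -, -, -, -, -, -, -, -, -, hdv, -⟩ := hA R ω hR
  have h3 : P ∣ bar c := by
    have := (hdv (bar P) c).2 h2
    rwa [hbb] at this
  have h4 := hc.2
  rw [Ideal.isCoprime_iff_sup_eq] at h4
  apply hP.ne_top
  rw [eq_top_iff, ← h4]
  exact sup_le (Ideal.le_of_dvd h1) (Ideal.le_of_dvd h3)

theorem mem_both {f P : Ideal R} {p : ℕ} (hP : IsPP f p P) :
    (p : R) ∈ P ∧ (p : R) ∈ bar P := by
  obtain ⟨-, h2, -, -⟩ := hP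
  have h : ((p : ℕ) : R) ∈ sp ((p : ℕ) : R) := Ideal.mem_span_singleton_self _
  have h3 : sp ((p : ℕ) : R) ≤ P := by rw [← h2]; exact Ideal.mul_le_left
  have h4 : sp ((p : ℕ) : R) ≤ bar P := by rw [← h2]; exact Ideal.mul_le_right
  exact ⟨h3 h, h4 h⟩

theorem mloc_cases (f c : Ideal R) (b : Finset ℕ × Finset ℕ) (p : ℕ) :
    mloc f c b p = 1 ∨ mloc f c b p = p := by
  unfold mloc
  split_ifs <;> simp

theorem part3 (hB : H_BASIC) (hA : A_BAR) (hR : QP R ω) {f : Ideal R} {y : ℝ}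
    {c : Ideal R} (hc : Pri c)
    {b : Finset ℕ × Finset ℕ} (hb : b ∈ (SP f y).powerset ×ˢ (SP f y).powerset) (m : ℕ) :
    mB f b ∣ sp (m : R) * c ↔ mc f y c b ∣ m := by
  have := hR.qr.ded
  rw [mB_dvd hB hA hR hb]
  unfold mc
  rw [prod_dvd_nat _ _ (fun p hp => ⟨(mem_SP hp).1, mloc_cases f c b p⟩)]
  rw [Finset.mem_product, Finset.mem_powerset, Finset.mem_powerset] at hb
  have hmem : ∀ p ∈ SP f y, (p : R) ∈ PP f p ∧ (p : R) ∈ bar (PP f p) := by
    intro p hp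
    obtain ⟨hp1, hp2⟩ := mem_SP hp
    exact mem_both hp2
  have hd1 : ∀ p ∈ SP f y, (PP f p ∣ sp (m : R) * c ↔ p ∣ m ∨ PP f p ∣ c) := by
    intro p hp
    obtain ⟨hp1, hp2⟩ := mem_SP hp
    obtain ⟨f1, -⟩ := facts hB hA hR hp1 hp2
    rw [dvd_mul_iff hp2.1 f1, dvd_sp_iff hp1 hp2.1 (hmem p hp).1]
  have hd2 : ∀ p ∈ SP f y, (bar (PP f p) ∣ sp (m : R) * c ↔ p ∣ m ∨ bar (PP f p) ∣ c) := by
    intro p hp
    obtain ⟨hp1, hp2⟩ := mem_SP hp
    obtain ⟨-, f2, f3, -⟩ := facts hB hA hR hp1 hp2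
    rw [dvd_mul_iff f3 f2, dvd_sp_iff hp1 f3 (hmem p hp).2]
  constructor
  · rintro ⟨h1, h2⟩ p hp
    unfold mloc
    split_ifs with c1 c2 c3 c4 c5
    · rcases (hd1 p hp).1 (h1 p c1.1) with h | h
      · exact h
      rcases (hd2 p hp).1 (h2 p c1.2) with h' | h'
      · exact h'
      exact (not_both hA hR (mem_SP hp).2.1 hc h h').elim
    · exact one_dvd _
    · exact ((hd1 p hp).1 (h1 p c2)).resolve_right c3
    · exact one_dvd _
    · exact ((hd2 p hp).1 (h2 p c4)).resolve_right c5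
    · exact one_dvd _
  · intro h
    constructor
    · intro p hp
      have hp' := hb.1 hp
      rw [hd1 p hp']
      have h3 := h p hp'
      unfold mloc at h3
      by_cases c2 : p ∈ b.2
      · rw [if_pos ⟨hp, c2⟩] at h3
        exact Or.inl h3
      · rw [if_neg (fun e => c2 e.2), if_pos hp] at h3
        by_cases c3 : PP f p ∣ c
        · exact Or.inr c3
        · rw [if_neg c3] at h3
          exact Or.inl h3
    · intro p hp
      have hp' := hb.2 hp
      rw [hd2 p hp']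
      have h3 := h p hp'
      unfold mloc at h3
      by_cases c2 : p ∈ b.1
      · rw [if_pos ⟨c2, hp⟩] at h3
        exact Or.inl h3
      · rw [if_neg (fun e => c2 e.1), if_neg c2, if_pos hp] at h3
        by_cases c3 : bar (PP f p) ∣ c
        · exact Or.inr c3
        · rw [if_neg c3] at h3
          exact Or.inl h3

theorem part4 (hB : H_BASIC) (hA : A_BAR) (hR : QP R ω) {f : Ideal R} {y : ℝ}
    {c : Ideal R} (hc : Pri c)
    {b : Finset ℕ × Finset ℕ} (hb : b ∈ (SP f y).powerset ×ˢ (SP f y).powerset) :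
    (∏ p ∈ b.1 ∪ b.2, (p : ℝ)) ≤ mc f y c b * nm c := by
  classical
  have := hR.qr.ded
  rw [Finset.mem_product, Finset.mem_powerset, Finset.mem_powerset] at hb
  have hsub : b.1 ∪ b.2 ⊆ SP f y := Finset.union_subset hb.1 hb.2
  have hmc : mc f y c b = ∏ p ∈ b.1 ∪ b.2, mloc f c b p := by
    unfold mc
    symm
    apply Finset.prod_subset hsub
    intro p _ hp
    rw [Finset.mem_union, not_or] at hp
    unfold mloc
    rw [if_neg (fun e => hp.1 e.1), if_neg hp.1, if_neg hp.2]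
  obtain ⟨D, hD⟩ : ∃ D : Finset ℕ, D = (b.1 ∪ b.2).filter (fun p => mloc f c b p = 1) := ⟨_, rfl⟩
  have hDsub : D ⊆ SP f y := by
    rw [hD]; exact (Finset.filter_subset _ _).trans hsub
  have hQ : ∀ p ∈ D, PP f p ∣ c ∨ bar (PP f p) ∣ c := by
    intro p hp
    rw [hD, Finset.mem_filter, Finset.mem_union] at hp
    have h1 := hp.2
    have hp1 : p.Prime := (mem_SP (hsub (Finset.mem_union.2 hp.1))).1
    unfold mloc at h1
    split_ifs at h1 with c1 c2 c3 c4 c5
    · exact absurd h1 hp1.ne_one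
    · exact Or.inl c3
    · exact absurd h1 hp1.ne_one
    · exact Or.inr c5
    · exact absurd h1 hp1.ne_one
    · exact (hp.1.elim c2 c4).elim
  obtain ⟨Q, hQd⟩ : ∃ Q : ℕ → Ideal R, Q = fun p => if PP f p ∣ c then PP f p else bar (PP f p) :=
    ⟨_, rfl⟩
  have hQ1 : ∀ p ∈ D, Q p ∣ c ∧ (Q p).IsPrime ∧ Q p ≠ ⊥ ∧ nm (Q p) = p := by
    intro p hp
    obtain ⟨hp1, hp2⟩ := mem_SP (hDsub hp)
    obtain ⟨f1, f2, f3, f4, f5, -⟩ := facts hB hA hR hp1 hp2
    rw [hQd]
    dsimp only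
    split_ifs with h
    · exact ⟨h, hp2.1, f1, f4⟩
    · exact ⟨(hQ p hp).resolve_left h, f3, f2, f5⟩
  have hdiv : ∏ p ∈ D, Q p ∣ c := by
    apply Finset.prod_dvd_of_coprime _ (fun p hp => (hQ1 p hp).1)
    intro p hp r hr hpr
    obtain ⟨-, a1, a2, a3⟩ := hQ1 p hp
    obtain ⟨-, b1, b2, b3⟩ := hQ1 r hr
    apply coprime_of_ne a1 a2 b1 b2
    intro e
    rw [← e, a3] at b3
    exact hpr (by exact_mod_cast b3)
  have hle : ((∏ p ∈ D, p : ℕ) : ℝ) ≤ nm c := by
    rw [← nm_prod hB hR D Q (fun p hp => (hQ1 p hp).2.2.2)]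
    exact (hB R ω hR.qr).2.2.2.2.2.1 c _ hc.1 hdiv
  have hsplit : (∏ p ∈ b.1 ∪ b.2, (p : ℝ)) = (mc f y c b : ℝ) * ((∏ p ∈ D, p : ℕ) : ℝ) := by
    rw [hmc, hD]
    push_cast
    rw [Finset.prod_filter, ← Finset.prod_mul_distrib]
    apply Finset.prod_congr rfl
    intro p _
    by_cases h : mloc f c b p = 1
    · rw [if_pos h, h]; simp
    · rw [if_neg h, (mloc_cases f c b p).resolve_left h]; simp
  rw [hsplit]
  exact mul_le_mul_of_nonneg_left hle (Nat.cast_nonneg _)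

open Classical in
theorem part5 (hA : A_BAR) (hR : QP R ω) {f : Ideal R} {y : ℝ}
    {c : Ideal R} (hc : Pri c) :
    ∑ b ∈ (SP f y).powerset ×ˢ (SP f y).powerset, (sB b : ℝ) / mc f y c b = dl f y c := by
  obtain ⟨φ, hφ⟩ : ∃ φ : ℕ → Bool → Bool → ℝ, φ = fun p s t =>
      if s then (if t then 1 / (p : ℝ) else -(1 / (if PP f p ∣ c then 1 else (p : ℝ))))
      else (if t then -(1 / (if bar (PP f p) ∣ c then 1 else (p : ℝ))) else 1) := ⟨_, rfl⟩
  have hterm : ∀ b ∈ (SP f y).powerset ×ˢ (SP f y).powerset, (sB b : ℝ) / mc f y c b =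
      ∏ p ∈ SP f y, φ p (decide (p ∈ b.1)) (decide (p ∈ b.2)) := by
    intro b hb
    rw [Finset.mem_product, Finset.mem_powerset, Finset.mem_powerset] at hb
    have h1 : (sB b : ℝ) = ∏ p ∈ SP f y, ((if p ∈ b.1 then (-1 : ℝ) else 1) *
        (if p ∈ b.2 then (-1 : ℝ) else 1)) := by
      rw [Finset.prod_mul_distrib, Finset.prod_ite_mem, Finset.prod_ite_mem,
        Finset.inter_eq_right.2 hb.1, Finset.inter_eq_right.2 hb.2, Finset.prod_const,
        Finset.prod_const]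
      unfold sB
      push_cast
      rw [pow_add]
    have h2 : (mc f y c b : ℝ) = ∏ p ∈ SP f y, (mloc f c b p : ℝ) := by
      unfold mc; push_cast; rfl
    rw [h1, h2, ← Finset.prod_div_distrib]
    apply Finset.prod_congr rfl
    intro p _
    rw [hφ]
    unfold mloc
    by_cases c1 : p ∈ b.1 <;> by_cases c2 : p ∈ b.2 <;> by_cases c3 : PP f p ∣ c <;>
      by_cases c4 : bar (PP f p) ∣ c <;> simp [c1, c2, c3, c4, neg_div]
  rw [Finset.sum_congr rfl hterm, sum_pairs]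
  unfold dl
  split_ifs with h
  · apply Finset.prod_congr rfl
    intro p hp
    obtain ⟨h1, h2⟩ := h p hp
    rw [hφ]
    simp [h1, h2]
    ring
  · push Not at h
    obtain ⟨p, hp, h1⟩ := h
    apply Finset.prod_eq_zero hp
    rw [hφ]
    by_cases c3 : PP f p ∣ c
    · have c4 : ¬ bar (PP f p) ∣ c := fun c4 => not_both hA hR (mem_SP hp).2.1 hc c3 c4
      simp only [if_true, if_false, Bool.false_eq_true, c3, c4]
      ring
    · have c4 : bar (PP f p) ∣ c := h1 c3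
      simp only [if_true, if_false, Bool.false_eq_true, c3, c4]
      ring

end Pool.Agent.TH936.AC.Prd

namespace Pool.Agent.TH936.AC

open Pool.Agent.W192.HK

theorem a_prod (h1 : H_BASIC) (h2 : A_BAR) : A_PROD := by
  intro R ω hR f y _
  refine ⟨fun b hb => Prd.part1 h1 h2 hR hb,
    fun b hb b' hb' h => Prd.part2 h1 h2 hR hb hb' h, fun c hc => ⟨fun b hb =>
      ⟨fun m => Prd.part3 h1 h2 hR hc hb m, Prd.part4 h1 h2 hR hc hb⟩, ?_⟩⟩
  exact Prd.part5 h2 hR hc

end Pool.Agent.TH936.AC
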