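import Pool.Agent.TH936.AC.Defs

/-!
# Parts of the project AC (owner helper936): every `def A_... : Prop` is the statement of one part
-/

set_option autoImplicit false

open Complex

namespace Pool.Agent.TH936.AC

open Pool.Agent.W192.HK

/-- BAR : basic facts on the conjugate ideal -/
def A_BAR : Prop := ∀ (R : Subring ℂ) (ω : ℂ), QP R ω →
  (∀ z : R, ∃ w : R, (w : ℂ) = (starRingEnd ℂ) (z : ℂ)) ∧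
  (∀ (I : Ideal R) (z w : R), (w : ℂ) = (starRingEnd ℂ) (z : ℂ) → (z ∈ bar I ↔ w ∈ I)) ∧
  (∀ I : Ideal R, bar (bar I) = I) ∧
  (∀ I J : Ideal R, bar (I * J) = bar I * bar J) ∧
  (∀ I J : Ideal R, bar (I ⊔ J) = bar I ⊔ bar J) ∧
  (∀ z w : R, (w : ℂ) = (starRingEnd ℂ) (z : ℂ) → bar (sp z) = sp w) ∧
  (∀ m : ℕ, bar (sp (m : R)) = sp (m : R)) ∧
  (∀ I : Ideal R, nm (bar I) = nm I) ∧
  (∀ I : Ideal R, I ≠ ⊥ → I * bar I = sp ((Nat.card (R ⧸ I) : ℕ) : R)) ∧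
  bar (⊥ : Ideal R) = ⊥ ∧ bar (⊤ : Ideal R) = ⊤ ∧
  (∀ P : Ideal R, P.IsPrime → (bar P).IsPrime) ∧
  (∀ I J : Ideal R, bar I ∣ bar J ↔ I ∣ J) ∧
  (∀ I J : Ideal R, IsCoprime (bar I) (bar J) ↔ IsCoprime I J)

open Classical in
/-- DEC : every nonzero ideal prime to `f` is `(m) c` with `c` primitive, in exactly one way -/
def A_DEC : Prop := ∀ (R : Subring ℂ) (ω : ℂ), QP R ω →
  (∀ c : Ideal R, Pri c → ∀ m : ℕ, 2 ≤ m → ¬ sp (m : R) ∣ c) ∧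
  ∀ f : Ideal R, f ≠ ⊥ → Ram f → ∀ G : Ideal R → ℂ, Summable G → G ⊥ = 0 →
    (∀ J : Ideal R, ¬ IsCoprime J f → G J = 0) →
    Summable (fun p : Ideal R × ℕ => if Pri p.1 ∧ 0 < p.2 then G (sp (p.2 : R) * p.1) else 0) ∧
    ∑' J : Ideal R, G J =
      ∑' c : Ideal R, ∑' m : ℕ, if Pri c ∧ 0 < m then G (sp (m : R) * c) else 0

/-- EPS : the sum over the rational integers -/
def A_EPS : Prop := ∀ (R : Subring ℂ) (ω : ℂ), QP R ω → ∀ (f : Ideal R) (ψ : Ideal R → ℂ),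
  HC 1 f ψ → CS ψ → ∃ (L0 : ℂ) (C : ℝ), L0 ≠ 0 ∧ 0 < C ∧
  ∀ q : ℕ, q.Prime → IsCoprime f (sp (q : R)) → ∀ w : ℝ, 0 < w →
  Summable (fun m : ℕ => if Nat.Coprime m q then ψ (sp (m : R)) / (m : ℂ) ^ 2 *
      (Real.exp (-((m : ℝ) ^ 2 * w)) : ℂ) else 0) ∧
  ‖∑' m : ℕ, (if Nat.Coprime m q then ψ (sp (m : R)) / (m : ℂ) ^ 2 *
      (Real.exp (-((m : ℝ) ^ 2 * w)) : ℂ) else 0) - L0‖ ≤ C * (Real.sqrt w + 1 / q)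

/-- LINE : number of primitive ideals `c` with `χ(c) ^ k = 1` -/
def A_LINE : Prop := ∀ (R : Subring ℂ) (ω : ℂ), QP R ω → ∃ C : ℝ, 0 < C ∧
  ∀ (q : ℕ) (χ : Ideal R → ℂ), RG q χ → ∀ d : ℕ, Od χ d → ∀ k : ℕ, k ∣ d → ∀ y : ℝ, 1 ≤ y →
    (cntP χ k y : ℝ) ≤ C * (1 + y / q) * (q * k / d)

/-- ORI : a large subset of a finite set of primitive ideals all of whose products are primitive -/
def A_ORI : Prop := ∀ (R : Subring ℂ) (ω : ℂ), QP R ω → ∀ (S : Finset (Ideal R)) (w : ℝ),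
  (∀ c ∈ S, Pri c) →
  (∀ c ∈ S, (2 : ℝ) ^ (Set.ncard {P : Ideal R | P.IsPrime ∧ P ≠ ⊥ ∧ P ∣ c}) ≤ w) →
  ∃ S' : Finset (Ideal R), S' ⊆ S ∧ (S.card : ℝ) ≤ w * S'.card ∧
    ∀ (j : ℕ) (g : Fin j → Ideal R), (∀ i, g i ∈ S') → Pri (∏ i, g i)

/-- COUNT -/
def A_COUNT : Prop := ∀ (R : Subring ℂ) (ω : ℂ), QP R ω → ∀ j : ℕ, 1 ≤ j → ∀ η : ℝ, 0 < η →
  ∃ C : ℝ, 0 < C ∧ ∀ (q : ℕ) (χ : Ideal R → ℂ), RG q χ → ∀ d : ℕ, Od χ d →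
    ∀ k : ℕ, k ∣ d → ∀ y : ℝ, 1 ≤ y →
      (cntP χ k y : ℝ) ^ j ≤ C * y ^ η * (y ^ j / q + 1) * (q * k / d)

/-- RCOUNT : rough ideals, any number of factors -/
def A_RCOUNT : Prop := ∀ (R : Subring ℂ) (ω : ℂ), QP R ω → ∃ C : ℝ, 0 < C ∧
  ∀ (q : ℕ) (χ : Ideal R → ℂ), RG q χ → ∀ d : ℕ, Od χ d → ∀ k : ℕ, k ∣ d →
  ∀ (z y : ℝ) (j : ℕ), 2 ≤ z → z ≤ y → 1 ≤ j → y ^ j ≤ q →
    (cntR χ z k y : ℝ) ^ j ≤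
      C * (2 * (j : ℝ)) ^ ((j : ℝ) * Real.log y / Real.log z) * (q * k / d)

open Classical in
/-- TAIL -/
def A_TAIL : Prop := ∀ (R : Subring ℂ) (ω : ℂ), QP R ω → ∀ ε : ℝ, 0 < ε → ε < 1 / 12 →
  ∀ D0 : ℝ, 0 < D0 → ∃ η δ C : ℝ, 0 < η ∧ 0 < δ ∧ 0 < C ∧
  ∀ (q : ℕ) (χ : Ideal R → ℂ), RG q χ → ∀ d : ℕ, Od χ d → (q : ℝ) ^ (2 / 3 + ε) ≤ d →
  ∀ k : ℕ, k ∣ d → ∀ X : ℝ, 1 ≤ X → X ≤ (q : ℝ) ^ (6 / 5 : ℝ) →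
    Summable (fun c : Ideal R => if Pri c ∧ (q : ℝ) ^ D0 < nm c ∧ χ c ≠ 0 ∧ χ c ^ k = 1
      then (nm c) ^ (-1 / 2 + η) * Real.exp (-(nm c / X)) else 0) ∧
    tailP χ k ((q : ℝ) ^ D0) X η ≤ C * k * (q : ℝ) ^ (-δ)

/-- ROUGH -/
def A_ROUGH : Prop := ∀ (R : Subring ℂ) (ω : ℂ), QP R ω → ∃ C q0 : ℝ, 0 < C ∧
  ∀ (q : ℕ) (χ : Ideal R → ℂ), RG q χ → q0 ≤ q → ∀ d : ℕ, Od χ d → (q : ℝ) ^ (2 / 3 : ℝ) ≤ d →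
  ∀ k : ℕ, k ∣ d → (k : ℝ) ≤ (q : ℝ) ^ (1 / 100 : ℝ) →
    rghS χ ((Real.log q) ^ 200) k ((q : ℝ) ^ (1 / 100 : ℝ)) ≤ C * (Real.log q) ^ (-10 : ℝ)

/-- PROD : the least `m` with `mB b ∣ (m) c`, and the product formula -/
def A_PROD : Prop := ∀ (R : Subring ℂ) (ω : ℂ), QP R ω → ∀ (f : Ideal R) (y : ℝ), f ≠ ⊥ →
  (∀ b ∈ (SP f y).powerset ×ˢ (SP f y).powerset, nm (mB f b) = nB b ∧ mB f b ≠ ⊥ ∧
    IsCoprime (mB f b) f) ∧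
  (∀ b ∈ (SP f y).powerset ×ˢ (SP f y).powerset, ∀ b' ∈ (SP f y).powerset ×ˢ (SP f y).powerset,
    mB f b = mB f b' → b = b') ∧
  ∀ c : Ideal R, Pri c →
    (∀ b ∈ (SP f y).powerset ×ˢ (SP f y).powerset,
      (∀ m : ℕ, mB f b ∣ sp (m : R) * c ↔ mc f y c b ∣ m) ∧
      (∏ p ∈ b.1 ∪ b.2, (p : ℝ)) ≤ mc f y c b * nm c) ∧
    ∑ b ∈ (SP f y).powerset ×ˢ (SP f y).powerset, (sB b : ℝ) / mc f y c b = dl f y c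

/-- RANK : Rankin's trick -/
def A_RANK : Prop := ∀ (R : Subring ℂ) (f : Ideal R) (y Z κ : ℝ), 1 ≤ y → 1 ≤ Z → 0 < κ →
  κ ≤ 1 / 4 →
  ∑ b ∈ ((SP f y).powerset ×ˢ (SP f y).powerset).filter (fun b => ¬ ((nB b : ℝ) ≤ Z)),
    1 / (∏ p ∈ b.1 ∪ b.2, (p : ℝ)) ≤ Z ^ (-κ) * Real.exp (3 * (1 + y ^ (2 * κ) / (2 * κ)))

/-- MERT : Mertens -/
def A_MERT : Prop := ∃ C : ℝ, 0 < C ∧ ∀ (S : Finset ℕ) (y : ℝ), 3 ≤ y →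
  (∀ p ∈ S, p.Prime ∧ (p : ℝ) ≤ y) →
  1 / (C * (Real.log y) ^ 5) ≤ ∏ p ∈ S, (1 - 1 / (p : ℝ))

/-- PHI : the coefficients of the small primitive ideals -/
def A_PHI : Prop := ∀ (R : Subring ℂ) (ω : ℂ), QP R ω → ∀ (f : Ideal R) (ψ : Ideal R → ℂ),
  HC 1 f ψ → CS ψ → ∀ c0 C0 : ℝ, 0 < c0 → 0 < C0 → ∃ (L0 : ℂ) (q0 : ℝ), L0 ≠ 0 ∧
  ∀ q : ℕ, q.Prime → IsCoprime f (sp (q : R)) → q0 ≤ q → ∀ X : ℝ, c0 * q ≤ X → X ≤ C0 * q →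
  ∀ c : Ideal R, Pri c → nm c ≤ (q : ℝ) ^ (1 / 100000 : ℝ) →
    ‖Ph f ((Real.log q) ^ 200) ((q : ℝ) ^ (1 / 10 : ℝ)) X q ψ c -
      L0 * (dl f ((Real.log q) ^ 200) c : ℂ)‖ ≤ (q : ℝ) ^ (-1 / 50000 : ℝ)

/-- PHI2 : the coefficients of all primitive ideals -/
def A_PHI2 : Prop := ∀ (R : Subring ℂ) (ω : ℂ), QP R ω → ∀ (f : Ideal R) (ψ : Ideal R → ℂ),
  HC 1 f ψ → ∀ η : ℝ, 0 < η → ∃ C : ℝ, 0 < C ∧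
  ∀ (y Z X : ℝ) (q : ℕ), q.Prime → 1 ≤ Z → 1 ≤ X → ∀ c : Ideal R, Pri c →
    ‖Ph f y Z X q ψ c‖ ≤ C * (Z * X) ^ (2 * η) * (nm c) ^ η * Real.exp (-(nm c / (2 * (Z * X))))

open Classical in
/-- REG : the product of the mollifier and the smoothed sum as a sum over the primitive ideals -/
def A_REG : Prop := ∀ (R : Subring ℂ) (ω : ℂ), QP R ω → ∀ (f : Ideal R) (ψ : Ideal R → ℂ),
  HC 1 f ψ → Ram f → ∀ (q : ℕ) (χ : Ideal R → ℂ), RG q χ →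
  ∀ (y Z X : ℝ), 1 ≤ Z → 1 ≤ X →
    Summable (fun c : Ideal R => if Pri c then ‖ψ c / (nm c : ℂ) * Ph f y Z X q ψ c‖ else 0) ∧
    Ml f y Z ψ χ * Sm X ψ χ =
      ∑' c : Ideal R, if Pri c then χ c * (ψ c / (nm c : ℂ) * Ph f y Z X q ψ c) else 0

open Classical in
/-- RBD : the average over the Galois conjugates -/
def A_RBD : Prop := ∀ (R : Subring ℂ) (q : ℕ) (χ : Ideal R → ℂ), RG q χ → ∀ d : ℕ, Od χ d →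
  ∀ M : ℕ, 1 ≤ M → M ∣ d → ∀ c : Ideal R,
    ‖∑ a ∈ Ea d M, pw χ a c‖ ≤ ∑ r ∈ d.divisors.filter (fun r => Nat.Coprime r M),
      (if χ c ≠ 0 ∧ χ c ^ (r * M) = 1 then (d : ℝ) / (r * M) else 0)

/-- the functional equation -/
def FEQ {R : Subring ℂ} (ω : ℂ) (Q : Ideal R) (W : ℂ) (F : ℂ → ℂ) : Prop :=
  ∀ s : ℂ, 0 < s.re → s.re < 2 →
    ((ω.im * Real.sqrt (nm Q) / Real.pi : ℝ) : ℂ) ^ s * Complex.Gamma s * F s =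
      W * (((ω.im * Real.sqrt (nm Q) / Real.pi : ℝ) : ℂ) ^ (2 - s) * Complex.Gamma (2 - s) *
        F (2 - s))

/-- FE : functional equation and the formula for the central value -/
def A_FE : Prop := ∀ (R : Subring ℂ) (ω : ℂ), QP R ω → ∀ (Q : Ideal R) (θ : Ideal R → ℂ),
  HC 1 Q θ → CS θ → ∀ (s : Finset (Ideal R)) (hh : Ideal R) (μ : R) (T : Finset R),
  Sys Q s hh μ T → ∀ W : ℂ, W = Wc ω 1 Q hh μ T θ →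
    (W = 1 ∨ W = -1) ∧ ∃ F : ℂ → ℂ, Differentiable ℂ F ∧
      (∀ z : ℂ, 3 / 2 < z.re → HasSum (fun I : Ideal R => θ I * (nm I : ℂ) ^ (-z)) (F z)) ∧
      FEQ ω Q W F ∧
      F 1 = (1 + W) * ∑' I : Ideal R, θ I / (nm I : ℂ) *
        (Real.exp (-(nm I / (ω.im * Real.sqrt (nm Q) / Real.pi))) : ℂ)

/-- WC : the sign is the same for all conjugates -/
def A_WC : Prop := ∀ (R : Subring ℂ) (ω : ℂ), QP R ω → ∀ (f : Ideal R) (ψ : Ideal R → ℂ),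
  HC 1 f ψ → CS ψ → ∀ q : ℕ, q.Prime → IsCoprime f (sp (q : R)) → ∀ χ : Ideal R → ℂ,
  HC 0 (sp (q : R)) χ → RG q χ → ∀ d : ℕ, Od χ d →
  ∃ (s : Finset (Ideal R)) (hh : Ideal R) (μ : R) (T : Finset R), Sys (f * sp (q : R)) s hh μ T ∧
    ∀ a : ℕ, Nat.Coprime a d →
      Wc ω 1 (f * sp (q : R)) hh μ T (fun I => ψ I * pw χ a I) =
        Wc ω 1 (f * sp (q : R)) hh μ T (fun I => ψ I * χ I)

end Pool.Agent.TH936.AC
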