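import Mathlib
import Pool.Agent.TH936.AC.Stmts
import Pool.Agent.Helper256.KM.Mertens

/-!
# AC-RANK: Rankin's trick for pairs of sets of primes, and a weak Mertens bound (job 3500, helper986)
-/

set_option autoImplicit false

namespace Pool.Agent.TH936.AC

open Pool.Agent.W192.HK

namespace Rank

/-- the product identity for pairs of subsets -/
theorem prod_id (S : Finset ℕ) (g h : ℕ → ℝ) :
    ∑ b ∈ S.powerset ×ˢ S.powerset, ((∏ p ∈ b.1, g p) * ∏ p ∈ b.2, g p) * ∏ p ∈ b.1 ∪ b.2, h p =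
      ∏ p ∈ S, (1 + 2 * (g p * h p) + g p ^ 2 * h p) := by
  classical
  rw [Finset.sum_product]
  induction S using Finset.induction_on with
  | empty => simp
  | insert a S ha ih =>
    rw [Finset.prod_insert ha, ← ih, Finset.sum_powerset_insert ha]
    have hA : ∀ A ∈ S.powerset, a ∉ A := fun A hA h => ha (Finset.mem_powerset.1 hA h)
    have h1 : ∀ A ∈ S.powerset, ∑ B ∈ (insert a S).powerset,
        ((∏ p ∈ A, g p) * ∏ p ∈ B, g p) * ∏ p ∈ A ∪ B, h p =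
        (1 + g a * h a) * ∑ B ∈ S.powerset,
          ((∏ p ∈ A, g p) * ∏ p ∈ B, g p) * ∏ p ∈ A ∪ B, h p := by
      intro A hAS
      rw [Finset.sum_powerset_insert ha, add_mul, one_mul, Finset.mul_sum]
      congr 1
      refine Finset.sum_congr rfl fun B hB => ?_
      have h2 : A ∪ insert a B = insert a (A ∪ B) := by
        rw [Finset.union_insert]
      have h3 : a ∉ A ∪ B := by
        rw [Finset.mem_union, not_or]
        exact ⟨hA A hAS, hA B hB⟩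
      rw [h2, Finset.prod_insert h3, Finset.prod_insert (hA B hB)]
      ring
    have h4 : ∀ A ∈ S.powerset, ∑ B ∈ (insert a S).powerset,
        ((∏ p ∈ insert a A, g p) * ∏ p ∈ B, g p) * ∏ p ∈ insert a A ∪ B, h p =
        (g a * h a + g a ^ 2 * h a) * ∑ B ∈ S.powerset,
          ((∏ p ∈ A, g p) * ∏ p ∈ B, g p) * ∏ p ∈ A ∪ B, h p := by
      intro A hAS
      rw [Finset.sum_powerset_insert ha, add_mul, Finset.mul_sum, Finset.mul_sum]
      congr 1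
      · refine Finset.sum_congr rfl fun B hB => ?_
        have h3 : a ∉ A ∪ B := by
          rw [Finset.mem_union, not_or]
          exact ⟨hA A hAS, hA B hB⟩
        rw [Finset.insert_union, Finset.prod_insert h3, Finset.prod_insert (hA A hAS)]
        ring
      · refine Finset.sum_congr rfl fun B hB => ?_
        have h3 : a ∉ A ∪ B := by
          rw [Finset.mem_union, not_or]
          exact ⟨hA A hAS, hA B hB⟩
        have h2 : insert a A ∪ insert a B = insert a (A ∪ B) := by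
          rw [Finset.insert_union, Finset.union_insert, Finset.insert_idem]
        rw [h2, Finset.prod_insert h3, Finset.prod_insert (hA A hAS),
          Finset.prod_insert (hA B hB)]
        ring
    rw [Finset.sum_congr rfl h1, Finset.sum_congr rfl h4, ← Finset.mul_sum, ← Finset.mul_sum]
    ring

theorem sum_pow_le {a : ℝ} (ha : 0 < a) (ha1 : a ≤ 1) (N : ℕ) :
    ∑ m ∈ Finset.Icc 1 N, (m : ℝ) ^ a / m ≤ (N : ℝ) ^ a / a := by
  induction N with
  | zero => simp [Real.zero_rpow ha.ne']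
  | succ N ih =>
    rw [Finset.sum_Icc_succ_top (by omega)]
    have hN : (0 : ℝ) < (N : ℝ) + 1 := by positivity
    have h1 : (1 + -(1 / ((N : ℝ) + 1))) ^ a ≤ 1 + a * -(1 / ((N : ℝ) + 1)) := by
      apply rpow_one_add_le_one_add_mul_self _ ha.le ha1
      rw [neg_le_neg_iff, div_le_iff₀ hN]
      have : (0 : ℝ) ≤ N := Nat.cast_nonneg N
      linarith
    have h2 : (1 + -(1 / ((N : ℝ) + 1))) = N / ((N : ℝ) + 1) := by
      field_simp
      ring
    rw [h2, Real.div_rpow (Nat.cast_nonneg N) hN.le] at h1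
    have h3 : 0 < ((N : ℝ) + 1) ^ a := Real.rpow_pos_of_pos hN a
    rw [div_le_iff₀ h3] at h1
    push_cast
    have h4 : (N : ℝ) ^ a / a ≤ ((1 + a * -(1 / ((N : ℝ) + 1))) * ((N : ℝ) + 1) ^ a) / a :=
      div_le_div_of_nonneg_right h1 ha.le
    have h5 : ((1 + a * -(1 / ((N : ℝ) + 1))) * ((N : ℝ) + 1) ^ a) / a =
        ((N : ℝ) + 1) ^ a / a - ((N : ℝ) + 1) ^ a / ((N : ℝ) + 1) := by
      field_simp
      ring
    linarith

theorem one_sub_ge {x : ℝ} (h0 : 0 ≤ x) (h1 : x ≤ 1 / 2) : Real.exp (-(x + 2 * x ^ 2)) ≤ 1 - x := by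
  have h2 : 0 < 1 - x := by linarith
  rw [← Real.le_log_iff_exp_le h2]
  have h3 := Real.one_sub_inv_le_log_of_pos h2
  refine le_trans ?_ h3
  have h4 : (1 - x)⁻¹ ≤ 1 + x + 2 * x ^ 2 := by
    rw [inv_le_iff_one_le_mul₀ h2]
    nlinarith [mul_nonneg h0 (sq_nonneg x), mul_nonneg (sq_nonneg x) (by linarith : 0 ≤ 1 - 2 * x)]
  linarith

end Rank

open Rank

theorem a_rank : A_RANK := by
  classical
  intro R f y Z κ hy hZ hκ hκ1
  have hS : ∀ p ∈ SP f y, 1 ≤ p ∧ p ≤ ⌊y⌋₊ := by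
    intro p hp
    unfold SP at hp
    rw [Finset.mem_filter, Finset.mem_range] at hp
    exact ⟨hp.2.1.one_lt.le, by omega⟩
  obtain ⟨S, hSd⟩ : ∃ S : Finset ℕ, S = SP f y := ⟨_, rfl⟩
  rw [← hSd] at hS ⊢
  have hZ0 : 0 < Z := by linarith
  -- the weights
  obtain ⟨g, hg⟩ : ∃ g : ℕ → ℝ, ∀ p, g p = (p : ℝ) ^ κ := ⟨_, fun _ => rfl⟩
  obtain ⟨h, hh⟩ : ∃ h : ℕ → ℝ, ∀ p, h p = 1 / (p : ℝ) := ⟨_, fun _ => rfl⟩
  have hg0 : ∀ p, 0 ≤ g p := fun p => by rw [hg]; positivity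
  have hh0 : ∀ p, 0 ≤ h p := fun p => by rw [hh]; positivity
  have hterm0 : ∀ b : Finset ℕ × Finset ℕ,
      0 ≤ ((∏ p ∈ b.1, g p) * ∏ p ∈ b.2, g p) * ∏ p ∈ b.1 ∪ b.2, h p := by
    intro b
    have h1 := Finset.prod_nonneg fun p (_ : p ∈ b.1) => hg0 p
    have h2 := Finset.prod_nonneg fun p (_ : p ∈ b.2) => hg0 p
    have h3 := Finset.prod_nonneg fun p (_ : p ∈ b.1 ∪ b.2) => hh0 p
    positivity
  have hnB : ∀ b : Finset ℕ × Finset ℕ,
      (nB b : ℝ) ^ κ = (∏ p ∈ b.1, g p) * ∏ p ∈ b.2, g p := by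
    intro b
    unfold nB
    push_cast
    rw [Real.mul_rpow (Finset.prod_nonneg fun p _ => Nat.cast_nonneg p)
      (Finset.prod_nonneg fun p _ => Nat.cast_nonneg p),
      ← Real.finsetProd_rpow _ _ (fun p _ => Nat.cast_nonneg p),
      ← Real.finsetProd_rpow _ _ (fun p _ => Nat.cast_nonneg p)]
    simp only [hg]
  have h1 : ∑ b ∈ (S.powerset ×ˢ S.powerset).filter (fun b => ¬ ((nB b : ℝ) ≤ Z)),
      1 / (∏ p ∈ b.1 ∪ b.2, (p : ℝ)) ≤
      ∑ b ∈ (S.powerset ×ˢ S.powerset).filter (fun b => ¬ ((nB b : ℝ) ≤ Z)),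
        Z ^ (-κ) * (((∏ p ∈ b.1, g p) * ∏ p ∈ b.2, g p) * ∏ p ∈ b.1 ∪ b.2, h p) := by
    apply Finset.sum_le_sum
    intro b hb
    rw [Finset.mem_filter] at hb
    have h2 : Z < nB b := not_le.1 hb.2
    have h3 : 1 ≤ Z ^ (-κ) * (nB b : ℝ) ^ κ := by
      rw [Real.rpow_neg hZ0.le]
      have h4 : Z ^ κ ≤ (nB b : ℝ) ^ κ := Real.rpow_le_rpow hZ0.le h2.le hκ.le
      have h5 : 0 < Z ^ κ := Real.rpow_pos_of_pos hZ0 κ
      calc (1 : ℝ) = (Z ^ κ)⁻¹ * Z ^ κ := (inv_mul_cancel₀ h5.ne').symm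
        _ ≤ (Z ^ κ)⁻¹ * (nB b : ℝ) ^ κ := mul_le_mul_of_nonneg_left h4 (by positivity)
    have h6 : ∏ p ∈ b.1 ∪ b.2, h p = 1 / (∏ p ∈ b.1 ∪ b.2, (p : ℝ)) := by
      simp only [hh, Finset.prod_div_distrib, Finset.prod_const_one]
    have h7 : 0 ≤ 1 / (∏ p ∈ b.1 ∪ b.2, (p : ℝ)) := by positivity
    rw [← hnB, h6, ← mul_assoc]
    calc 1 / (∏ p ∈ b.1 ∪ b.2, (p : ℝ)) = 1 * (1 / (∏ p ∈ b.1 ∪ b.2, (p : ℝ))) := (one_mul _).symm
      _ ≤ _ := mul_le_mul_of_nonneg_right h3 h7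
  have h2 : ∑ b ∈ (S.powerset ×ˢ S.powerset).filter (fun b => ¬ ((nB b : ℝ) ≤ Z)),
        Z ^ (-κ) * (((∏ p ∈ b.1, g p) * ∏ p ∈ b.2, g p) * ∏ p ∈ b.1 ∪ b.2, h p) ≤
      Z ^ (-κ) * ∑ b ∈ S.powerset ×ˢ S.powerset,
        (((∏ p ∈ b.1, g p) * ∏ p ∈ b.2, g p) * ∏ p ∈ b.1 ∪ b.2, h p) := by
    rw [← Finset.mul_sum]
    apply mul_le_mul_of_nonneg_left _ (Real.rpow_nonneg hZ0.le _)
    exact Finset.sum_le_sum_of_subset_of_nonneg (Finset.filter_subset _ _)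
      fun b _ _ => hterm0 b
  rw [prod_id] at h2
  refine (h1.trans h2).trans ?_
  apply mul_le_mul_of_nonneg_left _ (Real.rpow_nonneg hZ0.le _)
  have h3 : ∏ p ∈ S, (1 + 2 * (g p * h p) + g p ^ 2 * h p) ≤
      ∏ p ∈ S, Real.exp (3 * ((p : ℝ) ^ (2 * κ) / p)) := by
    apply Finset.prod_le_prod
    · intro p _
      have := hg0 p
      have := hh0 p
      positivity
    · intro p hp
      have hp1 : (1 : ℝ) ≤ p := by exact_mod_cast (hS p hp).1
      have hg1 : 1 ≤ g p := by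
        rw [hg]
        exact Real.one_le_rpow hp1 hκ.le
      have h4 : g p ^ 2 * h p = (p : ℝ) ^ (2 * κ) / p := by
        rw [hg, hh, mul_comm 2 κ, Real.rpow_mul (by linarith)]
        norm_num
        ring
      have h5 : g p * h p ≤ g p ^ 2 * h p := by
        apply mul_le_mul_of_nonneg_right _ (hh0 p)
        nlinarith
      have h6 := Real.add_one_le_exp (3 * ((p : ℝ) ^ (2 * κ) / p))
      rw [← h4] at h6 ⊢
      linarith
  refine h3.trans ?_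
  rw [← Real.exp_sum, ← Finset.mul_sum]
  apply Real.exp_le_exp.2
  apply mul_le_mul_of_nonneg_left _ (by norm_num)
  have h7 : ∑ p ∈ S, (p : ℝ) ^ (2 * κ) / p ≤
      ∑ m ∈ Finset.Icc 1 ⌊y⌋₊, (m : ℝ) ^ (2 * κ) / m := by
    apply Finset.sum_le_sum_of_subset_of_nonneg
    · intro p hp
      rw [Finset.mem_Icc]
      exact hS p hp
    · intro m _ _
      positivity
  have h8 := sum_pow_le (a := 2 * κ) (by linarith) (by linarith) ⌊y⌋₊
  have h9 : ((⌊y⌋₊ : ℕ) : ℝ) ^ (2 * κ) ≤ y ^ (2 * κ) :=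
    Real.rpow_le_rpow (Nat.cast_nonneg _) (Nat.floor_le (by linarith)) (by linarith)
  have h10 : ((⌊y⌋₊ : ℕ) : ℝ) ^ (2 * κ) / (2 * κ) ≤ y ^ (2 * κ) / (2 * κ) :=
    div_le_div_of_nonneg_right h9 (by linarith)
  linarith

theorem a_mert : A_MERT := by
  classical
  obtain ⟨C, hC⟩ := Pool.Agent.Helper256.KM.mertens_inv
  have hs : Summable (fun n : ℕ => 1 / (n : ℝ) ^ 2) := Real.summable_one_div_nat_pow.2 (by norm_num)
  obtain ⟨T, hT⟩ : ∃ T : ℝ, T = ∑' n : ℕ, 1 / (n : ℝ) ^ 2 := ⟨_, rfl⟩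
  refine ⟨Real.exp (C + 2 * T), Real.exp_pos _, fun S y hy hS => ?_⟩
  have hN3 : 3 ≤ ⌊y⌋₊ := Nat.le_floor (by exact_mod_cast hy)
  have hNy : ((⌊y⌋₊ : ℕ) : ℝ) ≤ y := Nat.floor_le (by linarith)
  have hN3' : (3 : ℝ) ≤ (⌊y⌋₊ : ℕ) := by exact_mod_cast hN3
  have hlog3 : 1 < Real.log 3 := by
    rw [Real.lt_log_iff_exp_lt (by norm_num)]
    have := Real.exp_one_lt_d9
    linarith
  have hlogN : 1 < Real.log (⌊y⌋₊ : ℕ) :=
    hlog3.trans_le (Real.log_le_log (by norm_num) hN3')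
  have hlogNy : Real.log (⌊y⌋₊ : ℕ) ≤ Real.log y := Real.log_le_log (by linarith) hNy
  have h1 : ∏ p ∈ S, Real.exp (-(1 / (p : ℝ) + 2 * (1 / (p : ℝ)) ^ 2))
      ≤ ∏ p ∈ S, (1 - 1 / (p : ℝ)) := by
    refine Finset.prod_le_prod (fun p _ => (Real.exp_pos _).le) fun p hp => ?_
    have hp2 : (2 : ℝ) ≤ p := by exact_mod_cast (hS p hp).1.two_le
    refine one_sub_ge (by positivity) ?_
    exact one_div_le_one_div_of_le (by norm_num) hp2
  refine le_trans ?_ h1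
  rw [← Real.exp_sum, Finset.sum_neg_distrib, Finset.sum_add_distrib, ← Finset.mul_sum]
  have h2 : ∑ p ∈ S, (1 : ℝ) / p ≤ Real.log (Real.log (⌊y⌋₊ : ℕ)) + C := by
    have h3 := (abs_le.mp (hC ⌊y⌋₊ hN3)).2
    have h4 : ∑ p ∈ S, (1 : ℝ) / p
        ≤ ∑ p ∈ (Finset.Icc 1 ⌊y⌋₊).filter Nat.Prime, (1 : ℝ) / p := by
      refine Finset.sum_le_sum_of_subset_of_nonneg ?_ fun p _ _ => by positivity
      intro p hp
      rw [Finset.mem_filter, Finset.mem_Icc]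
      exact ⟨⟨(hS p hp).1.one_lt.le, Nat.le_floor (hS p hp).2⟩, (hS p hp).1⟩
    linarith
  have h5 : ∑ p ∈ S, (1 / (p : ℝ)) ^ 2 ≤ T := by
    have h6 : ∀ p : ℕ, (1 / (p : ℝ)) ^ 2 = 1 / (p : ℝ) ^ 2 := fun p => by
      rw [div_pow, one_pow]
    simp only [h6]
    rw [hT]
    exact hs.sum_le_tsum _ fun p _ => by positivity
  have h7 : 1 / (Real.exp (C + 2 * T) * Real.log y ^ 5) ≤
      1 / (Real.exp (C + 2 * T) * Real.log (⌊y⌋₊ : ℕ)) := by
    apply one_div_le_one_div_of_le (by positivity)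
    apply mul_le_mul_of_nonneg_left _ (Real.exp_pos _).le
    have h8 : 1 ≤ Real.log y := by linarith
    have h9 : Real.log y ≤ Real.log y ^ 5 := le_self_pow₀ h8 (by norm_num)
    linarith
  refine h7.trans ?_
  have h10 : 1 / (Real.exp (C + 2 * T) * Real.log (⌊y⌋₊ : ℕ)) =
      Real.exp (-(C + 2 * T + Real.log (Real.log (⌊y⌋₊ : ℕ)))) := by
    rw [Real.exp_neg, Real.exp_add (C + 2 * T), Real.exp_log (by linarith), one_div]
  rw [h10]
  apply Real.exp_le_exp.2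
  linarith

end Pool.Agent.TH936.AC
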