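import Pool.Agent.TH936.AC.Stmts

/-!
# Project AC: the average over the Galois conjugates
-/

set_option autoImplicit false

open Complex

namespace Pool.Agent.TH936.AC

open Pool.Agent.W192.HK

theorem a_rbd (h0 : H_MOB) : A_RBD := by
  classical
  intro R q χ hχ d hd M hM hMd c
  have hd0 := hd.pos
  by_cases hc : χ c = 0
  · have h1 : ∑ a ∈ Ea d M, pw χ a c = 0 := by
      refine Finset.sum_eq_zero fun a _ => ?_
      simp only [pw, hc, if_true]
    rw [h1, norm_zero]
    refine Finset.sum_nonneg fun r _ => ?_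
    split_ifs
    · positivity
    · exact le_rfl
  obtain ⟨t, -, ht⟩ := h0 d M hd0 (by omega) hMd
  have hpow : χ c ^ d = 1 := hd.pow c hc
  have hpw : ∀ a, pw χ a c = χ c ^ a := by
    intro a
    simp only [pw, hc, if_false]
  have hn : ‖χ c‖ = 1 := Complex.norm_eq_one_of_pow_eq_one hpow hd0.ne'
  have hG := ht (fun a => pw χ a c) (fun a => by
    simp only [hpw]
    rw [pow_add, hpow, mul_one])
  rw [hG]
  refine (norm_sum_le _ _).trans (Finset.sum_le_sum fun r hr => ?_)
  rw [Finset.mem_filter, Nat.mem_divisors] at hr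
  obtain ⟨⟨hrd, -⟩, hrM⟩ := hr
  have hr0 : 0 < r := Nat.pos_of_dvd_of_pos hrd hd0
  have hrMd : r * M ∣ d := Nat.Coprime.mul_dvd_of_dvd_of_dvd hrM hrd hMd
  rw [norm_mul]
  have hmu : ‖((ArithmeticFunction.moebius r : ℤ) : ℂ)‖ ≤ 1 := by
    rw [Complex.norm_intCast]
    have := ArithmeticFunction.abs_moebius_le_one (n := r)
    exact_mod_cast this
  refine (mul_le_of_le_one_left (norm_nonneg _) hmu).trans ?_
  have hkd : (d / (r * M)) * (r * M) = d := Nat.div_mul_cancel hrMd
  have hM0 : 0 < M := by omega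
  have hrM0 : (0 : ℝ) < (r : ℝ) * M := by positivity
  simp only [hpw]
  by_cases hz : χ c ^ (r * M) = 1
  · rw [if_pos ⟨hc, hz⟩]
    have h2 : ∀ j ∈ Finset.range (d / (r * M)), χ c ^ (t r + r * M * j) = χ c ^ (t r) := by
      intro j _
      rw [pow_add, pow_mul, hz, one_pow, mul_one]
    rw [Finset.sum_congr rfl h2, Finset.sum_const, Finset.card_range, nsmul_eq_mul, norm_mul,
      norm_pow, hn, one_pow, mul_one, Complex.norm_natCast, le_div_iff₀ hrM0]
    have : ((d / (r * M) : ℕ) : ℝ) * ((r : ℝ) * M) = d := by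
      exact_mod_cast hkd
    exact this.le
  · rw [if_neg (fun h => hz h.2)]
    have h2 : ∑ j ∈ Finset.range (d / (r * M)), χ c ^ (t r + r * M * j) =
        χ c ^ (t r) * ∑ j ∈ Finset.range (d / (r * M)), (χ c ^ (r * M)) ^ j := by
      rw [Finset.mul_sum]
      refine Finset.sum_congr rfl fun j _ => ?_
      rw [pow_add, pow_mul]
    rw [h2, geom_sum_eq hz, ← pow_mul, mul_comm (r * M), hkd, hpow, sub_self, zero_div, mul_zero,
      norm_zero]

end Pool.Agent.TH936.AC
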