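import Pool.Agent.TH936.AC.Stmts

/-!
AC-TAIL (project AC of helper936): the tail sum over the primitive ideals.  Adaptation of
`Pool/Agent/W883/HK/Tail.lean`.
-/

set_option autoImplicit false

namespace Pool.Agent.TH936.AC.Tail

open Pool.Agent.W192.HK

theorem root_bound {a W Q ε : ℝ} {j J : ℕ} (hj : 1 ≤ j) (hjJ : j ≤ J) (hW : 1 ≤ W)
    (hQ : 1 ≤ Q) (hε : 0 ≤ ε) (h : a ^ j ≤ W * Q ^ (-ε)) :
    a ≤ W * Q ^ (-(ε / J)) := by
  have hJ0 : (0 : ℝ) < J := by exact_mod_cast (by omega : 0 < J)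
  have hQ0 : 0 < Q := by linarith
  have hb0 : 0 ≤ W * Q ^ (-(ε / J)) := by positivity
  have h1 : a ^ j ≤ (W * Q ^ (-(ε / J))) ^ j := by
    refine h.trans ?_
    rw [mul_pow]
    have h2 : W ≤ W ^ j := le_self_pow₀ hW (by omega)
    have h3 : Q ^ (-ε) ≤ (Q ^ (-(ε / J))) ^ j := by
      rw [← Real.rpow_natCast, ← Real.rpow_mul hQ0.le]
      apply Real.rpow_le_rpow_of_exponent_le hQ
      have h4 : (j : ℝ) ≤ J := by exact_mod_cast hjJ
      have h5 : ε / J * j ≤ ε := by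
        rw [div_mul_eq_mul_div, div_le_iff₀ hJ0]
        exact mul_le_mul_of_nonneg_left h4 hε
      linarith
    gcongr
  exact le_of_pow_le_pow_left₀ (by omega) hb0 h1

theorem exp_bound {Y : ℝ} (hY : 0 < Y) :
    Real.exp (-(Y ^ (1 / 10 : ℝ) / 2)) ≤ (Nat.factorial 20 * 2 ^ 20 : ℝ) * Y ^ (-(2 : ℝ)) := by
  have hx : 0 < Y ^ (1 / 10 : ℝ) / 2 := by positivity
  have h1 := Real.pow_div_factorial_le_exp (Y ^ (1 / 10 : ℝ) / 2) hx.le 20
  rw [Real.exp_neg]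
  have h2 : 0 < (Y ^ (1 / 10 : ℝ) / 2) ^ 20 / (Nat.factorial 20 : ℝ) := by positivity
  refine (inv_anti₀ h2 h1).trans (le_of_eq ?_)
  have h3 : (Y ^ (1 / 10 : ℝ) / 2) ^ 20 = Y ^ (2 : ℝ) / 2 ^ 20 := by
    rw [div_pow, ← Real.rpow_natCast (Y ^ (1 / 10 : ℝ)), ← Real.rpow_mul hY.le]
    norm_num
  rw [h3, Real.rpow_neg hY.le]
  have : 0 < Y ^ (2 : ℝ) := Real.rpow_pos_of_pos hY _
  field_simp

/-- the block estimate -/
theorem block (h3 : A_COUNT) {R : Subring ℂ} {ω : ℂ} (hR : QP R ω) {ε : ℝ}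
    (hε : 0 < ε) (hε4 : ε < 1 / 12) {D0 : ℝ} (hD : 0 < D0) :
    ∃ (J : ℕ) (K : ℝ), 1 ≤ J ∧ 0 < K ∧ ∀ (q : ℕ) (χ : Ideal R → ℂ), RG q χ → ∀ d : ℕ, Od χ d →
      (q : ℝ) ^ (2 / 3 + ε) ≤ d → ∀ k : ℕ, k ∣ d → ∀ X : ℝ, 1 ≤ X → X ≤ (q : ℝ) ^ (6 / 5 : ℝ) →
      ∀ Y : ℝ, 1 ≤ Y → (q : ℝ) ^ D0 < Y →
      (cntP χ k Y : ℝ) * Y ^ (-1 / 2 + ε / (8 * J)) * Real.exp (-(Y / (2 * X))) ≤
        K * k * (q : ℝ) ^ (-(ε / (2 * J))) * Y ^ (-(ε / (8 * J))) := by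
  obtain ⟨J, hJdef⟩ : ∃ J : ℕ, J = ⌈2 / (3 * D0)⌉₊ + 1 := ⟨_, rfl⟩
  have hJ1 : 1 ≤ J := by omega
  have hJ1' : (1 : ℝ) ≤ J := by exact_mod_cast hJ1
  have hJ0 : (0 : ℝ) < J := by linarith
  have hJD : 2 / 3 ≤ D0 * J := by
    have h1 : 2 / (3 * D0) ≤ J := by
      have := Nat.le_ceil (2 / (3 * D0))
      rw [hJdef]; push_cast; linarith
    rw [div_le_iff₀ (by positivity)] at h1
    linarith
  obtain ⟨η, hη⟩ : ∃ η : ℝ, η = ε / (8 * J) := ⟨_, rfl⟩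
  have hη0 : 0 < η := by rw [hη]; positivity
  have hηs : η ≤ 1 / 8 := by
    rw [hη, div_le_iff₀ (by positivity)]
    linarith
  have hη4 : ε / (2 * J) = 4 * η := by rw [hη]; field_simp; ring
  have hηJ : ε / J = 8 * η := by rw [hη]; field_simp
  have hex : ∀ j : ℕ, ∃ C : ℝ, 0 < C ∧ (1 ≤ j → ∀ (q : ℕ) (χ : Ideal R → ℂ), RG q χ →
      ∀ d : ℕ, Od χ d → ∀ k : ℕ, k ∣ d → ∀ y : ℝ, 1 ≤ y →
      (cntP χ k y : ℝ) ^ j ≤ C * y ^ η * (y ^ j / q + 1) * (q * k / d)) := by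
    intro j
    by_cases hj : 1 ≤ j
    · obtain ⟨C, hC0, hC1⟩ := h3 R ω hR j hj η hη0
      exact ⟨C, hC0, fun _ => hC1⟩
    · exact ⟨1, one_pos, fun h => absurd h hj⟩
  choose Cj hCj0 hCj using hex
  obtain ⟨K, hK⟩ : ∃ K : ℝ, K = 1 + ∑ j ∈ Finset.range (J + 1), Cj j := ⟨_, rfl⟩
  have hKj : ∀ j, j ≤ J → Cj j ≤ K := by
    intro j hj
    have h1 : Cj j ≤ ∑ j ∈ Finset.range (J + 1), Cj j :=
      Finset.single_le_sum (f := Cj) (fun i _ => (hCj0 i).le) (by simp; omega)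
    linarith
  have hK1 : 1 ≤ K := by
    have : 0 ≤ ∑ j ∈ Finset.range (J + 1), Cj j := Finset.sum_nonneg fun i _ => (hCj0 i).le
    linarith
  have hK0 : 0 < K := by linarith
  obtain ⟨M, hM⟩ : ∃ M : ℝ, M = (Nat.factorial 20 * 2 ^ 20 : ℝ) := ⟨_, rfl⟩
  have hM1 : 1 ≤ M := by rw [hM]; norm_num [Nat.factorial]
  refine ⟨J, 2 * K * M, hJ1, by positivity, ?_⟩
  intro q χ hχ d hOd hd k hkd X hX1 hX2 Y hY1 hYB
  rw [hη4, ← hη]
  obtain ⟨Q, hQ⟩ : ∃ Q : ℝ, Q = q := ⟨_, rfl⟩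
  rw [← hQ] at hd hX2 hYB ⊢
  have hQ2 : 2 ≤ Q := by rw [hQ]; exact_mod_cast hχ.prime.two_le
  have hQ1 : 1 ≤ Q := by linarith
  have hQ0 : 0 < Q := by linarith
  have hd0 : 0 < d := hOd.pos
  have hd1 : (1 : ℝ) ≤ d := by exact_mod_cast hd0
  have hk1 : (1 : ℝ) ≤ k := by
    exact_mod_cast Nat.pos_of_dvd_of_pos hkd hd0
  have hY0 : 0 < Y := by linarith
  have hcK : ∀ j : ℕ, 1 ≤ j → j ≤ J → (cntP χ k Y : ℝ) ^ j ≤
      K * Y ^ η * (Y ^ j / Q + 1) * (Q * k / d) := by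
    intro j hj hjJ
    have h2 := hCj j hj q χ hχ d hOd k hkd Y hY1
    rw [← hQ] at h2
    refine h2.trans ?_
    have := hKj j hjJ
    gcongr
  obtain ⟨N, hN⟩ : ∃ N : ℝ, N = cntP χ k Y := ⟨_, rfl⟩
  rw [← hN] at hcK ⊢
  have hN0 : 0 ≤ N := by rw [hN]; positivity
  have hexp1 : Real.exp (-(Y / (2 * X))) ≤ 1 := by
    rw [Real.exp_le_one_iff]
    have : 0 ≤ Y / (2 * X) := by positivity
    linarith
  rcases le_or_gt Y (Q ^ (4 / 3 : ℝ)) with h | h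
  · -- the middle range
    have hexJ : Q ^ (2 / 3 : ℝ) ≤ Y ^ J := by
      calc Q ^ (2 / 3 : ℝ) ≤ Q ^ (D0 * J) := Real.rpow_le_rpow_of_exponent_le hQ1 hJD
        _ = (Q ^ D0) ^ J := by rw [Real.rpow_mul hQ0.le, Real.rpow_natCast]
        _ ≤ Y ^ J := by gcongr
    have hexj : ∃ j : ℕ, Q ^ (2 / 3 : ℝ) ≤ Y ^ j := ⟨J, hexJ⟩
    classical
    obtain ⟨j, hjd⟩ : ∃ j, j = Nat.find hexj := ⟨_, rfl⟩
    have hj1 : Q ^ (2 / 3 : ℝ) ≤ Y ^ j := by rw [hjd]; exact Nat.find_spec hexj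
    have hj2 : ∀ m < j, Y ^ m < Q ^ (2 / 3 : ℝ) := by
      intro m hm
      rw [hjd] at hm
      exact not_le.1 (Nat.find_min hexj hm)
    have hjJ : j ≤ J := by
      rw [hjd]
      exact Nat.find_min' hexj hexJ
    have hjpos : 1 ≤ j := by
      rcases Nat.eq_zero_or_pos j with h0 | h0
      · exfalso
        rw [h0, pow_zero] at hj1
        have : 1 < Q ^ (2 / 3 : ℝ) := Real.one_lt_rpow (by linarith) (by norm_num)
        linarith
      · exact h0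
    obtain ⟨T, hT⟩ : ∃ T : ℝ, T = Y ^ j := ⟨_, rfl⟩
    have hT1 : Q ^ (2 / 3 : ℝ) ≤ T := by rw [hT]; exact hj1
    have hT0 : 0 < T := by rw [hT]; positivity
    have hT2 : T ≤ Q ^ (4 / 3 : ℝ) := by
      rcases hjpos.eq_or_lt with h1 | h1
      · rw [hT, ← h1, pow_one]; exact h
      · have h2 := hj2 (j - 1) (by omega)
        have h4 : Y ≤ Y ^ (j - 1) := le_self_pow₀ hY1 (by omega)
        have h5 : T = Y ^ (j - 1) * Y := by
          rw [hT, ← pow_succ]; congr 1; omega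
        rw [h5]
        have h6 : Q ^ (4 / 3 : ℝ) = Q ^ (2 / 3 : ℝ) * Q ^ (2 / 3 : ℝ) := by
          rw [← Real.rpow_add hQ0]; norm_num
        rw [h6]
        have h7 : Y ≤ Q ^ (2 / 3 : ℝ) := by linarith
        gcongr
    have hkd' : Q * k / d ≤ k * Q ^ (1 / 3 - ε) := by
      rw [div_le_iff₀ (by linarith)]
      have h1 : Q = Q ^ (1 / 3 - ε) * Q ^ (2 / 3 + ε) := by
        rw [← Real.rpow_add hQ0]
        have : (1 / 3 - ε + (2 / 3 + ε) : ℝ) = 1 := by ring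
        rw [this, Real.rpow_one]
      have h2 : (0 : ℝ) < Q ^ (1 / 3 - ε) := Real.rpow_pos_of_pos hQ0 _
      calc Q * k = k * (Q ^ (1 / 3 - ε) * Q ^ (2 / 3 + ε)) := by rw [← h1]; ring
        _ ≤ k * (Q ^ (1 / 3 - ε) * d) := by gcongr
        _ = _ := by ring
    have hTT : (T / Q + 1) * T ^ (-(1 / 2) : ℝ) ≤ 2 * Q ^ (-(1 / 3) : ℝ) := by
      have h1 : T / Q * T ^ (-(1 / 2) : ℝ) ≤ Q ^ (-(1 / 3) : ℝ) := by
        have e1 : T / Q * T ^ (-(1 / 2) : ℝ) = T ^ (1 / 2 : ℝ) / Q := by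
          have : T * T ^ (-(1 / 2) : ℝ) = T ^ (1 / 2 : ℝ) := by
            nth_rewrite 1 [← Real.rpow_one T]
            rw [← Real.rpow_add hT0]; norm_num
          rw [div_mul_eq_mul_div, this]
        rw [e1, div_le_iff₀ hQ0]
        have e2 : Q ^ (-(1 / 3) : ℝ) * Q = Q ^ (2 / 3 : ℝ) := by
          nth_rewrite 2 [← Real.rpow_one Q]
          rw [← Real.rpow_add hQ0]; norm_num
        rw [e2]
        calc T ^ (1 / 2 : ℝ) ≤ (Q ^ (4 / 3 : ℝ)) ^ (1 / 2 : ℝ) :=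
              Real.rpow_le_rpow hT0.le hT2 (by norm_num)
          _ = Q ^ (2 / 3 : ℝ) := by rw [← Real.rpow_mul hQ0.le]; norm_num
      have h2 : T ^ (-(1 / 2) : ℝ) ≤ Q ^ (-(1 / 3) : ℝ) := by
        calc T ^ (-(1 / 2) : ℝ) ≤ (Q ^ (2 / 3 : ℝ)) ^ (-(1 / 2) : ℝ) :=
              Real.rpow_le_rpow_of_nonpos (Real.rpow_pos_of_pos hQ0 _) hT1 (by norm_num)
          _ = Q ^ (-(1 / 3) : ℝ) := by rw [← Real.rpow_mul hQ0.le]; norm_num
      rw [add_mul, one_mul]; linarith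
    have hmain : (N * Y ^ (-(1 / 2) : ℝ)) ^ j ≤ 2 * K * k * Y ^ η * Q ^ (-ε) := by
      have e1 : (Y ^ (-(1 / 2) : ℝ)) ^ j = T ^ (-(1 / 2) : ℝ) := by
        rw [hT, ← Real.rpow_natCast, ← Real.rpow_natCast, ← Real.rpow_mul hY0.le,
          ← Real.rpow_mul hY0.le]
        ring_nf
      rw [mul_pow, e1]
      have h1 := hcK j hjpos hjJ
      rw [← hT] at h1
      have h2 : (0 : ℝ) < T ^ (-(1 / 2) : ℝ) := Real.rpow_pos_of_pos hT0 _
      have h4 : Q ^ (-ε) = Q ^ (-(1 / 3) : ℝ) * Q ^ (1 / 3 - ε) := by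
        rw [← Real.rpow_add hQ0]; ring_nf
      calc N ^ j * T ^ (-(1 / 2) : ℝ)
          ≤ (K * Y ^ η * (T / Q + 1) * (Q * k / d)) * T ^ (-(1 / 2) : ℝ) := by gcongr
        _ = K * Y ^ η * ((T / Q + 1) * T ^ (-(1 / 2) : ℝ)) * (Q * k / d) := by ring
        _ ≤ K * Y ^ η * (2 * Q ^ (-(1 / 3) : ℝ)) * (k * Q ^ (1 / 3 - ε)) := by gcongr
        _ = _ := by rw [h4]; ring
    have hYη1 : 1 ≤ Y ^ η := Real.one_le_rpow hY1 hη0.le
    have hW : 1 ≤ 2 * K * k * Y ^ η := by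
      have h1 : 1 ≤ K * k := one_le_mul_of_one_le_of_one_le hK1 hk1
      have h2 : 1 ≤ K * k * Y ^ η := one_le_mul_of_one_le_of_one_le h1 hYη1
      nlinarith
    have hroot := root_bound hjpos hjJ hW hQ1 hε.le hmain
    rw [hηJ] at hroot
    have e3 : Y ^ (-1 / 2 + η) = Y ^ (-(1 / 2) : ℝ) * Y ^ η := by
      rw [← Real.rpow_add hY0]; congr 1; ring
    have e4 : Y ^ η * Y ^ η ≤ Y ^ (-η) * Q ^ (4 * η) := by
      have e5 : Y ^ η * Y ^ η = Y ^ (-η) * Y ^ (3 * η) := by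
        rw [← Real.rpow_add hY0, ← Real.rpow_add hY0]; congr 1; ring
      rw [e5]
      have e6 : Y ^ (3 * η) ≤ Q ^ (4 * η) := by
        calc Y ^ (3 * η) ≤ (Q ^ (4 / 3 : ℝ)) ^ (3 * η) :=
              Real.rpow_le_rpow hY0.le h (by positivity)
          _ = Q ^ (4 * η) := by rw [← Real.rpow_mul hQ0.le]; congr 1; ring
      gcongr
    have e7 : Q ^ (-(8 * η)) * Q ^ (4 * η) = Q ^ (-(4 * η)) := by
      rw [← Real.rpow_add hQ0]; congr 1; ring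
    calc N * Y ^ (-1 / 2 + η) * Real.exp (-(Y / (2 * X)))
        ≤ N * Y ^ (-1 / 2 + η) * 1 := by gcongr
      _ = (N * Y ^ (-(1 / 2) : ℝ)) * Y ^ η := by rw [e3]; ring
      _ ≤ (2 * K * k * Y ^ η * Q ^ (-(8 * η))) * Y ^ η := by gcongr
      _ = 2 * K * k * Q ^ (-(8 * η)) * (Y ^ η * Y ^ η) := by ring
      _ ≤ 2 * K * k * Q ^ (-(8 * η)) * (Y ^ (-η) * Q ^ (4 * η)) := by gcongr
      _ = 2 * K * 1 * k * (Q ^ (-(8 * η)) * Q ^ (4 * η)) * Y ^ (-η) := by ring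
      _ ≤ 2 * K * M * k * Q ^ (-(4 * η)) * Y ^ (-η) := by rw [e7]; gcongr
  · -- the far range
    have hQY : Q ≤ Y := by
      have : Q ≤ Q ^ (4 / 3 : ℝ) := by
        nth_rewrite 1 [← Real.rpow_one Q]
        exact Real.rpow_le_rpow_of_exponent_le hQ1 (by norm_num)
      linarith
    have h1 := hcK 1 le_rfl hJ1
    rw [pow_one, pow_one] at h1
    have hc : (Y / Q + 1) * (Q * k / d) ≤ 2 * Y * k := by
      have e1 : (Y / Q + 1) * (Q * k / d) = (Y + Q) * k / d := by field_simp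
      rw [e1, div_le_iff₀ (by linarith)]
      have : (Y + Q) * k ≤ 2 * Y * k := by
        have : Y + Q ≤ 2 * Y := by linarith
        gcongr
      have h0 : 0 ≤ 2 * Y * k := by positivity
      nlinarith
    have hc2 : N ≤ 2 * K * k * (Y ^ η * Y) := by
      calc N ≤ K * Y ^ η * (Y / Q + 1) * (Q * k / d) := h1
        _ = K * Y ^ η * ((Y / Q + 1) * (Q * k / d)) := by ring
        _ ≤ K * Y ^ η * (2 * Y * k) := by gcongr
        _ = _ := by ring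
    have hX : Y ^ (1 / 10 : ℝ) / 2 ≤ Y / (2 * X) := by
      have e1 : X ≤ Y ^ (9 / 10 : ℝ) := by
        calc X ≤ Q ^ (6 / 5 : ℝ) := hX2
          _ = (Q ^ (4 / 3 : ℝ)) ^ (9 / 10 : ℝ) := by rw [← Real.rpow_mul hQ0.le]; norm_num
          _ ≤ Y ^ (9 / 10 : ℝ) := Real.rpow_le_rpow (by positivity) h.le (by norm_num)
      have e2 : Y ^ (1 / 10 : ℝ) * X ≤ Y := by
        calc Y ^ (1 / 10 : ℝ) * X ≤ Y ^ (1 / 10 : ℝ) * Y ^ (9 / 10 : ℝ) := by gcongr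
          _ = Y := by rw [← Real.rpow_add hY0]; norm_num
      rw [div_le_div_iff₀ (by norm_num) (by positivity)]
      nlinarith
    have hexp : Real.exp (-(Y / (2 * X))) ≤ M * Y ^ (-(2 : ℝ)) := by
      rw [hM]
      refine le_trans ?_ (exp_bound hY0)
      apply Real.exp_le_exp.2
      linarith
    have hYe : (Y ^ η * Y) * Y ^ (-1 / 2 + η) * Y ^ (-(2 : ℝ)) ≤
        Q ^ (-(4 * η)) * Y ^ (-η) := by
      have e1 : (Y ^ η * Y) * Y ^ (-1 / 2 + η) * Y ^ (-(2 : ℝ)) =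
          Y ^ (-3 / 2 + 3 * η) * Y ^ (-η) := by
        nth_rewrite 2 [← Real.rpow_one Y]
        rw [← Real.rpow_add hY0, ← Real.rpow_add hY0, ← Real.rpow_add hY0, ← Real.rpow_add hY0]
        congr 1; ring
      rw [e1]
      have e2 : Y ^ (-3 / 2 + 3 * η) ≤ Y ^ (-(4 * η)) :=
        Real.rpow_le_rpow_of_exponent_le hY1 (by linarith)
      have e3 : Y ^ (-(4 * η)) ≤ Q ^ (-(4 * η)) :=
        Real.rpow_le_rpow_of_nonpos hQ0 hQY (by linarith)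
      have e4 := e2.trans e3
      gcongr
    calc N * Y ^ (-1 / 2 + η) * Real.exp (-(Y / (2 * X)))
        ≤ (2 * K * k * (Y ^ η * Y)) * Y ^ (-1 / 2 + η) * (M * Y ^ (-(2 : ℝ))) := by gcongr
      _ = 2 * K * M * k * ((Y ^ η * Y) * Y ^ (-1 / 2 + η) * Y ^ (-(2 : ℝ))) := by ring
      _ ≤ 2 * K * M * k * (Q ^ (-(4 * η)) * Y ^ (-η)) := by gcongr
      _ = _ := by ring

open Classical in
theorem fiber_bound {R : Subring ℂ} (hfin : ∀ y : ℝ, {I : Ideal R | nm I ≤ y}.Finite)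
    (χ : Ideal R → ℂ) (k : ℕ) {B Z η : ℝ} (hB : 0 < B) (hZ : 0 < Z)
    (hη : η ≤ 1 / 2) (hη0 : 0 ≤ η) (F : Finset (Ideal R)) (i : ℕ)
    (hF : ∀ I ∈ F, Nat.log 2 (Nat.card (R ⧸ I)) = i) :
    ∑ I ∈ F, (if Pri I ∧ B < nm I ∧ χ I ≠ 0 ∧ χ I ^ k = 1
      then (nm I) ^ (-1 / 2 + η) * Real.exp (-(nm I / Z)) else 0) ≤
      if B < (2 : ℝ) ^ (i + 1) then
        2 * (cntP χ k ((2 : ℝ) ^ (i + 1)) * ((2 : ℝ) ^ (i + 1)) ^ (-1 / 2 + η) *
          Real.exp (-((2 : ℝ) ^ (i + 1) / (2 * Z)))) else 0 := by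
  set nn : Ideal R → ℕ := fun I => Nat.card (R ⧸ I) with hnnd
  have hnn : ∀ I : Ideal R, nm I = nn I := fun I => rfl
  set P : Ideal R → Prop := fun I => Pri I ∧ B < nm I ∧ χ I ≠ 0 ∧ χ I ^ k = 1 with hP
  set f : Ideal R → ℝ := fun I => (nm I) ^ (-1 / 2 + η) * Real.exp (-(nm I / Z)) with hf
  set w : ℝ := ((2 : ℝ) ^ i) ^ (-1 / 2 + η) * Real.exp (-((2 : ℝ) ^ i / Z)) with hw
  have hw0 : 0 ≤ w := by positivity
  have hpos : ∀ γ, P γ → 0 < nn γ := by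
    intro γ hγ
    have h1 := hγ.2.1
    rw [hnn] at h1
    have : (0 : ℝ) < nn γ := hB.trans h1
    exact_mod_cast this
  have hle : ∀ γ ∈ F, P γ → f γ ≤ w := by
    intro γ hγ hγP
    have hk0 := hpos γ hγP
    have h1 : 2 ^ i ≤ nn γ := by
      rw [← hF γ hγ]; exact Nat.pow_log_le_self 2 hk0.ne'
    have h2 : (2 : ℝ) ^ i ≤ nm γ := by
      rw [hnn]; exact_mod_cast h1
    apply mul_le_mul
    · exact Real.rpow_le_rpow_of_nonpos (by positivity) h2 (by linarith)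
    · apply Real.exp_le_exp.mpr
      have : (2 : ℝ) ^ i / Z ≤ nm γ / Z := by gcongr
      linarith
    · exact (Real.exp_pos _).le
    · positivity
  have hlt : ∀ γ ∈ F, P γ → nm γ ≤ (2 : ℝ) ^ (i + 1) := by
    intro γ hγ hγP
    have h1 : nn γ < 2 ^ (i + 1) := by
      rw [← hF γ hγ]; exact Nat.lt_pow_succ_log_self (by norm_num) _
    rw [hnn]
    exact_mod_cast h1.le
  have hsum : ∑ γ ∈ F, (if P γ then f γ else 0) = ∑ γ ∈ F.filter P, f γ := by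
    rw [Finset.sum_filter]
  rw [hsum]
  split_ifs with hBi
  · have h1 : ∑ γ ∈ F.filter P, f γ ≤ (F.filter P).card * w := by
      rw [← nsmul_eq_mul]
      apply Finset.sum_le_card_nsmul
      intro k hk
      rw [Finset.mem_filter] at hk
      exact hle k hk.1 hk.2
    have h2 : (F.filter P).card ≤ cntP χ k ((2 : ℝ) ^ (i + 1)) := by
      rw [cntP, ← Set.ncard_coe_finset]
      apply Set.ncard_le_ncard
      · intro k hk
        rw [Finset.mem_coe, Finset.mem_filter] at hk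
        exact ⟨hk.2.1, hlt k hk.1 hk.2, hk.2.2.2⟩
      · refine (hfin ((2 : ℝ) ^ (i + 1))).subset ?_
        intro k hk
        exact hk.2.1
    have h3 : w ≤ 2 * (((2 : ℝ) ^ (i + 1)) ^ (-1 / 2 + η) *
          Real.exp (-((2 : ℝ) ^ (i + 1) / (2 * Z)))) := by
      have h4 : (2 : ℝ) ^ (i + 1) / (2 * Z) = (2 : ℝ) ^ i / Z := by
        rw [pow_succ]; field_simp
      rw [h4, hw, ← mul_assoc]
      apply mul_le_mul_of_nonneg_right _ (Real.exp_pos _).le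
      have h5 : ((2 : ℝ) ^ (i + 1)) ^ (-1 / 2 + η) =
          ((2 : ℝ) ^ i) ^ (-1 / 2 + η) * (2 : ℝ) ^ (-1 / 2 + η) := by
        rw [pow_succ, Real.mul_rpow (by positivity) (by norm_num)]
      rw [h5]
      have h6 : 1 ≤ 2 * (2 : ℝ) ^ (-1 / 2 + η) := by
        have : 2 * (2 : ℝ) ^ (-1 / 2 + η) = (2 : ℝ) ^ (1 + (-1 / 2 + η)) := by
          rw [Real.rpow_add (by norm_num) 1 (-1 / 2 + η), Real.rpow_one]
        rw [this]
        exact Real.one_le_rpow (by norm_num) (by linarith)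
      have h7 : 0 ≤ ((2 : ℝ) ^ i) ^ (-1 / 2 + η) := by positivity
      nlinarith
    calc ∑ k ∈ F.filter P, f k ≤ (F.filter P).card * w := h1
      _ ≤ (cntP χ k ((2 : ℝ) ^ (i + 1)) : ℝ) * w := by
          apply mul_le_mul_of_nonneg_right _ hw0
          exact_mod_cast h2
      _ ≤ (cntP χ k ((2 : ℝ) ^ (i + 1)) : ℝ) * (2 * (((2 : ℝ) ^ (i + 1)) ^ (-1 / 2 + η) *
          Real.exp (-((2 : ℝ) ^ (i + 1) / (2 * Z))))) :=
          mul_le_mul_of_nonneg_left h3 (Nat.cast_nonneg _)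
      _ = _ := by ring
  · apply le_of_eq
    apply Finset.sum_eq_zero
    intro k hk
    rw [Finset.mem_filter] at hk
    exact absurd (lt_of_lt_of_le hk.2.2.1 (hlt k hk.1 hk.2)) hBi

theorem summ {R : Subring ℂ} (hs : Summable (fun I : Ideal R => (nm I) ^ (-(2 : ℝ))))
    {Z η : ℝ} (hZ : 0 < Z) (hη : η < 1 / 2) :
    Summable (fun I : Ideal R => (nm I) ^ (-1 / 2 + η) * Real.exp (-(nm I / Z))) := by
  refine Summable.of_nonneg_of_le (fun I => ?_) (fun I => ?_) (hs.mul_left (2 * Z ^ 2))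
  · have : 0 ≤ nm I := Nat.cast_nonneg _
    positivity
  · have h0 : 0 ≤ nm I := Nat.cast_nonneg _
    rcases Nat.eq_zero_or_pos (Nat.card (R ⧸ I)) with h | h
    · have h1 : nm I = 0 := by
        unfold nm; rw [h]; simp
      rw [h1, Real.zero_rpow (by linarith), Real.zero_rpow (by norm_num)]
      simp
    · have h1 : 1 ≤ nm I := by
        unfold nm; exact_mod_cast h
      have h2 : (nm I) ^ (-1 / 2 + η) ≤ 1 := Real.rpow_le_one_of_one_le_of_nonpos h1 (by linarith)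
      have hp : 0 < nm I := by linarith
      have h3 : Real.exp (-(nm I / Z)) ≤ 2 * Z ^ 2 * (nm I) ^ (-(2 : ℝ)) := by
        have hx : 0 < nm I / Z := by positivity
        have h4 := Real.quadratic_le_exp_of_nonneg hx.le
        have h5 : (nm I / Z) ^ 2 / 2 ≤ Real.exp (nm I / Z) := by linarith
        rw [Real.exp_neg]
        have h6 : 0 < (nm I / Z) ^ 2 / 2 := by positivity
        refine (inv_anti₀ h6 h5).trans (le_of_eq ?_)
        rw [Real.rpow_neg h0, Real.rpow_two]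
        field_simp
      calc (nm I) ^ (-1 / 2 + η) * Real.exp (-(nm I / Z)) ≤ 1 * Real.exp (-(nm I / Z)) :=
            mul_le_mul_of_nonneg_right h2 (Real.exp_pos _).le
        _ ≤ _ := by rw [one_mul]; exact h3

end Pool.Agent.TH936.AC.Tail

namespace Pool.Agent.TH936.AC

open Pool.Agent.W192.HK

theorem a_tail (_h1 : H_BASIC) (h2 : H_CNT) (h3 : A_COUNT) : A_TAIL := by
  classical
  intro R ω hR ε hε hε4 D0 hD0
  obtain ⟨J, K, hJ, hK, hb⟩ := Tail.block h3 hR hε hε4 hD0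
  obtain ⟨hfin, hsm, -⟩ := h2 R ω hR.qr
  have hJ0 : (0 : ℝ) < J := by exact_mod_cast hJ
  have hJ1 : (1 : ℝ) ≤ J := by exact_mod_cast hJ
  obtain ⟨η, hηd⟩ : ∃ η : ℝ, η = ε / (8 * J) := ⟨_, rfl⟩
  obtain ⟨δ, hδd⟩ : ∃ δ : ℝ, δ = ε / (2 * J) := ⟨_, rfl⟩
  have hη : 0 < η := by rw [hηd]; positivity
  have hδ : 0 < δ := by rw [hδd]; positivity
  have hηs : η < 1 / 2 := by
    rw [hηd, div_lt_iff₀ (by positivity)]
    linarith
  rw [← hηd, ← hδd] at hb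
  obtain ⟨r, hr⟩ : ∃ r : ℝ, r = (2 : ℝ) ^ (-η) := ⟨_, rfl⟩
  have hr0 : 0 < r := by rw [hr]; exact Real.rpow_pos_of_pos (by norm_num) _
  have hr1 : r < 1 := by
    rw [hr]; exact Real.rpow_lt_one_of_one_lt_of_neg (by norm_num) (by linarith)
  have hr1' := sub_pos.mpr hr1
  refine ⟨η, δ, 2 * K * (1 - r)⁻¹, hη, hδ, by positivity, ?_⟩
  intro q χ hχ d hOd hd k hkd X hX1 hX2
  have hX0 : 0 < X := by linarith
  have hQ2 : (2 : ℝ) ≤ q := by exact_mod_cast hχ.prime.two_le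
  have hB0 : 0 < (q : ℝ) ^ D0 := Real.rpow_pos_of_pos (by linarith) _
  refine ⟨?_, ?_⟩
  · refine Summable.of_nonneg_of_le (fun I => ?_) (fun I => ?_)
      (Tail.summ (hsm 2 (by norm_num)) hX0 hηs)
    · have : 0 ≤ nm I := Nat.cast_nonneg _
      split_ifs <;> positivity
    · have : 0 ≤ nm I := Nat.cast_nonneg _
      split_ifs
      · exact le_rfl
      · positivity
  have hblock := hb q χ hχ d hOd hd k hkd X hX1 hX2
  obtain ⟨B, hB⟩ : ∃ B : ℝ, B = (q : ℝ) ^ D0 := ⟨_, rfl⟩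
  rw [← hB] at hblock hB0 ⊢
  obtain ⟨A, hA⟩ : ∃ A : ℝ, A = K * k * (q : ℝ) ^ (-δ) := ⟨_, rfl⟩
  rw [← hA] at hblock
  have hA0 : 0 ≤ A := by rw [hA]; positivity
  have hgoal : 2 * K * (1 - r)⁻¹ * k * (q : ℝ) ^ (-δ) = 2 * A * (1 - r)⁻¹ := by
    rw [hA]; ring
  rw [hgoal, tailP]
  apply tsum_le_of_sum_le' (by positivity)
  intro u
  obtain ⟨n, hn⟩ : ∃ n : ℕ, ∀ I ∈ u, Nat.log 2 (Nat.card (R ⧸ I)) < n :=
    ⟨u.sup (fun I : Ideal R => Nat.log 2 (Nat.card (R ⧸ I))) + 1, fun I hI =>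
      Nat.lt_succ_of_le (Finset.le_sup (f := fun I : Ideal R => Nat.log 2 (Nat.card (R ⧸ I))) hI)⟩
  rw [← Finset.sum_fiberwise_of_maps_to (s := u) (t := Finset.range n)
    (g := fun I : Ideal R => Nat.log 2 (Nat.card (R ⧸ I)))
    (fun I hI => Finset.mem_range.2 (hn I hI))]
  have hterm : ∀ i ∈ Finset.range n,
      (∑ I ∈ u.filter (fun I : Ideal R => Nat.log 2 (Nat.card (R ⧸ I)) = i),
        (if Pri I ∧ B < nm I ∧ χ I ≠ 0 ∧ χ I ^ k = 1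
      then (nm I) ^ (-1 / 2 + η) * Real.exp (-(nm I / X)) else 0)) ≤
      2 * A * r ^ i := by
    intro i _
    have h1 := Tail.fiber_bound hfin χ k hB0 hX0 (η := η) (by linarith) hη.le
      (u.filter (fun I : Ideal R => Nat.log 2 (Nat.card (R ⧸ I)) = i)) i
      (fun k hk => (Finset.mem_filter.mp hk).2)
    refine h1.trans ?_
    split_ifs with hBi
    · have h2 := hblock ((2 : ℝ) ^ (i + 1)) (one_le_pow₀ (by norm_num)) hBi
      have h3 : ((2 : ℝ) ^ (i + 1)) ^ (-η) ≤ r ^ i := by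
        have h4 : ((2 : ℝ) ^ (i + 1)) ^ (-η) = r ^ (i + 1) := by
          rw [hr, ← Real.rpow_natCast, ← Real.rpow_natCast, ← Real.rpow_mul (by norm_num),
            ← Real.rpow_mul (by norm_num), mul_comm]
        rw [h4, pow_succ]
        exact mul_le_of_le_one_right (by positivity) hr1.le
      calc _ ≤ 2 * (A * ((2 : ℝ) ^ (i + 1)) ^ (-η)) := by linarith
        _ ≤ 2 * (A * r ^ i) := by
            have : A * ((2 : ℝ) ^ (i + 1)) ^ (-η) ≤ A * r ^ i :=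
              mul_le_mul_of_nonneg_left h3 (by positivity)
            linarith
        _ = _ := by ring
    · positivity
  refine (Finset.sum_le_sum hterm).trans ?_
  rw [← Finset.mul_sum]
  apply mul_le_mul_of_nonneg_left _ (by positivity)
  rw [← tsum_geometric_of_lt_one hr0.le hr1]
  exact (summable_geometric_of_lt_one hr0.le hr1).sum_le_tsum _ (fun i _ => by positivity)

end Pool.Agent.TH936.AC
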