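import Mathlib
import Pool.Agent.TH936.AC.Stmts

set_option autoImplicit false

/-!
# Project AC, part EPS: the sum over the rational integers
-/

namespace Pool.Agent.TH936.AC.Eps

open Filter Topology Finset

/-! ## summation by parts -/

lemma tele {H : ℕ → ℝ} (hanti : ∀ i, H (i + 1) ≤ H i) (h0 : ∀ i, 0 ≤ H i) :
    Summable (fun i => |H i - H (i + 1)|) ∧ ∑' i, |H i - H (i + 1)| ≤ H 0 := by
  have h1 : ∀ N, ∑ i ∈ range N, |H i - H (i + 1)| ≤ H 0 := by
    intro N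
    have : ∑ i ∈ range N, |H i - H (i + 1)| = H 0 - H N := by
      rw [← Finset.sum_range_sub' H N]
      exact Finset.sum_congr rfl fun i _ => abs_of_nonneg (sub_nonneg.2 (hanti i))
    rw [this]
    linarith [h0 N]
  exact ⟨summable_of_sum_range_le (fun i => abs_nonneg _) h1,
    Real.tsum_le_of_sum_range_le (fun i => abs_nonneg _) h1⟩

lemma T_le {a : ℕ → ℂ} {n : ℝ} (hS : ∀ N, ‖∑ i ∈ range N, a i‖ ≤ n) {D : ℕ → ℝ}
    (hD : Summable fun i => |D i|) :
    Summable (fun i => ((D i : ℝ) : ℂ) * ∑ k ∈ range (i + 1), a k) ∧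
      ‖∑' i, ((D i : ℝ) : ℂ) * ∑ k ∈ range (i + 1), a k‖ ≤ n * ∑' i, |D i| := by
  have h1 : ∀ i, ‖((D i : ℝ) : ℂ) * ∑ k ∈ range (i + 1), a k‖ ≤ n * |D i| := by
    intro i
    rw [norm_mul, Complex.norm_real, Real.norm_eq_abs, mul_comm]
    exact mul_le_mul_of_nonneg_right (hS _) (abs_nonneg _)
  have h2 : Summable (fun i => n * |D i|) := hD.mul_left n
  refine ⟨Summable.of_norm_bounded h2 h1, ?_⟩
  rw [← tsum_mul_left]
  exact tsum_of_norm_bounded h2.hasSum h1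

lemma parts {a : ℕ → ℂ} {n : ℝ} (hS : ∀ N, ‖∑ i ∈ range N, a i‖ ≤ n) {H : ℕ → ℝ}
    (hH : Tendsto H atTop (𝓝 0)) (hs : Summable (fun i => (H i : ℂ) * a i))
    (hd : Summable (fun i => |H i - H (i + 1)|)) :
    ∑' i, (H i : ℂ) * a i = ∑' i, ((H i - H (i + 1) : ℝ) : ℂ) * ∑ k ∈ range (i + 1), a k := by
  have h1 : ∀ N, ∑ i ∈ range N, (H i : ℂ) * a i = (H N : ℂ) * ∑ i ∈ range N, a i
      + ∑ i ∈ range N, ((H i - H (i + 1) : ℝ) : ℂ) * ∑ k ∈ range (i + 1), a k := by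
    intro N
    induction N with
    | zero => simp
    | succ N ih =>
      rw [Finset.sum_range_succ (fun i => (H i : ℂ) * a i), ih,
        Finset.sum_range_succ (fun i => ((H i - H (i + 1) : ℝ) : ℂ) * ∑ k ∈ range (i + 1), a k) N,
        Finset.sum_range_succ a N]
      push_cast
      ring
  have h2 := (T_le hS hd).1.hasSum.tendsto_sum_nat
  have h3 : Tendsto (fun N => (H N : ℂ) * ∑ i ∈ range N, a i) atTop (𝓝 0) := by
    have h4 : Tendsto (fun N => n * |H N|) atTop (𝓝 0) := by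
      have := (hH.abs).const_mul n
      rwa [abs_zero, mul_zero] at this
    refine squeeze_zero_norm (fun N => ?_) h4
    rw [norm_mul, Complex.norm_real, Real.norm_eq_abs, mul_comm]
    exact mul_le_mul_of_nonneg_right (hS _) (abs_nonneg _)
  have h5 := h3.add h2
  rw [zero_add] at h5
  refine tendsto_nhds_unique (hs.hasSum.tendsto_sum_nat) ?_
  refine h5.congr fun N => ?_
  rw [h1 N]

/-! ## real estimates -/

lemma G_deriv {w t : ℝ} (ht : 0 < t) : HasDerivAt (fun t => (1 - Real.exp (-(t ^ 2 * w))) / t)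
    (2 * w * Real.exp (-(t ^ 2 * w)) - (1 - Real.exp (-(t ^ 2 * w))) / t ^ 2) t := by
  have h1 : HasDerivAt (fun t : ℝ => 1 - Real.exp (-(t ^ 2 * w)))
      (2 * t * w * Real.exp (-(t ^ 2 * w))) t := by
    have h2 : HasDerivAt (fun t : ℝ => -(t ^ 2 * w)) (-(2 * t * w)) t := by
      refine (((hasDerivAt_pow 2 t).mul_const w).fun_neg).congr_deriv ?_
      norm_num
    have h3 := (h2.exp).const_sub 1
    refine h3.congr_deriv ?_
    ring
  refine (h1.div (hasDerivAt_id' t) ht.ne').congr_deriv ?_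
  field_simp

lemma G_bound {w t : ℝ} (hw : 0 < w) (ht : 0 < t) :
    |2 * w * Real.exp (-(t ^ 2 * w)) - (1 - Real.exp (-(t ^ 2 * w))) / t ^ 2|
      ≤ 2 * w / (1 + w * t ^ 2) := by
  set u : ℝ := t ^ 2 * w with hu
  have hu0 : 0 < u := by positivity
  have he : Real.exp (-u) ≤ 1 / (1 + u) := by
    rw [Real.exp_neg, inv_eq_one_div]
    exact one_div_le_one_div_of_le (by linarith) (by linarith [Real.add_one_le_exp u])
  have he0 := Real.exp_pos (-u)
  have he1 : 1 - u ≤ Real.exp (-u) := by linarith [Real.add_one_le_exp (-u)]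
  have hle1 : Real.exp (-u) ≤ 1 := Real.exp_le_one_iff.2 (by linarith)
  have hd : 1 + w * t ^ 2 = 1 + u := by rw [hu]; ring
  rw [hd]
  have hA : 2 * w * Real.exp (-u) ≤ 2 * w / (1 + u) := by
    calc 2 * w * Real.exp (-u) ≤ 2 * w * (1 / (1 + u)) := by gcongr
      _ = 2 * w / (1 + u) := by ring
  have hA0 : 0 ≤ 2 * w * Real.exp (-u) := by positivity
  have hB : (1 - Real.exp (-u)) / t ^ 2 ≤ 2 * w / (1 + u) := by
    rw [div_le_div_iff₀ (by positivity) (by positivity)]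
    have h1 : 2 * w * t ^ 2 = 2 * u := by rw [hu]; ring
    rw [h1]
    rcases le_total u 1 with h | h
    · nlinarith
    · nlinarith
  have hB0 : 0 ≤ (1 - Real.exp (-u)) / t ^ 2 := div_nonneg (by linarith) (by positivity)
  rw [abs_le]
  constructor <;> linarith

lemma G_diff {w x : ℝ} (hw : 0 < w) (hx : 0 < x) :
    |(1 - Real.exp (-(x ^ 2 * w))) / x - (1 - Real.exp (-((x + 1) ^ 2 * w))) / (x + 1)|
      ≤ 2 * w / (1 + w * x ^ 2) := by
  have h := (convex_Icc x (x + 1)).norm_image_sub_le_of_norm_hasDerivWithin_le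
    (f := fun t => (1 - Real.exp (-(t ^ 2 * w))) / t)
    (f' := fun t => 2 * w * Real.exp (-(t ^ 2 * w)) - (1 - Real.exp (-(t ^ 2 * w))) / t ^ 2)
    (C := 2 * w / (1 + w * x ^ 2))
    (fun t ht => (G_deriv (lt_of_lt_of_le hx ht.1)).hasDerivWithinAt)
    (fun t ht => by
      have ht0 : 0 < t := lt_of_lt_of_le hx ht.1
      rw [Real.norm_eq_abs]
      refine (G_bound hw ht0).trans ?_
      have : x ^ 2 ≤ t ^ 2 := by
        have := ht.1
        gcongr
      gcongr)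
    (show x + 1 ∈ Set.Icc x (x + 1) from ⟨by linarith, le_rfl⟩)
    (show x ∈ Set.Icc x (x + 1) from ⟨le_rfl, by linarith⟩)
  have e : x - (x + 1) = -1 := by ring
  rw [e, norm_neg, norm_one, mul_one, Real.norm_eq_abs] at h
  exact h

lemma frac_le {w : ℝ} (hw : 0 < w) (i : ℕ) :
    2 * w / (1 + w * ((i : ℝ) + 1) ^ 2) ≤ 4 * Real.sqrt w *
      (1 / (1 + Real.sqrt w * i) - 1 / (1 + Real.sqrt w * ((i + 1 : ℕ) : ℝ))) := by
  set r : ℝ := Real.sqrt w with hr
  have hr0 : 0 < r := Real.sqrt_pos.2 hw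
  have hw2 : w = r ^ 2 := (Real.sq_sqrt hw.le).symm
  have hi : (0 : ℝ) ≤ i := Nat.cast_nonneg i
  push_cast
  rw [hw2]
  have h1 : 1 / (1 + r * i) - 1 / (1 + r * ((i : ℝ) + 1))
      = r / ((1 + r * i) * (1 + r * ((i : ℝ) + 1))) := by
    field_simp
    ring
  rw [h1]
  have h2 : 4 * r * (r / ((1 + r * i) * (1 + r * ((i : ℝ) + 1))))
      = 4 * r ^ 2 / ((1 + r * i) * (1 + r * ((i : ℝ) + 1))) := by ring
  rw [h2, div_le_div_iff₀ (by positivity) (by positivity)]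
  have h3 : 0 ≤ r ^ 2 := by positivity
  have h4 : (1 + r * i) * (1 + r * ((i : ℝ) + 1)) ≤ 2 * (1 + r ^ 2 * ((i : ℝ) + 1) ^ 2) := by
    nlinarith [sq_nonneg (1 - r * ((i : ℝ) + 1)), mul_nonneg hr0.le hi]
  nlinarith

lemma rpow_diff {x s : ℝ} (hx : 1 ≤ x) (hs1 : 1 ≤ s) (hs2 : s ≤ 2) :
    |x ^ (-s) - (x + 1) ^ (-s)| ≤ 2 * (1 / x - 1 / (x + 1)) := by
  have hx0 : 0 < x := by linarith
  have h1 : (x + 1) ^ (-s) ≤ x ^ (-s) :=
    Real.rpow_le_rpow_of_nonpos hx0 (by linarith) (by linarith)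
  rw [abs_of_nonneg (sub_nonneg.2 h1)]
  have hxs : 0 < x ^ s := Real.rpow_pos_of_pos hx0 s
  have hxs1 : 0 < (x + 1) ^ s := Real.rpow_pos_of_pos (by linarith) s
  have h2 : (x + 1) ^ (-s) = x ^ (-s) * (x / (x + 1)) ^ s := by
    rw [Real.div_rpow hx0.le (by linarith), Real.rpow_neg hx0.le, Real.rpow_neg (by linarith)]
    field_simp
  have hb : x / (x + 1) ≤ 1 := by
    rw [div_le_one (by linarith)]; linarith
  have h3 : (x / (x + 1)) ^ (2 : ℝ) ≤ (x / (x + 1)) ^ s :=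
    Real.rpow_le_rpow_of_exponent_ge (by positivity) hb hs2
  have h4 : x ^ (-s) ≤ x ^ (-1 : ℝ) := Real.rpow_le_rpow_of_exponent_le hx (by linarith)
  rw [Real.rpow_two] at h3
  rw [Real.rpow_neg_one] at h4
  rw [h2]
  have h5 : (x / (x + 1)) ^ s ≤ 1 := Real.rpow_le_one (by positivity) hb (by linarith)
  calc x ^ (-s) - x ^ (-s) * (x / (x + 1)) ^ s = x ^ (-s) * (1 - (x / (x + 1)) ^ s) := by ring
    _ ≤ x⁻¹ * (1 - (x / (x + 1)) ^ 2) := by
        apply mul_le_mul h4 (by linarith) (by linarith) (by positivity)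
    _ ≤ 2 * (1 / x - 1 / (x + 1)) := by
        have e1 : x⁻¹ * (1 - (x / (x + 1)) ^ 2) = (2 * x + 1) / (x * (x + 1) ^ 2) := by
          field_simp
          ring
        have e2 : 2 * (1 / x - 1 / (x + 1)) = 2 / (x * (x + 1)) := by
          field_simp
          ring
        rw [e1, e2, div_le_div_iff₀ (by positivity) (by positivity)]
        nlinarith [mul_pos hx0 hx0, mul_pos (mul_pos hx0 hx0) hx0]

/-! ## Dirichlet characters -/

open DirichletCharacter in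
lemma sum_period {n : ℕ} [NeZero n] {χ : DirichletCharacter ℂ n} (hχ : χ ≠ 1) :
    ∑ i ∈ range n, χ ((i + 1 : ℕ) : ZMod n) = 0 := by
  obtain ⟨k, rfl⟩ : ∃ k, n = k + 1 := ⟨n - 1, by have := NeZero.pos n; omega⟩
  rw [Finset.sum_range]
  change ∑ i : ZMod (k + 1), χ (((ZMod.val i) + 1 : ℕ) : ZMod (k + 1)) = 0
  have h1 : ∀ i : ZMod (k + 1), χ (((ZMod.val i) + 1 : ℕ) : ZMod (k + 1)) = χ (i + 1) := by
    intro i
    push_cast
    rw [ZMod.natCast_zmod_val]
  rw [Finset.sum_congr rfl fun i _ => h1 i]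
  have h2 : ∑ i : ZMod (k + 1), χ (i + 1) = ∑ i : ZMod (k + 1), χ i :=
    Equiv.sum_comp (Equiv.addRight (1 : ZMod (k + 1))) (fun i => χ i)
  exact h2.trans (MulChar.sum_eq_zero_of_ne_one hχ)

lemma partial_le {n : ℕ} [NeZero n] {χ : DirichletCharacter ℂ n} (hχ : χ ≠ 1) (N : ℕ) :
    ‖∑ i ∈ range N, χ ((i + 1 : ℕ) : ZMod n)‖ ≤ n := by
  induction N using Nat.strong_induction_on with
  | _ N ih =>
    rcases lt_or_ge N n with h | h
    · calc ‖∑ i ∈ range N, χ ((i + 1 : ℕ) : ZMod n)‖ ≤ ∑ i ∈ range N, (1 : ℝ) :=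
            norm_sum_le_of_le _ fun i _ => χ.norm_le_one _
        _ = N := by simp
        _ ≤ n := by exact_mod_cast h.le
    · obtain ⟨M, rfl⟩ := Nat.exists_eq_add_of_le h
      have hn := NeZero.pos n
      rw [Finset.sum_range_add, sum_period hχ, zero_add]
      have h1 : ∀ i ∈ range M, χ ((n + i + 1 : ℕ) : ZMod n) = χ ((i + 1 : ℕ) : ZMod n) := by
        intro i _
        congr 1
        push_cast
        rw [ZMod.natCast_self, zero_add]
      rw [Finset.sum_congr rfl h1]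
      exact ih M (by omega)

/-- the value at `1` -/
lemma L_one {n : ℕ} [NeZero n] {χ : DirichletCharacter ℂ n} (hχ : χ ≠ 1) :
    DirichletCharacter.LFunction χ 1 = ∑' i : ℕ, ((1 / ((i : ℝ) + 1) - 1 / (((i + 1 : ℕ) : ℝ) + 1) : ℝ) : ℂ) *
      ∑ k ∈ range (i + 1), χ ((k + 1 : ℕ) : ZMod n) := by
  have hS := partial_le hχ
  have h1 : ∀ s : ℝ, 1 < s → DirichletCharacter.LFunction χ s
      = ∑' i : ℕ, ((((i : ℝ) + 1) ^ (-s) - (((i + 1 : ℕ) : ℝ) + 1) ^ (-s) : ℝ) : ℂ) *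
      ∑ k ∈ range (i + 1), χ ((k + 1 : ℕ) : ZMod n) := by
    intro s hs
    have hs' : 1 < (s : ℂ).re := by rw [Complex.ofReal_re]; exact hs
    have hsum := DirichletCharacter.LSeriesSummable_of_one_lt_re χ hs'
    have hterm : ∀ i : ℕ, LSeries.term (fun m => χ m) (s : ℂ) (i + 1)
        = ((((i : ℝ) + 1) ^ (-s) : ℝ) : ℂ) * χ ((i + 1 : ℕ) : ZMod n) := by
      intro i
      rw [LSeries.term_of_ne_zero (Nat.succ_ne_zero i), Complex.ofReal_cpow (by positivity)]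
      push_cast
      rw [Complex.cpow_neg]
      rw [div_eq_mul_inv, mul_comm]
    rw [DirichletCharacter.LFunction_eq_LSeries χ hs', LSeries,
      hsum.tsum_eq_zero_add, LSeries.term_zero, zero_add]
    have hsum' := (summable_nat_add_iff 1).2 hsum
    simp only [hterm] at hsum' ⊢
    refine parts (H := fun i => ((i : ℝ) + 1) ^ (-s)) hS ?_ hsum' ?_
    · have h2 : Tendsto (fun x : ℝ => x ^ (-s)) atTop (𝓝 0) :=
        tendsto_rpow_neg_atTop (by linarith)
      exact h2.comp (tendsto_atTop_add_const_right _ _ tendsto_natCast_atTop_atTop)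
    · refine (tele (H := fun i : ℕ => ((i : ℝ) + 1) ^ (-s)) (fun i => ?_)
        (fun i => by positivity)).1
      refine Real.rpow_le_rpow_of_nonpos (by positivity) ?_ (by linarith)
      push_cast
      linarith
  have hlim1 : Tendsto (fun s : ℝ => DirichletCharacter.LFunction χ (s : ℂ)) (𝓝[>] (1 : ℝ))
      (𝓝 (DirichletCharacter.LFunction χ 1)) := by
    have hc := (DirichletCharacter.differentiable_LFunction hχ).continuous
    have h2 : Tendsto (fun s : ℝ => DirichletCharacter.LFunction χ (s : ℂ)) (𝓝 (1 : ℝ))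
        (𝓝 (DirichletCharacter.LFunction χ ((1 : ℝ) : ℂ))) :=
      (hc.comp Complex.continuous_ofReal).tendsto 1
    rw [Complex.ofReal_one] at h2
    exact h2.mono_left nhdsWithin_le_nhds
  have hlim2 : Tendsto (fun s : ℝ => ∑' i : ℕ,
      ((((i : ℝ) + 1) ^ (-s) - (((i + 1 : ℕ) : ℝ) + 1) ^ (-s) : ℝ) : ℂ) *
      ∑ k ∈ range (i + 1), χ ((k + 1 : ℕ) : ZMod n)) (𝓝[>] (1 : ℝ))
      (𝓝 (∑' i : ℕ, ((1 / ((i : ℝ) + 1) - 1 / (((i + 1 : ℕ) : ℝ) + 1) : ℝ) : ℂ) *
      ∑ k ∈ range (i + 1), χ ((k + 1 : ℕ) : ZMod n))) := by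
    refine tendsto_tsum_of_dominated_convergence
      (bound := fun i : ℕ => n * (2 * |1 / ((i : ℝ) + 1) - 1 / (((i + 1 : ℕ) : ℝ) + 1)|)) ?_ ?_ ?_
    · refine Summable.mul_left _ (Summable.mul_left _ ?_)
      refine (tele (H := fun i : ℕ => 1 / ((i : ℝ) + 1)) (fun i => ?_) (fun i => by positivity)).1
      refine one_div_le_one_div_of_le (by positivity) ?_
      push_cast
      linarith
    · intro i
      refine Tendsto.mul_const _ ?_
      refine (Complex.continuous_ofReal.tendsto _).comp ?_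
      refine Tendsto.mono_left ?_ nhdsWithin_le_nhds
      have hcx : ∀ x : ℝ, 0 < x → Tendsto (fun s : ℝ => x ^ (-s)) (𝓝 1) (𝓝 (1 / x)) := by
        intro x hx
        have h3 : ContinuousAt (fun s : ℝ => x ^ (-s)) 1 :=
          (Real.continuousAt_const_rpow hx.ne').comp continuous_neg.continuousAt
        have h4 := h3.tendsto
        rw [Real.rpow_neg_one, inv_eq_one_div] at h4
        exact h4
      exact (hcx _ (by positivity)).sub (hcx _ (by positivity))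
    · have h5 : ∀ᶠ s : ℝ in 𝓝[>] (1 : ℝ), s ∈ Set.Ioo (1 : ℝ) 2 :=
        Ioo_mem_nhdsGT (by norm_num)
      filter_upwards [h5] with s hs i
      rw [norm_mul, Complex.norm_real, Real.norm_eq_abs, mul_comm]
      refine mul_le_mul (hS _) ?_ (abs_nonneg _) (Nat.cast_nonneg _)
      have h6 := rpow_diff (x := (i : ℝ) + 1) (s := s) (by
        have : (0 : ℝ) ≤ i := Nat.cast_nonneg i
        linarith) hs.1.le hs.2.le
      push_cast
      refine h6.trans ?_
      exact mul_le_mul_of_nonneg_left (le_abs_self _) (by norm_num)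
  refine tendsto_nhds_unique (hlim1.congr' ?_) hlim2
  filter_upwards [self_mem_nhdsWithin] with s hs
  exact h1 s hs

/-! ## the smoothed sum over all integers -/

/-- the terms -/
noncomputable def F {n : ℕ} (χ : DirichletCharacter ℂ n) (w : ℝ) (m : ℕ) : ℂ :=
  χ (m : ZMod n) / (m : ℂ) * (Real.exp (-((m : ℝ) ^ 2 * w)) : ℂ)

/-- the weights -/
noncomputable def Hw (w : ℝ) (i : ℕ) : ℝ :=
  Real.exp (-(((i : ℝ) + 1) ^ 2 * w)) / ((i : ℝ) + 1)

lemma F_summable {n : ℕ} [NeZero n] (χ : DirichletCharacter ℂ n) {w : ℝ} (hw : 0 < w) :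
    Summable (F χ w) := by
  have h1 : Summable (fun m : ℕ => Real.exp (-w) ^ m) :=
    summable_geometric_of_lt_one (Real.exp_pos _).le (by
      have := Real.exp_lt_exp.2 (show -w < 0 by linarith)
      rwa [Real.exp_zero] at this)
  refine Summable.of_norm_bounded h1 fun m => ?_
  unfold F
  rw [norm_mul, norm_div, Complex.norm_real, Real.norm_eq_abs, abs_of_pos (Real.exp_pos _),
    Complex.norm_natCast, ← Real.exp_nat_mul]
  have h2 : ‖χ (m : ZMod n)‖ / (m : ℝ) ≤ 1 := by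
    rcases Nat.eq_zero_or_pos m with h | h
    · subst h
      simp
    · have hm : (1 : ℝ) ≤ m := by exact_mod_cast h
      rw [div_le_one (by linarith)]
      exact (χ.norm_le_one _).trans hm
  have h3 : Real.exp (-((m : ℝ) ^ 2 * w)) ≤ Real.exp (m * -w) := by
    apply Real.exp_le_exp.2
    have h4 : (m : ℝ) ≤ (m : ℝ) ^ 2 := by
      have : m ≤ m ^ 2 := Nat.le_self_pow (by norm_num) m
      exact_mod_cast this
    nlinarith
  calc ‖χ (m : ZMod n)‖ / (m : ℝ) * Real.exp (-((m : ℝ) ^ 2 * w))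
      ≤ 1 * Real.exp (m * -w) := by
        apply mul_le_mul h2 h3 (Real.exp_pos _).le (by norm_num)
    _ = Real.exp (m * -w) := one_mul _

lemma Hw_nonneg (w : ℝ) (i : ℕ) : 0 ≤ Hw w i := by
  unfold Hw
  have := Real.exp_pos (-(((i : ℝ) + 1) ^ 2 * w))
  positivity

lemma Hw_le {w : ℝ} (hw : 0 < w) (i : ℕ) : Hw w i ≤ 1 / ((i : ℝ) + 1) := by
  unfold Hw
  have h1 : Real.exp (-(((i : ℝ) + 1) ^ 2 * w)) ≤ 1 := by
    apply Real.exp_le_one_iff.2
    have : 0 ≤ ((i : ℝ) + 1) ^ 2 * w := by positivity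
    linarith
  gcongr

lemma Hw_anti {w : ℝ} (hw : 0 < w) (i : ℕ) : Hw w (i + 1) ≤ Hw w i := by
  unfold Hw
  push_cast
  have h1 : Real.exp (-(((i : ℝ) + 1 + 1) ^ 2 * w)) ≤ Real.exp (-(((i : ℝ) + 1) ^ 2 * w)) := by
    apply Real.exp_le_exp.2
    have h2 : ((i : ℝ) + 1) ^ 2 ≤ ((i : ℝ) + 1 + 1) ^ 2 := by
      gcongr
      linarith
    nlinarith
  have h3 := (Real.exp_pos (-(((i : ℝ) + 1) ^ 2 * w))).le
  have h4 : (0 : ℝ) < (i : ℝ) + 1 := by positivity
  exact div_le_div₀ h3 h1 h4 (by linarith)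

lemma U_eq {n : ℕ} [NeZero n] {χ : DirichletCharacter ℂ n} (hχ : χ ≠ 1) {w : ℝ} (hw : 0 < w) :
    ∑' m, F χ w m = ∑' i : ℕ, ((Hw w i - Hw w (i + 1) : ℝ) : ℂ) *
      ∑ k ∈ range (i + 1), χ ((k + 1 : ℕ) : ZMod n) := by
  have hsum := F_summable χ hw
  have h0 : F χ w 0 = 0 := by
    unfold F
    simp
  have hterm : ∀ i : ℕ, F χ w (i + 1) = (Hw w i : ℂ) * χ ((i + 1 : ℕ) : ZMod n) := by
    intro i
    unfold F Hw
    push_cast
    ring
  rw [hsum.tsum_eq_zero_add, h0, zero_add]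
  have hsum' := (summable_nat_add_iff 1).2 hsum
  simp only [hterm] at hsum' ⊢
  refine parts (H := Hw w) (partial_le hχ) ?_ hsum' (tele (Hw_anti hw) (Hw_nonneg w)).1
  exact squeeze_zero (Hw_nonneg w) (Hw_le hw) tendsto_one_div_add_atTop_nhds_zero_nat

lemma U_norm {n : ℕ} [NeZero n] {χ : DirichletCharacter ℂ n} (hχ : χ ≠ 1) {w : ℝ} (hw : 0 < w) :
    ‖∑' m, F χ w m‖ ≤ n := by
  rw [U_eq hχ hw]
  have h1 := tele (Hw_anti hw) (Hw_nonneg w)
  refine (T_le (partial_le hχ) h1.1).2.trans ?_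
  have h2 : Hw w 0 ≤ 1 := by
    have := Hw_le hw 0
    simpa using this
  calc (n : ℝ) * ∑' i, |Hw w i - Hw w (i + 1)| ≤ n * 1 := by
        have := h1.2.trans h2
        gcongr
    _ = n := mul_one _

lemma U_sub {n : ℕ} [NeZero n] {χ : DirichletCharacter ℂ n} (hχ : χ ≠ 1) {w : ℝ} (hw : 0 < w) :
    ‖∑' m, F χ w m - DirichletCharacter.LFunction χ 1‖ ≤ 4 * n * Real.sqrt w := by
  have h1 := tele (Hw_anti hw) (Hw_nonneg w)
  have h2 : Summable (fun i : ℕ => |1 / ((i : ℝ) + 1) - 1 / (((i + 1 : ℕ) : ℝ) + 1)|) := by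
    refine (tele (H := fun i : ℕ => 1 / ((i : ℝ) + 1)) (fun i => ?_) (fun i => by positivity)).1
    refine one_div_le_one_div_of_le (by positivity) ?_
    push_cast
    linarith
  rw [U_eq hχ hw, L_one hχ, ← Summable.tsum_sub (T_le (partial_le hχ) h1.1).1
    (T_le (partial_le hχ) h2).1]
  have h3 : (fun i : ℕ => ((Hw w i - Hw w (i + 1) : ℝ) : ℂ) *
        ∑ k ∈ range (i + 1), χ ((k + 1 : ℕ) : ZMod n)
      - ((1 / ((i : ℝ) + 1) - 1 / (((i + 1 : ℕ) : ℝ) + 1) : ℝ) : ℂ) *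
        ∑ k ∈ range (i + 1), χ ((k + 1 : ℕ) : ZMod n))
      = fun i : ℕ => (((Hw w i - Hw w (i + 1)) - (1 / ((i : ℝ) + 1) - 1 / (((i + 1 : ℕ) : ℝ) + 1))
        : ℝ) : ℂ) * ∑ k ∈ range (i + 1), χ ((k + 1 : ℕ) : ZMod n) := by
    funext i
    push_cast
    ring
  rw [h3]
  set K : ℕ → ℝ := fun i => 1 / (1 + Real.sqrt w * i) with hK
  have hr0 : 0 < Real.sqrt w := Real.sqrt_pos.2 hw
  have hKt := tele (H := K) (fun i => by
    simp only [hK]
    refine one_div_le_one_div_of_le (by positivity) ?_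
    push_cast
    nlinarith) (fun i => by simp only [hK]; positivity)
  have hD : ∀ i : ℕ, |(Hw w i - Hw w (i + 1)) - (1 / ((i : ℝ) + 1) - 1 / (((i + 1 : ℕ) : ℝ) + 1))|
      ≤ 4 * Real.sqrt w * |K i - K (i + 1)| := by
    intro i
    have h4 := G_diff hw (show (0 : ℝ) < (i : ℝ) + 1 by positivity)
    have h5 := frac_le hw i
    have h6 : (Hw w i - Hw w (i + 1)) - (1 / ((i : ℝ) + 1) - 1 / (((i + 1 : ℕ) : ℝ) + 1))
        = -((1 - Real.exp (-(((i : ℝ) + 1) ^ 2 * w))) / ((i : ℝ) + 1)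
          - (1 - Real.exp (-(((i : ℝ) + 1 + 1) ^ 2 * w))) / ((i : ℝ) + 1 + 1)) := by
      unfold Hw
      push_cast
      ring
    rw [h6, abs_neg]
    refine h4.trans (h5.trans ?_)
    exact mul_le_mul_of_nonneg_left (le_abs_self _) (by positivity)
  have hDs : Summable (fun i : ℕ =>
      |(Hw w i - Hw w (i + 1)) - (1 / ((i : ℝ) + 1) - 1 / (((i + 1 : ℕ) : ℝ) + 1))|) :=
    Summable.of_nonneg_of_le (fun i => abs_nonneg _) hD (hKt.1.mul_left _)
  refine (T_le (partial_le hχ) hDs).2.trans ?_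
  have h7 : ∑' i : ℕ, |(Hw w i - Hw w (i + 1)) - (1 / ((i : ℝ) + 1) - 1 / (((i + 1 : ℕ) : ℝ) + 1))|
      ≤ 4 * Real.sqrt w := by
    calc _ ≤ ∑' i : ℕ, 4 * Real.sqrt w * |K i - K (i + 1)| :=
          hDs.tsum_le_tsum hD (hKt.1.mul_left _)
      _ = 4 * Real.sqrt w * ∑' i : ℕ, |K i - K (i + 1)| := tsum_mul_left
      _ ≤ 4 * Real.sqrt w * K 0 := by
          have := hKt.2
          gcongr
      _ = 4 * Real.sqrt w := by simp [hK]
  calc (n : ℝ) * ∑' i : ℕ, |(Hw w i - Hw w (i + 1)) -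
        (1 / ((i : ℝ) + 1) - 1 / (((i + 1 : ℕ) : ℝ) + 1))| ≤ n * (4 * Real.sqrt w) := by gcongr
    _ = 4 * n * Real.sqrt w := by ring

lemma U_cop {n : ℕ} [NeZero n] {χ : DirichletCharacter ℂ n} (hχ : χ ≠ 1) {q : ℕ} (hq : q.Prime)
    {w : ℝ} (hw : 0 < w) :
    Summable (fun m : ℕ => if Nat.Coprime m q then F χ w m else 0) ∧
    ‖∑' m : ℕ, (if Nat.Coprime m q then F χ w m else 0) - DirichletCharacter.LFunction χ 1‖
      ≤ 4 * n * Real.sqrt w + n / q := by
  have hq0 : (0 : ℝ) < q := by exact_mod_cast hq.pos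
  have hqc : (q : ℂ) ≠ 0 := by exact_mod_cast hq.ne_zero
  have hsum := F_summable χ hw
  have h1 : Summable (fun m : ℕ => if Nat.Coprime m q then F χ w m else 0) := by
    refine Summable.of_norm_bounded hsum.norm fun m => ?_
    split_ifs
    · exact le_rfl
    · rw [norm_zero]; exact norm_nonneg _
  have h2 : Summable (fun m : ℕ => if q ∣ m then F χ w m else 0) := by
    refine Summable.of_norm_bounded hsum.norm fun m => ?_
    split_ifs
    · exact le_rfl
    · rw [norm_zero]; exact norm_nonneg _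
  refine ⟨h1, ?_⟩
  have h3 : ∑' m, F χ w m = ∑' m : ℕ, (if Nat.Coprime m q then F χ w m else 0)
      + ∑' m : ℕ, (if q ∣ m then F χ w m else 0) := by
    rw [← h1.tsum_add h2]
    refine tsum_congr fun m => ?_
    have h4 : Nat.Coprime m q ↔ ¬ q ∣ m := by
      rw [Nat.coprime_comm]
      exact hq.coprime_iff_not_dvd
    by_cases h5 : q ∣ m
    · rw [if_neg (by rw [h4]; exact fun h => h h5), if_pos h5, zero_add]
    · rw [if_pos (h4.2 h5), if_neg h5, add_zero]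
  have h4 : ∑' m : ℕ, (if q ∣ m then F χ w m else 0)
      = χ (q : ZMod n) / q * ∑' k, F χ ((q : ℝ) ^ 2 * w) k := by
    have hinj : Function.Injective (fun k : ℕ => q * k) := fun a b hab =>
      Nat.eq_of_mul_eq_mul_left hq.pos hab
    rw [← hinj.tsum_eq (f := fun m : ℕ => if q ∣ m then F χ w m else 0), ← tsum_mul_left]
    · refine tsum_congr fun k => ?_
      rw [if_pos (dvd_mul_right q k)]
      unfold F
      push_cast
      rw [map_mul]
      have h5 : -((q : ℝ) * (k : ℝ)) ^ 2 * w = -((k : ℝ) ^ 2 * ((q : ℝ) ^ 2 * w)) := by ring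
      have h6 : -(((q : ℝ) * (k : ℝ)) ^ 2 * w) = -((k : ℝ) ^ 2 * ((q : ℝ) ^ 2 * w)) := by ring
      have h7 : -(((q : ℂ) * (k : ℂ)) ^ 2 * (w : ℂ)) = -((k : ℂ) ^ 2 * ((q : ℂ) ^ 2 * w)) := by ring
      rw [h7]
      ring
    · intro m hm
      rw [Function.mem_support] at hm
      by_cases h5 : q ∣ m
      · obtain ⟨k, rfl⟩ := h5
        exact ⟨k, rfl⟩
      · rw [if_neg h5] at hm
        exact absurd rfl hm
  have h5 : ∑' m : ℕ, (if Nat.Coprime m q then F χ w m else 0) - DirichletCharacter.LFunction χ 1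
      = (∑' m, F χ w m - DirichletCharacter.LFunction χ 1)
        - χ (q : ZMod n) / q * ∑' k, F χ ((q : ℝ) ^ 2 * w) k := by
    rw [h3, h4]
    ring
  rw [h5]
  refine (norm_sub_le _ _).trans (add_le_add (U_sub hχ hw) ?_)
  rw [norm_mul, norm_div, Complex.norm_natCast]
  have h6 := U_norm hχ (w := (q : ℝ) ^ 2 * w) (by positivity)
  calc ‖χ (q : ZMod n)‖ / (q : ℝ) * ‖∑' k, F χ ((q : ℝ) ^ 2 * w) k‖ ≤ 1 / q * n := by
        have := χ.norm_le_one (q : ZMod n)
        gcongr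
    _ = n / q := by ring

/-! ## the Dirichlet character -/

section alg

open Pool.Agent.W192.HK

variable {R : Subring ℂ}

lemma card_mem (f : Ideal R) : ((Nat.card (R ⧸ f) : ℕ) : R) ∈ f := by
  rw [← Ideal.Quotient.eq_zero_iff_mem, map_natCast, ← nsmul_one]
  exact card_nsmul_eq_zero'

lemma cop_card {f : Ideal R} (hfin : Finite (R ⧸ f)) {k : ℕ} (h : IsCoprime (sp (k : R)) f) :
    Nat.Coprime k (Nat.card (R ⧸ f)) := by
  by_contra hcon
  obtain ⟨p, hp, ⟨k', hk'⟩, hpc⟩ := Nat.Prime.not_coprime_iff_dvd.1 hcon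
  have := Fact.mk hp
  obtain ⟨x, hx⟩ := exists_prime_addOrderOf_dvd_card' (G := R ⧸ f) p hpc
  obtain ⟨u, hu, v, hv, huv⟩ := Ideal.isCoprime_iff_exists.1 h
  obtain ⟨c, hc⟩ := Ideal.mem_span_singleton'.1 hu
  have h1 : (Ideal.Quotient.mk f) c * (k : R ⧸ f) = 1 := by
    have h2 := congrArg (Ideal.Quotient.mk f) huv
    rw [map_add, Ideal.Quotient.eq_zero_iff_mem.2 hv, add_zero, ← hc, map_mul, map_natCast,
      map_one] at h2
    exact h2
  have h3 : p • x = 0 := by rw [← hx]; exact addOrderOf_nsmul_eq_zero x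
  have h4 : x = 0 := by
    calc x = (Ideal.Quotient.mk f) c * (k : R ⧸ f) * x := by rw [h1, one_mul]
      _ = (Ideal.Quotient.mk f) c * (k' : R ⧸ f) * (p • x) := by
          rw [hk', nsmul_eq_mul]
          push_cast
          ring
      _ = 0 := by rw [h3, mul_zero]
  rw [h4, addOrderOf_zero] at hx
  exact hp.one_lt.ne hx

lemma sp_neg_one : sp (-1 : R) = ⊤ := by
  change Ideal.span {(-1 : R)} = ⊤
  rw [Ideal.span_singleton_neg]
  exact Ideal.span_singleton_one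

lemma psi_top {f : Ideal R} {ψ : Ideal R → ℂ} (h : HC 1 f ψ) : ψ ⊤ = 1 := by
  have h1 := h.princ 1 one_ne_zero (by rw [sub_self]; exact f.zero_mem)
  have h2 : sp (1 : R) = ⊤ := Ideal.span_singleton_one
  rw [h2] at h1
  simpa using h1

lemma f_ne_top {f : Ideal R} {ψ : Ideal R → ℂ} (h : HC 1 f ψ) : f ≠ ⊤ := by
  rintro rfl
  have h1 := h.princ (-1) (neg_ne_zero.2 one_ne_zero) trivial
  rw [sp_neg_one, psi_top h] at h1
  push_cast at h1
  norm_num at h1

lemma exists_chi (hB : H_BASIC) (hF : H_FP) {ω : ℂ} (hqr : QR R ω) {f : Ideal R}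
    {ψ : Ideal R → ℂ} (hψ : HC 1 f ψ) :
    ∃ (n : ℕ) (_ : NeZero n) (χ : DirichletCharacter ℂ n), χ ≠ 1 ∧
      ∀ m : ℕ, χ (m : ZMod n) = fp 1 ψ (m : R) := by
  obtain ⟨hfin, -⟩ := hB R ω hqr
  obtain ⟨-, hmul, hzero, -, hper⟩ := hF R ω hqr 1 f ψ hψ (f_ne_top hψ)
  have hf := hfin f hψ.ne
  have hn0 : Nat.card (R ⧸ f) ≠ 0 := Nat.card_ne_zero.2 ⟨⟨0⟩, hf⟩
  have hnf := card_mem f
  have hcop := fun k (h : IsCoprime (sp ((k : ℕ) : R)) f) => cop_card hf h
  generalize Nat.card (R ⧸ f) = n at hn0 hnf hcop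
  have hne : NeZero n := ⟨hn0⟩
  have hper' : ∀ a b : ℤ, ((a : ZMod n) = (b : ZMod n)) → fp 1 ψ (a : R) = fp 1 ψ (b : R) := by
    intro a b hab
    apply hper
    obtain ⟨c, hc⟩ := (ZMod.intCast_eq_intCast_iff_dvd_sub a b n).1 hab
    have h1 : (a : R) - (b : R) = (-(c : R)) * (n : R) := by
      have h2 := congrArg (fun x : ℤ => (x : R)) hc
      push_cast at h2
      linear_combination -h2
    rw [h1]
    exact f.mul_mem_left _ hnf
  have hone : fp 1 ψ (1 : R) = 1 := by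
    unfold fp
    have h2 : sp (1 : R) = ⊤ := Ideal.span_singleton_one
    rw [h2, psi_top hψ]
    simp
  have hneg : fp 1 ψ (-1 : R) = -1 := by
    unfold fp
    rw [sp_neg_one, psi_top hψ]
    push_cast
    norm_num
  let χ : DirichletCharacter ℂ n :=
    { toFun := fun a => fp 1 ψ (((a.val : ℕ) : ℤ) : R)
      map_one' := by
        change fp 1 ψ ((((1 : ZMod n).val : ℕ) : ℤ) : R) = 1
        rw [hper' _ 1 (by push_cast; exact ZMod.natCast_zmod_val _), Int.cast_one, hone]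
      map_mul' := by
        intro a b
        change fp 1 ψ ((((a * b).val : ℕ) : ℤ) : R) =
          fp 1 ψ (((a.val : ℕ) : ℤ) : R) * fp 1 ψ (((b.val : ℕ) : ℤ) : R)
        rw [← hmul, ← Int.cast_mul]
        apply hper'
        push_cast
        rw [ZMod.natCast_zmod_val, ZMod.natCast_zmod_val, ZMod.natCast_zmod_val]
      map_nonunit' := by
        intro a ha
        change fp 1 ψ (((a.val : ℕ) : ℤ) : R) = 0
        rw [Int.cast_natCast, hzero]
        intro h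
        apply ha
        have h1 := (ZMod.isUnit_iff_coprime a.val n).2 (hcop _ h)
        rwa [ZMod.natCast_zmod_val] at h1 }
  have hχ : ∀ m : ℤ, χ (m : ZMod n) = fp 1 ψ (m : R) := by
    intro m
    change fp 1 ψ ((((m : ZMod n).val : ℕ) : ℤ) : R) = _
    apply hper'
    push_cast
    exact ZMod.natCast_zmod_val _
  refine ⟨n, hne, χ, ?_, ?_⟩
  · intro h
    have h1 := hχ (-1)
    rw [Int.cast_neg, Int.cast_one, Int.cast_neg, Int.cast_one, hneg, h,
      MulChar.one_apply isUnit_one.neg] at h1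
    norm_num at h1
  · intro m
    have h1 := hχ m
    rwa [Int.cast_natCast, Int.cast_natCast] at h1

end alg

end Pool.Agent.TH936.AC.Eps

namespace Pool.Agent.TH936.AC

open Pool.Agent.W192.HK

theorem a_eps (h1 : H_BASIC) (h2 : H_FP) (h3 : A_BAR) : A_EPS := by
  have _ := h3
  intro R ω hqp f ψ hψ _
  obtain ⟨n, hn, χ, hχ, hm⟩ := Eps.exists_chi h1 h2 hqp.qr hψ
  have hn0 : (0 : ℝ) < n := by exact_mod_cast NeZero.pos n
  refine ⟨DirichletCharacter.LFunction χ 1, 4 * n,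
    DirichletCharacter.LFunction_apply_one_ne_zero hχ, by positivity, ?_⟩
  intro q hq _ w hw
  have hterm : (fun m : ℕ => if Nat.Coprime m q then ψ (sp (m : R)) / (m : ℂ) ^ 2 *
      (Real.exp (-((m : ℝ) ^ 2 * w)) : ℂ) else 0)
      = fun m : ℕ => if Nat.Coprime m q then Eps.F χ w m else 0 := by
    funext m
    congr 1
    unfold Eps.F
    rw [hm]
    unfold fp
    push_cast
    rw [pow_one, div_div, ← pow_two]
  rw [hterm]
  obtain ⟨h5, h6⟩ := Eps.U_cop hχ hq hw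
  refine ⟨h5, h6.trans ?_⟩
  have h7 : (n : ℝ) / q ≤ 4 * n * (1 / q) := by
    have : (n : ℝ) / q = n * (1 / q) := by ring
    rw [this]
    have : (0 : ℝ) ≤ n * (1 / q) := by positivity
    linarith
  calc 4 * n * Real.sqrt w + (n : ℝ) / q ≤ 4 * n * Real.sqrt w + 4 * n * (1 / q) := by linarith
    _ = 4 * n * (Real.sqrt w + 1 / q) := by ring

end Pool.Agent.TH936.AC
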