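import Pool.Agent.TH936.AC.Stmts

/-!
# PHI2: bound for the coefficients of all primitive ideals
-/

set_option autoImplicit false

open Complex

namespace Pool.Agent.TH936.AC

open Pool.Agent.W192.HK

namespace Phi2

variable {R : Subring ℂ}

theorem ne_top {f : Ideal R} {ψ : Ideal R → ℂ} (h : HC 1 f ψ) : f ≠ ⊤ := by
  intro hf
  subst hf
  have h1 := h.princ 1 one_ne_zero trivial
  have hne : (-1 : R) ≠ 0 := neg_ne_zero.2 one_ne_zero
  have h2 := h.princ (-1) hne trivial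
  have e : sp (-1 : R) = sp (1 : R) := by
    show Ideal.span {(-1 : R)} = Ideal.span {(1 : R)}
    rw [Ideal.span_singleton_neg]
  rw [e, h1] at h2
  push_cast at h2
  norm_num at h2

theorem norm_psi {ω : ℂ} (h1 : H_BASIC) (h2 : H_FP) (hR : QP R ω) {f : Ideal R}
    {ψ : Ideal R → ℂ} (h : HC 1 f ψ) {m : ℕ} (hm : 1 ≤ m) : ‖ψ (sp (m : R))‖ ≤ m := by
  obtain ⟨-, b2, b3, b4, b5, -⟩ := h1 R ω hR.qr
  have hnm : nm (sp (m : R)) = (m : ℝ) ^ 2 := by
    rw [b5]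
    simp [Complex.normSq_natCast, sq]
  have hne : sp (m : R) ≠ ⊥ := by
    intro h0
    rw [h0, b2] at hnm
    have : (0 : ℝ) < m := by exact_mod_cast hm
    have : (0 : ℝ) < (m : ℝ) ^ 2 := by positivity
    linarith
  by_cases hc : IsCoprime (sp (m : R)) f
  · have e := (h2 R ω hR.qr 1 f ψ h (ne_top h)).1 _ hne hc
    rw [pow_one, hnm] at e
    have hm0 : (0 : ℝ) ≤ m := Nat.cast_nonneg m
    exact le_of_eq ((pow_left_inj₀ (norm_nonneg _) hm0 two_ne_zero).1 e)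
  · rw [(h.zero _).2 (Or.inr hc), norm_zero]
    exact Nat.cast_nonneg m

theorem exp_le {a x : ℝ} (ha : 0 < a) (hx : 0 < x) : Real.exp (-x) ≤ a ^ a * x ^ (-a) := by
  have h1 : x / a ≤ Real.exp (x / a) := by linarith [Real.add_one_le_exp (x / a)]
  have h2 : (x / a) ^ a ≤ Real.exp x := by
    calc (x / a) ^ a ≤ (Real.exp (x / a)) ^ a := Real.rpow_le_rpow (by positivity) h1 ha.le
      _ = Real.exp x := by
          rw [← Real.exp_mul]
          congr 1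
          field_simp
  rw [Real.div_rpow hx.le ha.le] at h2
  have hxa : 0 < x ^ a := Real.rpow_pos_of_pos hx a
  have haa : 0 < a ^ a := Real.rpow_pos_of_pos ha a
  rw [div_le_iff₀ haa] at h2
  rw [Real.exp_neg, Real.rpow_neg hx.le, ← div_eq_mul_inv, inv_eq_one_div,
    div_le_div_iff₀ (Real.exp_pos x) hxa]
  linarith

theorem mem_SP {f : Ideal R} {y : ℝ} {p : ℕ} (h : p ∈ SP f y) : p.Prime := by
  unfold SP at h
  simp only [Finset.mem_filter] at h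
  exact h.2.1

theorem one_le_nB {f : Ideal R} {y : ℝ} {b : Finset ℕ × Finset ℕ}
    (hb : b ∈ (SP f y).powerset ×ˢ (SP f y).powerset) : 1 ≤ nB b := by
  obtain ⟨h1, h2⟩ := Finset.mem_product.1 hb
  rw [Finset.mem_powerset] at h1 h2
  refine Nat.mul_pos (Finset.prod_pos fun p hp => (mem_SP (h1 hp)).pos)
    (Finset.prod_pos fun p hp => (mem_SP (h2 hp)).pos)

theorem abs_sB (b : Finset ℕ × Finset ℕ) : |(sB b : ℝ)| = 1 := by
  unfold sB
  push_cast
  rw [abs_pow, abs_neg, abs_one, one_pow]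

theorem lam_le {ω : ℂ} (h1 : H_BASIC) (h5 : A_PROD) (hR : QP R ω) {f : Ideal R} (hf : f ≠ ⊥)
    {C1 η : ℝ} (hD : ∀ I : Ideal R, I ≠ ⊥ → {J : Ideal R | J ∣ I}.Finite ∧
      (Set.ncard {J : Ideal R | J ∣ I} : ℝ) ≤ C1 * (nm I) ^ η) (y Z X : ℝ) (hX : 1 ≤ X)
    {c : Ideal R} (hc : c ≠ ⊥) {m : ℕ} (hm : 1 ≤ m) :
    |lam f y Z X m c| ≤
      C1 * ((m : ℝ) ^ 2 * nm c) ^ η * Real.exp (-((m : ℝ) ^ 2 * nm c / (Z * X))) := by
  classical
  obtain ⟨-, b2, b3, b4, b5, -⟩ := h1 R ω hR.qr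
  have hm0 : (0 : ℝ) < m := by exact_mod_cast hm
  have hN : 1 ≤ nm c := b3 c hc
  have hnm : nm (sp (m : R) * c) = (m : ℝ) ^ 2 * nm c := by
    rw [b4, b5]
    congr 1
    simp [Complex.normSq_natCast, sq]
  have hpos : 0 < (m : ℝ) ^ 2 * nm c := by positivity
  have hne : sp (m : R) * c ≠ ⊥ := by
    intro h0
    rw [h0, b2] at hnm
    linarith
  obtain ⟨hfin, hcard⟩ := hD _ hne
  rw [hnm] at hcard
  obtain ⟨-, hinj, -⟩ := h5 R ω hR f y hf
  set B : Finset (Finset ℕ × Finset ℕ) := (BB f y Z).filter (fun b => mB f b ∣ sp (m : R) * c)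
    with hB
  have hBB : ∀ b ∈ BB f y Z, b ∈ (SP f y).powerset ×ˢ (SP f y).powerset ∧ (nB b : ℝ) ≤ Z := by
    intro b hb
    unfold BB at hb
    exact Finset.mem_filter.1 hb
  have hBcard : (B.card : ℝ) ≤ C1 * ((m : ℝ) ^ 2 * nm c) ^ η := by
    refine le_trans ?_ hcard
    have h := Set.ncard_le_ncard_of_injOn (s := (B : Set (Finset ℕ × Finset ℕ)))
      (t := {J : Ideal R | J ∣ sp (m : R) * c}) (mB f)
      (fun b hb => (Finset.mem_filter.1 (Finset.mem_coe.1 hb)).2)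
      (fun b hb b' hb' he => hinj b (hBB b (Finset.mem_filter.1 (Finset.mem_coe.1 hb)).1).1 b'
        (hBB b' (Finset.mem_filter.1 (Finset.mem_coe.1 hb')).1).1 he) hfin
    rw [Set.ncard_coe_finset] at h
    exact_mod_cast h
  have hsum : lam f y Z X m c =
      ∑ b ∈ B, (sB b : ℝ) * Real.exp (-((m : ℝ) ^ 2 * nm c / (nB b * X))) := by
    unfold lam
    rw [hB, Finset.sum_filter]
  have hterm : ∀ b ∈ B, |(sB b : ℝ) * Real.exp (-((m : ℝ) ^ 2 * nm c / (nB b * X)))| ≤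
      Real.exp (-((m : ℝ) ^ 2 * nm c / (Z * X))) := by
    intro b hb
    obtain ⟨hb1, hb2⟩ := hBB b (Finset.mem_filter.1 hb).1
    have hnb : (1 : ℝ) ≤ nB b := by exact_mod_cast one_le_nB hb1
    rw [abs_mul, abs_sB, one_mul, abs_of_pos (Real.exp_pos _)]
    refine Real.exp_le_exp.2 (neg_le_neg ?_)
    have h0 : (0 : ℝ) < nB b * X := by positivity
    refine div_le_div_of_nonneg_left hpos.le h0 ?_
    exact mul_le_mul_of_nonneg_right hb2 (by linarith)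
  calc |lam f y Z X m c|
      ≤ ∑ b ∈ B, |(sB b : ℝ) * Real.exp (-((m : ℝ) ^ 2 * nm c / (nB b * X)))| := by
        rw [hsum]
        exact Finset.abs_sum_le_sum_abs _ _
    _ ≤ ∑ _b ∈ B, Real.exp (-((m : ℝ) ^ 2 * nm c / (Z * X))) := Finset.sum_le_sum hterm
    _ = (B.card : ℝ) * Real.exp (-((m : ℝ) ^ 2 * nm c / (Z * X))) := by
        rw [Finset.sum_const, nsmul_eq_mul]
    _ ≤ C1 * ((m : ℝ) ^ 2 * nm c) ^ η * Real.exp (-((m : ℝ) ^ 2 * nm c / (Z * X))) :=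
        mul_le_mul_of_nonneg_right hBcard (Real.exp_pos _).le

theorem real_bound {C1 η W N : ℝ} (hC1 : 0 < C1) (hη : 0 < η) (hW : 1 ≤ W) (hN : 1 ≤ N) {m : ℕ}
    (hm : 1 ≤ m) :
    1 / (m : ℝ) * (C1 * ((m : ℝ) ^ 2 * N) ^ η * Real.exp (-((m : ℝ) ^ 2 * N / W))) ≤
      C1 * (2 * η) ^ (2 * η) * (2 : ℝ) ^ (2 * η) * W ^ (2 * η) * N ^ η *
        Real.exp (-(N / (2 * W))) * (1 / (m : ℝ) ^ (1 + 2 * η)) := by
  have hm1 : (1 : ℝ) ≤ m := by exact_mod_cast hm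
  have hm0 : (0 : ℝ) < m := by linarith
  have hW0 : 0 < W := by linarith
  have hN0 : 0 < N := by linarith
  have e1 : ((m : ℝ) ^ 2 * N) ^ η = (m : ℝ) ^ (2 * η) * N ^ η := by
    rw [Real.mul_rpow (by positivity) hN0.le, ← Real.rpow_natCast, ← Real.rpow_mul hm0.le]
    norm_num
  have e2 : Real.exp (-((m : ℝ) ^ 2 * N / W)) ≤
      Real.exp (-((m : ℝ) ^ 2 / (2 * W))) * Real.exp (-(N / (2 * W))) := by
    rw [← Real.exp_add]
    refine Real.exp_le_exp.2 ?_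
    have h3 : 0 ≤ ((m : ℝ) ^ 2 - 1) * (N - 1) := by
      refine mul_nonneg ?_ (by linarith)
      nlinarith
    have h4 : ((m : ℝ) ^ 2 + N) / 2 ≤ (m : ℝ) ^ 2 * N := by nlinarith
    have h5 : (m : ℝ) ^ 2 / (2 * W) + N / (2 * W) ≤ (m : ℝ) ^ 2 * N / W := by
      have : (m : ℝ) ^ 2 / (2 * W) + N / (2 * W) = (((m : ℝ) ^ 2 + N) / 2) / W := by
        field_simp
      rw [this]
      exact div_le_div_of_nonneg_right h4 hW0.le
    linarith
  have e3 : Real.exp (-((m : ℝ) ^ 2 / (2 * W))) ≤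
      (2 * η) ^ (2 * η) * ((2 : ℝ) ^ (2 * η) * W ^ (2 * η) * (1 / (m : ℝ) ^ (4 * η))) := by
    refine (exp_le (a := 2 * η) (by positivity) (by positivity)).trans (le_of_eq ?_)
    congr 1
    rw [Real.div_rpow (by positivity) (by positivity), ← Real.rpow_natCast, ← Real.rpow_mul hm0.le,
      Real.rpow_neg (by positivity : (0 : ℝ) ≤ 2 * W), Real.mul_rpow (by norm_num) hW0.le,
      div_inv_eq_mul, mul_comm]
    congr 1
    rw [show ((2 : ℕ) : ℝ) * -(2 * η) = -(4 * η) by push_cast; ring, Real.rpow_neg hm0.le,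
      one_div]
  have e4 : 1 / (m : ℝ) * (m : ℝ) ^ (2 * η) * (1 / (m : ℝ) ^ (4 * η)) =
      1 / (m : ℝ) ^ (1 + 2 * η) := by
    rw [one_div, one_div, one_div, ← Real.rpow_neg_one, ← Real.rpow_neg hm0.le,
      ← Real.rpow_neg hm0.le, ← Real.rpow_add hm0, ← Real.rpow_add hm0]
    congr 1
    ring
  calc 1 / (m : ℝ) * (C1 * ((m : ℝ) ^ 2 * N) ^ η * Real.exp (-((m : ℝ) ^ 2 * N / W)))
      ≤ 1 / (m : ℝ) * (C1 * ((m : ℝ) ^ (2 * η) * N ^ η) *
          (((2 * η) ^ (2 * η) * ((2 : ℝ) ^ (2 * η) * W ^ (2 * η) * (1 / (m : ℝ) ^ (4 * η)))) *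
            Real.exp (-(N / (2 * W))))) := by
        rw [e1]
        refine mul_le_mul_of_nonneg_left ?_ (by positivity)
        refine mul_le_mul_of_nonneg_left ?_ (by positivity)
        exact e2.trans (mul_le_mul_of_nonneg_right e3 (Real.exp_pos _).le)
    _ = C1 * (2 * η) ^ (2 * η) * (2 : ℝ) ^ (2 * η) * W ^ (2 * η) * N ^ η *
          Real.exp (-(N / (2 * W))) *
          (1 / (m : ℝ) * (m : ℝ) ^ (2 * η) * (1 / (m : ℝ) ^ (4 * η))) := by ring
    _ = _ := by rw [e4]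

end Phi2

theorem a_phi2 (h1 : H_BASIC) (h2 : H_FP) (h3 : H_DIVR) (_h4 : A_BAR) (h5 : A_PROD) : A_PHI2 := by
  intro R ω hR f ψ hψ η hη
  obtain ⟨C1, hC1, hD⟩ := h3 R ω hR.qr η hη
  have hsum : Summable fun m : ℕ => 1 / (m : ℝ) ^ (1 + 2 * η) :=
    Real.summable_one_div_nat_rpow.2 (by linarith)
  set S : ℝ := ∑' m : ℕ, 1 / (m : ℝ) ^ (1 + 2 * η) with hS
  have hS0 : 0 ≤ S := tsum_nonneg fun m => by positivity
  refine ⟨C1 * (2 * η) ^ (2 * η) * (2 : ℝ) ^ (2 * η) * S + 1, by positivity,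
    fun y Z X q _hq hZ hX c hc => ?_⟩
  obtain ⟨-, b2, b3, -⟩ := h1 R ω hR.qr
  have hN : 1 ≤ nm c := b3 c hc.1
  have hW : 1 ≤ Z * X := one_le_mul_of_one_le_of_one_le hZ hX
  set B : ℝ := C1 * (2 * η) ^ (2 * η) * (2 : ℝ) ^ (2 * η) * (Z * X) ^ (2 * η) * (nm c) ^ η *
        Real.exp (-(nm c / (2 * (Z * X)))) with hB
  have hterm : ∀ m : ℕ, ‖(if Nat.Coprime m q then ψ (sp (m : R)) / (m : ℂ) ^ 2 *
      (lam f y Z X m c : ℂ) else 0)‖ ≤ B * (1 / (m : ℝ) ^ (1 + 2 * η)) := by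
    intro m
    have hB0 : 0 ≤ B * (1 / (m : ℝ) ^ (1 + 2 * η)) := by positivity
    split_ifs with hmq
    · rcases Nat.eq_zero_or_pos m with h0 | h0
      · subst h0
        simpa using hB0
      · have hm0 : (0 : ℝ) < m := by exact_mod_cast h0
        refine le_trans ?_ (Phi2.real_bound hC1 hη hW hN h0)
        rw [norm_mul, norm_div, norm_pow, Complex.norm_natCast, Complex.norm_real, Real.norm_eq_abs]
        have e1 := Phi2.norm_psi h1 h2 hR hψ h0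
        have e2 := Phi2.lam_le h1 h5 hR hψ.ne hD y Z X hX hc.1 h0
        refine mul_le_mul ?_ e2 (abs_nonneg _) (by positivity)
        rw [div_le_div_iff₀ (by positivity) hm0]
        nlinarith
    · rw [norm_zero]
      exact hB0
  have hfin := tsum_of_norm_bounded (hsum.hasSum.mul_left B) hterm
  have hPh : ‖Ph f y Z X q ψ c‖ ≤ B * S := hfin
  refine hPh.trans ?_
  have hT : 0 ≤ (Z * X) ^ (2 * η) * (nm c) ^ η * Real.exp (-(nm c / (2 * (Z * X)))) := by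
    positivity
  calc B * S = C1 * (2 * η) ^ (2 * η) * (2 : ℝ) ^ (2 * η) * S *
        ((Z * X) ^ (2 * η) * (nm c) ^ η * Real.exp (-(nm c / (2 * (Z * X))))) := by
        rw [hB]; ring
    _ ≤ (C1 * (2 * η) ^ (2 * η) * (2 : ℝ) ^ (2 * η) * S + 1) *
        ((Z * X) ^ (2 * η) * (nm c) ^ η * Real.exp (-(nm c / (2 * (Z * X))))) :=
        mul_le_mul_of_nonneg_right (by linarith) hT
    _ = _ := by ring

end Pool.Agent.TH936.AC
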