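import Mathlib
import Pool.Agent.TH936.AC.Stmts

/-!
# AC-PHI: the coefficients of the small primitive ideals (helper147 for helper936)
-/

set_option autoImplicit false

open Complex

namespace Pool.Agent.TH936.AC.Phi

open Pool.Agent.W192.HK Filter Topology

section arith
variable {R : Subring ℂ} {f : Ideal R} {ψ : Ideal R → ℂ}

lemma sp_mul (a b : R) : sp (a * b) = sp a * sp b := by
  unfold sp
  rw [Ideal.span_singleton_mul_span_singleton]

lemma sp_one : sp (1 : R) = ⊤ := Ideal.span_singleton_one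

lemma ne_top (hψ : HC 1 f ψ) : f ≠ ⊤ := by
  intro h
  have h1 := hψ.princ (-1) (neg_ne_zero.2 one_ne_zero) (by rw [h]; trivial)
  have h2 := hψ.princ 1 one_ne_zero (by rw [h]; trivial)
  have h3 : sp (-1 : R) = sp (1 : R) := Ideal.span_singleton_neg 1
  rw [h3, h2] at h1
  norm_num at h1

lemma psi_one (hψ : HC 1 f ψ) : ψ (sp (1 : R)) = 1 := by
  have h2 := hψ.princ 1 one_ne_zero (by rw [sub_self]; exact f.zero_mem)
  rw [h2]
  simp

lemma psi_p (h1 : H_BASIC) (h2 : H_FP) (h3 : A_BAR) {ω : ℂ} (hR : QP R ω) (hψ : HC 1 f ψ)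
    (cs : CS ψ) {p : ℕ} (hp : p ≠ 0) {P : Ideal R} (hP : IsPP f p P) :
    ψ (sp (p : R)) = (p : ℂ) := by
  obtain ⟨-, h4, -, h6⟩ := hP
  have hp0 : (p : R) ≠ 0 := by
    intro h
    have h' := congrArg (fun z : R => (z : ℂ)) h
    simp only [Subring.coe_natCast, ZeroMemClass.coe_zero, Nat.cast_eq_zero] at h'
    exact hp h'
  have hsp : sp (p : R) ≠ ⊥ := by
    rw [Ne, Ideal.span_singleton_eq_bot]
    exact hp0
  have hP0 : P ≠ ⊥ := by
    rintro rfl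
    rw [Ideal.bot_mul] at h4
    exact hsp h4.symm
  have hPc : IsCoprime P f := by
    rw [← h4] at h6
    exact h6.of_mul_left_left
  obtain ⟨-, -, -, hmul, hnorm, -⟩ := h1 R ω hR.qr
  obtain ⟨-, -, -, -, -, -, -, hbar, -⟩ := h3 R ω hR
  have h7 := (h2 R ω hR.qr 1 f ψ hψ (ne_top hψ)).1 P hP0 hPc
  have h8 : nm P * nm P = (p : ℝ) * p := by
    have := hmul P (bar P)
    rw [hbar, h4, hnorm] at this
    rw [← this]
    simp
  have h9 : nm P = (p : ℝ) := by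
    have hn : 0 ≤ nm P := by unfold nm; positivity
    exact (mul_self_inj hn (Nat.cast_nonneg p)).1 h8
  rw [← h4, hψ.mul, cs P, Complex.mul_conj, Complex.normSq_eq_norm_sq, h7, h9, pow_one]
  simp

lemma mloc_cases (c : Ideal R) (b : Finset ℕ × Finset ℕ) (p : ℕ) :
    mloc f c b p = p ∨ mloc f c b p = 1 := by
  unfold mloc
  split_ifs <;> simp

lemma mem_SP {y : ℝ} {p : ℕ} (h : p ∈ SP f y) : p.Prime ∧ (∃ P : Ideal R, IsPP f p P) ∧
    p ≤ ⌊y⌋₊ := by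
  classical
  unfold SP at h
  rw [Finset.mem_filter, Finset.mem_range] at h
  exact ⟨h.2.1, h.2.2, by omega⟩

lemma mc_pos (y : ℝ) (c : Ideal R) (b : Finset ℕ × Finset ℕ) : 0 < mc f y c b := by
  unfold mc
  refine Finset.prod_pos fun p hp => ?_
  rcases mloc_cases (f := f) c b p with h | h
  · rw [h]; exact (mem_SP hp).1.pos
  · rw [h]; exact one_pos

lemma mc_coprime {y : ℝ} {q : ℕ} (hq : q.Prime) (hyq : ⌊y⌋₊ < q) (c : Ideal R)
    (b : Finset ℕ × Finset ℕ) : Nat.Coprime (mc f y c b) q := by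
  unfold mc
  refine Nat.Coprime.prod_left fun p hp => ?_
  rcases mloc_cases (f := f) c b p with h | h
  · rw [h]
    obtain ⟨h1, -, h3⟩ := mem_SP hp
    exact (Nat.coprime_primes h1 hq).2 (by omega)
  · rw [h]; exact Nat.coprime_one_left q

lemma psi_mc (h1 : H_BASIC) (h2 : H_FP) (h3 : A_BAR) {ω : ℂ} (hR : QP R ω) (hψ : HC 1 f ψ)
    (cs : CS ψ) (y : ℝ) (c : Ideal R) (b : Finset ℕ × Finset ℕ) :
    ψ (sp ((mc f y c b : ℕ) : R)) = ((mc f y c b : ℕ) : ℂ) := by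
  classical
  have key : ∀ s : Finset ℕ, s ⊆ SP f y →
      ψ (sp ((∏ p ∈ s, mloc f c b p : ℕ) : R)) = ((∏ p ∈ s, mloc f c b p : ℕ) : ℂ) := by
    intro s
    induction s using Finset.induction_on with
    | empty =>
      intro _
      rw [Finset.prod_empty, Nat.cast_one, Nat.cast_one]
      exact psi_one hψ
    | insert p s hp ih =>
      intro hs
      rw [Finset.prod_insert hp, Nat.cast_mul, Nat.cast_mul, sp_mul, hψ.mul,
        ih fun x hx => hs (Finset.mem_insert_of_mem hx)]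
      congr 1
      obtain ⟨h4, ⟨P, hP⟩, -⟩ := mem_SP (hs (Finset.mem_insert_self p s))
      rcases mloc_cases (f := f) c b p with h | h
      · rw [h]; exact psi_p h1 h2 h3 hR hψ cs h4.ne_zero hP
      · rw [h, Nat.cast_one, Nat.cast_one]; exact psi_one hψ
  exact key _ (Finset.Subset.refl _)

end arith

/-! ### the sum over the integers -/

section sums
variable {R : Subring ℂ} {f : Ideal R} {ψ : Ideal R → ℂ}

/-- the summand of `A_EPS` -/
noncomputable def us (ψ : Ideal R → ℂ) (q : ℕ) (w : ℝ) (m : ℕ) : ℂ :=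
  if Nat.Coprime m q then ψ (sp (m : R)) / (m : ℂ) ^ 2 *
      (Real.exp (-((m : ℝ) ^ 2 * w)) : ℂ) else 0

/-- the contribution of `b` -/
noncomputable def Tb (ψ : Ideal R → ℂ) (q : ℕ) (k : ℕ) (s : ℤ) (v : ℝ) (m : ℕ) : ℂ :=
  if Nat.Coprime m q ∧ k ∣ m then ψ (sp (m : R)) / (m : ℂ) ^ 2 *
      ((s : ℝ) * Real.exp (-((m : ℝ) ^ 2 * v)) : ℝ) else 0

lemma hasSum_Tb {q k : ℕ} (hk : 0 < k) (hkq : Nat.Coprime k q) (s : ℤ) (v : ℝ)
    (hmul : ∀ I J : Ideal R, ψ (I * J) = ψ I * ψ J)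
    (hψk : ψ (sp (k : R)) = (k : ℂ)) {U : ℂ} (hU : HasSum (us ψ q ((k : ℝ) ^ 2 * v)) U) :
    HasSum (Tb ψ q k s v) ((s : ℂ) / (k : ℂ) * U) := by
  have hinj : Function.Injective (fun m' : ℕ => k * m') := fun a b h =>
    Nat.eq_of_mul_eq_mul_left hk h
  rw [← hinj.hasSum_iff]
  · have e : (Tb ψ q k s v) ∘ (fun m' : ℕ => k * m') =
        fun m' => (s : ℂ) / (k : ℂ) * us ψ q ((k : ℝ) ^ 2 * v) m' := by
      funext m'
      simp only [Function.comp, Tb, us]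
      have h1 : (Nat.Coprime (k * m') q ∧ k ∣ k * m') ↔ Nat.Coprime m' q := by
        rw [Nat.coprime_mul_iff_left]
        exact ⟨fun h => h.1.2, fun h => ⟨⟨hkq, h⟩, Nat.dvd_mul_right _ _⟩⟩
      rw [if_congr h1 rfl rfl]
      split_ifs with h2
      · have hkc : (k : ℂ) ≠ 0 := by exact_mod_cast hk.ne'
        rw [Nat.cast_mul, sp_mul, hmul, hψk]
        have e2 : -(((k * m' : ℕ) : ℝ) ^ 2 * v) = -((m' : ℝ) ^ 2 * ((k : ℝ) ^ 2 * v)) := by
          push_cast; ring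
        rw [e2]
        push_cast
        by_cases hm : (m' : ℂ) = 0
        · rw [hm]; simp
        · field_simp
      · ring
    rw [e]
    exact hU.mul_left _
  · intro m hm
    unfold Tb
    rw [if_neg]
    rintro ⟨-, ⟨t, rfl⟩⟩
    exact hm ⟨t, rfl⟩

lemma Ph_eq {y Z X : ℝ} {q : ℕ} {c : Ideal R}
    (hmul : ∀ I J : Ideal R, ψ (I * J) = ψ I * ψ J)
    (hdvd : ∀ b ∈ BB f y Z, ∀ m : ℕ, mB f b ∣ sp (m : R) * c ↔ mc f y c b ∣ m)
    (hcop : ∀ b, Nat.Coprime (mc f y c b) q)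
    (hψm : ∀ b, ψ (sp ((mc f y c b : ℕ) : R)) = ((mc f y c b : ℕ) : ℂ))
    (hsum : ∀ w : ℝ, 0 < w → Summable (us ψ q w)) (hc : 0 < nm c) (hX : 0 < X)
    (hnB : ∀ b ∈ BB f y Z, 0 < nB b) :
    Ph f y Z X q ψ c = ∑ b ∈ BB f y Z, (sB b : ℂ) / ((mc f y c b : ℕ) : ℂ) *
      ∑' m, us ψ q (((mc f y c b : ℕ) : ℝ) ^ 2 * (nm c / (nB b * X))) m := by
  have h1 : HasSum (fun m => ∑ b ∈ BB f y Z, Tb ψ q (mc f y c b) (sB b) (nm c / (nB b * X)) m)
      (∑ b ∈ BB f y Z, (sB b : ℂ) / ((mc f y c b : ℕ) : ℂ) *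
      ∑' m, us ψ q (((mc f y c b : ℕ) : ℝ) ^ 2 * (nm c / (nB b * X))) m) := by
    refine hasSum_sum fun b hb => ?_
    refine hasSum_Tb (mc_pos y c b) (hcop b) _ _ hmul (hψm b) ?_
    refine (hsum _ ?_).hasSum
    have h2 : (0 : ℝ) < ((mc f y c b : ℕ) : ℝ) := by exact_mod_cast mc_pos y c b
    have h3 : (0 : ℝ) < nB b := by exact_mod_cast hnB b hb
    positivity
  rw [← h1.tsum_eq]
  unfold Ph
  refine tsum_congr fun m => ?_
  split_ifs with h2
  · unfold lam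
    rw [Complex.ofReal_sum, Finset.mul_sum]
    refine Finset.sum_congr rfl fun b hb => ?_
    unfold Tb
    by_cases h3 : mc f y c b ∣ m
    · rw [if_pos ((hdvd b hb m).2 h3), if_pos ⟨h2, h3⟩, mul_div_assoc]
    · rw [if_neg (fun h => h3 ((hdvd b hb m).1 h)), if_neg (fun h => h3 h.2)]
      simp
  · symm
    refine Finset.sum_eq_zero fun b _ => ?_
    unfold Tb
    rw [if_neg (fun h => h2 h.1)]

end sums

/-! ### numerical inequalities -/

lemma ev_small (K a : ℝ) (ha : 0 < a) : ∀ᶠ q : ℝ in atTop, K * q ^ (-a) ≤ 1 / 4 := by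
  have h := (tendsto_rpow_neg_atTop ha).const_mul K
  rw [mul_zero] at h
  exact (h.eventually (gt_mem_nhds (show (0 : ℝ) < 1 / 4 by norm_num))).mono fun _ h => h.le

lemma ev_pow : ∀ᶠ q : ℝ in atTop, (Real.log q) ^ 200 < q ∧ 1 ≤ Real.log q := by
  have h1 := (Real.isLittleO_pow_log_id_atTop (n := 200)).bound (show (0 : ℝ) < 1 / 2 by norm_num)
  have h2 : ∀ᶠ q : ℝ in atTop, 1 ≤ Real.log q :=
    Real.tendsto_log_atTop.eventually_ge_atTop 1
  filter_upwards [h1, h2, eventually_gt_atTop 0] with q h3 h4 h5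
  refine ⟨?_, h4⟩
  rw [id, Real.norm_eq_abs, Real.norm_eq_abs, abs_of_nonneg (by positivity), abs_of_pos h5] at h3
  linarith

lemma ev_quarter (δ : ℝ) (hδ : 0 < δ) : ∀ᶠ q : ℝ in atTop,
    (Real.log q) ^ (1 / 4 : ℝ) ≤ δ * Real.log q := by
  have h1 : ∀ᶠ x : ℝ in atTop, x ^ (1 / 4 : ℝ) ≤ δ * x := by
    have h := tendsto_rpow_neg_atTop (show (0 : ℝ) < 3 / 4 by norm_num)
    filter_upwards [h.eventually (gt_mem_nhds hδ), eventually_gt_atTop (0 : ℝ)] with x h2 h3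
    calc x ^ (1 / 4 : ℝ) = x ^ (-(3 / 4) : ℝ) * x := by
          conv_rhs => rw [← Real.rpow_one x]
          rw [← Real.rpow_mul h3.le, ← Real.rpow_add h3]
          norm_num
      _ ≤ δ * x := by gcongr
  exact Real.tendsto_log_atTop.eventually h1

lemma numeric (L C c0 : ℝ) (hc0 : 0 < c0) (hL : 0 ≤ L) : ∃ q0 : ℝ, ∀ q : ℝ, q0 ≤ q →
    0 < q ∧ (Real.log q) ^ 200 < q ∧ 1 ≤ (Real.log q) ^ 200 ∧ 1 ≤ q ^ (1 / 10 : ℝ) ∧
    (q ^ (1 / 10 : ℝ)) ^ 2 * (C * (√(q ^ (1 / 100000 : ℝ) / (c0 * q)) + 1 / q)) +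
      L * (q ^ (1 / 100000 : ℝ) * ((q ^ (1 / 10 : ℝ)) ^ (-(1 / 1600) : ℝ) *
        Real.exp (3 * (1 + ((Real.log q) ^ 200) ^ (2 * (1 / 1600) : ℝ) / (2 * (1 / 1600))))))
      ≤ q ^ (-1 / 50000 : ℝ) := by
  have hA := ev_small (C / √c0) (11999 / 40000) (by norm_num)
  have hB := ev_small C (39999 / 50000) (by norm_num)
  have hD := ev_small (L * Real.exp 3) (13 / 800000) (by norm_num)
  have hE := ev_quarter (13 / (800000 * 2400)) (by norm_num)
  obtain ⟨q0, h⟩ := eventually_atTop.1 (((hA.and hB).and (hD.and hE)).and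
    (ev_pow.and (eventually_ge_atTop (1 : ℝ))))
  refine ⟨q0, fun q hq => ?_⟩
  obtain ⟨⟨⟨h1, h2⟩, h3, h4⟩, ⟨h5, h6⟩, h7⟩ := h q hq
  have hq0 : 0 < q := by linarith
  refine ⟨hq0, h5, one_le_pow₀ h6, Real.one_le_rpow h7 (by norm_num), ?_⟩
  have hP : 0 < q ^ (-1 / 50000 : ℝ) := Real.rpow_pos_of_pos hq0 _
  -- the first term
  have e1 : (q ^ (1 / 10 : ℝ)) ^ 2 * (C * (√(q ^ (1 / 100000 : ℝ) / (c0 * q)) + 1 / q)) =
      (C / √c0 * q ^ (-(11999 / 40000) : ℝ)) * q ^ (-1 / 50000 : ℝ) +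
      (C * q ^ (-(39999 / 50000) : ℝ)) * q ^ (-1 / 50000 : ℝ) := by
    have a1 : (q ^ (1 / 10 : ℝ)) ^ 2 = q ^ (1 / 5 : ℝ) := by
      rw [← Real.rpow_natCast, ← Real.rpow_mul hq0.le]
      norm_num
    have a2 : √(q ^ (1 / 100000 : ℝ) / (c0 * q)) = q ^ (-(99999 / 200000) : ℝ) / √c0 := by
      rw [div_mul_eq_div_div_swap, Real.sqrt_div' _ hc0.le]
      congr 1
      rw [Real.sqrt_eq_rpow]
      conv_lhs => rw [← Real.rpow_one q, ← Real.rpow_mul hq0.le]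
      rw [← Real.rpow_sub hq0, ← Real.rpow_mul hq0.le]
      norm_num
    have a3 : 1 / q = q ^ (-1 : ℝ) := by
      rw [Real.rpow_neg_one, one_div]
    rw [a1, a2, a3]
    have a4 : q ^ (-(11999 / 40000) : ℝ) * q ^ (-1 / 50000 : ℝ) =
        q ^ (1 / 5 : ℝ) * q ^ (-(99999 / 200000) : ℝ) := by
      rw [← Real.rpow_add hq0, ← Real.rpow_add hq0]
      norm_num
    have a5 : q ^ (-(39999 / 50000) : ℝ) * q ^ (-1 / 50000 : ℝ) =
        q ^ (1 / 5 : ℝ) * q ^ (-1 : ℝ) := by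
      rw [← Real.rpow_add hq0, ← Real.rpow_add hq0]
      norm_num
    rw [mul_assoc, a4, mul_assoc, a5]
    ring
  have e2 : L * (q ^ (1 / 100000 : ℝ) * ((q ^ (1 / 10 : ℝ)) ^ (-(1 / 1600) : ℝ) *
        Real.exp (3 * (1 + ((Real.log q) ^ 200) ^ (2 * (1 / 1600) : ℝ) / (2 * (1 / 1600))))))
      ≤ (L * Real.exp 3 * q ^ (-(13 / 800000) : ℝ)) * q ^ (-1 / 50000 : ℝ) := by
    have hx : 0 ≤ Real.log q := by linarith
    have b1 : ((Real.log q) ^ 200) ^ (2 * (1 / 1600) : ℝ) = (Real.log q) ^ (1 / 4 : ℝ) := by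
      rw [← Real.rpow_natCast, ← Real.rpow_mul hx]
      norm_num
    have b2 : (q ^ (1 / 10 : ℝ)) ^ (-(1 / 1600) : ℝ) = q ^ (-(1 / 16000) : ℝ) := by
      rw [← Real.rpow_mul hq0.le]
      norm_num
    rw [b1, b2, mul_assoc, mul_assoc]
    refine mul_le_mul_of_nonneg_left ?_ hL
    rw [Real.rpow_def_of_pos hq0, Real.rpow_def_of_pos hq0, Real.rpow_def_of_pos hq0,
      Real.rpow_def_of_pos hq0, ← Real.exp_add, ← Real.exp_add, ← Real.exp_add, ← Real.exp_add]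
    apply Real.exp_le_exp.2
    generalize (Real.log q) ^ (1 / 4 : ℝ) = t at h4
    generalize Real.log q = x at h4 hx ⊢
    norm_num
    norm_num at h4
    linarith
  rw [e1]
  nlinarith

/-! ### the number of terms -/

section card
variable {R : Subring ℂ} {f : Ideal R}

lemma mem_BB {y Z : ℝ} {b : Finset ℕ × Finset ℕ} :
    b ∈ BB f y Z ↔ b ∈ (SP f y).powerset ×ˢ (SP f y).powerset ∧ (nB b : ℝ) ≤ Z := by
  classical
  unfold BB
  rw [Finset.mem_filter]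

lemma primes_of {y : ℝ} {b : Finset ℕ × Finset ℕ}
    (hb : b ∈ (SP f y).powerset ×ˢ (SP f y).powerset) :
    (∀ p ∈ b.1, p.Prime) ∧ (∀ p ∈ b.2, p.Prime) := by
  rw [Finset.mem_product, Finset.mem_powerset, Finset.mem_powerset] at hb
  exact ⟨fun p hp => (mem_SP (hb.1 hp)).1, fun p hp => (mem_SP (hb.2 hp)).1⟩

lemma nB_pos {y : ℝ} {b : Finset ℕ × Finset ℕ}
    (hb : b ∈ (SP f y).powerset ×ˢ (SP f y).powerset) : 0 < nB b := by
  obtain ⟨h1, h2⟩ := primes_of hb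
  exact Nat.mul_pos (Finset.prod_pos fun p hp => (h1 p hp).pos)
    (Finset.prod_pos fun p hp => (h2 p hp).pos)

lemma card_BB (y Z : ℝ) (hZ : 0 ≤ Z) : ((BB f y Z).card : ℝ) ≤ Z ^ 2 := by
  have h1 : (BB f y Z).card ≤ (Finset.Icc 1 ⌊Z⌋₊ ×ˢ Finset.Icc 1 ⌊Z⌋₊).card := by
    refine Finset.card_le_card_of_injOn
      (fun b => (∏ p ∈ b.1, p, ∏ p ∈ b.2, p)) ?_ ?_
    · intro b hb
      obtain ⟨hb1, hb2⟩ := mem_BB.1 hb
      obtain ⟨h1, h2⟩ := primes_of hb1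
      have h3 : 0 < ∏ p ∈ b.1, p := Finset.prod_pos fun p hp => (h1 p hp).pos
      have h4 : 0 < ∏ p ∈ b.2, p := Finset.prod_pos fun p hp => (h2 p hp).pos
      have h5 : nB b ≤ ⌊Z⌋₊ := Nat.le_floor hb2
      unfold nB at h5
      simp only [Finset.coe_product, Finset.coe_Icc, Set.mem_prod, Set.mem_Icc]
      refine ⟨⟨h3, le_trans (Nat.le_mul_of_pos_right _ h4) h5⟩,
        ⟨h4, le_trans (Nat.le_mul_of_pos_left _ h3) h5⟩⟩
    · intro b hb b' hb' hbb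
      obtain ⟨hb1, -⟩ := mem_BB.1 hb
      obtain ⟨hb1', -⟩ := mem_BB.1 hb'
      obtain ⟨h1, h2⟩ := primes_of hb1
      obtain ⟨h1', h2'⟩ := primes_of hb1'
      simp only [Prod.mk.injEq] at hbb
      refine Prod.ext ?_ ?_
      · rw [← Nat.primeFactors_prod h1, ← Nat.primeFactors_prod h1', hbb.1]
      · rw [← Nat.primeFactors_prod h2, ← Nat.primeFactors_prod h2', hbb.2]
  rw [Finset.card_product, Nat.card_Icc, Nat.add_sub_cancel] at h1
  calc ((BB f y Z).card : ℝ) ≤ ((⌊Z⌋₊ * ⌊Z⌋₊ : ℕ) : ℝ) := by exact_mod_cast h1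
    _ = (⌊Z⌋₊ : ℝ) * ⌊Z⌋₊ := by push_cast; ring
    _ ≤ Z * Z := by
        have := Nat.floor_le hZ
        gcongr
    _ = Z ^ 2 := by ring

end card

end Pool.Agent.TH936.AC.Phi

namespace Pool.Agent.TH936.AC

open Pool.Agent.W192.HK
open Pool.Agent.TH936.AC.Phi

theorem a_phi (h1 : H_BASIC) (h2 : H_FP) (h3 : A_BAR) (h4 : A_EPS) (h5 : A_PROD) (h6 : A_RANK) :
    A_PHI := by
  classical
  intro R ω hR f ψ hψ cs c0 C0 hc0 hC0
  obtain ⟨L0, C, hL0, hC, hU⟩ := h4 R ω hR f ψ hψ cs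
  obtain ⟨q0, hq0⟩ := numeric ‖L0‖ C c0 hc0 (norm_nonneg _)
  refine ⟨L0, q0, hL0, ?_⟩
  intro q hq hfq hqq0 X hX1 hX2 c hc hcn
  obtain ⟨n1, n2, n3, n4, n5⟩ := hq0 q hqq0
  set y : ℝ := (Real.log q) ^ 200 with hy
  set Z : ℝ := (q : ℝ) ^ (1 / 10 : ℝ) with hZ
  obtain ⟨-, -, hnorm1, -, -, -⟩ := h1 R ω hR.qr
  have hX : 0 < X := lt_of_lt_of_le (by positivity) hX1
  have hnc : 1 ≤ nm c := hnorm1 c hc.1
  have hnc0 : 0 < nm c := by linarith
  obtain ⟨-, -, hP⟩ := h5 R ω hR f y hψ.ne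
  obtain ⟨hPd, hPs⟩ := hP c hc
  have hyq : ⌊y⌋₊ < q := by
    rw [Nat.floor_lt (by linarith)]
    exact n2
  have hsum : ∀ w : ℝ, 0 < w → Summable (us ψ q w) ∧
      ‖∑' m, us ψ q w m - L0‖ ≤ C * (Real.sqrt w + 1 / q) := fun w hw => hU q hq hfq w hw
  have hPh := Ph_eq (ψ := ψ) (f := f) (y := y) (Z := Z) (X := X) (q := q) (c := c) hψ.mul
    (fun b hb m => (hPd b (mem_BB.1 hb).1).1 m) (fun b => mc_coprime hq hyq c b)
    (fun b => psi_mc h1 h2 h3 hR hψ cs y c b) (fun w hw => (hsum w hw).1) hnc0 hX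
    (fun b hb => nB_pos (mem_BB.1 hb).1)
  have hdl : dl f y c = ∑ b ∈ BB f y Z, (sB b : ℝ) / mc f y c b +
      ∑ b ∈ ((SP f y).powerset ×ˢ (SP f y).powerset).filter (fun b => ¬ ((nB b : ℝ) ≤ Z)),
        (sB b : ℝ) / mc f y c b := by
    rw [← hPs, ← Finset.sum_filter_add_sum_filter_not _ (fun b => (nB b : ℝ) ≤ Z)]
    congr 1
  have hsB : ∀ b, ‖(sB b : ℂ)‖ = 1 := by
    intro b
    unfold sB
    push_cast
    rw [norm_pow, norm_neg, norm_one, one_pow]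
  have hmc1 : ∀ b, (1 : ℝ) ≤ mc f y c b := fun b => by
    exact_mod_cast (mc_pos (f := f) y c b)
  -- the two parts
  have hdec : Ph f y Z X q ψ c - L0 * (dl f y c : ℂ) =
      ∑ b ∈ BB f y Z, (sB b : ℂ) / ((mc f y c b : ℕ) : ℂ) *
        (∑' m, us ψ q (((mc f y c b : ℕ) : ℝ) ^ 2 * (nm c / (nB b * X))) m - L0) -
      L0 * ∑ b ∈ ((SP f y).powerset ×ˢ (SP f y).powerset).filter (fun b => ¬ ((nB b : ℝ) ≤ Z)),
        (sB b : ℂ) / ((mc f y c b : ℕ) : ℂ) := by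
    rw [hPh, hdl]
    push_cast
    simp only [mul_sub, Finset.sum_sub_distrib, mul_add, Finset.mul_sum]
    rw [sub_sub]
    congr 2
    exact Finset.sum_congr rfl fun _ _ => mul_comm _ _
  rw [hdec]
  have hA : ‖∑ b ∈ BB f y Z, (sB b : ℂ) / ((mc f y c b : ℕ) : ℂ) *
        (∑' m, us ψ q (((mc f y c b : ℕ) : ℝ) ^ 2 * (nm c / (nB b * X))) m - L0)‖ ≤
      Z ^ 2 * (C * (√((q : ℝ) ^ (1 / 100000 : ℝ) / (c0 * q)) + 1 / q)) := by
    have hB : ∀ b ∈ BB f y Z, ‖(sB b : ℂ) / ((mc f y c b : ℕ) : ℂ) *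
        (∑' m, us ψ q (((mc f y c b : ℕ) : ℝ) ^ 2 * (nm c / (nB b * X))) m - L0)‖ ≤
        C * (√((q : ℝ) ^ (1 / 100000 : ℝ) / (c0 * q)) + 1 / q) := by
      intro b hb
      have hnB : (1 : ℝ) ≤ nB b := by exact_mod_cast nB_pos (mem_BB.1 hb).1
      have hm := hmc1 b
      have hm0 : (0 : ℝ) < mc f y c b := by linarith
      have hw : 0 < ((mc f y c b : ℕ) : ℝ) ^ 2 * (nm c / (nB b * X)) := by positivity
      have hv : nm c / (nB b * X) ≤ (q : ℝ) ^ (1 / 100000 : ℝ) / (c0 * q) := by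
        have : c0 * q ≤ nB b * X := by nlinarith
        gcongr
      have h7 := (hsum _ hw).2
      rw [norm_mul, norm_div, hsB, Complex.norm_natCast]
      have h8 : √(((mc f y c b : ℕ) : ℝ) ^ 2 * (nm c / (nB b * X))) ≤
          ((mc f y c b : ℕ) : ℝ) * √((q : ℝ) ^ (1 / 100000 : ℝ) / (c0 * q)) := by
        rw [Real.sqrt_mul (by positivity), Real.sqrt_sq hm0.le]
        gcongr
      calc 1 / ((mc f y c b : ℕ) : ℝ) *
            ‖∑' m, us ψ q (((mc f y c b : ℕ) : ℝ) ^ 2 * (nm c / (nB b * X))) m - L0‖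
          ≤ 1 / ((mc f y c b : ℕ) : ℝ) * (C * (((mc f y c b : ℕ) : ℝ) *
            √((q : ℝ) ^ (1 / 100000 : ℝ) / (c0 * q)) +
              ((mc f y c b : ℕ) : ℝ) * (1 / q))) := by
            refine mul_le_mul_of_nonneg_left (h7.trans ?_) (by positivity)
            have h9 : 1 / (q : ℝ) ≤ ((mc f y c b : ℕ) : ℝ) * (1 / q) :=
              le_mul_of_one_le_left (by positivity) hm
            exact mul_le_mul_of_nonneg_left (add_le_add h8 h9) hC.le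
        _ = _ := by
            field_simp
    calc _ ≤ ∑ b ∈ BB f y Z, C * (√((q : ℝ) ^ (1 / 100000 : ℝ) / (c0 * q)) + 1 / q) :=
          (norm_sum_le _ _).trans (Finset.sum_le_sum hB)
      _ = (BB f y Z).card * (C * (√((q : ℝ) ^ (1 / 100000 : ℝ) / (c0 * q)) + 1 / q)) := by
          rw [Finset.sum_const, nsmul_eq_mul]
      _ ≤ _ := by
          have := card_BB (f := f) y Z (by linarith)
          gcongr
  have hD : ‖L0 * ∑ b ∈ ((SP f y).powerset ×ˢ (SP f y).powerset).filter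
        (fun b => ¬ ((nB b : ℝ) ≤ Z)), (sB b : ℂ) / ((mc f y c b : ℕ) : ℂ)‖ ≤
      ‖L0‖ * ((q : ℝ) ^ (1 / 100000 : ℝ) * (Z ^ (-(1 / 1600) : ℝ) *
        Real.exp (3 * (1 + y ^ (2 * (1 / 1600) : ℝ) / (2 * (1 / 1600)))))) := by
    rw [norm_mul]
    refine mul_le_mul_of_nonneg_left ?_ (norm_nonneg _)
    have h7 := h6 R f y Z (1 / 1600) n3 n4 (by norm_num) (by norm_num)
    calc _ ≤ ∑ b ∈ ((SP f y).powerset ×ˢ (SP f y).powerset).filter
          (fun b => ¬ ((nB b : ℝ) ≤ Z)), nm c * (1 / (∏ p ∈ b.1 ∪ b.2, (p : ℝ))) := by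
          refine (norm_sum_le _ _).trans (Finset.sum_le_sum fun b hb => ?_)
          have hb1 := (Finset.mem_filter.1 hb).1
          have h8 := (hPd b hb1).2
          rw [norm_div, hsB, Complex.norm_natCast]
          have h9 : 0 < ∏ p ∈ b.1 ∪ b.2, (p : ℝ) := by
            refine Finset.prod_pos fun p hp => ?_
            rcases Finset.mem_union.1 hp with h | h
            · exact_mod_cast ((primes_of hb1).1 p h).pos
            · exact_mod_cast ((primes_of hb1).2 p h).pos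
          have hm0 : (0 : ℝ) < mc f y c b := by linarith [hmc1 b]
          rw [mul_one_div, div_le_div_iff₀ hm0 h9, one_mul, mul_comm (nm c)]
          exact h8
      _ = nm c * ∑ b ∈ ((SP f y).powerset ×ˢ (SP f y).powerset).filter
          (fun b => ¬ ((nB b : ℝ) ≤ Z)), 1 / (∏ p ∈ b.1 ∪ b.2, (p : ℝ)) := by
          rw [Finset.mul_sum]
      _ ≤ _ := by
          refine mul_le_mul hcn ?_ ?_ (by positivity)
          · convert h7 using 2
          · refine Finset.sum_nonneg fun b _ => ?_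
            positivity
  calc _ ≤ _ := norm_sub_le _ _
    _ ≤ _ := add_le_add hA hD
    _ ≤ _ := n5

end Pool.Agent.TH936.AC
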