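import Pool.Agent.TH936.AC.Stmts2
import Pool.Agent.W192.HK.Asm

/-!
# Project AC, part RAM (helper329): the ramified primes divide the conductor (class number one)

If a ramified prime `P` does not divide `f`, Dirichlet's theorem and quadratic reciprocity give a
prime number `ℓ ≡ -1` modulo the norm of `f` which is a norm from `R`; then
`1 = ψ((ℓ)) / ℓ = ψ((-1)) / (-1) = -1`.
-/

set_option autoImplicit false

open Complex

namespace Pool.Agent.TH936.AC

open Pool.Agent.W192.HK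

namespace Ram

variable {R : Subring ℂ} {ω : ℂ}

lemma coef_ext (h : QR R ω) {a b c d : ℤ} (e : (a : ℂ) + b * ω = c + d * ω) : a = c ∧ b = d := by
  have him := congrArg Complex.im e
  simp at him
  have hb : b = d := by
    rcases him with h0 | h0
    · exact h0
    · exact absurd h0 h.im.ne'
  subst hb
  have h1 := add_right_cancel e
  exact ⟨by exact_mod_cast h1, rfl⟩

/-- trace and norm of `ω` -/
lemma exists_ts (h : QR R ω) : ∃ t s : ℤ, (t : ℝ) = 2 * ω.re ∧ (s : ℝ) = ω.re ^ 2 + ω.im ^ 2 := by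
  have hω : ω ∈ R := (h.mem ω).2 ⟨0, 1, by simp⟩
  obtain ⟨a, b, hab⟩ := (h.mem (ω ^ 2)).1 (R.pow_mem hω 2)
  have him := congrArg Complex.im hab
  have hre := congrArg Complex.re hab
  simp [sq] at him hre
  have hb : (b : ℝ) = 2 * ω.re := by
    have h1 : (b : ℝ) * ω.im = (2 * ω.re) * ω.im := by linarith
    exact mul_right_cancel₀ h.im.ne' h1
  refine ⟨b, -a, hb, ?_⟩
  push_cast
  rw [hb] at hre
  nlinarith

section ts

variable {t s : ℤ} (ht : (t : ℝ) = 2 * ω.re) (hs : (s : ℝ) = ω.re ^ 2 + ω.im ^ 2)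

include ht hs

lemma ω_sq : ω * ω = (t : ℂ) * ω - s := by
  apply Complex.ext
  · simp
    rw [ht, hs]
    ring
  · simp
    rw [ht]
    ring

lemma normSq_eq (x y : ℤ) :
    Complex.normSq ((x : ℂ) + y * ω) = ((x ^ 2 + t * x * y + s * y ^ 2 : ℤ) : ℝ) := by
  push_cast
  rw [Complex.normSq_apply]
  simp
  rw [ht, hs]
  ring

lemma D_le {l : ℕ} (hl : l.Prime) {β : R} (h : QR R ω) (hβ : Complex.normSq (β : ℂ) = l) :
    4 * s - t ^ 2 ≤ 4 * l ∧ ∃ x y : ℤ, (β : ℂ) = x + y * ω ∧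
      x ^ 2 + t * x * y + s * y ^ 2 = l ∧ ¬ (l : ℤ) ∣ y := by
  obtain ⟨x, y, hxy⟩ := (h.mem β).1 β.2
  rw [hxy, normSq_eq ht hs] at hβ
  have h1 : x ^ 2 + t * x * y + s * y ^ 2 = (l : ℤ) := by exact_mod_cast hβ
  have hly : ¬ (l : ℤ) ∣ y := by
    intro hy
    have h2 : (l : ℤ) ∣ x ^ 2 := by
      have h3 : x ^ 2 = l - y * (t * x + s * y) := by linarith
      rw [h3]
      exact dvd_sub dvd_rfl (hy.mul_right _)
    have h4 : (l : ℤ) ∣ x := (Nat.prime_iff_prime_int.1 hl).dvd_of_dvd_pow h2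
    obtain ⟨u, rfl⟩ := h4
    obtain ⟨v, rfl⟩ := hy
    have h5 : (l : ℤ) * ((u ^ 2 + t * u * v + s * v ^ 2) * l) = l * 1 := by
      linear_combination h1
    have h6 := mul_left_cancel₀ (by exact_mod_cast hl.ne_zero : (l : ℤ) ≠ 0) h5
    have h7 : (l : ℤ) ∣ 1 := ⟨_, by rw [mul_comm]; exact h6.symm⟩
    have h8 : l ∣ 1 := by exact_mod_cast h7
    exact hl.one_lt.ne' (Nat.dvd_one.1 h8)
  have hy0 : y ≠ 0 := by
    rintro rfl
    exact hly (dvd_zero _)
  refine ⟨?_, x, y, hxy, h1, hly⟩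
  have h2 : 1 ≤ y ^ 2 := by
    have : 0 < y ^ 2 := by positivity
    omega
  have hD : 0 < 4 * s - t ^ 2 := by
    have h3 : (0 : ℝ) < ((4 * s - t ^ 2 : ℤ) : ℝ) := by
      push_cast
      rw [ht, hs]
      have := h.im
      nlinarith
    exact_mod_cast h3
  nlinarith [sq_nonneg (2 * x + t * y), mul_le_mul_of_nonneg_left h2 hD.le]

/-- an element of norm `l`, if `x² - t x + s` has a zero modulo `l` -/
lemma exists_norm (h1 : H_BASIC) (hA : A_BAR) (hR : QP R ω) {l : ℕ} (hl : l.Prime) {x0 : ℤ}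
    (hx : (l : ℤ) ∣ x0 ^ 2 - t * x0 + s) : ∃ β : R, Complex.normSq (β : ℂ) = l := by
  have h := hR.qr
  obtain ⟨b1, b2, b3, b4, b5, b6, b7, b8, b9⟩ := h1 R ω h
  obtain ⟨c1, -⟩ := hA R ω hR
  have hωmem : ω ∈ R := (h.mem ω).2 ⟨0, 1, by simp⟩
  set o : R := ⟨ω, hωmem⟩ with ho
  have hoo : (o : ℂ) = ω := rfl
  have hpid := hR.pid
  set L : Ideal R := Ideal.span {(l : R), o - (x0 : R)} with hL
  obtain ⟨β, hβ⟩ : ∃ β : R, L = sp β := ⟨_, (Ideal.span_singleton_generator L).symm⟩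
  have e1 : (l : R) ∈ sp β := by rw [← hβ]; exact Ideal.subset_span (by simp)
  have e2 : o - (x0 : R) ∈ sp β := by rw [← hβ]; exact Ideal.subset_span (by simp)
  obtain ⟨β1, hβ1⟩ := Ideal.mem_span_singleton.1 e1
  obtain ⟨β2, hβ2⟩ := Ideal.mem_span_singleton.1 e2
  obtain ⟨n, hn⟩ := b8 β
  obtain ⟨n1, hn1⟩ := b8 β1
  have hmul : l ^ 2 = n * n1 := by
    have h3 := congrArg (fun z : R => Complex.normSq (z : ℂ)) hβ1
    simp only [SubringClass.coe_natCast, Subring.coe_mul, map_mul, hn, hn1] at h3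
    rw [Complex.normSq_natCast] at h3
    rw [sq]
    exact_mod_cast h3
  have hdvd : n ∣ l ^ 2 := ⟨n1, hmul⟩
  obtain ⟨i, hi, hni⟩ := (Nat.dvd_prime_pow hl).1 hdvd
  -- `1` is not in `L`
  have hone : (1 : R) ∉ L := by
    intro hmem
    obtain ⟨a, b, hab⟩ := Ideal.mem_span_pair.1 hmem
    obtain ⟨a1, a2, ha⟩ := (h.mem a).1 a.2
    obtain ⟨u, v, hb⟩ := (h.mem b).1 b.2
    have h3 := congrArg (fun z : R => (z : ℂ)) hab
    push_cast at h3
    rw [ha, hb, hoo] at h3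
    have h4 : ((l * a1 - v * s - x0 * u : ℤ) : ℂ) + ((l * a2 + u + v * t - x0 * v : ℤ) : ℂ) * ω =
        ((1 : ℤ) : ℂ) + ((0 : ℤ) : ℂ) * ω := by
      push_cast
      have h5 : (v : ℂ) * (ω * ω) = v * ((t : ℂ) * ω - s) := by rw [ω_sq ht hs]
      linear_combination h3 - h5
    obtain ⟨g1, g2⟩ := coef_ext h h4
    have g3 : (1 : ℤ) = l * (a1 + a2 * x0) - v * (x0 ^ 2 - t * x0 + s) := by
      linear_combination -g1 - x0 * g2
    have g4 : (l : ℤ) ∣ 1 := by
      rw [g3]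
      exact dvd_sub (dvd_mul_right _ _) (hx.mul_left _)
    have g5 : l ∣ 1 := by exact_mod_cast g4
    exact hl.one_lt.ne' (Nat.dvd_one.1 g5)
  have hconj : ∀ z : R, Complex.normSq (z : ℂ) = 1 → ∃ g : R, z * g = 1 := by
    intro z hz
    obtain ⟨g, hg⟩ := c1 z
    refine ⟨g, Subtype.ext ?_⟩
    push_cast
    rw [hg, Complex.mul_conj, hz]
    simp
  interval_cases i
  · exfalso
    rw [pow_zero] at hni
    rw [hni, Nat.cast_one] at hn
    obtain ⟨g, hg⟩ := hconj β hn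
    apply hone
    rw [hβ, ← hg]
    exact Ideal.mul_mem_right _ _ (Ideal.mem_span_singleton_self β)
  · rw [pow_one] at hni
    exact ⟨β, by rw [hn, hni]⟩
  · exfalso
    rw [hni] at hmul
    have hl2 : 0 < l ^ 2 := pow_pos hl.pos 2
    have h3 : n1 = 1 := by
      have : l ^ 2 * n1 = l ^ 2 * 1 := by rw [mul_one]; exact hmul.symm
      exact Nat.eq_of_mul_eq_mul_left hl2 this
    rw [h3, Nat.cast_one] at hn1
    obtain ⟨g, hg⟩ := hconj β1 hn1
    have h4 : β = (l : R) * g := by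
      calc β = β * (β1 * g) := by rw [hg, mul_one]
        _ = β * β1 * g := by ring
        _ = (l : R) * g := by rw [← hβ1]
    rw [h4, mul_assoc] at hβ2
    obtain ⟨u, v, huv⟩ := (h.mem ((g * β2 : R) : ℂ)).1 (g * β2).2
    have h5 := congrArg (fun z : R => (z : ℂ)) hβ2
    rw [← hoo] at huv
    have h6 : ((o - (x0 : R) : R) : ℂ) = ((l : R) : ℂ) * ((g * β2 : R) : ℂ) := by
      have := h5
      push_cast at this ⊢
      exact this
    rw [huv] at h6
    push_cast at h6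
    rw [hoo] at h6
    have h7 : ((-x0 : ℤ) : ℂ) + ((1 : ℤ) : ℂ) * ω = ((l * u : ℤ) : ℂ) + ((l * v : ℤ) : ℂ) * ω := by
      push_cast
      linear_combination h6
    obtain ⟨-, g2⟩ := coef_ext h h7
    have g4 : (l : ℤ) ∣ 1 := ⟨v, g2⟩
    have g5 : l ∣ 1 := by exact_mod_cast g4
    exact hl.one_lt.ne' (Nat.dvd_one.1 g5)

end ts

/-- `-p` is a square modulo `l ≡ 1 mod p`, `p ≡ 3 mod 4` -/
lemma neg_sq {p l : ℕ} (hp : p.Prime) (hl : l.Prime) (hp3 : p % 4 = 3) (hl2 : l ≠ 2) (hpl : p ≠ l)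
    (hlp : l ≡ 1 [MOD p]) : IsSquare ((-(p : ℤ) : ℤ) : ZMod l) := by
  have := Fact.mk hp
  have := Fact.mk hl
  have hp2 : p ≠ 2 := by rintro rfl; norm_num at hp3
  have hsq : IsSquare (l : ZMod p) := by
    have : (l : ZMod p) = 1 := by
      have := (ZMod.natCast_eq_natCast_iff l 1 p).2 hlp
      simpa using this
    rw [this]
    exact IsSquare.one
  have hodd : l % 2 = 1 := hl.eq_two_or_odd.resolve_left hl2
  have h4 : l % 4 = 1 ∨ l % 4 = 3 := by omega
  rcases h4 with h4 | h4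
  · have h5 : IsSquare (p : ZMod l) := (ZMod.exists_sq_eq_prime_iff_of_mod_four_eq_one h4 hp2).2 hsq
    have h6 : IsSquare (-1 : ZMod l) := ZMod.exists_sq_eq_neg_one_iff.2 (by omega)
    have h7 : ((-(p : ℤ) : ℤ) : ZMod l) = -1 * (p : ZMod l) := by push_cast; ring
    rw [h7]
    exact h6.mul h5
  · have h5 : ¬ IsSquare (p : ZMod l) := by
      rw [ZMod.exists_sq_eq_prime_iff_of_mod_four_eq_three h4 hp3 hpl.symm, not_not]
      exact hsq
    have h6 : ¬ IsSquare (-1 : ZMod l) := by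
      rw [ZMod.exists_sq_eq_neg_one_iff]
      omega
    have h7 : legendreSym l (-1) = -1 := (legendreSym.eq_neg_one_iff l).2 (by simpa using h6)
    have h8 : legendreSym l p = -1 := (legendreSym.eq_neg_one_iff l).2 (by simpa using h5)
    have h9 : legendreSym l (-(p : ℤ)) = 1 := by
      have : (-(p : ℤ)) = (-1) * (p : ℤ) := by ring
      rw [this, legendreSym.mul, h7, h8]
      norm_num
    have h10 : ((-(p : ℤ) : ℤ) : ZMod l) ≠ 0 := by
      intro h0
      rw [(legendreSym.eq_zero_iff l _).2 h0] at h9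
      norm_num at h9
    exact (legendreSym.eq_one_iff l h10).1 h9

/-- a root of `x² - t x + s` modulo an odd prime -/
lemma exists_root {l : ℕ} (hl : l.Prime) (hl2 : l ≠ 2) {t s : ℤ}
    (hsq : IsSquare ((-(4 * s - t ^ 2) : ℤ) : ZMod l)) : ∃ x0 : ℤ, (l : ℤ) ∣ x0 ^ 2 - t * x0 + s := by
  have := Fact.mk hl
  obtain ⟨r, hr⟩ := hsq
  have h2 : (2 : ZMod l) ≠ 0 := by
    intro h0
    have : ((2 : ℕ) : ZMod l) = 0 := by exact_mod_cast h0
    rw [ZMod.natCast_eq_zero_iff] at this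
    exact hl2 ((Nat.prime_dvd_prime_iff_eq hl Nat.prime_two).1 this)
  obtain ⟨x0, hx0⟩ := ZMod.intCast_surjective (((t : ZMod l) + r) / 2)
  refine ⟨x0, ?_⟩
  rw [← ZMod.intCast_zmod_eq_zero_iff_dvd]
  push_cast at hr ⊢
  rw [hx0]
  field_simp
  linear_combination -hr

lemma exists_prime_mem {P : Ideal R} (hP : P.IsPrime) : ∀ n : ℕ, n ≠ 0 → (n : R) ∈ P →
    ∃ p : ℕ, p.Prime ∧ (p : R) ∈ P := by
  intro n
  induction n using Nat.strong_induction_on with
  | _ n ih =>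
    intro hn hmem
    by_cases h1 : n = 1
    · subst h1
      exact absurd ((Ideal.eq_top_iff_one P).2 (by simpa using hmem)) hP.ne_top
    · obtain ⟨m, hm⟩ := Nat.minFac_dvd n
      have hp := Nat.minFac_prime h1
      have hmul : ((n.minFac : ℕ) : R) * (m : R) ∈ P := by
        rw [← Nat.cast_mul, ← hm]
        exact hmem
      rcases hP.mem_or_mem hmul with h2 | h2
      · exact ⟨_, hp, h2⟩
      · have hm0 : m ≠ 0 := by
          rintro rfl
          exact hn (by simpa using hm)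
        refine ih m ?_ hm0 h2
        have h3 : 1 * m < n.minFac * m := Nat.mul_lt_mul_of_pos_right hp.one_lt (Nat.pos_of_ne_zero hm0)
        rw [one_mul, ← hm] at h3
        exact h3

lemma exists_prime {n0 M : ℕ} (B : ℕ) (hn0 : n0 ≠ 0) (hM : M ≠ 0) (hc : Nat.Coprime n0 M) :
    ∃ l : ℕ, B < l ∧ l.Prime ∧ l ≡ 1 [MOD M] ∧ n0 ∣ l + 1 := by
  obtain ⟨k, hk1, hk2⟩ := Nat.chineseRemainder hc (n0 - 1) 1
  have hdvd : ∀ j : ℕ, j ≡ n0 - 1 [MOD n0] → n0 ∣ j + 1 := by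
    intro j hj
    have h1 : j + 1 ≡ n0 - 1 + 1 [MOD n0] := hj.add_right 1
    rw [Nat.sub_add_cancel (Nat.one_le_iff_ne_zero.2 hn0)] at h1
    exact (Nat.modEq_zero_iff_dvd).1 (h1.trans ((Nat.modEq_zero_iff_dvd).2 dvd_rfl))
  have hcn : Nat.Coprime k n0 := by
    have h1 : Nat.gcd k n0 ∣ k + 1 := (Nat.gcd_dvd_right _ _).trans (hdvd k hk1)
    have h2 : Nat.gcd k n0 ∣ 1 := (Nat.dvd_add_right (Nat.gcd_dvd_left _ _)).1 h1
    exact Nat.dvd_one.1 h2
  have hcM : Nat.Coprime k M := by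
    have := hk2.gcd_eq
    rw [Nat.gcd_one_left] at this
    exact this
  obtain ⟨l, hl, hlp, hlk⟩ := Nat.forall_exists_prime_gt_and_modEq B (q := n0 * M) (a := k)
    (mul_ne_zero hn0 hM) (Nat.Coprime.mul_right hcn hcM)
  exact ⟨l, hl, hlp, (hlk.of_mul_left _).trans hk2, hdvd l ((hlk.of_mul_right _).trans hk1)⟩

/-- the discriminant -/
lemma disc_cases {t s D : ℤ} {p : ℕ} (hD : D = 4 * s - t ^ 2) (hp : p.Prime) (hDpos : 0 < D)
    (hDle : D ≤ 4 * p) (hpD : (p : ℤ) ∣ D) (hcase2 : (2 : ℤ) ∣ D → D ≤ 8)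
    (hcase3 : (3 : ℤ) ∣ D → D ≤ 12) :
    (p % 4 = 3 ∧ D = p) ∨ (p = 2 ∧ (D = 4 ∨ D = 8)) := by
  obtain ⟨j, hj⟩ := hpD
  have hpp : (0 : ℤ) < p := by exact_mod_cast hp.pos
  have hj1 : 1 ≤ j := by
    by_contra hlt
    push Not at hlt
    have : (p : ℤ) * j ≤ 0 := mul_nonpos_of_nonneg_of_nonpos hpp.le (by omega)
    omega
  have hj4 : j ≤ 4 := by
    by_contra hlt
    push Not at hlt
    have : (p : ℤ) * 5 ≤ p * j := mul_le_mul_of_nonneg_left (by omega) hpp.le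
    omega
  have hD4 : D % 4 = 0 ∨ D % 4 = 3 := by
    rcases Int.emod_two_eq_zero_or_one t with h4 | h4
    · left
      obtain ⟨u, hu⟩ := Int.dvd_of_emod_eq_zero h4
      have : D = 4 * (s - u ^ 2) := by rw [hD, hu]; ring
      omega
    · right
      obtain ⟨u, hu⟩ : ∃ u, t = 2 * u + 1 := ⟨t / 2, by omega⟩
      have : D = 4 * (s - u ^ 2 - u) - 1 := by rw [hD, hu]; ring
      omega
  clear hD
  rcases hp.eq_two_or_odd with h4 | h4
  · right
    refine ⟨h4, ?_⟩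
    rw [h4] at hj
    push_cast at hj
    interval_cases j <;> omega
  · left
    have hjj : j = 1 ∨ j = 2 ∨ j = 3 ∨ j = 4 := by omega
    rcases hjj with h5 | h5 | h5 | h5
    · rw [h5, mul_one] at hj
      omega
    · exfalso
      rw [h5] at hj
      omega
    · exfalso
      rw [h5] at hj
      have h6 := hcase3 ⟨p, by rw [hj]; ring⟩
      have h7 := hp.two_le
      have h8 : p = 3 := by omega
      omega
    · exfalso
      rw [h5] at hj
      have h6 := hcase2 ⟨2 * p, by rw [hj]; ring⟩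
      have h7 := hp.two_le
      omega

/-- a prime number `l ≡ -1 mod n0` with `-D` a square modulo `l` -/
lemma exists_l {D : ℤ} {p n0 : ℕ} (hp : p.Prime) (hn00 : n0 ≠ 0) (hpn0 : Nat.Coprime n0 p)
    (hfinal : (p % 4 = 3 ∧ D = p) ∨ (p = 2 ∧ (D = 4 ∨ D = 8))) :
    ∃ l : ℕ, l.Prime ∧ l ≠ 2 ∧ n0 ∣ l + 1 ∧ IsSquare ((-D : ℤ) : ZMod l) := by
  rcases hfinal with ⟨h4, h5⟩ | ⟨h4, h5⟩
  · obtain ⟨l, hB, hl, hl1, hln⟩ := Ram.exists_prime (p + 2) hn00 hp.ne_zero hpn0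
    refine ⟨l, hl, by omega, hln, ?_⟩
    rw [h5]
    exact Ram.neg_sq hp hl h4 (by omega) (by omega) hl1
  · have h6 : Nat.Coprime n0 8 := by
      rw [h4] at hpn0
      exact Nat.Coprime.pow_right 3 hpn0
    obtain ⟨l, hB, hl, hl1, hln⟩ := Ram.exists_prime 2 hn00 (by norm_num : (8 : ℕ) ≠ 0) h6
    have hl8 : l % 8 = 1 := by
      have : l % 8 = 1 % 8 := hl1
      omega
    have := Fact.mk hl
    refine ⟨l, hl, by omega, hln, ?_⟩
    have h7 : IsSquare (-1 : ZMod l) := ZMod.exists_sq_eq_neg_one_iff.2 (by omega)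
    have h8 : IsSquare (-2 : ZMod l) := (ZMod.exists_sq_eq_neg_two_iff (by omega)).2 (Or.inl hl8)
    have h9 : IsSquare (4 : ZMod l) := ⟨2, by norm_num⟩
    rcases h5 with h5 | h5
    · rw [h5]
      have : ((-4 : ℤ) : ZMod l) = -1 * 4 := by push_cast; ring
      rw [this]
      exact h7.mul h9
    · rw [h5]
      have : ((-8 : ℤ) : ZMod l) = -2 * 4 := by push_cast; ring
      rw [this]
      exact h8.mul h9

end Ram

theorem a_ram (h1 : H_BASIC) (h2 : H_FP) (h3 : A_BAR) : A_RAM := by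
  intro R ω hR f ψ hψ hcs P hP hP0 hbar
  have h := hR.qr
  obtain ⟨b1, b2, b3, b4, b5, b6, b7, b8, b9⟩ := h1 R ω h
  obtain ⟨c1, c2, c3, c4, c5, c6, c7, c8, c9, c10, c11, c12, c13, c14⟩ := h3 R ω hR
  have hpid := hR.pid
  have hded := h.ded
  have hft : f ≠ ⊤ := HC.ne_top (m := 1) le_rfl hψ
  by_contra hcon
  push Not at hcon
  obtain ⟨hnp, hcop⟩ := hcon
  obtain ⟨t, s, ht, hs⟩ := Ram.exists_ts h
  -- the prime number below `P`
  set nP : ℕ := Nat.card (R ⧸ P) with hnP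
  have hPP : P * P = sp ((nP : ℕ) : R) := by
    have := c9 P hP0
    rwa [hbar] at this
  have hnmP : nm P = nP := rfl
  have hnP0 : nP ≠ 0 := by
    have := b3 P hP0
    rw [hnmP] at this
    rintro h0
    rw [h0] at this
    norm_num at this
  have hnP1 : nP ≠ 1 := by
    intro h0
    exact hP.ne_top ((b7 P).1 (by rw [hnmP, h0]; simp))
  have hmemP : ((nP : ℕ) : R) ∈ P := by
    have : ((nP : ℕ) : R) ∈ P * P := by
      rw [hPP]
      exact Ideal.mem_span_singleton_self _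
    exact Ideal.mul_le_right this
  obtain ⟨p, hp, hpP⟩ := Ram.exists_prime_mem hP nP hnP0 hmemP
  have hPp : P ∣ sp (p : R) := Ideal.dvd_span_singleton.2 hpP
  have hnmp : nm (sp (p : R)) = (p : ℝ) ^ 2 := by
    rw [b5]
    simp [Complex.normSq_natCast, sq]
  obtain ⟨J, hJ⟩ := hPp
  have hmulJ : p ^ 2 = nP * Nat.card (R ⧸ J) := by
    have h4 := b4 P J
    rw [← hJ, hnmp, hnmP] at h4
    have h5 : nm J = (Nat.card (R ⧸ J) : ℝ) := rfl
    rw [h5] at h4
    exact_mod_cast h4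
  have hnPp : nP = p := by
    obtain ⟨i, hi, hni⟩ := (Nat.dvd_prime_pow hp).1 (⟨_, hmulJ⟩ : nP ∣ p ^ 2)
    interval_cases i
    · exact absurd (by rw [hni, pow_zero]) hnP1
    · rw [hni, pow_one]
    · exfalso
      rw [hni] at hmulJ
      have h5 : Nat.card (R ⧸ J) = 1 := by
        have h6 : p ^ 2 * Nat.card (R ⧸ J) = p ^ 2 * 1 := by rw [mul_one]; exact hmulJ.symm
        exact Nat.eq_of_mul_eq_mul_left (pow_pos hp.pos 2) h6
      have h7 : J = ⊤ := (b7 J).1 (by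
        have h8 : nm J = (Nat.card (R ⧸ J) : ℝ) := rfl
        rw [h8, h5]
        simp)
      rw [h7, Ideal.mul_top] at hJ
      exact hnp p hp hJ.symm
  obtain ⟨π, hπ⟩ : ∃ π : R, P = sp π := ⟨_, (Ideal.span_singleton_generator P).symm⟩
  have hnπ : Complex.normSq (π : ℂ) = p := by
    rw [← b5, ← hπ, hnmP, hnPp]
  obtain ⟨hDle, x, y, hxy, hN, hpy⟩ := Ram.D_le ht hs hp h hnπ
  set D : ℤ := 4 * s - t ^ 2 with hD
  have hDpos : 0 < D := by
    have h4 : (0 : ℝ) < ((4 * s - t ^ 2 : ℤ) : ℝ) := by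
      push_cast
      rw [ht, hs]
      have := h.im
      nlinarith
    exact_mod_cast h4
  -- `p` divides `D`
  have hpD : (p : ℤ) ∣ D := by
    obtain ⟨πb, hπb⟩ := c1 π
    have h4 : bar P = sp πb := by
      rw [hπ]
      exact c6 π πb hπb
    have h5 : π - πb ∈ P := by
      refine Ideal.sub_mem _ ?_ ?_
      · rw [hπ]
        exact Ideal.mem_span_singleton_self _
      · rw [← hbar, h4]
        exact Ideal.mem_span_singleton_self _
    obtain ⟨J', hJ'⟩ := (Ideal.dvd_span_singleton.2 h5 : P ∣ sp (π - πb))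
    have h6 := b4 P J'
    have h6' : nm J' = (Nat.card (R ⧸ J') : ℝ) := rfl
    rw [← hJ', b5, hnmP, hnPp, h6'] at h6
    have h7 : ((π - πb : R) : ℂ) = ((-(t * y) : ℤ) : ℂ) + ((2 * y : ℤ) : ℂ) * ω := by
      push_cast
      rw [hπb, hxy]
      apply Complex.ext
      · simp
        rw [ht]
        ring
      · simp
        ring
    rw [h7, Ram.normSq_eq ht hs] at h6
    have h8 : y ^ 2 * D = (p : ℤ) * (Nat.card (R ⧸ J') : ℤ) := by
      have h9 : (-(t * y)) ^ 2 + t * (-(t * y)) * (2 * y) + s * (2 * y) ^ 2 =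
        (p : ℤ) * (Nat.card (R ⧸ J') : ℤ) := by exact_mod_cast h6
      rw [← h9, hD]
      ring
    have h10 : (p : ℤ) ∣ y ^ 2 * D := ⟨_, h8⟩
    rcases (Nat.prime_iff_prime_int.1 hp).dvd_or_dvd h10 with h11 | h11
    · exact absurd ((Nat.prime_iff_prime_int.1 hp).dvd_of_dvd_pow h11) hpy
    · exact h11
  have hD4 : (2 : ℤ) ∣ D → t % 2 = 0 := by
    intro h3
    rcases Int.emod_two_eq_zero_or_one t with h4 | h4
    · exact h4
    · exfalso
      obtain ⟨u, hu⟩ : ∃ u, t = 2 * u + 1 := ⟨t / 2, by omega⟩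
      have : D = 4 * (s - u ^ 2 - u) - 1 := by rw [hD, hu]; ring
      omega
  have hcase2 : (2 : ℤ) ∣ D → D ≤ 8 := by
    intro h4
    have ht2 : t % 2 = 0 := hD4 h4
    obtain ⟨u, hu⟩ := Int.dvd_of_emod_eq_zero ht2
    have h5 : ((2 : ℕ) : ℤ) ∣ s ^ 2 - t * s + s := by
      have h6 : s ^ 2 - t * s + s = s * (s + 1) - 2 * (u * s) := by rw [hu]; ring
      rw [h6]
      have h7 : (2 : ℤ) ∣ s * (s + 1) := (Int.even_mul_succ_self s).two_dvd
      exact dvd_sub h7 (dvd_mul_right _ _)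
    obtain ⟨β, hβ⟩ := Ram.exists_norm ht hs h1 h3 hR Nat.prime_two h5
    have h6 := (Ram.D_le ht hs Nat.prime_two h hβ).1
    push_cast at h6
    omega
  have hcase3 : (3 : ℤ) ∣ D → D ≤ 12 := by
    intro h4
    have h5 : ((3 : ℕ) : ℤ) ∣ (2 * t) ^ 2 - t * (2 * t) + s := by
      have h6 : (2 * t) ^ 2 - t * (2 * t) + s = D + 3 * (t ^ 2 - s) := by rw [hD]; ring
      rw [h6]
      exact dvd_add h4 (dvd_mul_right _ _)
    obtain ⟨β, hβ⟩ := Ram.exists_norm ht hs h1 h3 hR Nat.prime_three h5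
    have h6 := (Ram.D_le ht hs Nat.prime_three h hβ).1
    push_cast at h6
    omega
  have hfinal : (p % 4 = 3 ∧ D = p) ∨ (p = 2 ∧ (D = 4 ∨ D = 8)) :=
    Ram.disc_cases hD hp hDpos hDle hpD hcase2 hcase3
  -- the norm of `f`
  set n0 : ℕ := Nat.card (R ⧸ f) with hn0
  have hff : f * bar f = sp ((n0 : ℕ) : R) := c9 f hψ.ne
  have hn00 : n0 ≠ 0 := by
    have h4 := b3 f hψ.ne
    have h5 : nm f = (n0 : ℝ) := rfl
    rw [h5] at h4
    rintro h0
    rw [h0] at h4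
    norm_num at h4
  have hn0f : ((n0 : ℕ) : R) ∈ f := by
    have h4 : ((n0 : ℕ) : R) ∈ f * bar f := by
      rw [hff]
      exact Ideal.mem_span_singleton_self _
    exact (Ideal.mul_le_left : f * bar f ≤ f) h4
  have hpn0 : Nat.Coprime n0 p := by
    refine Nat.Coprime.symm ((Nat.Prime.coprime_iff_not_dvd hp).2 fun h4 => ?_)
    have h5 : (p : R) ∣ ((n0 : ℕ) : R) := by
      obtain ⟨u, hu⟩ := h4
      exact ⟨(u : R), by rw [hu]; push_cast; ring⟩
    have h6 : P ∣ f * bar f := by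
      rw [hff]
      refine Ideal.dvd_span_singleton.2 ?_
      obtain ⟨u, hu⟩ := h5
      rw [hu]
      exact Ideal.mul_mem_right _ _ hpP
    have h7 : P ∣ f := by
      rcases (Ideal.prime_of_isPrime hP0 hP).dvd_or_dvd h6 with h8 | h8
      · exact h8
      · rw [← hbar] at h8
        exact (c13 P f).1 h8
    have h8 := Ideal.isCoprime_iff_sup_eq.1 hcop
    rw [sup_eq_left.2 (Ideal.le_of_dvd h7)] at h8
    exact hP.ne_top h8
  -- a prime number `l ≡ -1 mod n0` with `-D` a square modulo `l`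
  obtain ⟨l, hl, hl2, hln0, hlsq⟩ := Ram.exists_l hp hn00 hpn0 hfinal
  obtain ⟨x0, hx0⟩ := Ram.exists_root hl hl2 (t := t) (s := s) hlsq
  obtain ⟨β, hβ⟩ := Ram.exists_norm ht hs h1 h3 hR hl hx0
  -- the contradiction
  obtain ⟨-, -, -, -, f5⟩ := h2 R ω h 1 f ψ hψ hft
  have hmem : (l : R) - (-1) ∈ f := by
    obtain ⟨u, hu⟩ := hln0
    have h4 : (l : R) - (-1) = ((n0 : ℕ) : R) * (u : R) := by
      rw [sub_neg_eq_add, ← Nat.cast_mul, ← hu]
      push_cast
      ring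
    rw [h4]
    exact Ideal.mul_mem_right _ _ hn0f
  have h4 := f5 _ _ hmem
  have h5 : fp 1 ψ (-1 : R) = -1 := by
    unfold fp
    have h6 : sp (-1 : R) = ⊤ := by
      rw [Ideal.span_singleton_eq_top]
      exact isUnit_one.neg
    rw [h6, HC.top hψ]
    push_cast
    norm_num
  obtain ⟨g, hg⟩ := c1 β
  have h6 : (l : R) = β * g := by
    apply Subtype.ext
    push_cast
    rw [hg, Complex.mul_conj, hβ]
    simp
  have h7 : ψ (sp (l : R)) = ((Complex.normSq (ψ (sp β)) : ℝ) : ℂ) := by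
    have h8 : sp (l : R) = sp β * bar (sp β) := by
      rw [c6 β g hg, h6]
      exact (Ideal.span_singleton_mul_span_singleton β g).symm
    rw [h8, hψ.mul, hcs, Complex.mul_conj]
  have h8 : fp 1 ψ (l : R) = ((Complex.normSq (ψ (sp β)) / l : ℝ) : ℂ) := by
    unfold fp
    rw [h7]
    push_cast
    simp
  rw [h8, h5] at h4
  have h9 : Complex.normSq (ψ (sp β)) / (l : ℝ) = -1 := by exact_mod_cast h4
  have h10 : 0 ≤ Complex.normSq (ψ (sp β)) / (l : ℝ) := div_nonneg (Complex.normSq_nonneg _)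
    (Nat.cast_nonneg _)
  linarith

end Pool.Agent.TH936.AC
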