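import Pool.Agent.TH936.AC.Stmts

/-!
# Project AC, part ROUGH: the sum over the rough primitive ideals of small norm
(job 3498 of helper936, written by helper643)
-/

set_option autoImplicit false

open Complex

namespace Pool.Agent.TH936.AC

open Pool.Agent.W192.HK

namespace Rough

/-- facts on the exponent `j` -/
theorem fac {Q y z : ℝ} (hQ : 100 ≤ Real.log Q) (hQ0 : 0 < Q) (hz : z = (Real.log Q) ^ 200)
    (hzy : z ≤ y) (hy : y ≤ 2 * Q ^ (1 / 100 : ℝ)) :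
    0 < z ∧ 0 < y ∧ 1 ≤ Real.log (Real.log Q) ∧ Real.log z = 200 * Real.log (Real.log Q) ∧
      200 ≤ Real.log y ∧ Real.log z ≤ Real.log y ∧
      (⌊Real.log Q / Real.log y⌋₊ : ℝ) * Real.log y ≤ Real.log Q ∧
      49 / 50 * Real.log Q ≤ (⌊Real.log Q / Real.log y⌋₊ : ℝ) * Real.log y ∧
      1 ≤ ⌊Real.log Q / Real.log y⌋₊ ∧
      2 * (⌊Real.log Q / Real.log y⌋₊ : ℝ) ≤ Real.log Q ∧ y ^ ⌊Real.log Q / Real.log y⌋₊ ≤ Q := by
  have hl0 : 0 < Real.log Q := by linarith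
  have hz0 : 0 < z := by rw [hz]; positivity
  have hy0 : 0 < y := hz0.trans_le hzy
  have h1 : 1 ≤ Real.log (Real.log Q) := by
    rw [Real.le_log_iff_exp_le hl0]
    have := Real.exp_one_lt_d9
    linarith
  have h2 : Real.log z = 200 * Real.log (Real.log Q) := by
    rw [hz, Real.log_pow]; norm_num
  have h3 : Real.log z ≤ Real.log y := Real.log_le_log hz0 hzy
  have h4 : 200 ≤ Real.log y := by linarith
  have hL : 0 < Real.log y := by linarith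
  have h5 : Real.log y ≤ Real.log Q / 50 := by
    have e1 : Real.log y ≤ Real.log (2 * Q ^ (1 / 100 : ℝ)) := Real.log_le_log hy0 hy
    rw [Real.log_mul (by norm_num) (Real.rpow_pos_of_pos hQ0 _).ne', Real.log_rpow hQ0] at e1
    have := Real.log_two_lt_d9
    linarith
  have h6 : (⌊Real.log Q / Real.log y⌋₊ : ℝ) ≤ Real.log Q / Real.log y :=
    Nat.floor_le (div_nonneg hl0.le hL.le)
  have h7 : Real.log Q / Real.log y < (⌊Real.log Q / Real.log y⌋₊ : ℝ) + 1 := Nat.lt_floor_add_one _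
  have h8 : (⌊Real.log Q / Real.log y⌋₊ : ℝ) * Real.log y ≤ Real.log Q := by
    rwa [le_div_iff₀ hL] at h6
  have h9 : 49 / 50 * Real.log Q ≤ (⌊Real.log Q / Real.log y⌋₊ : ℝ) * Real.log y := by
    rw [div_lt_iff₀ hL] at h7
    nlinarith
  have h10 : 1 ≤ ⌊Real.log Q / Real.log y⌋₊ := by
    rw [Nat.one_le_iff_ne_zero]
    intro h
    rw [h, Nat.cast_zero, zero_mul] at h9
    linarith
  have hj0 : (0 : ℝ) ≤ (⌊Real.log Q / Real.log y⌋₊ : ℝ) := Nat.cast_nonneg _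
  refine ⟨hz0, hy0, h1, h2, h4, h3, h8, h9, h10, ?_, ?_⟩
  · nlinarith
  · rw [← Real.log_le_log_iff (pow_pos hy0 _) hQ0, Real.log_pow]
    exact h8

/-- the bound of the number of rough ideals -/
theorem key {C Q D k a y z : ℝ} {j : ℕ} (hC : 0 < C) (hQ : 100 ≤ Real.log Q) (hQ0 : 0 < Q)
    (hk : 0 < k) (hk1 : k ≤ Q ^ (1 / 100 : ℝ)) (hD : Q ^ (2 / 3 : ℝ) ≤ D)
    (hz : z = (Real.log Q) ^ 200) (hzy : z ≤ y) (hy : y ≤ 2 * Q ^ (1 / 100 : ℝ))
    (hj : j = ⌊Real.log Q / Real.log y⌋₊) (ha : 0 ≤ a)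
    (h : a ^ j ≤ C * (2 * (j : ℝ)) ^ ((j : ℝ) * Real.log y / Real.log z) * (Q * k / D)) :
    a ≤ max C 1 * y ^ (37 / 100 : ℝ) := by
  obtain ⟨hz0, hy0, h1, h2, h4, h3, h8, h9, h10, h11, h12⟩ := fac hQ hQ0 hz hzy hy
  rw [← hj] at h8 h9 h10 h11 h12
  have hl0 : 0 < Real.log Q := by linarith
  have hL : 0 < Real.log y := by linarith
  have hM : 0 < max C 1 := lt_max_of_lt_right one_pos
  have hj1 : (1 : ℝ) ≤ (j : ℝ) := by exact_mod_cast h10
  have hj0 : (0 : ℝ) < (j : ℝ) := by linarith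
  have hlz : 0 < Real.log z := by linarith
  have hD0 : 0 < D := (Real.rpow_pos_of_pos hQ0 _).trans_le hD
  rcases ha.eq_or_lt with ha | ha
  · rw [← ha]
    positivity
  rw [← Real.log_le_log_iff ha (mul_pos hM (Real.rpow_pos_of_pos hy0 _)),
    Real.log_mul hM.ne' (Real.rpow_pos_of_pos hy0 _).ne', Real.log_rpow hy0]
  have hX : 0 < (2 * (j : ℝ)) ^ ((j : ℝ) * Real.log y / Real.log z) :=
    Real.rpow_pos_of_pos (by linarith) _
  have hY : 0 < Q * k / D := by positivity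
  have e1 := Real.log_le_log (pow_pos ha j) h
  rw [Real.log_pow, Real.log_mul (mul_pos hC hX).ne' hY.ne', Real.log_mul hC.ne' hX.ne',
    Real.log_rpow (by linarith), Real.log_div (mul_pos hQ0 hk).ne' hD0.ne',
    Real.log_mul hQ0.ne' hk.ne'] at e1
  have e2 : Real.log k ≤ 1 / 100 * Real.log Q := by
    rw [← Real.log_rpow hQ0]
    exact Real.log_le_log hk hk1
  have e3 : 2 / 3 * Real.log Q ≤ Real.log D := by
    rw [← Real.log_rpow hQ0]
    exact Real.log_le_log (Real.rpow_pos_of_pos hQ0 _) hD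
  have e4 : Real.log C ≤ (j : ℝ) * Real.log (max C 1) := by
    have g1 : Real.log C ≤ Real.log (max C 1) := Real.log_le_log hC (le_max_left _ _)
    have g2 : 0 ≤ Real.log (max C 1) := Real.log_nonneg (le_max_right _ _)
    nlinarith
  have e5 : (j : ℝ) * Real.log y / Real.log z * Real.log (2 * (j : ℝ)) ≤
      (j : ℝ) * Real.log y / 200 := by
    have g1 : Real.log (2 * (j : ℝ)) ≤ Real.log (Real.log Q) :=
      Real.log_le_log (by linarith) h11
    have g2 : 0 ≤ (j : ℝ) * Real.log y / Real.log z := by positivity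
    refine (mul_le_mul_of_nonneg_left g1 g2).trans (le_of_eq ?_)
    rw [h2]
    have : Real.log (Real.log Q) ≠ 0 := by linarith
    field_simp
  have e6 : (j : ℝ) * Real.log a ≤
      (j : ℝ) * (Real.log (max C 1) + 37 / 100 * Real.log y) := by
    nlinarith
  exact le_of_mul_le_mul_left e6 hj0

/-- one block -/
theorem blk {x z : ℝ} {i : ℕ} (hz : 0 < z) (hx : x = 2 ^ i * z) :
    (2 * x) ^ (37 / 100 : ℝ) * x ^ (-1 / 2 : ℝ) ≤
      2 * (((2 : ℝ) ^ (-13 / 100 : ℝ)) ^ i * z ^ (-13 / 100 : ℝ)) := by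
  have hx0 : 0 < x := by rw [hx]; positivity
  have e1 : (2 : ℝ) ^ (37 / 100 : ℝ) ≤ 2 := by
    calc (2 : ℝ) ^ (37 / 100 : ℝ) ≤ 2 ^ (1 : ℝ) :=
          Real.rpow_le_rpow_of_exponent_le (by norm_num) (by norm_num)
      _ = 2 := Real.rpow_one 2
  have e2 : x ^ (37 / 100 : ℝ) * x ^ (-1 / 2 : ℝ) = x ^ (-13 / 100 : ℝ) := by
    rw [← Real.rpow_add hx0]
    norm_num
  have e3 : x ^ (-13 / 100 : ℝ) = ((2 : ℝ) ^ (-13 / 100 : ℝ)) ^ i * z ^ (-13 / 100 : ℝ) := by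
    rw [hx, Real.mul_rpow (by positivity) hz.le]
    congr 1
    rw [← Real.rpow_natCast, ← Real.rpow_mul (by norm_num), mul_comm, Real.rpow_mul (by norm_num),
      Real.rpow_natCast]
  rw [Real.mul_rpow (by norm_num) hx0.le, mul_assoc, e2, ← e3]
  exact mul_le_mul_of_nonneg_right e1 (Real.rpow_pos_of_pos hx0 _).le

/-- the number `z ^ (-13/100)` -/
theorem zpw {l : ℝ} (hl : 1 ≤ l) : (l ^ 200) ^ (-13 / 100 : ℝ) ≤ l ^ (-10 : ℝ) := by
  have hl0 : 0 < l := by linarith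
  rw [← Real.rpow_natCast, ← Real.rpow_mul hl0.le]
  apply Real.rpow_le_rpow_of_exponent_le hl
  norm_num

/-- a prime divisor -/
theorem nm_gt {R : Subring ℂ} (hded : IsDedekindDomain R)
    (hdvd : ∀ I J : Ideal R, I ≠ ⊥ → J ∣ I → nm J ≤ nm I) {z : ℝ} {c : Ideal R} (h1 : c ≠ ⊥)
    (h2 : Rgh z c) (h3 : c ≠ ⊤) : z < nm c := by
  obtain ⟨P, hP, hcP⟩ := Ideal.exists_le_maximal c h3
  have hP0 : P ≠ ⊥ := by
    intro h
    rw [h] at hcP
    exact h1 (le_bot_iff.1 hcP)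
  have hPc : P ∣ c := Ideal.dvd_iff_le.2 hcP
  exact (h2 P hP.isPrime hP0 hPc).trans_le (hdvd c P h1 hPc)

end Rough

open Classical in
/-- ROUGH -/
theorem a_rough (h1 : H_BASIC) (h2 : H_CNT) (h3 : A_RCOUNT) : A_ROUGH := by
  intro R ω hR
  obtain ⟨C, hC, hcnt⟩ := h3 R ω hR
  obtain ⟨hfin, -⟩ := h2 R ω hR.qr
  obtain ⟨-, -, -, -, -, hdvd, -⟩ := h1 R ω hR.qr
  have hded := hR.qr.ded
  set r : ℝ := (2 : ℝ) ^ (-13 / 100 : ℝ) with hr
  have hr0 : 0 < r := Real.rpow_pos_of_pos (by norm_num) _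
  have hr1 : r < 1 := Real.rpow_lt_one_of_one_lt_of_neg (by norm_num) (by norm_num)
  have hM : 0 < max C 1 := lt_max_of_lt_right one_pos
  have h1r : 0 < 1 - r := by linarith
  refine ⟨2 * max C 1 / (1 - r), Real.exp 100, by positivity, ?_⟩
  intro q χ hχ hq d hd hqd k hkd hkq
  have hQ0 : (0 : ℝ) < q := (Real.exp_pos _).trans_le hq
  have hQ : 100 ≤ Real.log q := (Real.le_log_iff_exp_le hQ0).2 hq
  have hk0 : (0 : ℝ) < k := by exact_mod_cast Nat.pos_of_dvd_of_pos hkd hd.pos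
  have hl1 : 1 ≤ Real.log q := by linarith
  set z : ℝ := (Real.log q) ^ 200 with hz
  set Y : ℝ := (q : ℝ) ^ (1 / 100 : ℝ) with hY
  have hz0 : 0 < z := by rw [hz]; positivity
  have hz2 : 2 ≤ z := by
    have : (100 : ℝ) ^ 1 ≤ (Real.log q) ^ 200 := by
      calc (100 : ℝ) ^ 1 ≤ (Real.log q) ^ 1 := by linarith
        _ ≤ (Real.log q) ^ 200 := pow_le_pow_right₀ hl1 (by norm_num)
    rw [hz]
    linarith
  have hSf : {c : Ideal R | Pri c ∧ Rgh z c ∧ c ≠ ⊤ ∧ nm c ≤ Y ∧ χ c ≠ 0 ∧ χ c ^ k = 1}.Finite :=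
    (hfin Y).subset fun c hc => hc.2.2.2.1
  set S : Finset (Ideal R) := hSf.toFinset with hS
  have hmS : ∀ c : Ideal R, c ∈ S ↔
      (Pri c ∧ Rgh z c ∧ c ≠ ⊤ ∧ nm c ≤ Y ∧ χ c ≠ 0 ∧ χ c ^ k = 1) := by
    intro c
    rw [hS, Set.Finite.mem_toFinset]
    exact Iff.rfl
  have hsum : rghS χ z k Y = ∑ c ∈ S, (nm c) ^ (-1 / 2 : ℝ) := by
    unfold rghS
    rw [tsum_eq_sum (s := S)]
    · refine Finset.sum_congr rfl fun c hc => ?_
      rw [if_pos ((hmS c).1 hc)]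
    · intro c hc
      rw [if_neg fun h => hc ((hmS c).2 h)]
  have hnz : ∀ c ∈ S, z < nm c := by
    intro c hc
    obtain ⟨g1, g2, g3, -⟩ := (hmS c).1 hc
    exact Rough.nm_gt hded hdvd g1.1 g2 g3
  have hex : ∀ c : Ideal R, ∃ i : ℕ, c ∈ S → 2 ^ i * z ≤ nm c ∧ nm c < 2 ^ (i + 1) * z := by
    intro c
    by_cases hc : c ∈ S
    · have g1 : 1 ≤ nm c / z := (one_le_div hz0).2 (hnz c hc).le
      obtain ⟨i, hi1, hi2⟩ := exists_nat_pow_near g1 (one_lt_two)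
      exact ⟨i, fun _ => ⟨(le_div_iff₀ hz0).1 hi1, (div_lt_iff₀ hz0).1 hi2⟩⟩
    · exact ⟨0, fun h => absurd h hc⟩
  choose ix hix using hex
  set I : ℕ := S.sup ix + 1 with hI
  have hterm : ∀ c ∈ S, (nm c) ^ (-1 / 2 : ℝ) ≤ ∑ i ∈ Finset.range I,
      if nm c ≤ 2 * (2 ^ i * z) ∧ 2 ^ i * z ≤ Y then (2 ^ i * z : ℝ) ^ (-1 / 2 : ℝ) else 0 := by
    intro c hc
    obtain ⟨g1, g2⟩ := hix c hc
    have g3 : nm c ≤ Y := ((hmS c).1 hc).2.2.2.1
    have g4 : ix c ∈ Finset.range I := by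
      rw [Finset.mem_range, hI]
      exact Nat.lt_succ_of_le (Finset.le_sup hc)
    refine le_trans ?_ (Finset.single_le_sum (f := fun i : ℕ =>
      if nm c ≤ 2 * (2 ^ i * z) ∧ 2 ^ i * z ≤ Y then (2 ^ i * z : ℝ) ^ (-1 / 2 : ℝ) else 0)
      (fun i _ => ?_) g4)
    · have g5 : nm c ≤ 2 * (2 ^ ix c * z) := by
        rw [pow_succ] at g2
        linarith
      rw [if_pos ⟨g5, g1.trans g3⟩]
      exact Real.rpow_le_rpow_of_nonpos (by positivity) g1 (by norm_num)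
    · split_ifs
      · positivity
      · exact le_rfl
  have hblk : ∀ i : ℕ, ∑ c ∈ S,
      (if nm c ≤ 2 * (2 ^ i * z) ∧ 2 ^ i * z ≤ Y then (2 ^ i * z : ℝ) ^ (-1 / 2 : ℝ) else 0) ≤
      2 * max C 1 * (Real.log q) ^ (-10 : ℝ) * r ^ i := by
    intro i
    have hR0 : 0 ≤ 2 * max C 1 * (Real.log q) ^ (-10 : ℝ) * r ^ i := by positivity
    by_cases hiY : 2 ^ i * z ≤ Y
    · set x : ℝ := 2 ^ i * z with hx
      have hx0 : 0 < x := by positivity
      have hzx : z ≤ 2 * x := by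
        have : (1 : ℝ) ≤ 2 ^ i := one_le_pow₀ (by norm_num)
        nlinarith
      have hcard : ∑ c ∈ S, (if nm c ≤ 2 * x ∧ x ≤ Y then x ^ (-1 / 2 : ℝ) else 0) ≤
          (cntR χ z k (2 * x) : ℝ) * x ^ (-1 / 2 : ℝ) := by
        rw [← Finset.sum_filter, Finset.sum_const, nsmul_eq_mul]
        refine mul_le_mul_of_nonneg_right ?_ (Real.rpow_pos_of_pos hx0 _).le
        rw [Nat.cast_le]
        unfold cntR
        rw [← Set.ncard_coe_finset]
        refine Set.ncard_le_ncard ?_ ((hfin (2 * x)).subset fun c hc => hc.2.2.1)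
        intro c hc
        rw [Finset.coe_filter] at hc
        obtain ⟨g1, g2, g3, g4, g5, g6⟩ := (hmS c).1 hc.1
        exact ⟨g1, g2, hc.2.1, g5, g6⟩
      obtain ⟨f1, f2, f3, f4, f5, f6, f7, f8, f9, f10, f11⟩ :=
        Rough.fac (Q := (q : ℝ)) (y := 2 * x) (z := z) hQ hQ0 rfl hzx (by linarith)
      have hkey := Rough.key (C := C) (Q := (q : ℝ)) (D := (d : ℝ)) (k := (k : ℝ))
        (a := (cntR χ z k (2 * x) : ℝ)) (y := 2 * x) (z := z) hC hQ hQ0 hk0 hkq hqd rfl hzx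
        (by linarith) rfl (Nat.cast_nonneg _)
        (hcnt q χ hχ d hd k hkd z (2 * x) _ hz2 hzx f9 f11)
      refine hcard.trans ?_
      calc (cntR χ z k (2 * x) : ℝ) * x ^ (-1 / 2 : ℝ) ≤
            max C 1 * (2 * x) ^ (37 / 100 : ℝ) * x ^ (-1 / 2 : ℝ) :=
            mul_le_mul_of_nonneg_right hkey (Real.rpow_pos_of_pos hx0 _).le
        _ = max C 1 * ((2 * x) ^ (37 / 100 : ℝ) * x ^ (-1 / 2 : ℝ)) := by ring
        _ ≤ max C 1 * (2 * (r ^ i * z ^ (-13 / 100 : ℝ))) :=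
            mul_le_mul_of_nonneg_left (Rough.blk hz0 hx) hM.le
        _ ≤ max C 1 * (2 * (r ^ i * (Real.log q) ^ (-10 : ℝ))) := by
            refine mul_le_mul_of_nonneg_left ?_ hM.le
            refine mul_le_mul_of_nonneg_left ?_ (by norm_num)
            exact mul_le_mul_of_nonneg_left (Rough.zpw hl1) (by positivity)
        _ = _ := by ring
    · refine le_trans (le_of_eq ?_) hR0
      apply Finset.sum_eq_zero
      intro c _
      rw [if_neg fun h => hiY h.2]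
  rw [hsum]
  calc ∑ c ∈ S, (nm c) ^ (-1 / 2 : ℝ) ≤ ∑ c ∈ S, ∑ i ∈ Finset.range I,
        (if nm c ≤ 2 * (2 ^ i * z) ∧ 2 ^ i * z ≤ Y then (2 ^ i * z : ℝ) ^ (-1 / 2 : ℝ) else 0) :=
        Finset.sum_le_sum hterm
    _ = ∑ i ∈ Finset.range I, ∑ c ∈ S,
        (if nm c ≤ 2 * (2 ^ i * z) ∧ 2 ^ i * z ≤ Y then (2 ^ i * z : ℝ) ^ (-1 / 2 : ℝ) else 0) :=
        Finset.sum_comm
    _ ≤ ∑ i ∈ Finset.range I, 2 * max C 1 * (Real.log q) ^ (-10 : ℝ) * r ^ i :=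
        Finset.sum_le_sum fun i _ => hblk i
    _ = 2 * max C 1 * (Real.log q) ^ (-10 : ℝ) * ∑ i ∈ Finset.range I, r ^ i := by
        rw [Finset.mul_sum]
    _ ≤ 2 * max C 1 * (Real.log q) ^ (-10 : ℝ) * (1 - r)⁻¹ := by
        refine mul_le_mul_of_nonneg_left ?_ (by positivity)
        rw [← tsum_geometric_of_lt_one hr0.le hr1]
        exact (summable_geometric_of_lt_one hr0.le hr1).sum_le_tsum _ fun i _ => by positivity
    _ = 2 * max C 1 / (1 - r) * (Real.log q) ^ (-10 : ℝ) := by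
        rw [div_eq_mul_inv]; ring

end Pool.Agent.TH936.AC
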