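import Pool.Agent.TH936.AC.Stmts
import Pool.Agent.W768.HK.Finn0
import Pool.Agent.W648.HK.Mainp0

/-!
# Project AC: assembly, first part
-/

set_option autoImplicit false

open Complex

namespace Pool.Agent.TH936.AC

open Pool.Agent.W192.HK

variable {R : Subring ℂ} {ω : ℂ}

/-- primitive ideals prime to `f` without the small split primes are rough -/
theorem rgh_of (h1 : H_BASIC) (h2 : A_BAR) (hR : QP R ω) {f : Ideal R} {y : ℝ} {c : Ideal R}
    (hc : Pri c) (hcf : IsCoprime c f) (hcf' : IsCoprime (bar c) f)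
    (h : ∀ p ∈ SP f y, ¬ PP f p ∣ c ∧ ¬ bar (PP f p) ∣ c) : Rgh y c := by
  classical
  have hded := hR.qr.ded
  obtain ⟨b1, b2, b3, b4, b5, b6, b7, b8, b9⟩ := h1 R ω hR.qr
  obtain ⟨-, -, k3, k4, -, -, k7, k8, k9, -, -, k12, k13, -⟩ := h2 R ω hR
  intro P hP hP0 hPc
  by_contra hle
  push Not at hle
  have hPmax : P.IsMaximal := hP.isMaximal hP0
  have hbP : (bar P).IsPrime := k12 P hP
  have hbP0 : bar P ≠ ⊥ := by
    intro h0
    have h3 := k8 P
    rw [h0, b2] at h3
    have h4 := b3 P hP0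
    linarith
  have hbPmax : (bar P).IsMaximal := hbP.isMaximal hbP0
  have hbc : bar P ∣ bar c := (k13 P c).2 hPc
  have hne : P ≠ bar P := by
    intro he
    have h3 : P ∣ bar c := by rw [he]; exact hbc
    have h4 : IsCoprime P P :=
      (hc.2.of_isCoprime_of_dvd_left hPc).of_isCoprime_of_dvd_right h3
    rw [Ideal.isCoprime_iff_sup_eq, sup_idem] at h4
    exact hP.ne_top h4
  have hfin : Finite (R ⧸ P) := b1 P hP0
  have hn0' : 0 < Nat.card (R ⧸ P) := Nat.card_pos
  have hmul0 := k9 P hP0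
  have hnP0 : nm P = (Nat.card (R ⧸ P) : ℝ) := rfl
  generalize Nat.card (R ⧸ P) = n at hn0' hmul0 hnP0
  have hn0 : 0 < n := hn0'
  have hmul : P * bar P = sp (n : R) := hmul0
  have hnP : nm P = n := hnP0
  have hnmem : (n : R) ∈ P := by
    have h3 : (n : R) ∈ sp (n : R) := Ideal.mem_span_singleton_self _
    rw [← hmul] at h3
    have h4 : P * bar P ≤ P := Ideal.mul_le_left
    exact h4 h3
  -- a prime number in `P`
  obtain ⟨p, hp, hpn, hpP⟩ : ∃ p : ℕ, p.Prime ∧ p ∣ n ∧ (p : R) ∈ P := by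
    have key : ∀ k : ℕ, 0 < k → k ∣ n → (k : R) ∈ P → ∃ p : ℕ, p.Prime ∧ p ∣ n ∧ (p : R) ∈ P := by
      intro k
      induction k using Nat.strong_induction_on with
      | _ k ih =>
        intro hk hkn hkP
        by_cases hk1 : k = 1
        · exfalso
          rw [hk1, Nat.cast_one] at hkP
          exact hP.ne_top ((Ideal.eq_top_iff_one P).2 hkP)
        · obtain ⟨p, hp, hpk⟩ := Nat.exists_prime_and_dvd hk1
          obtain ⟨l, hl⟩ := hpk
          have hl0 : 0 < l := Nat.pos_of_ne_zero (by rintro rfl; omega)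
          have h3 : ((p : R)) * (l : R) ∈ P := by
            rw [← Nat.cast_mul, ← hl]; exact hkP
          rcases hP.mem_or_mem h3 with h4 | h4
          · exact ⟨p, hp, (Dvd.intro l hl.symm).trans hkn, h4⟩
          · refine ih l ?_ hl0 ((Dvd.intro_left p hl.symm).trans hkn) h4
            rw [hl]
            exact lt_mul_of_one_lt_left hl0 hp.one_lt
    exact key n hn0 dvd_rfl hnmem
  have hPp : P ∣ sp (p : R) := Ideal.dvd_iff_le.2 ((Ideal.span_singleton_le_iff_mem _).2 hpP)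
  have hbPp : bar P ∣ sp (p : R) := by
    have := (k13 P (sp (p : R))).2 hPp
    rwa [k7] at this
  have hcop : IsCoprime P (bar P) := Ideal.isCoprime_of_isMaximal hne
  have hdv : sp (n : R) ∣ sp (p : R) := by
    rw [← hmul]
    exact hcop.mul_dvd hPp hbPp
  have hspp : sp (p : R) ≠ ⊥ := by
    intro h0
    rw [Ideal.span_singleton_eq_bot] at h0
    exact hp.ne_zero (by exact_mod_cast (congrArg Subtype.val h0))
  have hnp : n = p := by
    have h3 := b6 _ _ hspp hdv
    rw [b5, b5] at h3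
    push_cast at h3
    rw [Complex.normSq_natCast, Complex.normSq_natCast] at h3
    have h4 : (n : ℝ) ≤ p := by
      have hn' : (0 : ℝ) ≤ n := Nat.cast_nonneg _
      have hp' : (0 : ℝ) ≤ p := Nat.cast_nonneg _
      nlinarith
    exact le_antisymm (by exact_mod_cast h4) (Nat.le_of_dvd hn0 hpn)
  have hPf : IsCoprime P f := hcf.of_isCoprime_of_dvd_left hPc
  have hbPf : IsCoprime (bar P) f := hcf'.of_isCoprime_of_dvd_left hbc
  have hmul' : P * bar P = sp (p : R) := by rw [hmul, hnp]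
  have hIs : IsPP f p P := ⟨hP, hmul', hne, by rw [← hmul']; exact hPf.mul_left hbPf⟩
  have hex : ∃ P : Ideal R, IsPP f p P := ⟨P, hIs⟩
  have hpS : p ∈ SP f y := by
    unfold SP
    rw [Finset.mem_filter, Finset.mem_range]
    refine ⟨?_, hp, hex⟩
    have h3 : (p : ℝ) ≤ y := by rw [← hnp, ← hnP]; exact hle
    exact Nat.lt_succ_of_le (Nat.le_floor h3)
  obtain ⟨g1, g2⟩ := h p hpS
  have hPP : PP f p = Classical.choose hex := by
    unfold PP
    rw [dif_pos hex]
  have hspec := Classical.choose_spec hex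
  rw [← hPP] at hspec
  obtain ⟨s1, s2, s3, -⟩ := hspec
  have s0 : PP f p ≠ ⊥ := by
    intro h0
    rw [h0, Ideal.bot_mul] at s2
    exact hspp s2.symm
  have hle2 : PP f p * bar (PP f p) ≤ P := by
    rw [s2, ← hmul']
    exact Ideal.mul_le_left
  rcases hP.mul_le.1 hle2 with h3 | h3
  · have h4 := (s1.isMaximal s0).eq_of_le hP.ne_top h3
    exact g1 (by rw [h4]; exact hPc)
  · have s5 : bar (PP f p) ≠ ⊥ := by
      intro h0
      rw [h0, Ideal.mul_bot] at s2
      exact hspp s2.symm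
    have h4 := ((k12 _ s1).isMaximal s5).eq_of_le hP.ne_top h3
    exact g2 (by rw [h4]; exact hPc)

/-- powers of ring class characters -/
theorem rg_pw {q : ℕ} {χ : Ideal R → ℂ} (h : RG q χ) (a : ℕ) : RG q (pw χ a) := by
  have h0 : ∀ I : Ideal R, pw χ a I = 0 ↔ χ I = 0 := by
    intro I
    unfold pw
    split_ifs with h1
    · simp [h1]
    · simp [h1]
  have h2 : ∀ I : Ideal R, χ I = 1 → pw χ a I = 1 := by
    intro I hI
    unfold pw
    rw [if_neg (by rw [hI]; exact one_ne_zero), hI, one_pow]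
  refine ⟨h.prime, ⟨h.rc.ne, fun I J => ?_, fun I => ?_, fun α hα hα1 => h2 _ (h.rc.princ α hα hα1)⟩,
    fun m hm => h2 _ (h.int m hm)⟩
  · exact Pool.Agent.W648.HK.Mainp0.pw_mul h.rc a I J
  · rw [h0]
    exact h.rc.zero I

/-- the average of the mollified sums over the conjugates -/
theorem regroup (h9 : A_REG) (hR : QP R ω) {f : Ideal R} {ψ : Ideal R → ℂ} (hψ : HC 1 f ψ)
    (hram : Ram f) {q : ℕ} {χ : Ideal R → ℂ} (hχ : RG q χ) {d : ℕ} (hd : Od χ d) (M : ℕ)
    {y Z X : ℝ} (hZ : 1 ≤ Z) (hX : 1 ≤ X) (H : Ideal R → ℂ)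
    (hH : ∀ c, (Pri c → H c = (∑ a ∈ Ea d M, pw χ a c) * (ψ c / (nm c : ℂ) * Ph f y Z X q ψ c)) ∧
      (¬ Pri c → H c = 0)) :
    Summable H ∧ ∑ a ∈ Ea d M, Ml f y Z ψ (pw χ a) * Sm X ψ (pw χ a) = ∑' c : Ideal R, H c := by
  classical
  have hle : ∀ (a : ℕ) (c : Ideal R), ‖pw χ a c‖ ≤ 1 :=
    fun a c => Pool.Agent.W768.HK.Finn0.pw_le χ (fun I hI =>
      Complex.norm_eq_one_of_pow_eq_one (hd.pow I hI) hd.pos.ne') a c
  have hs : ∀ a : ℕ, Summable (fun c : Ideal R => if Pri c then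
      pw χ a c * (ψ c / (nm c : ℂ) * Ph f y Z X q ψ c) else 0) := by
    intro a
    obtain ⟨s1, -⟩ := h9 R ω hR f ψ hψ hram q _ (rg_pw hχ a) y Z X hZ hX
    refine Summable.of_norm_bounded s1 fun c => ?_
    split_ifs
    · rw [norm_mul]
      exact mul_le_of_le_one_left (norm_nonneg _) (hle a c)
    · rw [norm_zero]
  have hHe : H = fun c => ∑ a ∈ Ea d M, (if Pri c then
      pw χ a c * (ψ c / (nm c : ℂ) * Ph f y Z X q ψ c) else 0) := by
    funext c
    by_cases hc : Pri c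
    · simp only [if_pos hc]
      rw [(hH c).1 hc, Finset.sum_mul]
    · simp only [if_neg hc, Finset.sum_const_zero]
      exact (hH c).2 hc
  rw [hHe]
  refine ⟨summable_sum fun a _ => hs a, ?_⟩
  rw [Summable.tsum_finsetSum (fun a _ => hs a)]
  exact Finset.sum_congr rfl fun a _ => (h9 R ω hR f ψ hψ hram q _ (rg_pw hχ a) y Z X hZ hX).2

end Pool.Agent.TH936.AC
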