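import Pool.Agent.TH936.AC.Asm1

/-!
# Project AC: assembly, second part (numerical facts)
-/

set_option autoImplicit false

open Filter Topology

namespace Pool.Agent.TH936.AC

open Pool.Agent.W192.HK

theorem log_pow_le {x : ℝ} (hx : 1 ≤ x) : (Real.log x) ^ 5 ≤ 3125 * x := by
  have hx0 : 0 ≤ x := by linarith
  have h1 : Real.log x ≤ x ^ (1 / 5 : ℝ) / (1 / 5) := Real.log_le_rpow_div hx0 (by norm_num)
  have h2 : 0 ≤ Real.log x := Real.log_nonneg hx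
  have h3 : (Real.log x) ^ 5 ≤ (x ^ (1 / 5 : ℝ) / (1 / 5)) ^ 5 := pow_le_pow_left₀ h2 h1 5
  refine h3.trans ?_
  have h4 : (x ^ (1 / 5 : ℝ)) ^ 5 = x := by
    rw [← Real.rpow_natCast, ← Real.rpow_mul hx0]
    norm_num
  have h5 : (x ^ (1 / 5 : ℝ) / (1 / 5)) ^ 5 = 3125 * (x ^ (1 / 5 : ℝ)) ^ 5 := by ring
  rw [h5, h4]

theorem fin_num (c A B a : ℝ) (hc : 0 < c) (ha : 0 < a) : ∃ x0 : ℝ, ∀ x : ℝ, x0 ≤ x →
    A * x ^ (-4 : ℝ) + B * x ^ 5 * Real.exp (-(a * x)) < c / (Real.log x) ^ 5 := by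
  have t1 : Tendsto (fun x : ℝ => 3125 * |A| * x ^ (-3 : ℝ)) atTop (𝓝 (3125 * |A| * 0)) :=
    (tendsto_rpow_neg_atTop (by norm_num : (0 : ℝ) < 3)).const_mul _
  have t2 : Tendsto (fun x : ℝ => 3125 * |B| * (a⁻¹ ^ 6 * ((a * x) ^ 6 * Real.exp (-(a * x)))))
      atTop (𝓝 (3125 * |B| * (a⁻¹ ^ 6 * 0))) := by
    refine (Tendsto.const_mul _ ?_).const_mul _
    have h1 := Real.tendsto_pow_mul_exp_neg_atTop_nhds_zero 6
    exact h1.comp (tendsto_id.const_mul_atTop ha)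
  have t3 := t1.add t2
  rw [mul_zero, mul_zero, mul_zero, add_zero] at t3
  obtain ⟨x1, hx1⟩ := eventually_atTop.1 (t3.eventually_lt_const hc)
  refine ⟨max x1 3, fun x hx => ?_⟩
  have hx3 : 3 ≤ x := (le_max_right _ _).trans hx
  have hx0 : 0 < x := by linarith
  have h1 := hx1 x ((le_max_left _ _).trans hx)
  have hlog : 0 < Real.log x := Real.log_pos (by linarith)
  have hl5 : 0 < (Real.log x) ^ 5 := by positivity
  rw [lt_div_iff₀ hl5]
  have h2 := log_pow_le (by linarith : 1 ≤ x)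
  have h3 : A * x ^ (-4 : ℝ) + B * x ^ 5 * Real.exp (-(a * x)) ≤
      |A| * x ^ (-4 : ℝ) + |B| * x ^ 5 * Real.exp (-(a * x)) := by
    gcongr
    · exact le_abs_self A
    · exact le_abs_self B
  have h4 : 0 ≤ |A| * x ^ (-4 : ℝ) + |B| * x ^ 5 * Real.exp (-(a * x)) := by positivity
  have h5 : x ^ (-4 : ℝ) * x = x ^ (-3 : ℝ) := by
    rw [← Real.rpow_add_one hx0.ne']
    norm_num
  have h6 : a⁻¹ ^ 6 * ((a * x) ^ 6 * Real.exp (-(a * x))) = x ^ 6 * Real.exp (-(a * x)) := by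
    rw [mul_pow, inv_pow]
    field_simp
  calc (A * x ^ (-4 : ℝ) + B * x ^ 5 * Real.exp (-(a * x))) * (Real.log x) ^ 5
      ≤ (|A| * x ^ (-4 : ℝ) + |B| * x ^ 5 * Real.exp (-(a * x))) * (Real.log x) ^ 5 :=
        mul_le_mul_of_nonneg_right h3 hl5.le
    _ ≤ (|A| * x ^ (-4 : ℝ) + |B| * x ^ 5 * Real.exp (-(a * x))) * (3125 * x) :=
        mul_le_mul_of_nonneg_left h2 h4
    _ = 3125 * |A| * (x ^ (-4 : ℝ) * x) + 3125 * |B| * (x ^ 6 * Real.exp (-(a * x))) := by ring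
    _ < c := by rw [h5, ← h6]; exact h1

/-- lower bound for the number of conjugates -/
theorem card_lower (h7 : A_MERT) (hmob : H_MOB) : ∃ C : ℝ, 0 < C ∧ ∀ d M : ℕ, 3 ≤ d → 1 ≤ M →
    M ∣ d → (d : ℝ) ≤ ((Ea d M).card : ℝ) * (M * C * (Real.log d) ^ 5) := by
  obtain ⟨C, hC, h⟩ := h7
  refine ⟨C, hC, fun d M hd hM hMd => ?_⟩
  obtain ⟨t, ht, -⟩ := hmob d M (by omega) (by omega) hMd
  have hd3 : (3 : ℝ) ≤ d := by exact_mod_cast hd
  have hlog : 0 < Real.log d := Real.log_pos (by linarith)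
  have h1 := h d.primeFactors d hd3 (fun p hp => by
    have hp' := Nat.mem_primeFactors.1 hp
    exact ⟨hp'.1, by exact_mod_cast Nat.le_of_dvd (by omega) hp'.2.1⟩)
  have h2 : (Nat.totient d : ℝ) = d * ∏ p ∈ d.primeFactors, (1 - 1 / (p : ℝ)) := by
    have h3 := Nat.totient_eq_mul_prod_factors d
    have h4 : ((Nat.totient d : ℚ) : ℝ) = ((d * ∏ p ∈ d.primeFactors, (1 - (p : ℚ)⁻¹) : ℚ) : ℝ) := by
      rw [h3]
    push_cast at h4
    simp only [one_div]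
    exact h4
  have h5 : (Nat.totient d : ℝ) ≤ ((Ea d M).card : ℝ) * M := by
    have h6 : (Nat.totient d : ℝ) = ((Ea d M).card : ℝ) * Nat.totient M := by exact_mod_cast ht.symm
    rw [h6]
    gcongr
    exact Nat.totient_le M
  have h8 : (d : ℝ) * (1 / (C * (Real.log d) ^ 5)) ≤ Nat.totient d := by
    rw [h2]
    exact mul_le_mul_of_nonneg_left h1 (by positivity)
  rw [mul_one_div, div_le_iff₀ (by positivity)] at h8
  calc (d : ℝ) ≤ Nat.totient d * (C * (Real.log d) ^ 5) := h8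
    _ ≤ (((Ea d M).card : ℝ) * M) * (C * (Real.log d) ^ 5) := by gcongr
    _ = _ := by ring

/-- sum of the inverses of the divisors -/
theorem sum_inv_div (d : ℕ) (hd : 1 ≤ d) (S : Finset ℕ) (hS : S ⊆ d.divisors) :
    ∑ r ∈ S, 1 / (r : ℝ) ≤ 1 + Real.log d := by
  have h1 : ∑ r ∈ S, 1 / (r : ℝ) ≤ ∑ r ∈ Finset.Icc 1 d, 1 / (r : ℝ) := by
    refine Finset.sum_le_sum_of_subset_of_nonneg (fun r hr => ?_) (fun _ _ _ => by positivity)
    have h2 := Nat.mem_divisors.1 (hS hr)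
    rw [Finset.mem_Icc]
    exact ⟨Nat.pos_of_dvd_of_pos h2.1 (by omega), Nat.le_of_dvd (by omega) h2.1⟩
  refine h1.trans ?_
  have h3 := harmonic_le_one_add_log d
  have h4 : ((harmonic d : ℚ) : ℝ) = ∑ r ∈ Finset.Icc 1 d, 1 / (r : ℝ) := by
    rw [harmonic_eq_sum_Icc]
    push_cast
    simp only [one_div]
  rw [← h4]
  exact h3

end Pool.Agent.TH936.AC
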