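import Pool.Agent.TH936.AC.Asm2

/-!
# Project AC: assembly, third part (the average over the Galois conjugates)
-/

set_option autoImplicit false

open Complex

namespace Pool.Agent.TH936.AC

open Pool.Agent.W192.HK

variable {R : Subring ℂ} {ω : ℂ}

open Classical in
/-- a term of the tail sum -/
noncomputable def tT (χ : Ideal R → ℂ) (k : ℕ) (B X η : ℝ) (c : Ideal R) : ℝ :=
  if Pri c ∧ B < nm c ∧ χ c ≠ 0 ∧ χ c ^ k = 1
    then (nm c) ^ (-1 / 2 + η) * Real.exp (-(nm c / X)) else 0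

open Classical in
/-- a term of the sum over the rough ideals -/
noncomputable def tR (χ : Ideal R → ℂ) (z : ℝ) (k : ℕ) (Y : ℝ) (c : Ideal R) : ℝ :=
  if Pri c ∧ Rgh z c ∧ c ≠ ⊤ ∧ nm c ≤ Y ∧ χ c ≠ 0 ∧ χ c ^ k = 1
    then (nm c) ^ (-1 / 2 : ℝ) else 0

open Classical in
/-- indicator of small norm -/
noncomputable def tV (Y : ℝ) (c : Ideal R) : ℝ := if nm c ≤ Y then 1 else 0

open Classical in
/-- the rough term, or the indicator if the exponent is large -/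
noncomputable def tU (χ : Ideal R → ℂ) (z : ℝ) (k : ℕ) (Y Y' K : ℝ) (c : Ideal R) : ℝ :=
  if (k : ℝ) ≤ K then tR χ z k Y c else tV Y' c

lemma tT_nonneg (χ : Ideal R → ℂ) (k : ℕ) (B X η : ℝ) (c : Ideal R) : 0 ≤ tT χ k B X η c := by
  have : 0 ≤ nm c := Nat.cast_nonneg _
  unfold tT; split_ifs <;> positivity

lemma tR_nonneg (χ : Ideal R → ℂ) (z : ℝ) (k : ℕ) (Y : ℝ) (c : Ideal R) : 0 ≤ tR χ z k Y c := by
  have : 0 ≤ nm c := Nat.cast_nonneg _
  unfold tR; split_ifs <;> positivity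

lemma tV_nonneg (Y : ℝ) (c : Ideal R) : 0 ≤ tV Y c := by
  unfold tV; split_ifs <;> norm_num

lemma tU_nonneg (χ : Ideal R → ℂ) (z : ℝ) (k : ℕ) (Y Y' K : ℝ) (c : Ideal R) :
    0 ≤ tU χ z k Y Y' K c := by
  unfold tU; split_ifs
  · exact tR_nonneg _ _ _ _ _
  · exact tV_nonneg _ _

lemma tV_sum (hfin : ∀ y : ℝ, {I : Ideal R | nm I ≤ y}.Finite) {C : ℝ}
    (hcnt : ∀ y : ℝ, 1 ≤ y → (Set.ncard {I : Ideal R | nm I ≤ y} : ℝ) ≤ C * y) {Y : ℝ}
    (hY : 1 ≤ Y) : Summable (tV (R := R) Y) ∧ ∑' c : Ideal R, tV Y c ≤ C * Y := by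
  classical
  have hz : ∀ c ∉ (hfin Y).toFinset, tV (R := R) Y c = 0 := by
    intro c hc
    rw [Set.Finite.mem_toFinset] at hc
    unfold tV
    exact if_neg hc
  refine ⟨summable_of_ne_finset_zero hz, ?_⟩
  rw [tsum_eq_sum hz]
  refine le_trans (le_of_eq ?_) (hcnt Y hY)
  rw [Set.ncard_eq_toFinset_card _ (hfin Y)]
  have : ∀ c ∈ (hfin Y).toFinset, tV (R := R) Y c = 1 := by
    intro c hc
    rw [Set.Finite.mem_toFinset] at hc
    unfold tV
    exact if_pos hc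
  rw [Finset.sum_congr rfl this, Finset.sum_const, nsmul_eq_mul, mul_one]

lemma tR_summ (hfin : ∀ y : ℝ, {I : Ideal R | nm I ≤ y}.Finite) (χ : Ideal R → ℂ) (z : ℝ) (k : ℕ)
    (Y : ℝ) : Summable (tR χ z k Y) := by
  classical
  refine summable_of_ne_finset_zero (s := (hfin Y).toFinset) fun c hc => ?_
  rw [Set.Finite.mem_toFinset] at hc
  unfold tR
  rw [if_neg fun h => hc h.2.2.2.1]

/-- the value at the unit ideal, and the bound for the other terms -/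
theorem bound_of {f : Ideal R} {y : ℝ} {c : Ideal R} {χ : Ideal R → ℂ} {M : ℕ}
    (DD : Finset ℕ) (hn1 : 1 ≤ nm c) (hc : Pri c) (hcT : c ≠ ⊤)
    {Rc g P : ℂ} {d K L0 E Y Y1 W η2 η X A : ℝ} (hd : 0 ≤ d) (hL0 : 0 ≤ L0) (hE : 0 ≤ E)
    (hYY : Y ≤ Y1) (hA : 0 ≤ A) (hη : η2 ≤ η) (hK : 0 ≤ K)
    (hRc : ‖Rc‖ ≤ K)
    (hRc2 : ‖Rc‖ ≤ ∑ r ∈ DD, (if χ c ≠ 0 ∧ χ c ^ (r * M) = 1 then d / (r * M) else 0))
    (hg : ‖g‖ ≤ (nm c) ^ (-1 / 2 : ℝ) * ‖P‖)
    (hP : nm c ≤ Y → ‖P‖ ≤ L0 * dl f y c + E)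
    (hrough : dl f y c ≠ 0 → g = 0 ∨ Rgh y c)
    (hdl : dl f y c ≤ 1) (hdl0 : 0 ≤ dl f y c)
    (hP2 : ‖P‖ ≤ A * (nm c) ^ η2 * Real.exp (-(nm c / X))) :
    ‖Rc * g‖ ≤ (∑ r ∈ DD, d / (r * M) * (L0 * tU χ y (r * M) Y1 Y W c)) + K * E * tV Y c +
      ∑ r ∈ DD, d / (r * M) * (A * tT χ (r * M) Y X η c) := by
  classical
  have hn0 : 0 < nm c := by linarith
  have hnn : (nm c) ^ (-1 / 2 : ℝ) ≤ 1 := Real.rpow_le_one_of_one_le_of_nonpos hn1 (by norm_num)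
  have hnn0 : 0 ≤ (nm c) ^ (-1 / 2 : ℝ) := Real.rpow_nonneg hn0.le _
  have n1 : 0 ≤ ∑ r ∈ DD, d / ((r : ℝ) * M) * (L0 * tU χ y (r * M) Y1 Y W c) :=
    Finset.sum_nonneg fun r _ => mul_nonneg (by positivity) (mul_nonneg hL0 (tU_nonneg _ _ _ _ _ _ _))
  have n2 : 0 ≤ K * E * tV Y c := mul_nonneg (mul_nonneg hK hE) (tV_nonneg _ _)
  have n3 : 0 ≤ ∑ r ∈ DD, d / ((r : ℝ) * M) * (A * tT χ (r * M) Y X η c) :=
    Finset.sum_nonneg fun r _ => mul_nonneg (by positivity) (mul_nonneg hA (tT_nonneg _ _ _ _ _ _))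
  by_cases hg0 : g = 0
  · rw [hg0, mul_zero, norm_zero]
    positivity
  rw [norm_mul]
  by_cases hsm : nm c ≤ Y
  · -- small norm
    have h1 := hP hsm
    have hV : tV Y c = 1 := by unfold tV; rw [if_pos hsm]
    have h2 : ‖Rc‖ * ‖g‖ ≤ ‖Rc‖ * ((nm c) ^ (-1 / 2 : ℝ) * (L0 * dl f y c)) + K * E * tV Y c := by
      calc ‖Rc‖ * ‖g‖ ≤ ‖Rc‖ * ((nm c) ^ (-1 / 2 : ℝ) * (L0 * dl f y c + E)) :=
            mul_le_mul_of_nonneg_left (hg.trans (mul_le_mul_of_nonneg_left h1 hnn0)) (norm_nonneg _)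
        _ = ‖Rc‖ * ((nm c) ^ (-1 / 2 : ℝ) * (L0 * dl f y c)) +
            ‖Rc‖ * ((nm c) ^ (-1 / 2 : ℝ) * E) := by ring
        _ ≤ _ := by
            rw [hV, mul_one]
            gcongr
            calc (nm c) ^ (-1 / 2 : ℝ) * E ≤ 1 * E := mul_le_mul_of_nonneg_right hnn hE
              _ = E := one_mul _
    have h3 : ‖Rc‖ * ((nm c) ^ (-1 / 2 : ℝ) * (L0 * dl f y c)) ≤
        ∑ r ∈ DD, d / ((r : ℝ) * M) * (L0 * tU χ y (r * M) Y1 Y W c) := by
      by_cases hd0 : dl f y c = 0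
      · rw [hd0, mul_zero, mul_zero, mul_zero]
        exact n1
      have hrg : Rgh y c := (hrough hd0).resolve_left hg0
      calc ‖Rc‖ * ((nm c) ^ (-1 / 2 : ℝ) * (L0 * dl f y c))
          ≤ (∑ r ∈ DD, (if χ c ≠ 0 ∧ χ c ^ (r * M) = 1 then d / ((r : ℝ) * M) else 0)) *
            ((nm c) ^ (-1 / 2 : ℝ) * (L0 * 1)) := by
            gcongr
        _ = ∑ r ∈ DD, (if χ c ≠ 0 ∧ χ c ^ (r * M) = 1 then d / ((r : ℝ) * M) else 0) *
            ((nm c) ^ (-1 / 2 : ℝ) * (L0 * 1)) := by rw [Finset.sum_mul]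
        _ ≤ _ := by
            refine Finset.sum_le_sum fun r _ => ?_
            have hdr : 0 ≤ d / ((r : ℝ) * M) := by positivity
            by_cases hz : χ c ≠ 0 ∧ χ c ^ (r * M) = 1
            · rw [if_pos hz]
              refine mul_le_mul_of_nonneg_left ?_ hdr
              have h4 : (nm c) ^ (-1 / 2 : ℝ) ≤ tU χ y (r * M) Y1 Y W c := by
                unfold tU
                split_ifs with hk
                · unfold tR
                  rw [if_pos ⟨hc, hrg, hcT, hsm.trans hYY, hz.1, hz.2⟩]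
                · rw [hV]; exact hnn
              rw [mul_one, mul_comm]
              exact mul_le_mul_of_nonneg_left h4 hL0
            · rw [if_neg hz, zero_mul]
              exact mul_nonneg hdr (mul_nonneg hL0 (tU_nonneg _ _ _ _ _ _ _))
    linarith
  · -- large norm
    have h2 : ‖Rc‖ * ‖g‖ ≤ ∑ r ∈ DD, d / ((r : ℝ) * M) * (A * tT χ (r * M) Y X η c) := by
      calc ‖Rc‖ * ‖g‖ ≤ (∑ r ∈ DD, (if χ c ≠ 0 ∧ χ c ^ (r * M) = 1 then d / ((r : ℝ) * M) else 0)) *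
            ((nm c) ^ (-1 / 2 : ℝ) * (A * (nm c) ^ η2 * Real.exp (-(nm c / X)))) := by
            refine mul_le_mul hRc2 (hg.trans (mul_le_mul_of_nonneg_left hP2 hnn0)) (norm_nonneg _) ?_
            exact Finset.sum_nonneg fun r _ => by split_ifs <;> positivity
        _ = ∑ r ∈ DD, (if χ c ≠ 0 ∧ χ c ^ (r * M) = 1 then d / ((r : ℝ) * M) else 0) *
            ((nm c) ^ (-1 / 2 : ℝ) * (A * (nm c) ^ η2 * Real.exp (-(nm c / X)))) := by
            rw [Finset.sum_mul]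
        _ ≤ _ := by
            refine Finset.sum_le_sum fun r _ => ?_
            have hdr : 0 ≤ d / ((r : ℝ) * M) := by positivity
            by_cases hz : χ c ≠ 0 ∧ χ c ^ (r * M) = 1
            · rw [if_pos hz]
              refine mul_le_mul_of_nonneg_left ?_ hdr
              unfold tT
              rw [if_pos ⟨hc, not_le.1 hsm, hz.1, hz.2⟩]
              have h5 : (nm c) ^ (-1 / 2 : ℝ) * (nm c) ^ η2 ≤ (nm c) ^ (-1 / 2 + η) := by
                rw [← Real.rpow_add hn0]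
                exact Real.rpow_le_rpow_of_exponent_le hn1 (by linarith)
              calc (nm c) ^ (-1 / 2 : ℝ) * (A * (nm c) ^ η2 * Real.exp (-(nm c / X)))
                  = A * (((nm c) ^ (-1 / 2 : ℝ) * (nm c) ^ η2) * Real.exp (-(nm c / X))) := by ring
                _ ≤ _ := by gcongr
            · rw [if_neg hz, zero_mul]
              exact mul_nonneg hdr (mul_nonneg hA (tT_nonneg _ _ _ _ _ _))
    linarith

end Pool.Agent.TH936.AC
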