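import Pool.Agent.TH936.AC.Asm3
import Pool.Agent.W192.HK.Asm

/-!
# Project AC: assembly, fourth part (some conjugate does not vanish)
-/

set_option autoImplicit false

open Complex

namespace Pool.Agent.TH936.AC

open Pool.Agent.W192.HK

variable {R : Subring ℂ} {ω : ℂ}

/-- the total bound -/
theorem total (hfin : ∀ y : ℝ, {I : Ideal R | nm I ≤ y}.Finite) {C3 : ℝ} (hC3 : 0 < C3)
    (hcnt : ∀ y : ℝ, 1 ≤ y → (Set.ncard {I : Ideal R | nm I ≤ y} : ℝ) ≤ C3 * y)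
    (χ : Ideal R → ℂ) (y Y Y1 W X η K E A L0 CT Qd ρ : ℝ) (d M : ℕ) (hd : 1 ≤ d) (hM : 1 ≤ M)
    (DD : Finset ℕ) (hDD : DD ⊆ d.divisors) (hY : 1 ≤ Y) (hK : 0 ≤ K) (hE : 0 ≤ E) (hA : 0 ≤ A)
    (hL0 : 0 ≤ L0) (hW : 0 < W) (hρ : 0 ≤ ρ) (hQd : 0 ≤ Qd) (hCT : 0 ≤ CT)
    (hR : ∀ r ∈ DD, ((r * M : ℕ) : ℝ) ≤ W → ∑' c : Ideal R, tR χ y (r * M) Y1 c ≤ ρ)
    (hT : ∀ r ∈ DD, Summable (tT χ (r * M) Y X η) ∧
      ∑' c : Ideal R, tT χ (r * M) Y X η c ≤ CT * (r * M : ℕ) * Qd) :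
    Summable (fun c : Ideal R => (∑ r ∈ DD, (d : ℝ) / (r * M) * (L0 * tU χ y (r * M) Y1 Y W c)) +
      K * E * tV Y c + ∑ r ∈ DD, (d : ℝ) / (r * M) * (A * tT χ (r * M) Y X η c)) ∧
    ∑' c : Ideal R, ((∑ r ∈ DD, (d : ℝ) / (r * M) * (L0 * tU χ y (r * M) Y1 Y W c)) +
      K * E * tV Y c + ∑ r ∈ DD, (d : ℝ) / (r * M) * (A * tT χ (r * M) Y X η c)) ≤
      d * (L0 * ((1 + Real.log d) * ρ + d.divisors.card * (W⁻¹ * (C3 * Y)))) + K * E * (C3 * Y) +
        d * (d.divisors.card * (A * CT * Qd)) := by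
  classical
  obtain ⟨v1, v2⟩ := tV_sum hfin hcnt hY
  have hd0 : (0 : ℝ) < d := by exact_mod_cast hd
  have hM0 : (0 : ℝ) < M := by exact_mod_cast hM
  have hr0 : ∀ r ∈ DD, (0 : ℝ) < r := by
    intro r hr
    have := Nat.mem_divisors.1 (hDD hr)
    exact_mod_cast Nat.pos_of_dvd_of_pos this.1 (by omega)
  have u1 : ∀ r : ℕ, Summable (tU χ y (r * M) Y1 Y W) := by
    intro r
    by_cases hk : ((r * M : ℕ) : ℝ) ≤ W
    · refine (tR_summ hfin χ y (r * M) Y1).congr fun c => ?_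
      unfold tU
      rw [if_pos hk]
    · refine v1.congr fun c => ?_
      unfold tU
      rw [if_neg hk]
  have s1 : ∀ r ∈ DD, Summable (fun c : Ideal R =>
      (d : ℝ) / (r * M) * (L0 * tU χ y (r * M) Y1 Y W c)) :=
    fun r _ => ((u1 r).mul_left L0).mul_left _
  have s3 : ∀ r ∈ DD, Summable (fun c : Ideal R =>
      (d : ℝ) / (r * M) * (A * tT χ (r * M) Y X η c)) :=
    fun r hr => ((hT r hr).1.mul_left A).mul_left _
  have S1 := summable_sum s1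
  have S2 := v1.mul_left (K * E)
  have S3 := summable_sum s3
  refine ⟨(S1.add S2).add S3, ?_⟩
  rw [(S1.add S2).tsum_add S3, S1.tsum_add S2, Summable.tsum_finsetSum s1,
    Summable.tsum_finsetSum s3, tsum_mul_left]
  have hcard : (DD.card : ℝ) ≤ d.divisors.card := by exact_mod_cast Finset.card_le_card hDD
  have e1 : ∑ r ∈ DD, ∑' c : Ideal R, (d : ℝ) / (r * M) * (L0 * tU χ y (r * M) Y1 Y W c) ≤
      d * (L0 * ((1 + Real.log d) * ρ + d.divisors.card * (W⁻¹ * (C3 * Y)))) := by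
    have h1 : ∀ r ∈ DD, ∑' c : Ideal R, (d : ℝ) / (r * M) * (L0 * tU χ y (r * M) Y1 Y W c) ≤
        d * (L0 * (1 / (r : ℝ) * ρ + W⁻¹ * (C3 * Y))) := by
      intro r hr
      rw [tsum_mul_left, tsum_mul_left]
      have hrp := hr0 r hr
      have hr1 : (1 : ℝ) ≤ M := by exact_mod_cast hM
      by_cases hk : ((r * M : ℕ) : ℝ) ≤ W
      · have h2 : ∑' c : Ideal R, tU χ y (r * M) Y1 Y W c ≤ ρ := by
          refine le_trans (le_of_eq (tsum_congr fun c => ?_)) (hR r hr hk)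
          unfold tU
          rw [if_pos hk]
        have h3 : (d : ℝ) / (r * M) ≤ d * (1 / r) := by
          rw [mul_one_div]
          apply div_le_div_of_nonneg_left hd0.le hrp
          nlinarith
        have h5 : 0 ≤ ∑' c : Ideal R, tU χ y (r * M) Y1 Y W c :=
          tsum_nonneg fun c => tU_nonneg _ _ _ _ _ _ _
        calc (d : ℝ) / (r * M) * (L0 * ∑' c : Ideal R, tU χ y (r * M) Y1 Y W c)
            ≤ (d * (1 / r)) * (L0 * ρ) := by
              refine mul_le_mul h3 (mul_le_mul_of_nonneg_left h2 hL0) (by positivity) (by positivity)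
          _ = d * (L0 * (1 / (r : ℝ) * ρ)) := by ring
          _ ≤ _ := by
              have : 0 ≤ W⁻¹ * (C3 * Y) := by positivity
              gcongr
              linarith
      · have h2 : ∑' c : Ideal R, tU χ y (r * M) Y1 Y W c ≤ C3 * Y := by
          refine le_trans (le_of_eq (tsum_congr fun c => ?_)) v2
          unfold tU
          rw [if_neg hk]
        have h3 : (d : ℝ) / (r * M) ≤ d * W⁻¹ := by
          rw [← div_eq_mul_inv]
          apply div_le_div_of_nonneg_left hd0.le hW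
          push_cast at hk
          exact (not_le.1 hk).le
        have h5 : 0 ≤ ∑' c : Ideal R, tU χ y (r * M) Y1 Y W c :=
          tsum_nonneg fun c => tU_nonneg _ _ _ _ _ _ _
        calc (d : ℝ) / (r * M) * (L0 * ∑' c : Ideal R, tU χ y (r * M) Y1 Y W c)
            ≤ (d * W⁻¹) * (L0 * (C3 * Y)) := by
              refine mul_le_mul h3 (mul_le_mul_of_nonneg_left h2 hL0) (by positivity) (by positivity)
          _ = d * (L0 * (W⁻¹ * (C3 * Y))) := by ring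
          _ ≤ _ := by
              have : 0 ≤ 1 / (r : ℝ) * ρ := by positivity
              gcongr
              linarith
    refine (Finset.sum_le_sum h1).trans ?_
    rw [← Finset.mul_sum, ← Finset.mul_sum, Finset.sum_add_distrib, ← Finset.sum_mul,
      Finset.sum_const, nsmul_eq_mul]
    have h6 := sum_inv_div d hd DD hDD
    have : 0 ≤ W⁻¹ * (C3 * Y) := by positivity
    gcongr
  have e2 : K * E * ∑' c : Ideal R, tV Y c ≤ K * E * (C3 * Y) :=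
    mul_le_mul_of_nonneg_left v2 (mul_nonneg hK hE)
  have e3 : ∑ r ∈ DD, ∑' c : Ideal R, (d : ℝ) / (r * M) * (A * tT χ (r * M) Y X η c) ≤
      d * (d.divisors.card * (A * CT * Qd)) := by
    have h1 : ∀ r ∈ DD, ∑' c : Ideal R, (d : ℝ) / (r * M) * (A * tT χ (r * M) Y X η c) ≤
        d * (A * CT * Qd) := by
      intro r hr
      rw [tsum_mul_left, tsum_mul_left]
      have hrp := hr0 r hr
      calc (d : ℝ) / (r * M) * (A * ∑' c : Ideal R, tT χ (r * M) Y X η c)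
          ≤ (d : ℝ) / (r * M) * (A * (CT * (r * M : ℕ) * Qd)) := by
            gcongr
            exact (hT r hr).2
        _ = d * (A * CT * Qd) := by
            push_cast
            field_simp
    refine (Finset.sum_le_sum h1).trans ?_
    rw [Finset.sum_const, nsmul_eq_mul]
    have : 0 ≤ (d : ℝ) * (A * CT * Qd) := by positivity
    calc (DD.card : ℝ) * (d * (A * CT * Qd)) ≤ d.divisors.card * (d * (A * CT * Qd)) := by gcongr
      _ = _ := by ring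
  linarith

theorem core (hdiv : Pool.Agent.W192.CY.S_DIV) (h1 : H_BASIC) (h2 : H_FP) (h3 : H_CNT)
    (h4 : H_MOB) (a1 : A_BAR) (a2 : A_REG) (a3 : A_PHI) (a4 : A_PHI2) (a5 : A_TAIL)
    (a6 : A_ROUGH) (a7 : A_MERT) (a8 : A_RBD) (hR : QP R ω) {f : Ideal R} {ψ : Ideal R → ℂ}
    (hψ : HC 1 f ψ) (hcs : CS ψ) (hram : Ram f) (M : ℕ) (hM : 1 ≤ M) (ε : ℝ) (hε : 0 < ε) :
    ∃ q0 : ℝ, ∀ (q : ℕ) (χ : Ideal R → ℂ), RG q χ → IsCoprime f (sp (q : R)) → q0 ≤ q →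
      ∀ d : ℕ, Od χ d → (q : ℝ) ^ (2 / 3 + ε) ≤ d → ∃ a : ℕ, Nat.Coprime a d ∧ a % M = 1 % M ∧
        Sm (ω.im * Real.sqrt (nm (f * sp (q : R))) / Real.pi) ψ (pw χ a) ≠ 0 := by
  classical
  obtain ⟨b1, b2, b3, b4, b5, b6, b7, b8, b9⟩ := h1 R ω hR.qr
  obtain ⟨hfin, hsum, C3, hC3, hcnt, hord⟩ := h3 R ω hR.qr
  obtain ⟨-, -, k3, k4, -, -, k7, k8, k9, k10, k11, k12, k13, k14⟩ := a1 R ω hR
  have hπ := Real.pi_pos
  have him := hR.qr.im
  have hf0 : f ≠ ⊥ := hψ.ne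
  have hnf : 1 ≤ nm f := b3 f hf0
  have hψ' : HC (2 * 1 - 1) f ψ := hψ
  have hft : f ≠ ⊤ := hψ'.ne_top le_rfl
  obtain ⟨g1, -, -, -, -⟩ := h2 R ω hR.qr 1 f ψ hψ hft
  obtain ⟨x0, hx0def⟩ : ∃ x0 : ℝ, x0 = ω.im * Real.sqrt (nm f) / Real.pi := ⟨_, rfl⟩
  have hx0 : 0 < x0 := by
    rw [hx0def]
    have := Real.sqrt_pos.2 (by linarith : 0 < nm f)
    positivity
  obtain ⟨L0, q1, hL0, hphi⟩ := a3 R ω hR f ψ hψ hcs x0 x0 hx0 hx0
  have hε' : 0 < min ε (1 / 24) := lt_min hε (by norm_num)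
  obtain ⟨η, δ, CT, hη, hδ, hCT, htail⟩ := a5 R ω hR (min ε (1 / 24)) hε'
    (lt_of_le_of_lt (min_le_right _ _) (by norm_num)) (1 / 100000) (by norm_num)
  obtain ⟨η2, hη2def⟩ : ∃ η2 : ℝ, η2 = min η (δ / 10) := ⟨_, rfl⟩
  have hη2 : 0 < η2 := by rw [hη2def]; exact lt_min hη (by linarith)
  have hη2a : η2 ≤ η := by rw [hη2def]; exact min_le_left _ _
  have hη2b : η2 ≤ δ / 10 := by rw [hη2def]; exact min_le_right _ _
  obtain ⟨C2, hC2, hphi2⟩ := a4 R ω hR f ψ hψ η2 hη2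
  obtain ⟨CR, q2, hCR, hrough⟩ := a6 R ω hR
  obtain ⟨CK, hCK, hcard⟩ := card_lower a7 h4
  obtain ⟨CM, hCM, hmert⟩ := a7
  obtain ⟨η3, hη3def⟩ : ∃ η3 : ℝ, η3 = min (δ / 12) (1 / 1500) := ⟨_, rfl⟩
  have hη3 : 0 < η3 := by rw [hη3def]; exact lt_min (by linarith) (by norm_num)
  have hη3a : η3 ≤ δ / 12 := by rw [hη3def]; exact min_le_left _ _
  have hη3b : η3 ≤ 1 / 1500 := by rw [hη3def]; exact min_le_right _ _
  obtain ⟨Cτ, hCτ, hτ, -⟩ := hdiv η3 hη3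
  obtain ⟨Ln, hLn⟩ : ∃ Ln : ℝ, Ln = ‖L0‖ := ⟨_, rfl⟩
  have hLn0 : 0 < Ln := by rw [hLn]; exact norm_pos_iff.2 hL0
  obtain ⟨a, hadef⟩ : ∃ a : ℝ, a = min (min (1 / 400) (δ / 4)) (1 / 100000) := ⟨_, rfl⟩
  have ha0 : 0 < a := by
    rw [hadef]; exact lt_min (lt_min (by norm_num) (by linarith)) (by norm_num)
  have haa : a ≤ 1 / 400 := by rw [hadef]; exact (min_le_left _ _).trans (min_le_left _ _)
  have hab : a ≤ δ / 4 := by rw [hadef]; exact (min_le_left _ _).trans (min_le_right _ _)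
  have hac : a ≤ 1 / 100000 := by rw [hadef]; exact min_le_right _ _
  have hM0 : (0 : ℝ) < M := by exact_mod_cast hM
  obtain ⟨A1, hA1⟩ : ∃ A1 : ℝ, A1 = 243 * M * CK * (Ln * 4 * CR) := ⟨_, rfl⟩
  obtain ⟨B1, hB1⟩ : ∃ B1 : ℝ, B1 = 243 * M * CK * (Ln * Cτ * C3 + Cτ * C2 * CT) + (C3 + 1) :=
    ⟨_, rfl⟩
  obtain ⟨l0, hl0⟩ := fin_num (Ln / (CM * 200 ^ 5)) A1 B1 a (by positivity) ha0
  -- the threshold
  refine ⟨max (max (max q1 q2) (max C3 (Real.exp (max l0 3))))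
    (max (max 27 (1 / x0)) (max ((2 * x0) ^ 10) 3)), ?_⟩
  intro q χ hχ hcop hqq d hd hdq
  by_contra hcon
  push Not at hcon
  have hq1 : q1 ≤ q := ((le_max_left _ _).trans ((le_max_left _ _).trans (le_max_left _ _))).trans hqq
  have hq2 : q2 ≤ q := ((le_max_right _ _).trans ((le_max_left _ _).trans (le_max_left _ _))).trans hqq
  have hq3 : C3 ≤ q := ((le_max_left _ _).trans ((le_max_right _ _).trans (le_max_left _ _))).trans hqq
  have hq4 : Real.exp (max l0 3) ≤ q :=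
    ((le_max_right _ _).trans ((le_max_right _ _).trans (le_max_left _ _))).trans hqq
  have hq5 : (27 : ℝ) ≤ q := ((le_max_left _ _).trans ((le_max_left _ _).trans (le_max_right _ _))).trans hqq
  have hq6 : 1 / x0 ≤ q := ((le_max_right _ _).trans ((le_max_left _ _).trans (le_max_right _ _))).trans hqq
  have hq7 : (2 * x0) ^ 10 ≤ q :=
    ((le_max_left _ _).trans ((le_max_right _ _).trans (le_max_right _ _))).trans hqq
  have hp := hχ.prime
  obtain ⟨Q, hQ⟩ : ∃ Q : ℝ, Q = q := ⟨_, rfl⟩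
  rw [← hQ] at hq1 hq2 hq3 hq4 hq5 hq6 hq7 hdq
  have hQ0 : 0 < Q := by linarith
  have hQ1 : 1 ≤ Q := by linarith
  obtain ⟨l, hl⟩ : ∃ l : ℝ, l = Real.log Q := ⟨_, rfl⟩
  have hlmax : max l0 3 ≤ l := by
    rw [hl]
    exact (Real.le_log_iff_exp_le hQ0).2 hq4
  have hl3 : 3 ≤ l := (le_max_right _ _).trans hlmax
  have hll0 : l0 ≤ l := (le_max_left _ _).trans hlmax
  have hlpos : 0 < l := by linarith
  -- the norm of `q`
  have hnq : nm (sp (q : R)) = Q ^ 2 := by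
    rw [b5, hQ]
    push_cast
    rw [Complex.normSq_natCast]
    ring
  obtain ⟨X, hX⟩ : ∃ X : ℝ, X = ω.im * Real.sqrt (nm (f * sp (q : R))) / Real.pi := ⟨_, rfl⟩
  have hXq : X = x0 * Q := by
    rw [hX, hx0def, b4, hnq, Real.sqrt_mul (by linarith), Real.sqrt_sq hQ0.le]
    ring
  obtain ⟨y, hy⟩ : ∃ y : ℝ, y = l ^ 200 := ⟨_, rfl⟩
  obtain ⟨Z, hZ⟩ : ∃ Z : ℝ, Z = Q ^ (1 / 10 : ℝ) := ⟨_, rfl⟩
  have hZ1 : 1 ≤ Z := by rw [hZ]; exact Real.one_le_rpow hQ1 (by norm_num)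
  have hX1 : 1 ≤ X := by
    rw [hXq]
    rw [div_le_iff₀ hx0] at hq6
    linarith
  have hZX : Z * X ≤ Q ^ (6 / 5 : ℝ) / 2 := by
    have e1 : 2 * x0 ≤ Q ^ (1 / 10 : ℝ) := by
      have e2 : ((2 * x0) ^ 10) ^ (1 / 10 : ℝ) ≤ Q ^ (1 / 10 : ℝ) :=
        Real.rpow_le_rpow (by positivity) hq7 (by norm_num)
      have e3 : ((2 * x0) ^ 10) ^ (1 / 10 : ℝ) = 2 * x0 := by
        rw [← Real.rpow_natCast, ← Real.rpow_mul (by positivity)]
        norm_num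
      rwa [e3] at e2
    have e4 : Q ^ (6 / 5 : ℝ) = Q ^ (1 / 10 : ℝ) * (Q ^ (1 / 10 : ℝ) * Q) := by
      rw [← Real.rpow_add_one hQ0.ne', ← Real.rpow_add hQ0]
      norm_num
    rw [e4, hXq, hZ]
    have e5 : 0 < Q ^ (1 / 10 : ℝ) := Real.rpow_pos_of_pos hQ0 _
    have e6 := mul_le_mul_of_nonneg_right e1 (by positivity : 0 ≤ Q ^ (1 / 10 : ℝ) * Q)
    have e7 : Q ^ (1 / 10 : ℝ) * (x0 * Q) = (2 * x0 * (Q ^ (1 / 10 : ℝ) * Q)) / 2 := by ring
    rw [e7]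
    exact div_le_div_of_nonneg_right e6 (by norm_num)
  have hZXpos : 0 < Z * X := by positivity
  have hZX1 : 1 ≤ 2 * (Z * X) := by
    have := one_le_mul_of_one_le_of_one_le hZ1 hX1
    linarith
  -- the order
  have hdpos := hd.pos
  have hd3 : 3 ≤ d := by
    have e1 : (3 : ℝ) ≤ d := by
      refine le_trans ?_ hdq
      have e2 : Q ^ (1 / 3 : ℝ) ≤ Q ^ (2 / 3 + ε) :=
        Real.rpow_le_rpow_of_exponent_le hQ1 (by linarith)
      refine le_trans ?_ e2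
      have e3 : (27 : ℝ) ^ (1 / 3 : ℝ) ≤ Q ^ (1 / 3 : ℝ) :=
        Real.rpow_le_rpow (by norm_num) hq5 (by norm_num)
      refine le_trans (le_of_eq ?_) e3
      rw [show (27 : ℝ) = 3 ^ (3 : ℝ) by norm_num, ← Real.rpow_mul (by norm_num)]
      norm_num
    exact_mod_cast e1
  have hd0 : (0 : ℝ) < d := by exact_mod_cast hdpos
  have hdQ3 : (d : ℝ) ≤ Q ^ 3 := by
    have e1 := (hord _ χ hχ.rc d hd).1
    rw [hnq] at e1
    calc (d : ℝ) ≤ C3 * Q ^ 2 := e1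
      _ ≤ Q * Q ^ 2 := by gcongr
      _ = Q ^ 3 := by ring
  have hlogd : Real.log d ≤ 3 * l := by
    rw [hl]
    calc Real.log d ≤ Real.log (Q ^ 3) := Real.log_le_log hd0 hdQ3
      _ = 3 * Real.log Q := by rw [Real.log_pow]; norm_num
  have hlogd0 : 0 ≤ Real.log d := Real.log_nonneg (by exact_mod_cast (by omega : 1 ≤ d))
  have hτd : (d.divisors.card : ℝ) ≤ Cτ * Q ^ (3 * η3) := by
    refine (hτ d (by omega)).trans ?_
    refine mul_le_mul_of_nonneg_left ?_ hCτ.le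
    calc (d : ℝ) ^ η3 ≤ (Q ^ 3) ^ η3 := Real.rpow_le_rpow hd0.le hdQ3 hη3.le
      _ = Q ^ (3 * η3) := by
          rw [← Real.rpow_natCast Q 3, ← Real.rpow_mul hQ0.le]
          norm_num
  -- the exponents
  obtain ⟨M₁, hM₁⟩ : ∃ M₁ : ℕ, M₁ = Nat.gcd M d := ⟨_, rfl⟩
  have hM₁1 : 1 ≤ M₁ := by rw [hM₁]; exact Nat.gcd_pos_of_pos_left _ (by omega)
  have hM₁d : M₁ ∣ d := by rw [hM₁]; exact Nat.gcd_dvd_right _ _
  have hM₁0 : M₁ ≤ M := by rw [hM₁]; exact Nat.gcd_le_left _ (by omega)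
  have hzero : ∀ b ∈ Ea d M₁, Sm X ψ (pw χ b) = 0 := by
    intro b hb
    unfold Ea at hb
    rw [Finset.mem_filter] at hb
    obtain ⟨-, hb1, hb2⟩ := hb
    have hb2' : b ≡ 1 [MOD Nat.gcd d M] := by
      rw [Nat.gcd_comm, ← hM₁]
      exact hb2
    obtain ⟨a', e1, e2⟩ := Nat.chineseRemainder' (n := d) (m := M) (a := b) (b := 1) hb2'
    have h5 : Nat.Coprime a' d := by
      have h6 := Nat.ModEq.gcd_eq e1
      rw [Nat.Coprime, h6]
      exact hb1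
    rw [← Pool.Agent.W768.HK.Finn0.pw_congr χ d hd a' b e1, hX]
    exact hcon a' h5 e2
  have hYa : Real.log Q = l := hl.symm
  obtain ⟨Y, hY⟩ : ∃ Y : ℝ, Y = Q ^ (1 / 100000 : ℝ) := ⟨_, rfl⟩
  obtain ⟨Y1, hY1⟩ : ∃ Y1 : ℝ, Y1 = Q ^ (1 / 100 : ℝ) := ⟨_, rfl⟩
  obtain ⟨E, hE⟩ : ∃ E : ℝ, E = Q ^ (-1 / 50000 : ℝ) := ⟨_, rfl⟩
  obtain ⟨A, hA⟩ : ∃ A : ℝ, A = C2 * (Z * X) ^ (2 * η2) := ⟨_, rfl⟩
  have hYone : 1 ≤ Y := by rw [hY]; exact Real.one_le_rpow hQ1 (by norm_num)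
  have hYY1 : Y ≤ Y1 := by
    rw [hY, hY1]; exact Real.rpow_le_rpow_of_exponent_le hQ1 (by norm_num)
  have hY1pos : 0 < Y1 := by rw [hY1]; exact Real.rpow_pos_of_pos hQ0 _
  have hE0 : 0 ≤ E := by rw [hE]; exact Real.rpow_nonneg hQ0.le _
  have hA0 : 0 ≤ A := by rw [hA]; positivity
  obtain ⟨H, hH⟩ : ∃ H : Ideal R → ℂ, H = fun c => if Pri c then
      (∑ a ∈ Ea d M₁, pw χ a c) * (ψ c / (nm c : ℂ) * Ph f y Z X q ψ c) else 0 := ⟨_, rfl⟩
  obtain ⟨hHs, hHsum⟩ := regroup a2 hR hψ hram hχ hd M₁ hZ1 hX1 H (fun c => by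
    rw [hH]; exact ⟨fun hc => if_pos hc, fun hc => if_neg hc⟩)
  have hT0 : ∑' c : Ideal R, H c = 0 := by
    rw [← hHsum]
    exact Finset.sum_eq_zero fun b hb => by rw [hzero b hb, mul_zero]
  rw [hHs.tsum_eq_add_tsum_ite ⊤] at hT0
  obtain ⟨K, hK⟩ : ∃ K : ℝ, K = ((Ea d M₁).card : ℝ) := ⟨_, rfl⟩
  have hK0 : 0 ≤ K := by rw [hK]; exact Nat.cast_nonneg _
  obtain ⟨DD, hDD⟩ : ∃ DD : Finset ℕ, DD = d.divisors.filter (fun r => Nat.Coprime r M₁) := ⟨_, rfl⟩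
  have hDDs : DD ⊆ d.divisors := by rw [hDD]; exact Finset.filter_subset _ _
  have hDDd : ∀ r ∈ DD, r * M₁ ∣ d := by
    intro r hr
    rw [hDD, Finset.mem_filter, Nat.mem_divisors] at hr
    exact Nat.Coprime.mul_dvd_of_dvd_of_dvd hr.2 hr.1.1 hM₁d
  -- the total bound
  have hQ23 : Q ^ (2 / 3 : ℝ) ≤ d :=
    (Real.rpow_le_rpow_of_exponent_le hQ1 (by linarith)).trans hdq
  have hQ23' : Q ^ (2 / 3 + min ε (1 / 24)) ≤ d :=
    (Real.rpow_le_rpow_of_exponent_le hQ1 (by linarith [min_le_left ε (1 / 24 : ℝ)])).trans hdq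
  obtain ⟨hbs, hbt⟩ := total hfin hC3 hcnt χ y Y Y1 Y1 (2 * (Z * X)) η K E A Ln CT (Q ^ (-δ))
    (CR * l ^ (-10 : ℝ)) d M₁ (by omega) hM₁1 DD hDDs hYone hK0 hE0 hA0 hLn0.le hY1pos
    (by positivity) (Real.rpow_nonneg hQ0.le _) hCT.le (fun r hr hk => by
      have e1 := hrough q χ hχ (by rw [← hQ]; exact hq2) d hd (by rw [← hQ]; exact hQ23) (r * M₁)
        (hDDd r hr) (by rw [← hQ, ← hY1]; exact hk)
      rw [← hQ, hYa, ← hy, ← hY1] at e1
      exact e1) (fun r hr => by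
      have e1 := htail q χ hχ d hd (by rw [← hQ]; exact hQ23') (r * M₁) (hDDd r hr)
        (2 * (Z * X)) hZX1 (by rw [← hQ]; linarith)
      rw [← hQ, ← hY] at e1
      exact e1)
  have hdl0 : ∀ c : Ideal R, 0 ≤ dl f y c ∧ dl f y c ≤ 1 := by
    intro c
    unfold dl
    have hpr : ∀ p ∈ SP f y, (0 : ℝ) ≤ 1 - 1 / (p : ℝ) ∧ 1 - 1 / (p : ℝ) ≤ 1 := by
      intro p hp'
      unfold SP at hp'
      rw [Finset.mem_filter] at hp'
      have e1 : (1 : ℝ) ≤ p := by exact_mod_cast hp'.2.1.one_lt.le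
      have e2 : 1 / (p : ℝ) ≤ 1 := by rw [div_le_one (by linarith)]; exact e1
      have e3 : 0 ≤ 1 / (p : ℝ) := by positivity
      exact ⟨by linarith, by linarith⟩
    split_ifs
    · exact ⟨Finset.prod_nonneg fun p hp' => (hpr p hp').1,
        Finset.prod_le_one (fun p hp' => (hpr p hp').1) fun p hp' => (hpr p hp').2⟩
    · exact ⟨le_rfl, zero_le_one⟩
  have hpwle : ∀ (b : ℕ) (c : Ideal R), ‖pw χ b c‖ ≤ 1 :=
    fun b c => Pool.Agent.W768.HK.Finn0.pw_le χ (fun I hI =>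
      Complex.norm_eq_one_of_pow_eq_one (hd.pow I hI) hd.pos.ne') b c
  have hterm : ∀ c : Ideal R, ‖(if c = ⊤ then 0 else H c : ℂ)‖ ≤
      (∑ r ∈ DD, (d : ℝ) / (r * M₁) * (Ln * tU χ y (r * M₁) Y1 Y Y1 c)) +
      K * E * tV Y c + ∑ r ∈ DD, (d : ℝ) / (r * M₁) * (A * tT χ (r * M₁) Y (2 * (Z * X)) η c) := by
    intro c
    have n1 : 0 ≤ ∑ r ∈ DD, (d : ℝ) / ((r : ℝ) * M₁) * (Ln * tU χ y (r * M₁) Y1 Y Y1 c) :=
      Finset.sum_nonneg fun r _ => mul_nonneg (by positivity)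
        (mul_nonneg hLn0.le (tU_nonneg _ _ _ _ _ _ _))
    have n2 : 0 ≤ K * E * tV Y c := mul_nonneg (mul_nonneg hK0 hE0) (tV_nonneg _ _)
    have n3 : 0 ≤ ∑ r ∈ DD, (d : ℝ) / ((r : ℝ) * M₁) * (A * tT χ (r * M₁) Y (2 * (Z * X)) η c) :=
      Finset.sum_nonneg fun r _ => mul_nonneg (by positivity)
        (mul_nonneg hA0 (tT_nonneg _ _ _ _ _ _))
    by_cases hcT : c = ⊤
    · rw [if_pos hcT, norm_zero]
      positivity
    rw [if_neg hcT, hH]
    by_cases hc : Pri c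
    · simp only [if_pos hc]
      have hn1 : 1 ≤ nm c := b3 c hc.1
      have hn0 : 0 < nm c := by linarith
      have hψn : ‖ψ c‖ ≤ (nm c) ^ (1 / 2 : ℝ) := by
        by_cases hcf : IsCoprime c f
        · have e1 := g1 c hc.1 hcf
          rw [pow_one] at e1
          rw [← Real.sqrt_eq_rpow]
          exact Real.le_sqrt_of_sq_le e1.le
        · rw [(hψ.zero c).2 (Or.inr hcf), norm_zero]
          positivity
      refine bound_of (W := Y1) DD hn1 hc hcT hd0.le hLn0.le hE0 hYY1 hA0 hη2a hK0 ?_ ?_ ?_ ?_ ?_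
        (hdl0 c).2 (hdl0 c).1 (P := Ph f y Z X q ψ c) (η2 := η2) ?_
      · refine (norm_sum_le _ _).trans ?_
        rw [hK]
        calc ∑ a ∈ Ea d M₁, ‖pw χ a c‖ ≤ ∑ a ∈ Ea d M₁, (1 : ℝ) :=
              Finset.sum_le_sum fun b _ => hpwle b c
          _ = _ := by rw [Finset.sum_const, nsmul_eq_mul, mul_one]
      · rw [hDD]
        exact a8 R q χ hχ d hd M₁ hM₁1 hM₁d c
      · rw [norm_mul, norm_div, Complex.norm_real, Real.norm_of_nonneg hn0.le]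
        refine mul_le_mul_of_nonneg_right ?_ (norm_nonneg _)
        rw [div_le_iff₀ hn0]
        refine hψn.trans (le_of_eq ?_)
        rw [← Real.rpow_add_one hn0.ne']
        norm_num
      · intro hcY
        have e1 := hphi q hp hcop (by rw [← hQ]; exact hq1) X (by rw [← hQ, hXq])
          (by rw [← hQ, hXq]) c hc (by rw [← hQ, ← hY]; exact hcY)
        rw [← hQ, hYa, ← hy, ← hZ, ← hE] at e1
        calc ‖Ph f y Z X q ψ c‖ = ‖L0 * (dl f y c : ℂ) +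
              (Ph f y Z X q ψ c - L0 * (dl f y c : ℂ))‖ := by rw [add_sub_cancel]
          _ ≤ ‖L0 * (dl f y c : ℂ)‖ + ‖Ph f y Z X q ψ c - L0 * (dl f y c : ℂ)‖ := norm_add_le _ _
          _ ≤ Ln * dl f y c + E := by
              rw [norm_mul, Complex.norm_real, Real.norm_of_nonneg (hdl0 c).1, ← hLn]
              linarith
      · intro hne
        by_cases hcf : IsCoprime c f
        · right
          have hcf' : IsCoprime (bar c) f := by
            by_contra hno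
            have e1 := (hψ.zero (bar c)).2 (Or.inr hno)
            rw [hcs c, map_eq_zero] at e1
            rcases (hψ.zero c).1 e1 with e2 | e2
            · exact hc.1 e2
            · exact e2 hcf
          refine rgh_of h1 a1 hR hc hcf hcf' ?_
          by_contra hno
          apply hne
          unfold dl
          rw [if_neg hno]
        · left
          rw [(hψ.zero c).2 (Or.inr hcf), zero_div, zero_mul]
      · have e1 := hphi2 y Z X q hp hZ1 hX1 c hc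
        rw [← hA] at e1
        exact e1
    · simp only [if_neg hc, norm_zero]
      positivity
  have hrest := tsum_of_norm_bounded hbs.hasSum hterm
  have hHT2 : ‖H ⊤‖ ≤ d * (Ln * ((1 + Real.log d) * (CR * l ^ (-10 : ℝ)) +
      d.divisors.card * (Y1⁻¹ * (C3 * Y)))) + K * E * (C3 * Y) +
        d * (d.divisors.card * (A * CT * Q ^ (-δ))) := by
    have e1 : H ⊤ = -∑' c : Ideal R, (if c = ⊤ then 0 else H c) := eq_neg_of_add_eq_zero_left hT0
    rw [e1, norm_neg]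
    exact hrest.trans hbt
  clear hbt hrest hterm hbs hT0 hHsum hHs
  -- the value at the unit ideal
  have hnT : nm (⊤ : Ideal R) = 1 := (b7 ⊤).2 rfl
  have hTb : (⊤ : Ideal R) ≠ ⊥ := by
    intro h0
    rw [h0, b2] at hnT
    exact zero_ne_one hnT
  have hPr : Pri (⊤ : Ideal R) := by
    refine ⟨hTb, ?_⟩
    rw [← Ideal.one_eq_top]
    exact isCoprime_one_left
  have hs1 : sp ((1 : ℕ) : R) = ⊤ := by
    rw [Nat.cast_one]
    exact Ideal.span_singleton_one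
  have hχT : χ ⊤ = 1 := by
    rw [← hs1]
    exact hχ.int 1 (Nat.coprime_one_left q)
  have hψT : ψ ⊤ = 1 := by
    have e1 := hψ.princ 1 one_ne_zero (by rw [sub_self]; exact f.zero_mem)
    rw [← hs1, Nat.cast_one, e1]
    push_cast
    rw [one_pow]
  have hHTeq : ‖H ⊤‖ = K * ‖Ph f y Z X q ψ ⊤‖ := by
    have e1 : ∀ b ∈ Ea d M₁, pw χ b ⊤ = 1 := by
      intro b _
      unfold pw
      rw [if_neg (by rw [hχT]; exact one_ne_zero), hχT, one_pow]
    rw [hH]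
    simp only [if_pos hPr]
    rw [Finset.sum_congr rfl e1, Finset.sum_const, nsmul_eq_mul, mul_one, hψT, hnT, norm_mul,
      norm_mul, hK]
    simp
  have hdlT : 1 / (CM * (200 * Real.log l) ^ 5) ≤ dl f y ⊤ := by
    have e0 : ∀ p ∈ SP f y, ¬ PP f p ∣ (⊤ : Ideal R) ∧ ¬ bar (PP f p) ∣ (⊤ : Ideal R) := by
      intro p hp'
      unfold SP at hp'
      rw [Finset.mem_filter] at hp'
      have hex := hp'.2.2
      have hPP : PP f p = Classical.choose hex := by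
        unfold PP
        rw [dif_pos hex]
      have hspec := Classical.choose_spec hex
      rw [← hPP] at hspec
      have q1' := hspec.1
      have q2' := k12 _ q1'
      constructor
      · intro hdv
        exact q1'.ne_top (eq_top_iff.2 (Ideal.le_of_dvd hdv))
      · intro hdv
        exact q2'.ne_top (eq_top_iff.2 (Ideal.le_of_dvd hdv))
    have e1 : dl f y ⊤ = ∏ p ∈ SP f y, (1 - 1 / (p : ℝ)) := by
      unfold dl
      rw [if_pos e0]
    rw [e1]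
    have hy3 : 3 ≤ y := by
      rw [hy]
      calc (3 : ℝ) ≤ l := hl3
        _ = l ^ 1 := (pow_one l).symm
        _ ≤ l ^ 200 := pow_le_pow_right₀ (by linarith) (by norm_num)
    have e2 := hmert (SP f y) y hy3 (fun p hp' => by
      unfold SP at hp'
      rw [Finset.mem_filter, Finset.mem_range] at hp'
      refine ⟨hp'.2.1, ?_⟩
      have e3 : p ≤ ⌊y⌋₊ := Nat.lt_succ_iff.1 hp'.1
      exact (Nat.le_floor_iff (by linarith)).1 e3)
    have e4 : Real.log y = 200 * Real.log l := by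
      rw [hy, Real.log_pow]
      norm_num
    rw [e4] at e2
    exact e2
  have hPhT : Ln * dl f y ⊤ - E ≤ ‖Ph f y Z X q ψ ⊤‖ := by
    have e1 := hphi q hp hcop (by rw [← hQ]; exact hq1) X (by rw [← hQ, hXq])
      (by rw [← hQ, hXq]) ⊤ hPr (by rw [← hQ, ← hY, hnT]; exact hYone)
    rw [← hQ, hYa, ← hy, ← hZ, ← hE] at e1
    have e2 : Ln * dl f y ⊤ = ‖L0 * (dl f y ⊤ : ℂ)‖ := by
      rw [norm_mul, Complex.norm_real, Real.norm_of_nonneg (hdl0 ⊤).1, ← hLn]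
    have e3 := norm_sub_norm_le (L0 * (dl f y ⊤ : ℂ)) (Ph f y Z X q ψ ⊤)
    rw [norm_sub_rev] at e3
    linarith
  -- the numbers
  have hl1 : 1 ≤ l := by linarith
  obtain ⟨e, he⟩ : ∃ e : ℝ, e = Real.exp (-(a * l)) := ⟨_, rfl⟩
  have he0 : 0 < e := by rw [he]; exact Real.exp_pos _
  have hQe : ∀ t : ℝ, t ≤ -a → Q ^ t ≤ e := by
    intro t ht
    rw [he, Real.rpow_def_of_pos hQ0, ← hl]
    apply Real.exp_le_exp.2
    calc l * t ≤ l * (-a) := mul_le_mul_of_nonneg_left ht hlpos.le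
      _ = -(a * l) := by ring
  obtain ⟨τ, hτdef⟩ : ∃ τ : ℝ, τ = (d.divisors.card : ℝ) := ⟨_, rfl⟩
  rw [← hτdef] at hHT2 hτd
  have hτ0 : 0 ≤ τ := by rw [hτdef]; exact Nat.cast_nonneg _
  have t1 : τ * (Y1⁻¹ * (C3 * Y)) ≤ Cτ * C3 * e := by
    have e1 : Y1⁻¹ * Y = Q ^ (-1 / 100 + 1 / 100000 : ℝ) := by
      rw [hY1, hY, ← Real.rpow_neg hQ0.le, ← Real.rpow_add hQ0]
      norm_num
    have e2 : Q ^ (3 * η3) * (Y1⁻¹ * Y) ≤ e := by
      rw [e1, ← Real.rpow_add hQ0]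
      exact hQe _ (by linarith)
    have e3 : 0 ≤ Y1⁻¹ * Y := by positivity
    calc τ * (Y1⁻¹ * (C3 * Y)) = C3 * (τ * (Y1⁻¹ * Y)) := by ring
      _ ≤ C3 * ((Cτ * Q ^ (3 * η3)) * (Y1⁻¹ * Y)) := by gcongr
      _ = Cτ * C3 * (Q ^ (3 * η3) * (Y1⁻¹ * Y)) := by ring
      _ ≤ Cτ * C3 * e := by gcongr
  have hAle : A ≤ C2 * Q ^ (12 / 5 * η2) := by
    rw [hA]
    refine mul_le_mul_of_nonneg_left ?_ hC2.le
    have e1 : Z * X ≤ Q ^ (6 / 5 : ℝ) := by
      have : 0 ≤ Q ^ (6 / 5 : ℝ) := Real.rpow_nonneg hQ0.le _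
      linarith
    calc (Z * X) ^ (2 * η2) ≤ (Q ^ (6 / 5 : ℝ)) ^ (2 * η2) :=
          Real.rpow_le_rpow hZXpos.le e1 (by positivity)
      _ = Q ^ (12 / 5 * η2) := by
          rw [← Real.rpow_mul hQ0.le]
          congr 1
          ring
  have t2 : τ * (A * CT * Q ^ (-δ)) ≤ Cτ * C2 * CT * e := by
    have e2 : Q ^ (3 * η3) * (Q ^ (12 / 5 * η2) * Q ^ (-δ)) ≤ e := by
      rw [← Real.rpow_add hQ0, ← Real.rpow_add hQ0]
      exact hQe _ (by linarith)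
    have e3 : 0 ≤ Q ^ (-δ) := Real.rpow_nonneg hQ0.le _
    calc τ * (A * CT * Q ^ (-δ)) ≤ (Cτ * Q ^ (3 * η3)) * ((C2 * Q ^ (12 / 5 * η2)) * CT * Q ^ (-δ)) := by
          gcongr
      _ = Cτ * C2 * CT * (Q ^ (3 * η3) * (Q ^ (12 / 5 * η2) * Q ^ (-δ))) := by ring
      _ ≤ _ := by gcongr
  have t3 : E * (C3 * Y) ≤ C3 * e := by
    have e1 : E * Y ≤ e := by
      rw [hE, hY, ← Real.rpow_add hQ0]
      exact hQe _ (by norm_num; linarith)
    calc E * (C3 * Y) = C3 * (E * Y) := by ring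
      _ ≤ C3 * e := by gcongr
  have t4 : E ≤ e := by
    rw [hE]
    exact hQe _ (by norm_num; linarith)
  have t5 : (1 + Real.log d) * (CR * l ^ (-10 : ℝ)) ≤ 4 * CR * (l * l ^ (-10 : ℝ)) := by
    have e1 : 1 + Real.log d ≤ 4 * l := by linarith
    have e2 : 0 ≤ CR * l ^ (-10 : ℝ) := by positivity
    calc (1 + Real.log d) * (CR * l ^ (-10 : ℝ)) ≤ (4 * l) * (CR * l ^ (-10 : ℝ)) :=
          mul_le_mul_of_nonneg_right e1 e2
      _ = _ := by ring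
  have hdK : (d : ℝ) ≤ K * (243 * M * CK * l ^ 5) := by
    have e1 := hcard d M₁ hd3 hM₁1 hM₁d
    rw [← hK] at e1
    refine e1.trans ?_
    refine mul_le_mul_of_nonneg_left ?_ hK0
    have e2 : (M₁ : ℝ) ≤ M := by exact_mod_cast hM₁0
    have e3 : (Real.log d) ^ 5 ≤ (3 * l) ^ 5 := pow_le_pow_left₀ hlogd0 hlogd 5
    calc (M₁ : ℝ) * CK * (Real.log d) ^ 5 ≤ M * CK * (3 * l) ^ 5 := by gcongr
      _ = _ := by ring
  have hKpos : 0 < K := by
    by_contra hno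
    have : K = 0 := le_antisymm (not_lt.1 hno) hK0
    rw [this, zero_mul] at hdK
    linarith
  have t6 : l ^ 5 * (l * l ^ (-10 : ℝ)) = l ^ (-4 : ℝ) := by
    rw [← Real.rpow_natCast l 5]
    nth_rewrite 2 [← Real.rpow_one l]
    rw [← Real.rpow_add hlpos, ← Real.rpow_add hlpos]
    norm_num
  have hl5 : 1 ≤ l ^ 5 := one_le_pow₀ hl1
  have hfinal : K * (Ln * dl f y ⊤ - E) ≤ K * (243 * M * CK * (Ln * 4 * CR) * l ^ (-4 : ℝ) +
      243 * M * CK * (Ln * Cτ * C3 + Cτ * C2 * CT) * (l ^ 5 * e) + C3 * e) := by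
    calc K * (Ln * dl f y ⊤ - E) ≤ K * ‖Ph f y Z X q ψ ⊤‖ := mul_le_mul_of_nonneg_left hPhT hK0
      _ = ‖H ⊤‖ := hHTeq.symm
      _ ≤ d * (Ln * ((1 + Real.log d) * (CR * l ^ (-10 : ℝ)) + τ * (Y1⁻¹ * (C3 * Y)))) +
          K * E * (C3 * Y) + d * (τ * (A * CT * Q ^ (-δ))) := hHT2
      _ ≤ d * (Ln * (4 * CR * (l * l ^ (-10 : ℝ)) + Cτ * C3 * e)) + K * (C3 * e) +
          d * (Cτ * C2 * CT * e) := by
          rw [mul_assoc K E]
          gcongr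
      _ = d * (Ln * (4 * CR * (l * l ^ (-10 : ℝ)) + Cτ * C3 * e) + Cτ * C2 * CT * e) +
          K * (C3 * e) := by ring
      _ ≤ (K * (243 * M * CK * l ^ 5)) * (Ln * (4 * CR * (l * l ^ (-10 : ℝ)) + Cτ * C3 * e) +
          Cτ * C2 * CT * e) + K * (C3 * e) := by gcongr
      _ = K * (243 * M * CK * (Ln * 4 * CR) * (l ^ 5 * (l * l ^ (-10 : ℝ))) +
          243 * M * CK * (Ln * Cτ * C3 + Cτ * C2 * CT) * (l ^ 5 * e) + C3 * e) := by ring
      _ = _ := by rw [t6]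
  have hfinal2 := le_of_mul_le_mul_left hfinal hKpos
  have hstrict := hl0 l hll0
  rw [← he] at hstrict
  have hc1 : Ln / (CM * 200 ^ 5) / Real.log l ^ 5 ≤ Ln * dl f y ⊤ := by
    calc Ln / (CM * 200 ^ 5) / Real.log l ^ 5 = Ln * (1 / (CM * (200 * Real.log l) ^ 5)) := by
          rw [mul_pow, div_div, mul_one_div]
          congr 1
          ring
      _ ≤ _ := mul_le_mul_of_nonneg_left hdlT hLn0.le
  have hc2 : A1 * l ^ (-4 : ℝ) + B1 * l ^ 5 * e =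
      243 * M * CK * (Ln * 4 * CR) * l ^ (-4 : ℝ) +
      243 * M * CK * (Ln * Cτ * C3 + Cτ * C2 * CT) * (l ^ 5 * e) + (C3 + 1) * (l ^ 5 * e) := by
    rw [hA1, hB1]; ring
  have hc3 : (C3 + 1) * e ≤ (C3 + 1) * (l ^ 5 * e) := by
    have : e ≤ l ^ 5 * e := le_mul_of_one_le_left he0.le hl5
    gcongr
  linarith

end Pool.Agent.TH936.AC
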