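import Mathlib
import Pool.Agent.W192.HK.Parts

/-!
# Project AC (owner helper936): horizontal anticyclotomic non-vanishing

`R = ℤ + ℤ ω` is the ring of integers of an imaginary quadratic field `K` of class number one, `ψ` a
primitive Hecke character of `K` of conductor `f` and infinity type `(1, 0)` with
`ψ(bar I) = conj ψ(I)`, `q` a prime number, `χ` a primitive ring class character of conductor `q` of
order `d ≥ q ^ (2/3 + ε)`.  Aim: `L(ψ χ, 1) ≠ 0` if the sign of the functional equation is `+1`.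
-/

set_option autoImplicit false

open Complex

namespace Pool.Agent.TH936.AC

open Pool.Agent.W192.HK

/-- `R` is the ring of integers of an imaginary quadratic field of class number one -/
structure QP (R : Subring ℂ) (ω : ℂ) : Prop where
  qr : QR R ω
  pid : IsPrincipalIdealRing R

/-- the complex conjugate ideal -/
def bar {R : Subring ℂ} (I : Ideal R) : Ideal R :=
  Ideal.span {z : R | ∃ w ∈ I, (w : ℂ) = (starRingEnd ℂ) (z : ℂ)}

/-- `ψ(bar I) = conj ψ(I)` -/
def CS {R : Subring ℂ} (ψ : Ideal R → ℂ) : Prop := ∀ I : Ideal R, ψ (bar I) = (starRingEnd ℂ) (ψ I)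

/-- every prime ideal `P = bar P` is inert or divides `f` -/
def Ram {R : Subring ℂ} (f : Ideal R) : Prop := ∀ P : Ideal R, P.IsPrime → P ≠ ⊥ → bar P = P →
  (∃ p : ℕ, p.Prime ∧ P = sp (p : R)) ∨ ¬ IsCoprime P f

/-- primitive ideals: coprime to their conjugate -/
def Pri {R : Subring ℂ} (c : Ideal R) : Prop := c ≠ ⊥ ∧ IsCoprime c (bar c)

/-- all prime divisors have norm `> z` -/
def Rgh {R : Subring ℂ} (z : ℝ) (c : Ideal R) : Prop :=
  ∀ P : Ideal R, P.IsPrime → P ≠ ⊥ → P ∣ c → z < nm P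

/-- `χ` is a ring class character modulo the prime number `q` (trivial on the integers prime to `q`) -/
structure RG {R : Subring ℂ} (q : ℕ) (χ : Ideal R → ℂ) : Prop where
  prime : q.Prime
  rc : RC (sp (q : R)) χ
  int : ∀ m : ℕ, Nat.Coprime m q → χ (sp (m : R)) = 1

/-- number of primitive ideals `c` with `χ(c) ^ k = 1` of norm `≤ y` -/
noncomputable def cntP {R : Subring ℂ} (χ : Ideal R → ℂ) (k : ℕ) (y : ℝ) : ℕ :=
  Set.ncard {c : Ideal R | Pri c ∧ nm c ≤ y ∧ χ c ≠ 0 ∧ χ c ^ k = 1}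

/-- the same for the ideals with all prime divisors of norm `> z` -/
noncomputable def cntR {R : Subring ℂ} (χ : Ideal R → ℂ) (z : ℝ) (k : ℕ) (y : ℝ) : ℕ :=
  Set.ncard {c : Ideal R | Pri c ∧ Rgh z c ∧ nm c ≤ y ∧ χ c ≠ 0 ∧ χ c ^ k = 1}

open Classical in
/-- the tail sum over the primitive ideals with `χ(c) ^ k = 1` and `N c > B` -/
noncomputable def tailP {R : Subring ℂ} (χ : Ideal R → ℂ) (k : ℕ) (B X η : ℝ) : ℝ :=
  ∑' c : Ideal R, if Pri c ∧ B < nm c ∧ χ c ≠ 0 ∧ χ c ^ k = 1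
    then (nm c) ^ (-1 / 2 + η) * Real.exp (-(nm c / X)) else 0

open Classical in
/-- the sum over the rough primitive ideals `≠ ⊤` with `χ(c) ^ k = 1` and `N c ≤ Y` -/
noncomputable def rghS {R : Subring ℂ} (χ : Ideal R → ℂ) (z : ℝ) (k : ℕ) (Y : ℝ) : ℝ :=
  ∑' c : Ideal R, if Pri c ∧ Rgh z c ∧ c ≠ ⊤ ∧ nm c ≤ Y ∧ χ c ≠ 0 ∧ χ c ^ k = 1
    then (nm c) ^ (-1 / 2 : ℝ) else 0

/-- `P` is a prime above the split prime number `p`, prime to `f` -/
def IsPP {R : Subring ℂ} (f : Ideal R) (p : ℕ) (P : Ideal R) : Prop :=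
  P.IsPrime ∧ P * bar P = sp (p : R) ∧ P ≠ bar P ∧ IsCoprime (sp (p : R)) f

open Classical in
/-- the split primes `≤ y` prime to `f` -/
noncomputable def SP {R : Subring ℂ} (f : Ideal R) (y : ℝ) : Finset ℕ :=
  (Finset.range (⌊y⌋₊ + 1)).filter (fun p => p.Prime ∧ ∃ P : Ideal R, IsPP f p P)

open Classical in
/-- a prime above the split prime `p` -/
noncomputable def PP {R : Subring ℂ} (f : Ideal R) (p : ℕ) : Ideal R :=
  if h : ∃ P : Ideal R, IsPP f p P then Classical.choose h else ⊤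

/-- the ideal of the pair `(A, B)` of sets of split primes -/
noncomputable def mB {R : Subring ℂ} (f : Ideal R) (b : Finset ℕ × Finset ℕ) : Ideal R :=
  (∏ p ∈ b.1, PP f p) * ∏ p ∈ b.2, bar (PP f p)

/-- its norm -/
def nB (b : Finset ℕ × Finset ℕ) : ℕ := (∏ p ∈ b.1, p) * ∏ p ∈ b.2, p

/-- the sign -/
def sB (b : Finset ℕ × Finset ℕ) : ℤ := (-1) ^ (b.1.card + b.2.card)

open Classical in
/-- the index set of the mollifier -/
noncomputable def BB {R : Subring ℂ} (f : Ideal R) (y Z : ℝ) : Finset (Finset ℕ × Finset ℕ) :=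
  ((SP f y).powerset ×ˢ (SP f y).powerset).filter (fun b => (nB b : ℝ) ≤ Z)

/-- the mollifier -/
noncomputable def Ml {R : Subring ℂ} (f : Ideal R) (y Z : ℝ) (ψ χ : Ideal R → ℂ) : ℂ :=
  ∑ b ∈ BB f y Z, (sB b : ℂ) * (χ (mB f b) * ψ (mB f b)) / (nB b : ℂ)

/-- the smoothed sum -/
noncomputable def Sm {R : Subring ℂ} (X : ℝ) (ψ χ : Ideal R → ℂ) : ℂ :=
  ∑' I : Ideal R, χ I * ψ I / (nm I : ℂ) * (Real.exp (-(nm I / X)) : ℂ)

open Classical in
/-- the coefficient of the ideal `(m) c` in the product of the two -/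
noncomputable def lam {R : Subring ℂ} (f : Ideal R) (y Z X : ℝ) (m : ℕ) (c : Ideal R) : ℝ :=
  ∑ b ∈ BB f y Z, if mB f b ∣ sp (m : R) * c then
    (sB b : ℝ) * Real.exp (-((m : ℝ) ^ 2 * nm c / (nB b * X))) else 0

open Classical in
/-- the coefficient of the primitive ideal `c` in the product of the two -/
noncomputable def Ph {R : Subring ℂ} (f : Ideal R) (y Z X : ℝ) (q : ℕ) (ψ : Ideal R → ℂ)
    (c : Ideal R) : ℂ :=
  ∑' m : ℕ, if Nat.Coprime m q then ψ (sp (m : R)) / (m : ℂ) ^ 2 * (lam f y Z X m c : ℂ) else 0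

open Classical in
/-- the limit value of the coefficient -/
noncomputable def dl {R : Subring ℂ} (f : Ideal R) (y : ℝ) (c : Ideal R) : ℝ :=
  if ∀ p ∈ SP f y, ¬ PP f p ∣ c ∧ ¬ bar (PP f p) ∣ c then ∏ p ∈ SP f y, (1 - 1 / (p : ℝ)) else 0

open Classical in
/-- the local factor of the least `m` with `mB b ∣ (m) c` -/
noncomputable def mloc {R : Subring ℂ} (f : Ideal R) (c : Ideal R) (b : Finset ℕ × Finset ℕ)
    (p : ℕ) : ℕ :=
  if p ∈ b.1 ∧ p ∈ b.2 then p
  else if p ∈ b.1 then (if PP f p ∣ c then 1 else p)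
  else if p ∈ b.2 then (if bar (PP f p) ∣ c then 1 else p)
  else 1

/-- the least `m ≥ 1` with `mB b ∣ (m) c` -/
noncomputable def mc {R : Subring ℂ} (f : Ideal R) (y : ℝ) (c : Ideal R)
    (b : Finset ℕ × Finset ℕ) : ℕ := ∏ p ∈ SP f y, mloc f c b p

end Pool.Agent.TH936.AC
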