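import Pool.Agent.TH936.AC.Stmts

/-!
# Further parts of the project AC (owner helper936)
-/

set_option autoImplicit false

open Complex

namespace Pool.Agent.TH936.AC

open Pool.Agent.W192.HK

/-- RAM : the ramified primes divide the conductor of `ψ` -/
def A_RAM : Prop := ∀ (R : Subring ℂ) (ω : ℂ), QP R ω → ∀ (f : Ideal R) (ψ : Ideal R → ℂ),
  HC 1 f ψ → CS ψ → Ram f

/-- the primitive ring class characters of prime conductor `q` of order `m` -/
def rcc {R : Subring ℂ} (q m : ℕ) : Set (Ideal R → ℂ) :=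
  {χ | HC 0 (sp (q : R)) χ ∧ RG q χ ∧ Od χ m}

/-- CYC : the number of ring class characters of given order -/
def A_CYC : Prop := ∀ (R : Subring ℂ) (ω : ℂ), QP R ω → ∃ q1 : ℕ, ∀ q : ℕ, q.Prime → q1 ≤ q →
  ∃ n : ℕ, 0 < n ∧ n ≤ q ^ 2 ∧ ∀ m : ℕ, 0 < m →
    (rcc (R := R) q m).Finite ∧ (rcc (R := R) q m).ncard ≤ m ∧
    ∀ χ ∈ rcc (R := R) q m, m ∣ n

end Pool.Agent.TH936.AC
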