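import Pool.Agent.TH936.AC.Wcc
import Pool.Agent.TH936.AC.Stmts2

/-!
# Project AC: the explicit root number of `ψ χ` (helper936, after the proof of `a_wc` by helper60)
-/

set_option autoImplicit false

open Complex

namespace Pool.Agent.TH936.AC

open Pool.Agent.W192.HK
open Pool.Agent.W192.CM (ez nu)
open Pool.Agent.W311.CM (ez_add ez_zero ez_one_iff)
open Pool.Agent.W636.HK (ez_R sum_rp unit_of_cop)

/-- WC2 : the explicit root number -/
def A_WC2 : Prop := ∀ (R : Subring ℂ) (ω : ℂ), QP R ω → ∀ (f : Ideal R) (ψ : Ideal R → ℂ),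
  HC 1 f ψ → CS ψ → ∃ (φ : R) (T1 : Finset R), Sys f {⊤} ⊤ φ T1 ∧
  ∀ q : ℕ, q.Prime → IsCoprime f (sp (q : R)) → ∀ χ : Ideal R → ℂ,
  HC 0 (sp (q : R)) χ → RG q χ → ∀ d : ℕ, Od χ d →
  ∃ T : Finset R, Sys (f * sp (q : R)) {⊤} ⊤ (φ * (q : R)) T ∧
    ∀ a : ℕ, Nat.Coprime a d →
      Wc ω 1 (f * sp (q : R)) ⊤ (φ * (q : R)) T (fun I => ψ I * pw χ a I) =
        Wc ω 1 f ⊤ φ T1 ψ * (ψ (sp (q : R)) / (q : ℂ)) * χ f

open Wcc in
theorem a_wc2 (h1 : H_BASIC) (h2 : H_CLS) (h3 : H_FP) (h7 : H_PW) (h8 : A_BAR) : A_WC2 := by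
  classical
  intro R ω hQ f ψ hψ hcs
  have : IsDedekindDomain R := hQ.qr.ded
  have hf0 : f ≠ ⊥ := hψ.ne
  obtain ⟨φ, hφ⟩ : ∃ φ : R, f = sp φ := (hQ.pid.principal f).principal
  obtain ⟨_, -, -, hcls⟩ := h2 R ω hQ.qr
  obtain ⟨_, _, _, T1, -, hS1⟩ := hcls f hf0
  have hT1 := hS1.rp.uni
  have hR0' : (⊤ : Ideal R) ≠ ⊥ := top_ne_bot
  have hsys1 : Sys f {⊤} ⊤ φ T1 := by
    refine ⟨⟨?_, ?_⟩, ?_, ?_, hR0', ?_, ?_, ⟨fun x _ => trivial, hT1⟩⟩
    · intro b hb
      rw [Finset.mem_singleton.1 hb]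
      exact hR0'
    · intro I _
      refine ⟨⊤, ⟨Finset.mem_singleton_self _, ?_⟩, fun b hb => Finset.mem_singleton.1 hb.1⟩
      rw [Ideal.mul_top]
      exact (hQ.pid.principal I).principal
    · intro b hb
      rw [Finset.mem_singleton.1 hb, ← Ideal.one_eq_top]
      exact isCoprime_one_left
    · intro b hb
      rw [Finset.mem_singleton.1 hb]
    · rw [← Ideal.one_eq_top]
      exact isCoprime_one_left
    · rw [Ideal.mul_top, hφ]
  refine ⟨φ, T1, hsys1, ?_⟩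
  intro q hq hcop χ hχ hrg d hd
  have : Fact q.Prime := ⟨hq⟩
  have hqt : sp (q : R) ≠ ⊤ := q_ne_top h1 hQ.qr hq
  have hq0 : sp (q : R) ≠ ⊥ := hχ.ne
  -- coprimality
  have hφf : φ ∈ f := by rw [hφ]; exact Ideal.mem_span_singleton_self φ
  obtain ⟨a0, b0, hab⟩ : ∃ a b : R, a * φ + b * (q : R) = 1 := by
    obtain ⟨i, hi, j, hj, hij⟩ := Ideal.isCoprime_iff_exists.1 hcop
    rw [hφ] at hi
    obtain ⟨s, rfl⟩ := Ideal.mem_span_singleton'.1 hi
    obtain ⟨t, rfl⟩ := Ideal.mem_span_singleton'.1 hj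
    exact ⟨s, t, hij⟩
  have hqq : (q : R) ∈ sp (q : R) := Ideal.mem_span_singleton_self _
  have hφ0 : φ ≠ 0 := by
    rintro rfl
    apply hf0
    rw [hφ]
    simp
  have hφc : (φ : ℂ) ≠ 0 := fun h => hφ0 (Subtype.ext h)
  have hqc : (q : ℂ) ≠ 0 := by exact_mod_cast hq.ne_zero
  have hR0 : (⊤ : Ideal R) ≠ ⊥ := top_ne_bot
  set T : Finset R := (T1 ×ˢ (Finset.univ : Finset (ZMod q × ZMod q))).image (mm hQ.qr φ) with hT
  have hsys : Sys (f * sp (q : R)) {⊤} ⊤ (φ * (q : R)) T := by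
    refine ⟨⟨?_, ?_⟩, ?_, ?_, hR0, ?_, ?_, rp_mm hQ.qr hφf hab hT1⟩
    · intro b hb
      rw [Finset.mem_singleton.1 hb]
      exact hR0
    · intro I _
      refine ⟨⊤, ⟨Finset.mem_singleton_self _, ?_⟩, fun b hb => Finset.mem_singleton.1 hb.1⟩
      rw [Ideal.mul_top]
      exact (hQ.pid.principal I).principal
    · intro b hb
      rw [Finset.mem_singleton.1 hb, ← Ideal.one_eq_top]
      exact isCoprime_one_left
    · intro b hb
      rw [Finset.mem_singleton.1 hb]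
    · rw [← Ideal.one_eq_top]
      exact isCoprime_one_left
    · rw [Ideal.mul_top, hφ, Ideal.span_singleton_mul_span_singleton]
  refine ⟨T, hsys, ?_⟩
  -- the finite parts
  obtain ⟨-, fmul, -, -, fper⟩ := h3 R ω hQ.qr 1 f ψ hψ (ne_top hψ)
  -- the sum
  have key : ∀ a : ℕ, Nat.Coprime a d →
      gT ω 1 (fun I => ψ I * pw χ a I) (φ * (q : R)) T =
        (∑ x ∈ T1, fp 1 ψ ((q : R) * x) * ez ω ((x : ℂ) / (φ : ℂ))) * pw χ a f * q := by
    intro a ha
    have hPa := h7 R ω hQ.qr (sp (q : R)) χ hχ d hd a ha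
    obtain ⟨-, cmul, -, -, cper⟩ := h3 R ω hQ.qr 0 (sp (q : R)) (pw χ a) hPa hqt
    have hC0 : ∀ α : R, fp 0 (pw χ a) α = pw χ a (sp α) := by
      intro α
      unfold fp
      rw [pow_zero, div_one]
    obtain ⟨α0, -, -, hα2, hα3⟩ := hPa.prim ⊤ (lt_top_iff_ne_top.2 hqt)
    have hG := gauss_q hQ.qr hq (fp 0 (pw χ a)) cmul cper
      (by
        intro m hm
        rw [hC0]
        unfold pw
        rw [hrg.int m hm, if_neg one_ne_zero, one_pow])
      (by
        rw [hC0]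
        unfold pw
        rw [if_pos]
        rw [hχ.zero]
        left
        simp)
      α0 (by rw [hC0]; simpa using hα3) hα2
    unfold gT
    rw [hT, Finset.sum_image]
    · rw [Finset.sum_product]
      have e1 : ∀ x ∈ T1, ∀ p : ZMod q × ZMod q,
          fp 1 (fun I => ψ I * pw χ a I) (mm hQ.qr φ (x, p)) *
            ez ω ((mm hQ.qr φ (x, p) : ℂ) / ((φ * (q : R) : R) : ℂ)) =
          (fp 1 ψ ((q : R) * x) * ez ω ((x : ℂ) / (φ : ℂ))) * pw χ a f *
            (fp 0 (pw χ a) (gg hQ.qr p) * ez ω ((gg hQ.qr p : ℂ) / (q : ℂ))) := by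
        intro x _ p
        rw [ez_mm hQ.qr hφc]
        have e2 : fp 1 (fun I => ψ I * pw χ a I) (mm hQ.qr φ (x, p)) =
            fp 1 ψ (mm hQ.qr φ (x, p)) * fp 0 (pw χ a) (mm hQ.qr φ (x, p)) := by
          unfold fp
          rw [pow_zero, div_one]
          ring
        have e3 : fp 1 ψ (mm hQ.qr φ (x, p)) = fp 1 ψ ((q : R) * x) := by
          apply fper
          have : mm hQ.qr φ (x, p) - (q : R) * x = φ * gg hQ.qr p := by unfold mm; ring
          rw [this]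
          exact f.mul_mem_right _ hφf
        have e4 : fp 0 (pw χ a) (mm hQ.qr φ (x, p)) = pw χ a f * fp 0 (pw χ a) (gg hQ.qr p) := by
          rw [show pw χ a f = fp 0 (pw χ a) φ by rw [hC0, hφ], ← cmul]
          apply cper
          have : mm hQ.qr φ (x, p) - φ * gg hQ.qr p = (q : R) * x := by unfold mm; ring
          rw [this]
          exact (sp (q : R)).mul_mem_right _ hqq
        rw [e2, e3, e4]
        ring
      rw [Finset.sum_congr rfl (fun x hx => Finset.sum_congr rfl (fun p _ => e1 x hx p))]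
      simp only [← Finset.mul_sum]
      rw [hG, ← Finset.sum_mul, ← Finset.sum_mul]
    · intro v hv v' hv' he
      rw [Finset.mem_coe, Finset.mem_product] at hv hv'
      apply mm_inj hQ.qr hφf hab hT1 v v' hv.1 hv'.1
      rw [he, sub_self]
      exact (f * sp (q : R)).zero_mem
  -- the value at `f`
  have hχf : χ f ≠ 0 := by
    intro h
    rcases (hχ.zero f).1 h with h | h
    · exact hf0 h
    · exact h hcop
  have hsq : χ f * χ f = 1 := by
    obtain ⟨-, -, -, -, -, -, -, -, b9, -⟩ := h8 R ω hQ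
    have e1 := b9 f hf0
    rw [bar_eq h8 h3 hQ hψ hcs] at e1
    rw [← hχ.mul, e1]
    apply hrg.int
    refine nat_cop hq ?_ hqt
    rw [← e1]
    exact hcop.mul_left hcop
  have hpf : ∀ a : ℕ, Nat.Coprime a d → pw χ a f = χ f := by
    intro a ha
    unfold pw
    rw [if_neg hχf]
    have e1 : (χ f - 1) * (χ f + 1) = 0 := by linear_combination hsq
    rcases mul_eq_zero.1 e1 with e2 | e2
    · have e3 : χ f = 1 := by linear_combination e2
      rw [e3, one_pow]
    · have e3 : χ f = -1 := by linear_combination e2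
      rw [e3]
      have e4 := hd.pow f hχf
      rw [e3] at e4
      have e5 : Even d := by
        rcases Nat.even_or_odd d with h | h
        · exact h
        · rw [h.neg_one_pow] at e4
          norm_num at e4
      have e6 : Odd a := by
        rw [← Nat.not_even_iff_odd]
        intro h
        have h2' : (2 : ℕ) ∣ Nat.gcd a d := Nat.dvd_gcd h.two_dvd e5.two_dvd
        rw [ha] at h2'
        norm_num at h2'
      exact e6.neg_one_pow
  have hone : ∀ a : ℕ, pw χ a ⊤ = 1 := by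
    intro a
    unfold pw
    rw [hc_top hχ, if_neg one_ne_zero, one_pow]
  have hval : ∀ a : ℕ, Nat.Coprime a d →
      Wc ω 1 (f * sp (q : R)) ⊤ (φ * (q : R)) T (fun I => ψ I * pw χ a I) =
      (∑ x ∈ T1, fp 1 ψ ((q : R) * x) * ez ω ((x : ℂ) / (φ : ℂ))) * χ f * q *
        ((φ * (q : R) : R) : ℂ) ^ (2 * 1 - 1) / ((nm (f * sp (q : R)) : ℂ) ^ 1 * ψ ⊤) := by
    intro a ha
    unfold Wc
    rw [show 2 * 1 - 1 = 1 from rfl, key a ha, hpf a ha]
    simp only [hone a, mul_one]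
  intro a ha
  have hsum : (∑ x ∈ T1, fp 1 ψ ((q : R) * x) * ez ω ((x : ℂ) / (φ : ℂ))) =
      fp 1 ψ (q : R) * gT ω 1 ψ φ T1 := by
    unfold gT
    rw [Finset.mul_sum]
    refine Finset.sum_congr rfl fun x _ => ?_
    rw [fmul]
    ring
  obtain ⟨-, -, b3, b4, b5, -⟩ := h1 R ω hQ.qr
  have hnq : nm (sp (q : R)) = (q : ℝ) ^ 2 := by
    rw [b5, Subring.coe_natCast, Complex.normSq_natCast]
    ring
  have hnf : (nm f : ℂ) ≠ 0 := by
    have := b3 f hf0
    exact_mod_cast (by linarith : nm f ≠ 0)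
  have hψt : ψ ⊤ = 1 := hc_top hψ
  rw [hval a ha, hsum]
  unfold Wc fp
  rw [b4, hnq, hψt, show 2 * 1 - 1 = 1 from rfl]
  push_cast
  field_simp

end Pool.Agent.TH936.AC
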