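import Pool.Agent.TH936.AC.Asm4
import Pool.Agent.TH936.AC.Wc2
import Pool.Agent.TH936.CM.Fin
import Pool.Agent.TH936.CM.Odb

/-!
# Project AC: the functions `L(ψ χ, s)`, their signs, and the non-vanishing
-/

set_option autoImplicit false

open Complex

namespace Pool.Agent.TH936.AC

open Pool.Agent.W192.HK
open Pool.Agent.TH936.CM (IsL entire_eq)

variable {R : Subring ℂ} {ω : ℂ}

/-- ring class characters are conjugation symmetric -/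
theorem cs_rg (h1 : H_BASIC) (h2 : H_FPR) (a1 : A_BAR) (hR : QP R ω) {q : ℕ} {χ : Ideal R → ℂ}
    (h : RG q χ) : CS χ := by
  obtain ⟨-, -, k3, k4, -, -, k7, k8, k9, k10, k11, k12, k13, k14⟩ := a1 R ω hR
  obtain ⟨p1, p2, p3, -⟩ := h2 R ω hR.qr _ χ h.rc
  intro I
  by_cases hI : χ I = 0
  · have h0 : χ (bar I) = 0 := by
      rcases (h.rc.zero I).1 hI with h3 | h3
      · rw [h3, k10]
        exact (h.rc.zero _).2 (Or.inl rfl)
      · refine (h.rc.zero _).2 (Or.inr fun h4 => h3 ?_)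
        rw [← k7 q, k14] at h4
        exact h4
    rw [h0, hI, map_zero]
  · have hIb : I ≠ ⊥ := fun e => hI ((h.rc.zero I).2 (Or.inl e))
    have hIq : IsCoprime I (sp (q : R)) := by
      by_contra e
      exact hI ((h.rc.zero I).2 (Or.inr e))
    have hIq' : IsCoprime (bar I) (sp (q : R)) := by
      rw [← k7 q, k14]
      exact hIq
    have hN : IsCoprime (I * bar I) (sp (q : R)) := IsCoprime.mul_left hIq hIq'
    rw [k9 I hIb] at hN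
    have hcop : Nat.Coprime (Nat.card (R ⧸ I)) q :=
      Wcc.nat_cop h.prime hN (Wcc.q_ne_top h1 hR.qr h.prime)
    have e1 : χ I * χ (bar I) = 1 := by rw [← h.rc.mul, k9 I hIb, h.int _ hcop]
    have e2 : ‖χ I‖ = 1 := p2 I hI
    have e3 : χ I * (starRingEnd ℂ) (χ I) = 1 := by
      rw [Complex.mul_conj, Complex.normSq_eq_norm_sq, e2]
      simp
    exact mul_left_cancel₀ hI (e1.trans e3.symm)

theorem cs_mul {ψ χ : Ideal R → ℂ} (h : CS ψ) (h' : CS χ) : CS (fun I => ψ I * χ I) := by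
  intro I
  show ψ (bar I) * χ (bar I) = _
  rw [h I, h' I, map_mul]

theorem pw_one (χ : Ideal R → ℂ) : pw χ 1 = χ := by
  funext I
  unfold pw
  split_ifs with h
  · rw [h]
  · rw [pow_one]

/-- the functions and the signs -/
theorem data (h1 : H_BASIC) (h2 : H_FPR) (h3 : H_PROD) (h4 : H_PW) (a1 : A_BAR) (a2 : A_FE)
    (a3 : A_WC2) (hR : QP R ω) {f : Ideal R} {ψ : Ideal R → ℂ} (hψ : HC 1 f ψ) (hcs : CS ψ) :
    ∃ w : ℂ, (w = 1 ∨ w = -1) ∧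
      (∃ F : ℂ → ℂ, Differentiable ℂ F ∧
        (∀ z : ℂ, 3 / 2 < z.re → HasSum (fun I : Ideal R => ψ I * (nm I : ℂ) ^ (-z)) (F z)) ∧
        FEQ ω f w F) ∧
      ∀ (q : ℕ) (χ : Ideal R → ℂ), HC 0 (sp (q : R)) χ → RG q χ → IsCoprime f (sp (q : R)) →
        (w * (ψ (sp (q : R)) / (q : ℂ)) * χ f = 1 ∨
          w * (ψ (sp (q : R)) / (q : ℂ)) * χ f = -1) ∧
        ∃ F : ℂ → ℂ, IsL ψ χ F ∧
          FEQ ω (f * sp (q : R)) (w * (ψ (sp (q : R)) / (q : ℂ)) * χ f) F ∧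
          F 1 = (1 + w * (ψ (sp (q : R)) / (q : ℂ)) * χ f) *
            Sm (ω.im * Real.sqrt (nm (f * sp (q : R))) / Real.pi) ψ χ ∧
          ∀ d : ℕ, Od χ d → ∀ a : ℕ, Nat.Coprime a d → ∃ Fa : ℂ → ℂ, IsL ψ (pw χ a) Fa ∧
            Fa 1 = (1 + w * (ψ (sp (q : R)) / (q : ℂ)) * χ f) *
              Sm (ω.im * Real.sqrt (nm (f * sp (q : R))) / Real.pi) ψ (pw χ a) := by
  classical
  obtain ⟨φ, T1, hS1, hmain⟩ := a3 R ω hR f ψ hψ hcs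
  obtain ⟨hw, F0, g1, g2, g3, -⟩ := a2 R ω hR f ψ hψ hcs _ _ _ _ hS1 _ rfl
  refine ⟨Wc ω 1 f ⊤ φ T1 ψ, hw, ⟨F0, g1, g2, g3⟩, ?_⟩
  intro q χ hχ hrg hcop
  have key : ∀ d : ℕ, Od χ d → ∀ a : ℕ, Nat.Coprime a d →
      (Wc ω 1 f ⊤ φ T1 ψ * (ψ (sp (q : R)) / (q : ℂ)) * χ f = 1 ∨
        Wc ω 1 f ⊤ φ T1 ψ * (ψ (sp (q : R)) / (q : ℂ)) * χ f = -1) ∧
      ∃ Fa : ℂ → ℂ, IsL ψ (pw χ a) Fa ∧
        FEQ ω (f * sp (q : R)) (Wc ω 1 f ⊤ φ T1 ψ * (ψ (sp (q : R)) / (q : ℂ)) * χ f) Fa ∧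
        Fa 1 = (1 + Wc ω 1 f ⊤ φ T1 ψ * (ψ (sp (q : R)) / (q : ℂ)) * χ f) *
          Sm (ω.im * Real.sqrt (nm (f * sp (q : R))) / Real.pi) ψ (pw χ a) := by
    intro d hd a ha
    obtain ⟨T, hS, hT⟩ := hmain q hrg.prime hcop χ hχ hrg d hd
    have e1 : HC 0 (sp (q : R)) (pw χ a) := h4 R ω hR.qr _ χ hχ d hd a ha
    have e2 : RG q (pw χ a) := rg_pw hrg a
    have e3 : CS (fun I => ψ I * pw χ a I) := cs_mul hcs (cs_rg h1 h2 a1 hR e2)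
    have e4 : HC 1 (f * sp (q : R)) (fun I => ψ I * pw χ a I) :=
      h3 R ω hR.qr 1 f _ ψ _ hψ e1 hcop
    obtain ⟨k1, F, k2, k3, k4, k5⟩ := a2 R ω hR _ _ e4 e3 _ _ _ _ hS _ (hT a ha).symm
    refine ⟨k1, F, ⟨k2, k3⟩, k4, ?_⟩
    rw [k5]
    congr 1
    unfold Sm
    refine tsum_congr fun I => ?_
    ring
  obtain ⟨-, -, -, d, hd⟩ := h2 R ω hR.qr _ χ hrg.rc
  obtain ⟨k1, F, k2, k3, k4⟩ := key d hd 1 (Nat.coprime_one_left d)
  rw [pw_one] at k2 k4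
  refine ⟨k1, F, k2, k3, k4, fun d' hd' a ha => ?_⟩
  obtain ⟨-, Fa, l1, -, l3⟩ := key d' hd' a ha
  exact ⟨Fa, l1, l3⟩

/-- non-vanishing for every ring class character of large order -/
theorem nonv {f : Ideal R} {ψ : Ideal R → ℂ}
    (hcore : ∀ M : ℕ, 1 ≤ M → ∀ ε : ℝ, 0 < ε → ∃ q0 : ℝ, ∀ (q : ℕ) (χ : Ideal R → ℂ),
      RG q χ → IsCoprime f (sp (q : R)) → q0 ≤ q → ∀ d : ℕ, Od χ d → (q : ℝ) ^ (2 / 3 + ε) ≤ d →
      ∃ a : ℕ, Nat.Coprime a d ∧ a % M = 1 % M ∧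
        Sm (ω.im * Real.sqrt (nm (f * sp (q : R))) / Real.pi) ψ (pw χ a) ≠ 0)
    (hequi : ∃ M : ℕ, 0 < M ∧ ∀ (c : Ideal R) (χ : Ideal R → ℂ), IsCoprime f c → HC 0 c χ →
      ∀ d : ℕ, Od χ d → ∀ a : ℕ, Nat.Coprime a d → a % M = 1 % M →
        ∀ F F' : ℂ → ℂ, IsL ψ χ F → IsL ψ (pw χ a) F' → (F 1 = 0 ↔ F' 1 = 0)) (w : ℂ)
    (hdata : ∀ (q : ℕ) (χ : Ideal R → ℂ), HC 0 (sp (q : R)) χ → RG q χ →
        IsCoprime f (sp (q : R)) → ∀ d : ℕ, Od χ d → ∀ a : ℕ, Nat.Coprime a d →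
          ∃ Fa : ℂ → ℂ, IsL ψ (pw χ a) Fa ∧
            Fa 1 = (1 + w * (ψ (sp (q : R)) / (q : ℂ)) * χ f) *
              Sm (ω.im * Real.sqrt (nm (f * sp (q : R))) / Real.pi) ψ (pw χ a))
    (ε : ℝ) (hε : 0 < ε) : ∃ q0 : ℝ, ∀ (q : ℕ) (χ : Ideal R → ℂ), HC 0 (sp (q : R)) χ →
      RG q χ → IsCoprime f (sp (q : R)) → q0 ≤ q → ∀ d : ℕ, Od χ d →
      (q : ℝ) ^ (2 / 3 + ε) ≤ d → w * (ψ (sp (q : R)) / (q : ℂ)) * χ f = 1 →
      ∀ F : ℂ → ℂ, IsL ψ χ F → F 1 ≠ 0 := by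
  obtain ⟨M, hM, hM2⟩ := hequi
  obtain ⟨q0, hq0⟩ := hcore M hM ε hε
  refine ⟨q0, fun q χ hχ hrg hcop hq d hd hdq hW F hF h0 => ?_⟩
  obtain ⟨a, ha, haM, hS⟩ := hq0 q χ hrg hcop hq d hd hdq
  obtain ⟨Fa, k1, k2⟩ := hdata q χ hχ hrg hcop d hd a ha
  have h1 := (hM2 _ χ hcop hχ d hd a ha haM F Fa hF k1).1 h0
  rw [k2, hW] at h1
  rcases mul_eq_zero.1 h1 with h2 | h2
  · norm_num at h2
  · exact hS h2

/-- the sum of the orders of vanishing over the ring class characters with sign `+1` -/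
theorem rank (hdiv : Pool.Agent.W192.CY.S_DIV) (h1 : H_BASIC) (h2 : H_FPR) (a1 : A_CYC)
    (hR : QP R ω) {f : Ideal R} (hf : f ≠ ⊥) (L : (Ideal R → ℂ) → ℂ → ℂ)
    (S : ℕ → (Ideal R → ℂ) → Prop)
    (hL : ∀ ε : ℝ, 0 < ε → ∃ q0 : ℝ, ∀ (q : ℕ) (χ : Ideal R → ℂ), HC 0 (sp (q : R)) χ →
      RG q χ → IsCoprime f (sp (q : R)) → q0 ≤ q → ∀ d : ℕ, Od χ d →
      (q : ℝ) ^ (2 / 3 + ε) ≤ d → S q χ → L χ 1 ≠ 0)
    (hD : ∀ (q : ℕ) (χ : Ideal R → ℂ), HC 0 (sp (q : R)) χ → RG q χ →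
      IsCoprime f (sp (q : R)) → Differentiable ℂ (L χ))
    {K : ℝ} (hK : 0 < K) (hord : ∀ (q : ℕ) (χ : Ideal R → ℂ), HC 0 (sp (q : R)) χ → RG q χ →
      IsCoprime f (sp (q : R)) →
      (analyticOrderNatAt (L χ) 1 : ℝ) ≤ K * (1 + Real.log (nm (f * sp (q : R)))))
    (ε : ℝ) (hε : 0 < ε) :
    ∃ q0 : ℝ, ∀ q : ℕ, q.Prime → IsCoprime f (sp (q : R)) → q0 ≤ q →
      {χ : Ideal R → ℂ | HC 0 (sp (q : R)) χ ∧ RG q χ ∧ S q χ}.Finite ∧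
      ∑ᶠ χ ∈ {χ : Ideal R → ℂ | HC 0 (sp (q : R)) χ ∧ RG q χ ∧ S q χ},
        (analyticOrderNatAt (L χ) 1 : ℝ) ≤ (q : ℝ) ^ (2 / 3 + ε) := by
  classical
  set δ : ℝ := ε / 4 with hδ
  have hδ0 : 0 < δ := by positivity
  obtain ⟨q2, hq2⟩ := hL δ hδ0
  obtain ⟨q1, hq1⟩ := a1 R ω hR
  obtain ⟨C, hC, hdv, -⟩ := hdiv (δ / 2) (by positivity)
  obtain ⟨b1, b2, b3, b4, b5, b6, b7, -⟩ := h1 R ω hR.qr
  have hnf : 1 ≤ nm f := b3 f hf
  have hlf : 0 ≤ Real.log (nm f) := Real.log_nonneg hnf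
  set C1 : ℝ := C * (K * ((1 + Real.log (nm f)) * (1 + 2 / δ))) with hC1
  have hC10 : 0 ≤ C1 := by positivity
  -- large `q`
  have hlarge : ∃ q3 : ℝ, ∀ x : ℝ, q3 ≤ x → C1 ≤ x ^ δ := by
    have := (tendsto_rpow_atTop hδ0).eventually_ge_atTop C1
    exact Filter.eventually_atTop.1 this
  obtain ⟨q3, hq3⟩ := hlarge
  refine ⟨max (max q2 q1) q3, fun q hqp hcop hq => ?_⟩
  have hqq2 : q2 ≤ q := (le_max_left _ _).trans ((le_max_left _ _).trans hq)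
  have hqq1 : (q1 : ℝ) ≤ q := (le_max_right _ _).trans ((le_max_left _ _).trans hq)
  have hqq3 : q3 ≤ q := (le_max_right _ _).trans hq
  have hqx1 : (1 : ℝ) ≤ q := by exact_mod_cast hqp.one_le
  have hqx0 : (0 : ℝ) < q := by linarith
  obtain ⟨n, hn0, hnq, hcyc⟩ := hq1 q hqp (by exact_mod_cast hqq1)
  set A : Set (Ideal R → ℂ) := {χ : Ideal R → ℂ | HC 0 (sp (q : R)) χ ∧ RG q χ ∧ S q χ} with hA
  have hod : ∀ χ ∈ A, ∃ m : ℕ, m ∈ n.divisors ∧ χ ∈ rcc (R := R) q m := by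
    rintro χ ⟨hχ, hrg, -⟩
    obtain ⟨-, -, -, d, hd⟩ := h2 R ω hR.qr _ χ hrg.rc
    have hmem : χ ∈ rcc (R := R) q d := ⟨hχ, hrg, hd⟩
    exact ⟨d, Nat.mem_divisors.2 ⟨(hcyc d hd.pos).2.2 χ hmem, hn0.ne'⟩, hmem⟩
  have hpos : ∀ m ∈ n.divisors, 0 < m := fun m hm => Nat.pos_of_mem_divisors hm
  have hfinA : A.Finite := by
    refine Set.Finite.subset (Set.Finite.biUnion (Finset.finite_toSet n.divisors)
      fun m hm => (hcyc m (hpos m hm)).1) ?_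
    intro χ hχ
    obtain ⟨m, hm, hm2⟩ := hod χ hχ
    simp only [Set.mem_iUnion]
    exact ⟨m, hm, hm2⟩
  refine ⟨hfinA, ?_⟩
  rw [finsum_mem_eq_finite_toFinset_sum _ hfinA]
  -- the characters with a zero
  set X : ℝ := (q : ℝ) ^ (2 / 3 + δ) with hX
  have hX0 : 0 ≤ X := by positivity
  set Z : Set (Ideal R → ℂ) := {χ | χ ∈ A ∧ L χ 1 = 0} with hZ
  set D : Finset ℕ := n.divisors.filter (fun m => (m : ℝ) ≤ X) with hD2
  have hZsub : Z ⊆ ⋃ m ∈ D, rcc (R := R) q m := by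
    rintro χ ⟨hχA, h0⟩
    obtain ⟨m, hm, hm2⟩ := hod χ hχA
    simp only [Set.mem_iUnion]
    refine ⟨m, Finset.mem_filter.2 ⟨hm, ?_⟩, hm2⟩
    by_contra hlt
    push Not at hlt
    exact hq2 q χ hχA.1 hχA.2.1 hcop hqq2 m hm2.2.2 hlt.le hχA.2.2 h0
  have hDpos : ∀ m ∈ D, 0 < m := fun m hm => hpos m (Finset.mem_filter.1 hm).1
  have hUfin : (⋃ m ∈ D, rcc (R := R) q m).Finite :=
    Set.Finite.biUnion (Finset.finite_toSet _) fun m hm => (hcyc m (hDpos m hm)).1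
  have hZfin : Z.Finite := hfinA.subset fun χ hχ => hχ.1
  have hZcard : (Z.ncard : ℝ) ≤ (C * (q : ℝ) ^ δ) * X := by
    have g1 := (Set.ncard_le_ncard hZsub hUfin).trans (Finset.set_ncard_biUnion_le _ _)
    calc (Z.ncard : ℝ) ≤ ((∑ m ∈ D, (rcc (R := R) q m).ncard : ℕ) : ℝ) := by exact_mod_cast g1
      _ ≤ ∑ _m ∈ D, X := by
          push_cast
          refine Finset.sum_le_sum fun m hm => ?_
          refine le_trans ?_ (Finset.mem_filter.1 hm).2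
          exact_mod_cast (hcyc m (hDpos m hm)).2.1
      _ = (D.card : ℝ) * X := by rw [Finset.sum_const, nsmul_eq_mul]
      _ ≤ (C * (q : ℝ) ^ δ) * X := by
          refine mul_le_mul_of_nonneg_right ?_ hX0
          have e1 : (D.card : ℝ) ≤ (n.divisors.card : ℝ) := by
            exact_mod_cast Finset.card_filter_le _ _
          refine e1.trans ((hdv n hn0).trans ?_)
          refine mul_le_mul_of_nonneg_left ?_ hC.le
          have e2 : (n : ℝ) ≤ (q : ℝ) ^ (2 : ℝ) := by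
            rw [Real.rpow_two]
            exact_mod_cast hnq
          calc (n : ℝ) ^ (δ / 2) ≤ ((q : ℝ) ^ (2 : ℝ)) ^ (δ / 2) :=
                Real.rpow_le_rpow (Nat.cast_nonneg _) e2 (by positivity)
            _ = (q : ℝ) ^ δ := by
                rw [← Real.rpow_mul hqx0.le]
                congr 1
                ring
  -- the logarithm
  have hnq2 : nm (sp (q : R)) = (q : ℝ) ^ 2 := by
    rw [b5, Subring.coe_natCast, Complex.normSq_natCast]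
    ring
  have hlogq : 1 + Real.log (nm (f * sp (q : R))) ≤
      (1 + Real.log (nm f)) * ((1 + 2 / δ) * (q : ℝ) ^ δ) := by
    rw [b4, hnq2, Real.log_mul (by linarith) (by positivity), Real.log_pow]
    have e1 : Real.log q ≤ (q : ℝ) ^ δ / δ := Real.log_le_rpow_div hqx0.le hδ0
    have e2 : 1 ≤ (q : ℝ) ^ δ := Real.one_le_rpow hqx1 hδ0.le
    have e3 : 1 + 2 * Real.log q ≤ (1 + 2 / δ) * (q : ℝ) ^ δ := by
      calc 1 + 2 * Real.log q ≤ (q : ℝ) ^ δ + 2 * ((q : ℝ) ^ δ / δ) := by linarith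
        _ = _ := by ring
    have e4 : 0 ≤ Real.log q := Real.log_nonneg hqx1
    calc 1 + (Real.log (nm f) + ((2 : ℕ) : ℝ) * Real.log q) ≤
          (1 + Real.log (nm f)) * (1 + 2 * Real.log q) := by
          push_cast
          nlinarith [mul_nonneg hlf e4]
      _ ≤ _ := mul_le_mul_of_nonneg_left e3 (by linarith)
  have hmain : ∑ χ ∈ hfinA.toFinset, (analyticOrderNatAt (L χ) 1 : ℝ) ≤
      Z.ncard * (K * ((1 + Real.log (nm f)) * ((1 + 2 / δ) * (q : ℝ) ^ δ))) := by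
    have g1 : ∑ χ ∈ hfinA.toFinset, (analyticOrderNatAt (L χ) 1 : ℝ) =
        ∑ χ ∈ hZfin.toFinset, (analyticOrderNatAt (L χ) 1 : ℝ) := by
      symm
      refine Finset.sum_subset ?_ ?_
      · intro χ hχ
        rw [Set.Finite.mem_toFinset] at hχ ⊢
        exact hχ.1
      · intro χ hχ hχ'
        rw [Set.Finite.mem_toFinset] at hχ hχ'
        have hne : L χ 1 ≠ 0 := fun h => hχ' ⟨hχ, h⟩
        have hd := hD q χ hχ.1 hχ.2.1 hcop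
        have h0 : analyticOrderAt (L χ) 1 = 0 :=
          (hd.analyticAt 1).analyticOrderAt_eq_zero.2 hne
        unfold analyticOrderNatAt
        rw [h0]
        simp
    rw [g1]
    calc ∑ χ ∈ hZfin.toFinset, (analyticOrderNatAt (L χ) 1 : ℝ)
        ≤ ∑ _χ ∈ hZfin.toFinset,
            K * ((1 + Real.log (nm f)) * ((1 + 2 / δ) * (q : ℝ) ^ δ)) := by
          refine Finset.sum_le_sum fun χ hχ => ?_
          rw [Set.Finite.mem_toFinset] at hχ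
          refine (hord q χ hχ.1.1 hχ.1.2.1 hcop).trans ?_
          exact mul_le_mul_of_nonneg_left hlogq hK.le
      _ = _ := by
          rw [Finset.sum_const, nsmul_eq_mul, ← Set.ncard_eq_toFinset_card _ hZfin]
  refine hmain.trans ?_
  have hfac : 0 ≤ K * ((1 + Real.log (nm f)) * ((1 + 2 / δ) * (q : ℝ) ^ δ)) := by positivity
  refine (mul_le_mul_of_nonneg_right hZcard hfac).trans ?_
  have e1 : (q : ℝ) ^ (2 / 3 + ε) = (q : ℝ) ^ (2 / 3 + δ) * (q : ℝ) ^ δ * (q : ℝ) ^ δ *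
      (q : ℝ) ^ δ := by
    rw [← Real.rpow_add hqx0, ← Real.rpow_add hqx0, ← Real.rpow_add hqx0]
    congr 1
    rw [hδ]
    ring
  calc (C * (q : ℝ) ^ δ) * X * (K * ((1 + Real.log (nm f)) * ((1 + 2 / δ) * (q : ℝ) ^ δ)))
      = (q : ℝ) ^ (2 / 3 + δ) * (q : ℝ) ^ δ * (q : ℝ) ^ δ * C1 := by
        rw [hX, hC1]
        ring
    _ ≤ (q : ℝ) ^ (2 / 3 + δ) * (q : ℝ) ^ δ * (q : ℝ) ^ δ * (q : ℝ) ^ δ := by
        refine mul_le_mul_of_nonneg_left (hq3 q hqq3) (by positivity)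
    _ = _ := e1.symm

end Pool.Agent.TH936.AC
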