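import Pool.Agent.TH936.AC.Stmts
import Pool.Agent.W636.HK.Gauss

/-!
# Project AC (owner helper936), part WC (helper60): the root number of `ψ χ^a` does not depend on `a`
-/

set_option autoImplicit false

open Complex

namespace Pool.Agent.TH936.AC

open Pool.Agent.W192.HK
open Pool.Agent.W192.CM (ez nu)
open Pool.Agent.W311.CM (ez_add ez_zero ez_one_iff)
open Pool.Agent.W636.HK (ez_R sum_rp unit_of_cop)

namespace Wcc

variable {R : Subring ℂ} {ω : ℂ}

lemma hc_top {n : ℕ} {f : Ideal R} {ψ : Ideal R → ℂ} (h : HC n f ψ) : ψ ⊤ = 1 := by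
  have := h.princ 1 one_ne_zero (by simp)
  simpa [sp] using this

lemma ne_top {f : Ideal R} {ψ : Ideal R → ℂ} (h : HC 1 f ψ) : f ≠ ⊤ := by
  intro hf
  subst hf
  have h1 := h.princ (-1) (by simp) trivial
  have h2 : sp (-1 : R) = ⊤ := by
    rw [Ideal.span_singleton_eq_top]
    exact isUnit_one.neg
  rw [h2, hc_top h] at h1
  norm_num at h1

/-- the conductor of `ψ` is stable under conjugation -/
lemma bar_eq (hB : A_BAR) (hF : H_FP) (hQ : QP R ω) {f : Ideal R} {ψ : Ideal R → ℂ}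
    (h : HC 1 f ψ) (hc : CS ψ) : bar f = f := by
  obtain ⟨b1, b2, b3, b4, b5, b6, -⟩ := hB R ω hQ
  obtain ⟨-, -, fz, -, fper⟩ := hF R ω hQ.qr 1 f ψ h (ne_top h)
  by_contra hne
  have hlt : f < f ⊔ bar f := by
    refine lt_of_le_of_ne le_sup_left ?_
    intro he
    apply hne
    have h2 : bar f = bar (f ⊔ bar f) := by rw [← he]
    rw [b5, b3, sup_comm, ← he] at h2
    exact h2
  obtain ⟨α, hα0, hα1, hα2, hα3⟩ := h.prim _ hlt
  obtain ⟨u, hu, v, hv, huv⟩ := Submodule.mem_sup.1 hα1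
  set γ : R := α - u with hγ
  have h1 : fp 1 ψ α = fp 1 ψ γ := fper _ _ (by rw [hγ]; simpa using hu)
  have h2 : fp 1 ψ γ ≠ 0 := by
    rw [← h1]
    exact fun h' => (fz α).1 h' hα2
  have hγ0 : γ ≠ 0 := by
    intro h0
    apply h2
    rw [h0]
    unfold fp
    simp
  obtain ⟨w, hw⟩ := b1 γ
  have hγc : (γ : ℂ) ≠ 0 := fun h' => hγ0 (Subtype.ext h')
  have hw0 : w ≠ 0 := by
    intro h0
    rw [h0] at hw
    apply hγc
    simpa using hw.symm
  have h3 : w - 1 ∈ f := by
    have h4 : γ - 1 ∈ bar f := by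
      have : γ - 1 = v := by rw [hγ]; linear_combination -huv
      rw [this]; exact hv
    refine (b2 f (γ - 1) (w - 1) ?_).1 h4
    push_cast
    rw [hw, map_sub, map_one]
  have h5 := h.princ w hw0 h3
  rw [pow_one, ← b6 γ w hw, hc, hw] at h5
  have h6 : ψ (sp γ) = (γ : ℂ) := (starRingEnd ℂ).injective h5
  have h7 : fp 1 ψ γ = 1 := by
    unfold fp
    rw [h6, pow_one, div_self hγc]
  rw [h7] at h1
  apply hα3
  have hαc : (α : ℂ) ≠ 0 := fun h' => hα0 (Subtype.ext h')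
  unfold fp at h1
  rwa [div_eq_one_iff_eq (by simpa using hαc)] at h1

/-- an integer is prime to `q` if it is so in `R` -/
lemma nat_cop {q : ℕ} (hq : q.Prime) {n : ℕ}
    (h : IsCoprime (sp (n : R)) (sp (q : R))) (hn : sp (q : R) ≠ ⊤) : Nat.Coprime n q := by
  by_contra hc
  have h1 : q ∣ n := by
    by_contra h2
    exact hc ((Nat.Prime.coprime_iff_not_dvd hq).2 h2).symm
  obtain ⟨k, rfl⟩ := h1
  apply hn
  rw [Ideal.isCoprime_iff_sup_eq] at h
  rw [eq_top_iff, ← h]
  refine sup_le ?_ le_rfl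
  rw [Ideal.span_singleton_le_span_singleton]
  exact ⟨(k : R), by push_cast; ring⟩

lemma q_ne_top (hB : H_BASIC) (hQ : QR R ω) {q : ℕ} (hq : q.Prime) : sp (q : R) ≠ ⊤ := by
  intro h
  obtain ⟨-, -, -, -, hn, -, ht, -⟩ := hB R ω hQ
  have h1 := hn (q : R)
  rw [(ht _).2 h] at h1
  have h2 : Complex.normSq (((q : R)) : ℂ) = (q : ℝ) ^ 2 := by
    rw [Subring.coe_natCast, Complex.normSq_natCast]; ring
  rw [h2] at h1
  have h3 : (2 : ℝ) ≤ q := by exact_mod_cast hq.two_le
  nlinarith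

/-! ### the Gauss sum of a ring class character -/

/-- `ω` as an element of `R` -/
def om (hQ : QR R ω) : R := ⟨ω, (hQ.mem ω).2 ⟨0, 1, by simp⟩⟩

/-- the representatives -/
def gg (hQ : QR R ω) {q : ℕ} (p : ZMod q × ZMod q) : R := (p.1.val : R) + (p.2.val : R) * om hQ

lemma coord (hQ : QR R ω) (q : ℕ) (x y : ℤ) :
    (x : R) + (y : R) * om hQ ∈ sp (q : R) ↔ (q : ℤ) ∣ x ∧ (q : ℤ) ∣ y := by
  rw [Ideal.mem_span_singleton]
  constructor
  · rintro ⟨β, hβ⟩
    obtain ⟨a, b, hab⟩ := (hQ.mem β).1 β.2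
    have h1 : (x : ℂ) + y * ω = q * (a + b * ω) := by
      have := congrArg (fun t : R => (t : ℂ)) hβ
      simp only [Subring.coe_add, Subring.coe_mul, Subring.coe_intCast, Subring.coe_natCast] at this
      rw [← hab]
      exact this
    have h2 := congrArg Complex.im h1
    have h3 := congrArg Complex.re h1
    simp at h2 h3
    have h4 : (y : ℝ) = q * b := by
      have := hQ.im.ne'
      apply mul_right_cancel₀ this
      linarith
    have h5 : (x : ℝ) = q * a := by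
      rw [h4] at h3
      linarith
    exact ⟨⟨a, by exact_mod_cast h5⟩, ⟨b, by exact_mod_cast h4⟩⟩
  · rintro ⟨⟨a, ha⟩, ⟨b, hb⟩⟩
    refine ⟨(a : R) + (b : R) * om hQ, ?_⟩
    rw [ha, hb]
    push_cast
    ring

lemma coordZ (hQ : QR R ω) (q : ℕ) (x y : ℤ) :
    (x : R) + (y : R) * om hQ ∈ sp (q : R) ↔ (x : ZMod q) = 0 ∧ (y : ZMod q) = 0 := by
  rw [coord, ZMod.intCast_zmod_eq_zero_iff_dvd, ZMod.intCast_zmod_eq_zero_iff_dvd]

variable {q : ℕ} [NeZero q]

lemma gg_cls (hQ : QR R ω) (x y : ℤ) (p : ZMod q × ZMod q) :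
    ((x : R) + (y : R) * om hQ) - gg hQ p ∈ sp (q : R) ↔ (x : ZMod q) = p.1 ∧ (y : ZMod q) = p.2 := by
  have h1 : ((x : R) + (y : R) * om hQ) - gg hQ p =
      ((x - (p.1.val : ℤ) : ℤ) : R) + ((y - (p.2.val : ℤ) : ℤ) : R) * om hQ := by
    unfold gg
    push_cast
    ring
  rw [h1, coordZ]
  push_cast
  rw [ZMod.natCast_zmod_val, ZMod.natCast_zmod_val, sub_eq_zero, sub_eq_zero]

lemma gg_ex (hQ : QR R ω) (α : R) : ∃ p : ZMod q × ZMod q, α - gg hQ p ∈ sp (q : R) := by
  obtain ⟨a, b, hab⟩ := (hQ.mem α).1 α.2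
  have h1 : α = (a : R) + (b : R) * om hQ := by
    apply Subtype.ext
    push_cast
    exact hab
  refine ⟨((a : ZMod q), (b : ZMod q)), ?_⟩
  rw [h1, gg_cls]
  exact ⟨rfl, rfl⟩

lemma gg_inj (hQ : QR R ω) {p p' : ZMod q × ZMod q} (h : gg hQ p - gg hQ p' ∈ sp (q : R)) :
    p = p' := by
  have h1 : gg hQ p = (((p.1.val : ℤ)) : R) + (((p.2.val : ℤ)) : R) * om hQ := by
    unfold gg
    push_cast
    ring
  rw [h1, gg_cls] at h
  push_cast at h
  rw [ZMod.natCast_zmod_val, ZMod.natCast_zmod_val] at h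
  exact Prod.ext h.1 h.2

lemma ez_gg (hQ : QR R ω) (p : ZMod q × ZMod q) :
    ez ω ((gg hQ p : ℂ) / (q : ℂ)) = ZMod.stdAddChar p.2 := by
  have h1 : p.2 = (((p.2.val : ℤ)) : ZMod q) := by
    push_cast
    rw [ZMod.natCast_zmod_val]
  conv_rhs => rw [h1]
  rw [ZMod.stdAddChar_coe]
  unfold ez
  congr 1
  have h2 : (((gg hQ p : ℂ) / (q : ℂ)).im / ω.im : ℝ) = (p.2.val : ℝ) / q := by
    have h3 : (gg hQ p : ℂ) = (p.1.val : ℂ) + (p.2.val : ℂ) * ω := by
      unfold gg om
      push_cast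
      rfl
    have h4 : (gg hQ p : ℂ) / (q : ℂ) = (((p.1.val : ℝ) / (q : ℝ) : ℝ) : ℂ) +
        (((p.2.val : ℝ) / (q : ℝ) : ℝ) : ℂ) * ω := by
      rw [h3]
      push_cast
      ring
    rw [h4, Complex.add_im, Complex.ofReal_im, Complex.im_ofReal_mul, zero_add]
    have := hQ.im.ne'
    field_simp
  rw [h2]
  push_cast
  ring

/-- the Gauss sum of a character modulo `q` trivial on the integers -/
lemma gauss_q (hQ : QR R ω) (hq : q.Prime) (C : R → ℂ)
    (hmul : ∀ α β, C (α * β) = C α * C β)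
    (hper : ∀ α β, α - β ∈ sp (q : R) → C α = C β)
    (hint : ∀ m : ℕ, Nat.Coprime m q → C m = 1) (hz : C 0 = 0)
    (α0 : R) (h1 : C α0 ≠ 1) (h2 : IsCoprime (sp α0) (sp (q : R))) :
    ∑ p : ZMod q × ZMod q, C (gg hQ p) * ez ω ((gg hQ p : ℂ) / (q : ℂ)) = q := by
  have : Fact q.Prime := ⟨hq⟩
  -- total sum
  have htot : ∑ p : ZMod q × ZMod q, C (gg hQ p) = 0 := by
    have hex : ∀ p : ZMod q × ZMod q, ∃ p', α0 * gg hQ p - gg hQ p' ∈ sp (q : R) :=
      fun p => gg_ex hQ _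
    choose σ hσ using hex
    have hinj : Function.Injective σ := by
      intro p p' he
      apply gg_inj hQ
      have h3 : α0 * (gg hQ p - gg hQ p') ∈ sp (q : R) := by
        have h4 := (sp (q : R)).sub_mem (hσ p) (hσ p')
        rw [he] at h4
        have h5 : α0 * (gg hQ p - gg hQ p') =
          (α0 * gg hQ p - gg hQ (σ p')) - (α0 * gg hQ p' - gg hQ (σ p')) := by ring
        rw [h5]
        exact h4
      obtain ⟨i, hi, j, hj, hij⟩ := Ideal.isCoprime_iff_exists.1 h2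
      obtain ⟨s, rfl⟩ := Ideal.mem_span_singleton'.1 hi
      have h6 : gg hQ p - gg hQ p' = s * (α0 * (gg hQ p - gg hQ p')) + (gg hQ p - gg hQ p') * j := by
        linear_combination -(gg hQ p - gg hQ p') * hij
      rw [h6]
      exact (sp (q : R)).add_mem ((sp (q : R)).mul_mem_left _ h3) ((sp (q : R)).mul_mem_left _ hj)
    have hbij : Function.Bijective σ := Finite.injective_iff_bijective.1 hinj
    have h3 : C α0 * ∑ p : ZMod q × ZMod q, C (gg hQ p) = ∑ p : ZMod q × ZMod q, C (gg hQ p) := by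
      rw [Finset.mul_sum]
      calc ∑ p : ZMod q × ZMod q, C α0 * C (gg hQ p)
          = ∑ p : ZMod q × ZMod q, C (gg hQ (σ p)) := by
            refine Finset.sum_congr rfl fun p _ => ?_
            rw [← hmul]
            exact hper _ _ (hσ p)
        _ = ∑ p : ZMod q × ZMod q, C (gg hQ p) :=
            Function.Bijective.sum_comp hbij (fun p => C (gg hQ p))
    have h4 : (C α0 - 1) * ∑ p : ZMod q × ZMod q, C (gg hQ p) = 0 := by
      linear_combination h3
    exact (mul_eq_zero.1 h4).resolve_left (sub_ne_zero.2 h1)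
  -- the inner sums
  set S : ZMod q → ℂ := fun y => ∑ u : ZMod q, C (gg hQ (u, y)) with hS
  have hscale : ∀ y : ZMod q, y ≠ 0 → S y = S 1 := by
    intro y hy
    have hb : Function.Bijective (fun u : ZMod q => y * u) := by
      apply Finite.injective_iff_bijective.1
      exact mul_right_injective₀ hy
    have h3 : S y = ∑ u : ZMod q, C (gg hQ (y * u, y)) :=
      (Function.Bijective.sum_comp hb (fun u => C (gg hQ (u, y)))).symm
    rw [h3]
    refine Finset.sum_congr rfl fun u _ => ?_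
    have h4 : C (gg hQ (y * u, y)) = C ((y.val : R) * gg hQ (u, (1 : ZMod q))) := by
      symm
      apply hper
      have h5 : (y.val : R) * gg hQ (u, (1 : ZMod q)) =
        (((y.val : ℤ) * (u.val : ℤ) : ℤ) : R) + (((y.val : ℤ) * ((1 : ZMod q).val : ℤ) : ℤ) : R) *
          om hQ := by
        unfold gg
        push_cast
        ring
      rw [h5, gg_cls]
      push_cast
      simp only [ZMod.natCast_zmod_val, mul_one, and_self]
    rw [h4, hmul, hint, one_mul]
    have h6 : y.val ≠ 0 := by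
      rwa [Ne, ZMod.val_eq_zero]
    exact (Nat.coprime_of_lt_prime h6 (ZMod.val_lt y) hq).symm
  have hS0 : S 0 = (q : ℂ) - 1 := by
    have h3 : ∀ u : ZMod q, C (gg hQ (u, (0 : ZMod q))) = if u = 0 then 0 else 1 := by
      intro u
      have h4 : gg hQ (u, (0 : ZMod q)) = (u.val : R) := by
        unfold gg
        simp
      rw [h4]
      split_ifs with hu
      · subst hu
        simpa using hz
      · apply hint
        have h6 : u.val ≠ 0 := by
          rwa [Ne, ZMod.val_eq_zero]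
        exact (Nat.coprime_of_lt_prime h6 (ZMod.val_lt u) hq).symm
    rw [hS]
    simp only [h3]
    rw [Finset.sum_ite, Finset.sum_const_zero, zero_add, Finset.sum_const, nsmul_eq_mul, mul_one,
      Finset.filter_ne', Finset.card_erase_of_mem (Finset.mem_univ _), Finset.card_univ, ZMod.card,
      Nat.cast_sub hq.one_le, Nat.cast_one]
  have hsum : ∑ y : ZMod q, S y = 0 := by
    rw [← htot, Fintype.sum_prod_type_right]
  have hsplit : ∀ G : ZMod q → ℂ, ∑ y : ZMod q, G y * S y =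
      G 0 * S 0 + (∑ y : ZMod q, G y - G 0) * S 1 := by
    intro G
    have h3 : ∀ y : ZMod q, G y * S y = G y * S 1 + (if y = 0 then G 0 * (S 0 - S 1) else 0) := by
      intro y
      split_ifs with hy
      · subst hy
        ring
      · rw [hscale y hy, add_zero]
    rw [Finset.sum_congr rfl (fun y _ => h3 y), Finset.sum_add_distrib, ← Finset.sum_mul,
      Finset.sum_ite_eq' Finset.univ (0 : ZMod q)]
    simp only [Finset.mem_univ, if_true]
    ring
  have hq1 : ((q : ℂ) - 1) ≠ 0 := by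
    have : (q : ℂ) ≠ 1 := by exact_mod_cast hq.one_lt.ne'
    exact sub_ne_zero.2 this
  have hS1 : S 1 = -1 := by
    have h3 := hsplit (fun _ => 1)
    simp only [one_mul, Finset.sum_const, Finset.card_univ, ZMod.card, nsmul_eq_mul, mul_one] at h3
    rw [hsum, hS0] at h3
    have h4 : ((q : ℂ) - 1) * (S 1 + 1) = 0 := by linear_combination -h3
    have h5 := (mul_eq_zero.1 h4).resolve_left hq1
    linear_combination h5
  have hstd : ∑ y : ZMod q, (ZMod.stdAddChar y : ℂ) = 0 := by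
    have h3 := ZMod.isPrimitive_stdAddChar q (one_ne_zero : (1 : ZMod q) ≠ 0)
    rw [AddChar.mulShift_one] at h3
    exact AddChar.sum_eq_zero_of_ne_one h3
  have hfin := hsplit (fun y => (ZMod.stdAddChar y : ℂ))
  rw [hstd, hS0, hS1, AddChar.map_zero_eq_one] at hfin
  calc ∑ p : ZMod q × ZMod q, C (gg hQ p) * ez ω ((gg hQ p : ℂ) / (q : ℂ))
      = ∑ p : ZMod q × ZMod q, C (gg hQ p) * (ZMod.stdAddChar p.2 : ℂ) := by
        refine Finset.sum_congr rfl fun p _ => ?_
        rw [ez_gg]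
    _ = ∑ y : ZMod q, (ZMod.stdAddChar y : ℂ) * S y := by
        rw [Fintype.sum_prod_type_right]
        refine Finset.sum_congr rfl fun y _ => ?_
        rw [hS, Finset.mul_sum]
        refine Finset.sum_congr rfl fun u _ => ?_
        ring
    _ = q := by
        rw [hfin]
        ring

/-! ### representatives modulo `f q` -/

/-- the representatives modulo `f q` -/
def mm (hQ : QR R ω) {q : ℕ} (φ : R) (v : R × (ZMod q × ZMod q)) : R :=
  (q : R) * v.1 + φ * gg hQ v.2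

omit [NeZero q] in
lemma mem_of_cop {f : Ideal R} {φ a b : R} (hφf : φ ∈ f) (hab : a * φ + b * (q : R) = 1) {x : R}
    (hx : (q : R) * x ∈ f) : x ∈ f := by
  have h : x = (a * x) * φ + b * ((q : R) * x) := by linear_combination -x * hab
  rw [h]
  exact f.add_mem (f.mul_mem_left _ hφf) (f.mul_mem_left _ hx)

omit [NeZero q] in
lemma mem_of_cop' {φ a b : R} (hab : a * φ + b * (q : R) = 1) {x : R}
    (hx : φ * x ∈ sp (q : R)) : x ∈ sp (q : R) := by
  have h : x = a * (φ * x) + (b * x) * (q : R) := by linear_combination -x * hab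
  rw [h]
  exact (sp (q : R)).add_mem ((sp (q : R)).mul_mem_left _ hx)
    ((sp (q : R)).mul_mem_left _ (Ideal.mem_span_singleton_self _))

lemma mm_inj (hQ : QR R ω) {f : Ideal R} {φ a b : R} (hφf : φ ∈ f)
    (hab : a * φ + b * (q : R) = 1) {T1 : Finset R} (hT1 : ∀ α : R, ∃! x, x ∈ T1 ∧ α - x ∈ f)
    (v v' : R × (ZMod q × ZMod q)) (hv : v.1 ∈ T1) (hv' : v'.1 ∈ T1)
    (h : mm hQ φ v - mm hQ φ v' ∈ f * sp (q : R)) : v = v' := by
  have h9 : mm hQ φ v - mm hQ φ v' = (q : R) * (v.1 - v'.1) + φ * (gg hQ v.2 - gg hQ v'.2) := by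
    unfold mm; ring
  have h10 : v.1 = v'.1 := by
    have h11 : v.1 - v'.1 ∈ f := by
      apply mem_of_cop hφf hab
      have h12 : (q : R) * (v.1 - v'.1) =
        (mm hQ φ v - mm hQ φ v') - φ * (gg hQ v.2 - gg hQ v'.2) := by rw [h9]; ring
      rw [h12]
      have e0 : f * sp (q : R) ≤ f := Ideal.mul_le_left
      have e1 : mm hQ φ v - mm hQ φ v' ∈ f := e0 h
      have e2 : φ * (gg hQ v.2 - gg hQ v'.2) ∈ f := by
        rw [mul_comm]
        exact Ideal.mul_mem_left f _ hφf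
      exact Submodule.sub_mem f e1 e2
    obtain ⟨x, -, hx⟩ := hT1 v.1
    have e1 : v.1 = x := hx v.1 ⟨hv, by rw [sub_self]; exact f.zero_mem⟩
    have e2 : v'.1 = x := hx v'.1 ⟨hv', h11⟩
    exact e1.trans e2.symm
  have h11 : v.2 = v'.2 := by
    apply gg_inj hQ
    apply mem_of_cop' hab
    have h12 : φ * (gg hQ v.2 - gg hQ v'.2) =
      (mm hQ φ v - mm hQ φ v') - (q : R) * (v.1 - v'.1) := by rw [h9]; ring
    rw [h12]
    have e0 : f * sp (q : R) ≤ sp (q : R) := Ideal.mul_le_right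
    have e1 : mm hQ φ v - mm hQ φ v' ∈ sp (q : R) := e0 h
    have e2 : (q : R) * (v.1 - v'.1) ∈ sp (q : R) := by
      rw [mul_comm]
      exact Ideal.mul_mem_left _ _ (Ideal.mem_span_singleton_self _)
    exact Submodule.sub_mem _ e1 e2
  exact Prod.ext h10 h11

open Classical in
lemma rp_mm (hQ : QR R ω) {f : Ideal R} {φ a b : R} (hφf : φ ∈ f)
    (hab : a * φ + b * (q : R) = 1) {T1 : Finset R} (hT1 : ∀ α : R, ∃! x, x ∈ T1 ∧ α - x ∈ f) :
    Rp (f * sp (q : R)) ⊤
      ((T1 ×ˢ (Finset.univ : Finset (ZMod q × ZMod q))).image (mm hQ φ)) := by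
  refine ⟨fun _ _ => trivial, ?_⟩
  intro α
  obtain ⟨x, ⟨hx1, hx2⟩, -⟩ := hT1 (α * b)
  obtain ⟨p, hp⟩ := gg_ex (q := q) hQ (α * a)
  have h1 : α - mm hQ φ (x, p) ∈ f * sp (q : R) := by
    have h2 : α - mm hQ φ (x, p) = (α * b - x) * (q : R) + φ * (α * a - gg hQ p) := by
      unfold mm
      linear_combination -α * hab
    rw [h2]
    exact (f * sp (q : R)).add_mem (Ideal.mul_mem_mul hx2 (Ideal.mem_span_singleton_self _))
      (Ideal.mul_mem_mul hφf hp)
  refine ⟨mm hQ φ (x, p), ⟨Finset.mem_image.2 ⟨(x, p), by simp [hx1], rfl⟩, h1⟩, ?_⟩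
  rintro y ⟨hy1, hy2⟩
  obtain ⟨v, hv, rfl⟩ := Finset.mem_image.1 hy1
  rw [Finset.mem_product] at hv
  congr 1
  apply mm_inj hQ hφf hab hT1 v (x, p) hv.1 hx1
  have h2 : mm hQ φ v - mm hQ φ (x, p) = (α - mm hQ φ (x, p)) - (α - mm hQ φ v) := by ring
  rw [h2]
  exact (f * sp (q : R)).sub_mem h1 hy2

lemma ez_mm (hQ : QR R ω) {φ : R} (hφ : (φ : ℂ) ≠ 0) (v : R × (ZMod q × ZMod q)) :
    ez ω ((mm hQ φ v : ℂ) / ((φ * (q : R) : R) : ℂ)) =
      ez ω ((v.1 : ℂ) / (φ : ℂ)) * ez ω ((gg hQ v.2 : ℂ) / (q : ℂ)) := by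
  rw [← ez_add]
  congr 1
  have hqc : (q : ℂ) ≠ 0 := by exact_mod_cast NeZero.ne q
  unfold mm
  simp only [Subring.coe_add, Subring.coe_mul, Subring.coe_natCast]
  field_simp

end Wcc

open Wcc in
theorem a_wc (h1 : H_BASIC) (h2 : H_CLS) (h3 : H_FP) (h7 : H_PW) (h8 : A_BAR) : A_WC := by
  classical
  intro R ω hQ f ψ hψ hcs q hq hcop χ hχ hrg d hd
  have : Fact q.Prime := ⟨hq⟩
  have : IsDedekindDomain R := hQ.qr.ded
  have hqt : sp (q : R) ≠ ⊤ := q_ne_top h1 hQ.qr hq
  have hf0 : f ≠ ⊥ := hψ.ne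
  have hq0 : sp (q : R) ≠ ⊥ := hχ.ne
  obtain ⟨φ, hφ⟩ : ∃ φ : R, f = sp φ := (hQ.pid.principal f).principal
  obtain ⟨_, -, -, hcls⟩ := h2 R ω hQ.qr
  obtain ⟨_, _, _, T1, -, hS1⟩ := hcls f hf0
  have hT1 := hS1.rp.uni
  -- coprimality
  have hφf : φ ∈ f := by rw [hφ]; exact Ideal.mem_span_singleton_self φ
  obtain ⟨a0, b0, hab⟩ : ∃ a b : R, a * φ + b * (q : R) = 1 := by
    obtain ⟨i, hi, j, hj, hij⟩ := Ideal.isCoprime_iff_exists.1 hcop
    rw [hφ] at hi
    obtain ⟨s, rfl⟩ := Ideal.mem_span_singleton'.1 hi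
    obtain ⟨t, rfl⟩ := Ideal.mem_span_singleton'.1 hj
    exact ⟨s, t, hij⟩
  have hqq : (q : R) ∈ sp (q : R) := Ideal.mem_span_singleton_self _
  have hφ0 : φ ≠ 0 := by
    rintro rfl
    apply hf0
    rw [hφ]
    simp
  have hφc : (φ : ℂ) ≠ 0 := fun h => hφ0 (Subtype.ext h)
  have hqc : (q : ℂ) ≠ 0 := by exact_mod_cast hq.ne_zero
  have hR0 : (⊤ : Ideal R) ≠ ⊥ := top_ne_bot
  set T : Finset R := (T1 ×ˢ (Finset.univ : Finset (ZMod q × ZMod q))).image (mm hQ.qr φ) with hT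
  have hsys : Sys (f * sp (q : R)) {⊤} ⊤ (φ * (q : R)) T := by
    refine ⟨⟨?_, ?_⟩, ?_, ?_, hR0, ?_, ?_, rp_mm hQ.qr hφf hab hT1⟩
    · intro b hb
      rw [Finset.mem_singleton.1 hb]
      exact hR0
    · intro I _
      refine ⟨⊤, ⟨Finset.mem_singleton_self _, ?_⟩, fun b hb => Finset.mem_singleton.1 hb.1⟩
      rw [Ideal.mul_top]
      exact (hQ.pid.principal I).principal
    · intro b hb
      rw [Finset.mem_singleton.1 hb, ← Ideal.one_eq_top]
      exact isCoprime_one_left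
    · intro b hb
      rw [Finset.mem_singleton.1 hb]
    · rw [← Ideal.one_eq_top]
      exact isCoprime_one_left
    · rw [Ideal.mul_top, hφ, Ideal.span_singleton_mul_span_singleton]
  refine ⟨{⊤}, ⊤, φ * (q : R), T, hsys, ?_⟩
  -- the finite parts
  obtain ⟨-, -, -, -, fper⟩ := h3 R ω hQ.qr 1 f ψ hψ (ne_top hψ)
  -- the sum
  have key : ∀ a : ℕ, Nat.Coprime a d →
      gT ω 1 (fun I => ψ I * pw χ a I) (φ * (q : R)) T =
        (∑ x ∈ T1, fp 1 ψ ((q : R) * x) * ez ω ((x : ℂ) / (φ : ℂ))) * pw χ a f * q := by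
    intro a ha
    have hPa := h7 R ω hQ.qr (sp (q : R)) χ hχ d hd a ha
    obtain ⟨-, cmul, -, -, cper⟩ := h3 R ω hQ.qr 0 (sp (q : R)) (pw χ a) hPa hqt
    have hC0 : ∀ α : R, fp 0 (pw χ a) α = pw χ a (sp α) := by
      intro α
      unfold fp
      rw [pow_zero, div_one]
    obtain ⟨α0, -, -, hα2, hα3⟩ := hPa.prim ⊤ (lt_top_iff_ne_top.2 hqt)
    have hG := gauss_q hQ.qr hq (fp 0 (pw χ a)) cmul cper
      (by
        intro m hm
        rw [hC0]
        unfold pw
        rw [hrg.int m hm, if_neg one_ne_zero, one_pow])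
      (by
        rw [hC0]
        unfold pw
        rw [if_pos]
        rw [hχ.zero]
        left
        simp)
      α0 (by rw [hC0]; simpa using hα3) hα2
    unfold gT
    rw [hT, Finset.sum_image]
    · rw [Finset.sum_product]
      have e1 : ∀ x ∈ T1, ∀ p : ZMod q × ZMod q,
          fp 1 (fun I => ψ I * pw χ a I) (mm hQ.qr φ (x, p)) *
            ez ω ((mm hQ.qr φ (x, p) : ℂ) / ((φ * (q : R) : R) : ℂ)) =
          (fp 1 ψ ((q : R) * x) * ez ω ((x : ℂ) / (φ : ℂ))) * pw χ a f *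
            (fp 0 (pw χ a) (gg hQ.qr p) * ez ω ((gg hQ.qr p : ℂ) / (q : ℂ))) := by
        intro x _ p
        rw [ez_mm hQ.qr hφc]
        have e2 : fp 1 (fun I => ψ I * pw χ a I) (mm hQ.qr φ (x, p)) =
            fp 1 ψ (mm hQ.qr φ (x, p)) * fp 0 (pw χ a) (mm hQ.qr φ (x, p)) := by
          unfold fp
          rw [pow_zero, div_one]
          ring
        have e3 : fp 1 ψ (mm hQ.qr φ (x, p)) = fp 1 ψ ((q : R) * x) := by
          apply fper
          have : mm hQ.qr φ (x, p) - (q : R) * x = φ * gg hQ.qr p := by unfold mm; ring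
          rw [this]
          exact f.mul_mem_right _ hφf
        have e4 : fp 0 (pw χ a) (mm hQ.qr φ (x, p)) = pw χ a f * fp 0 (pw χ a) (gg hQ.qr p) := by
          rw [show pw χ a f = fp 0 (pw χ a) φ by rw [hC0, hφ], ← cmul]
          apply cper
          have : mm hQ.qr φ (x, p) - φ * gg hQ.qr p = (q : R) * x := by unfold mm; ring
          rw [this]
          exact (sp (q : R)).mul_mem_right _ hqq
        rw [e2, e3, e4]
        ring
      rw [Finset.sum_congr rfl (fun x hx => Finset.sum_congr rfl (fun p _ => e1 x hx p))]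
      simp only [← Finset.mul_sum]
      rw [hG, ← Finset.sum_mul, ← Finset.sum_mul]
    · intro v hv v' hv' he
      rw [Finset.mem_coe, Finset.mem_product] at hv hv'
      apply mm_inj hQ.qr hφf hab hT1 v v' hv.1 hv'.1
      rw [he, sub_self]
      exact (f * sp (q : R)).zero_mem
  -- the value at `f`
  have hχf : χ f ≠ 0 := by
    intro h
    rcases (hχ.zero f).1 h with h | h
    · exact hf0 h
    · exact h hcop
  have hsq : χ f * χ f = 1 := by
    obtain ⟨-, -, -, -, -, -, -, -, b9, -⟩ := h8 R ω hQ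
    have e1 := b9 f hf0
    rw [bar_eq h8 h3 hQ hψ hcs] at e1
    rw [← hχ.mul, e1]
    apply hrg.int
    refine nat_cop hq ?_ hqt
    rw [← e1]
    exact hcop.mul_left hcop
  have hpf : ∀ a : ℕ, Nat.Coprime a d → pw χ a f = χ f := by
    intro a ha
    unfold pw
    rw [if_neg hχf]
    have e1 : (χ f - 1) * (χ f + 1) = 0 := by linear_combination hsq
    rcases mul_eq_zero.1 e1 with e2 | e2
    · have e3 : χ f = 1 := by linear_combination e2
      rw [e3, one_pow]
    · have e3 : χ f = -1 := by linear_combination e2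
      rw [e3]
      have e4 := hd.pow f hχf
      rw [e3] at e4
      have e5 : Even d := by
        rcases Nat.even_or_odd d with h | h
        · exact h
        · rw [h.neg_one_pow] at e4
          norm_num at e4
      have e6 : Odd a := by
        rw [← Nat.not_even_iff_odd]
        intro h
        have h2' : (2 : ℕ) ∣ Nat.gcd a d := Nat.dvd_gcd h.two_dvd e5.two_dvd
        rw [ha] at h2'
        norm_num at h2'
      exact e6.neg_one_pow
  have hone : ∀ a : ℕ, pw χ a ⊤ = 1 := by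
    intro a
    unfold pw
    rw [hc_top hχ, if_neg one_ne_zero, one_pow]
  have hp1 : (fun I => ψ I * χ I) = (fun I => ψ I * pw χ 1 I) := by
    funext I
    unfold pw
    split_ifs with h
    · rw [h]
    · rw [pow_one]
  have hval : ∀ a : ℕ, Nat.Coprime a d →
      Wc ω 1 (f * sp (q : R)) ⊤ (φ * (q : R)) T (fun I => ψ I * pw χ a I) =
      (∑ x ∈ T1, fp 1 ψ ((q : R) * x) * ez ω ((x : ℂ) / (φ : ℂ))) * χ f * q *
        ((φ * (q : R) : R) : ℂ) ^ (2 * 1 - 1) / ((nm (f * sp (q : R)) : ℂ) ^ 1 * ψ ⊤) := by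
    intro a ha
    unfold Wc
    rw [show 2 * 1 - 1 = 1 from rfl, key a ha, hpf a ha]
    simp only [hone a, mul_one]
  intro a ha
  rw [hp1, hval a ha, hval 1 (Nat.coprime_one_left d)]

end Pool.Agent.TH936.AC
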